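import Pool.Agent.Run7.h725.C8Main

/-! The zeros of the form `H` on the sphere. -/

set_option autoImplicit false

open Topology Filter Metric Set Polynomial MeasureTheory Asymptotics
open scoped OnePoint

namespace Run7.h725

open Run7.h904.RF
open Pool.Agent.H790R3.RB (CV hF cr ND wr rt sp pr hc pol Sink Attd HypTop hF_smul hF_contDiff)
open Pool.Agent.H790R3.RB.PQ (hF_one hF_inf pol_natDegree)
open Pool.Agent.R239.Fat (mkv pol_mkv)

/-- the order of the zero at `a` of the form of degree `m` given by the polynomial `H` -/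
noncomputable def ordH (m : ℕ) (H : ℂ[X]) (a : OnePoint ℂ) : ℕ :=
  match a with
  | none => m - H.natDegree
  | some z => H.rootMultiplicity z

lemma ordH_inf (m : ℕ) (H : ℂ[X]) : ordH m H ∞ = m - H.natDegree := rfl

lemma ordH_coe (m : ℕ) (H : ℂ[X]) (z : ℂ) : ordH m H (z : OnePoint ℂ) = H.rootMultiplicity z := rfl

/-- the multiset of the zeros -/
noncomputable def zs (m : ℕ) (H : ℂ[X]) : Multiset (OnePoint ℂ) :=
  H.roots.map (fun z : ℂ => (z : OnePoint ℂ)) + Multiset.replicate (m - H.natDegree) ∞

lemma zs_card {m : ℕ} {H : ℂ[X]} (hm : H.natDegree ≤ m) : Multiset.card (zs m H) = m := by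
  unfold zs
  rw [Multiset.card_add, Multiset.card_map, Multiset.card_replicate]
  have h1 : Multiset.card H.roots = H.natDegree :=
    (splits_iff_card_roots.1 (IsAlgClosed.splits H))
  omega

lemma zs_count {m : ℕ} {H : ℂ[X]} (a : OnePoint ℂ) : open Classical in
    (zs m H).count a = ordH m H a := by
  classical
  unfold zs
  rw [Multiset.count_add]
  induction a using OnePoint.rec with
  | infty =>
    rw [ordH_inf, Multiset.count_replicate_self]
    have h1 : Multiset.count (∞ : OnePoint ℂ) (H.roots.map (fun z : ℂ => (z : OnePoint ℂ))) = 0 := by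
      rw [Multiset.count_eq_zero]
      intro hmem
      obtain ⟨z, -, hz⟩ := Multiset.mem_map.1 hmem
      exact OnePoint.coe_ne_infty z hz
    omega
  | coe z =>
    rw [ordH_coe, Multiset.count_map_eq_count' _ _ OnePoint.coe_injective, count_roots,
      Multiset.count_replicate, if_neg (OnePoint.infty_ne_coe z), add_zero]

/-- enumeration of the zeros -/
lemma exists_enum (m : ℕ) (M : Multiset (OnePoint ℂ)) (hM : Multiset.card M = m) :
    ∃ s : Fin m → OnePoint ℂ, (Finset.univ : Finset (Fin m)).val.map s = M := by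
  obtain ⟨l, rfl⟩ := Quot.exists_rep M
  have hl : l.length = m := hM
  subst hl
  refine ⟨l.get, ?_⟩
  rw [Fin.univ_val_map, List.ofFn_get]
  rfl

lemma enum_inj {m : ℕ} {M : Multiset (OnePoint ℂ)} {s : Fin m → OnePoint ℂ}
    (hs : (Finset.univ : Finset (Fin m)).val.map s = M) {i j : Fin m} (hij : s i = s j)
    (hc : open Classical in M.count (s i) ≤ 1) : i = j := by
  classical
  by_contra hne
  have h1 : M.count (s i) = (Finset.univ.filter fun k => s i = s k).card := by
    rw [← hs, Multiset.count_map]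
    rfl
  have h2 : ({i, j} : Finset (Fin m)) ⊆ Finset.univ.filter fun k => s i = s k := by
    intro k hk
    rw [Finset.mem_insert, Finset.mem_singleton] at hk
    rw [Finset.mem_filter]
    rcases hk with rfl | rfl
    · exact ⟨Finset.mem_univ _, rfl⟩
    · exact ⟨Finset.mem_univ _, hij⟩
  have h3 := Finset.card_le_card h2
  rw [Finset.card_pair hne] at h3
  have h4 : M.count (s i) ≤ 1 := by convert hc
  omega

/-- the form of the degenerate map -/
lemma hF_mkv {d m : ℕ} {P Q H : ℂ[X]} (hH : H ≠ 0) (hm : H.natDegree ≤ m) (y : CV d)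
    (hP : pol y 0 = P) (hQ : pol y 1 = Q) {s : Fin m → OnePoint ℂ}
    (hs : (Finset.univ : Finset (Fin m)).val.map s = zs m H) (p : ℂ × ℂ) :
    hF (mkv (m + d) (H * P) (H * Q)) p =
      (((-1) ^ (m - H.natDegree) * H.leadingCoeff) *
        ∏ j, ((hc (s j)).2 * p.1 - (hc (s j)).1 * p.2)) • hF y p := by
  have hdP : P.natDegree ≤ d := by rw [← hP]; exact pol_natDegree y 0
  have hdQ : Q.natDegree ≤ d := by rw [← hQ]; exact pol_natDegree y 1
  obtain ⟨h0, h1⟩ : pol (mkv (m + d) (H * P) (H * Q)) 0 = H * P ∧
      pol (mkv (m + d) (H * P) (H * Q)) 1 = H * Q := by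
    refine pol_mkv ?_ ?_
    · exact natDegree_mul_le.trans (by omega)
    · exact natDegree_mul_le.trans (by omega)
  obtain ⟨k, hk⟩ : ∃ k, k = m - H.natDegree := ⟨_, rfl⟩
  -- the product
  have hprod : ∀ u v : ℂ, ∏ j, ((hc (s j)).2 * u - (hc (s j)).1 * v) =
      (H.roots.map fun z => u - z * v).prod * (-v) ^ k := by
    intro u v
    have e1 : ∏ j, ((hc (s j)).2 * u - (hc (s j)).1 * v) =
        ((Finset.univ.val.map s).map fun a => (hc a).2 * u - (hc a).1 * v).prod := by
      rw [Multiset.map_map]
      rfl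
    rw [e1, hs]
    unfold zs
    rw [Multiset.map_add, Multiset.prod_add, Multiset.map_map, Multiset.map_replicate,
      Multiset.prod_replicate, ← hk]
    congr 2
    · apply Multiset.map_congr rfl
      intro z _
      show (1 : ℂ) * u - z * v = u - z * v
      rw [one_mul]
    · show (0 : ℂ) * u - 1 * v = -v
      ring
  rw [hprod]
  have hev : ∀ z : ℂ, H.eval z = H.leadingCoeff * (H.roots.map fun w => z - w).prod := by
    intro z
    conv_lhs => rw [(IsAlgClosed.splits H).eq_prod_roots]
    rw [eval_mul, eval_C, eval_multiset_prod, Multiset.map_map]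
    congr 2
    apply Multiset.map_congr rfl
    intro w _
    simp
  have hcard : Multiset.card H.roots = H.natDegree :=
    (splits_iff_card_roots.1 (IsAlgClosed.splits H))
  by_cases hp : p.2 = 0
  · have e : p = p.1 • ((1, 0) : ℂ × ℂ) := by
      ext
      · simp
      · simp [hp]
    have hcoef : ∀ R : ℂ[X], R.natDegree ≤ d → (H * R).coeff (m + d) = H.coeff m * R.coeff d :=
      fun R hR => coeff_mul_add_eq_of_natDegree_le hm hR
    have h2 : hF (mkv (m + d) (H * P) (H * Q)) (1, 0) = H.coeff m • hF y (1, 0) := by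
      rw [hF_inf, hF_inf, h0, h1, hP, hQ, hcoef P hdP, hcoef Q hdQ]
      rfl
    have h3 : (H.roots.map fun z => p.1 - z * p.2).prod = p.1 ^ H.natDegree := by
      rw [hp]
      simp only [mul_zero, sub_zero]
      rw [Multiset.map_const', Multiset.prod_replicate, hcard]
    rw [h3, hp]
    conv_lhs => rw [e, hF_smul, h2]
    conv_rhs => rw [e, hF_smul]
    simp only [Prod.smul_fst, smul_eq_mul, mul_one]
    rw [smul_smul, smul_smul]
    congr 1
    rcases Nat.eq_zero_or_pos k with hk0 | hk0
    · have hmd : H.natDegree = m := by omega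
      rw [← hk, hk0, pow_zero, pow_zero, one_mul, mul_one, leadingCoeff, hmd, pow_add]
      ring
    · have h4 : H.coeff m = 0 := coeff_eq_zero_of_natDegree_lt (by omega)
      have h5 : (-0 : ℂ) ^ k = 0 := by rw [neg_zero]; exact zero_pow (by omega)
      rw [h4, h5]
      ring
  · obtain ⟨z, hz⟩ : ∃ z, z = p.1 / p.2 := ⟨_, rfl⟩
    have hz' : p.1 = p.2 * z := by rw [hz, mul_div_cancel₀ _ hp]
    have e : p = p.2 • ((z, 1) : ℂ × ℂ) := by
      ext
      · simp [hz']
      · simp
    have h2 : hF (mkv (m + d) (H * P) (H * Q)) (z, 1) = H.eval z • hF y (z, 1) := by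
      rw [hF_one, hF_one, h0, h1, hP, hQ, eval_mul, eval_mul]
      rfl
    have h3 : (H.roots.map fun w => p.1 - w * p.2).prod =
        p.2 ^ H.natDegree * (H.roots.map fun w => z - w).prod := by
      rw [← hcard]
      have h4 : (H.roots.map fun w => p.1 - w * p.2) = H.roots.map fun w => p.2 * (z - w) := by
        apply Multiset.map_congr rfl
        intro w _
        rw [hz']
        ring
      rw [h4, Multiset.prod_map_mul, Multiset.map_const', Multiset.prod_replicate]
    rw [h3]
    conv_lhs => rw [e, hF_smul, h2]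
    conv_rhs => rw [e, hF_smul]
    simp only [Prod.smul_snd, smul_eq_mul, mul_one]
    rw [smul_smul, smul_smul, hev, ← hk]
    congr 1
    have h4 : m = H.natDegree + k := by omega
    have h5 : (-1 : ℂ) ^ k * (-p.2) ^ k = p.2 ^ k := by
      rw [← mul_pow]; ring
    have h6 : p.2 ^ (m + d) = p.2 ^ H.natDegree * p.2 ^ k * p.2 ^ d := by
      rw [← pow_add, ← pow_add]
      congr 1
      omega
    rw [h6, ← h5]
    ring

end Run7.h725
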