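import Mathlib

/-! Covers of compact null sets by discs of small total area. -/

set_option autoImplicit false

open Topology Filter Metric Set MeasureTheory

namespace Run7.h725

/-- a compact null set is covered by finitely many discs with small sum of squared radii -/
theorem cover_null (J : Set ℂ) (hJ : IsCompact J) (h0 : volume J = 0) (ε : ℝ) (hε : 0 < ε) :
    ∃ (t : Finset (ℂ × ℝ)), (∀ p ∈ t, 0 < p.2) ∧ J ⊆ ⋃ p ∈ t, ball p.1 p.2 ∧
      ∑ p ∈ t, p.2 ^ 2 ≤ ε := by
  classical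
  -- an open set of small measure
  obtain ⟨W, hJW, hWo, hW⟩ : ∃ W, J ⊆ W ∧ IsOpen W ∧ volume W < ENNReal.ofReal (ε / 50) := by
    have h1 : volume J < ENNReal.ofReal (ε / 50) := by
      rw [h0]; exact ENNReal.ofReal_pos.2 (by positivity)
    obtain ⟨W, h2, h3, h4⟩ := J.exists_isOpen_lt_of_lt _ h1
    exact ⟨W, h2, h3, h4⟩
  -- discs in it
  have h1 : ∀ z ∈ J, ∃ r : ℝ, 0 < r ∧ r ≤ 1 ∧ closedBall z r ⊆ W := by
    intro z hz
    obtain ⟨r, hr, hr'⟩ := Metric.isOpen_iff.1 hWo z (hJW hz)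
    refine ⟨min (r / 2) 1, by positivity, min_le_right _ _, fun u hu => hr' ?_⟩
    rw [mem_closedBall] at hu
    rw [mem_ball]
    have := min_le_left (r / 2) 1
    linarith
  choose! r hr0 hr1 hrW using h1
  obtain ⟨s, hsJ, hs⟩ := hJ.elim_nhds_subcover (fun z => ball z (r z))
    (fun z hz => ball_mem_nhds z (hr0 z hz))
  -- disjoint subfamily
  obtain ⟨u, hus, hdis, hcov⟩ := Vitali.exists_disjoint_subfamily_covering_enlargement_closedBall
    (s : Set ℂ) (fun z => z) r 1 (fun z hz => hr1 z (hsJ z hz)) 4 (by norm_num)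
  have huf : u.Finite := s.finite_toSet.subset hus
  obtain ⟨t0, ht0⟩ : ∃ t0 : Finset ℂ, t0 = huf.toFinset := ⟨_, rfl⟩
  have hmem : ∀ z, z ∈ t0 ↔ z ∈ u := fun z => by rw [ht0]; exact huf.mem_toFinset
  have hpos : ∀ z ∈ t0, 0 < r z := fun z hz => hr0 z (hsJ z (hus ((hmem z).1 hz)))
  refine ⟨t0.image fun z => (z, 5 * r z), ?_, ?_, ?_⟩
  · intro p hp
    obtain ⟨z, hz, rfl⟩ := Finset.mem_image.1 hp
    have := hpos z hz
    simp only
    linarith
  · intro w hw
    obtain ⟨z, hz, hwz⟩ := mem_iUnion₂.1 (hs hw)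
    obtain ⟨b, hb, hzb⟩ := hcov z hz
    rw [mem_iUnion₂]
    refine ⟨(b, 5 * r b), Finset.mem_image.2 ⟨b, (hmem b).2 hb, rfl⟩, ?_⟩
    have h2 : w ∈ closedBall b (4 * r b) := hzb (ball_subset_closedBall hwz)
    have h3 := hpos b ((hmem b).2 hb)
    simp only [mem_ball]
    rw [mem_closedBall] at h2
    linarith
  · rw [Finset.sum_image (fun a _ b _ h => by
      simp only [Prod.mk.injEq] at h; exact h.1)]
    have h2 : ∑ z ∈ t0, volume (closedBall z (r z)) ≤ volume W := by
      rw [← measure_biUnion_finset]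
      · refine measure_mono (iUnion₂_subset fun z hz => ?_)
        exact hrW z (hsJ z (hus ((hmem z).1 hz)))
      · intro a ha b hb hab
        exact hdis ((hmem a).1 ha) ((hmem b).1 hb) hab
      · intro z _
        exact measurableSet_closedBall
    have h3 : ∀ z ∈ t0, volume (closedBall z (r z)) = ENNReal.ofReal (Real.pi * (r z) ^ 2) := by
      intro z hz
      rw [Complex.volume_closedBall, ← ENNReal.ofReal_pow (hpos z hz).le]
      have e : (NNReal.pi : ENNReal) = ENNReal.ofReal Real.pi := by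
        rw [← NNReal.coe_real_pi, ENNReal.ofReal_coe_nnreal]
      rw [e, mul_comm, ← ENNReal.ofReal_mul Real.pi_pos.le]
    rw [Finset.sum_congr rfl h3, ← ENNReal.ofReal_sum_of_nonneg
      (fun z _ => mul_nonneg Real.pi_pos.le (sq_nonneg _))] at h2
    have h4 := h2.trans hW.le
    rw [ENNReal.ofReal_le_ofReal_iff (by positivity), ← Finset.mul_sum] at h4
    have h5 : ∑ z ∈ t0, (5 * r z) ^ 2 = 25 * ∑ z ∈ t0, (r z) ^ 2 := by
      rw [Finset.mul_sum]
      exact Finset.sum_congr rfl fun z _ => by ring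
    simp only
    rw [h5]
    have h6 : 0 ≤ ∑ z ∈ t0, (r z) ^ 2 := Finset.sum_nonneg fun z _ => sq_nonneg _
    have h7 : (3 : ℝ) < Real.pi := Real.pi_gt_three
    nlinarith

end Run7.h725
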