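import Mathlib

/-! Orbits of a perturbed map whose perturbation has poles: shadowing and excluded parameters. -/

set_option autoImplicit false

open Topology Filter Metric Set MeasureTheory

namespace Run7.h725

/-- inverse branches along an orbit with controlled distortion -/
structure Brs (w : ℕ → ℂ) (f : ℂ → ℂ) (G : ℕ → ℂ → ℂ) (L : ℕ → ℝ) (r₁ M : ℝ) : Prop where
  r1 : 0 < r₁
  M1 : 1 ≤ M
  Lpos : ∀ k, 0 < L k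
  L0 : L 0 = 1
  low : ∀ k, 1 ≤ M * L k
  up1 : ∀ k, L (k + 1) ≤ M * L k
  dn1 : ∀ k, L k ≤ M * L (k + 1)
  sum : Summable fun k => (L k)⁻¹
  orb : ∀ k, f (w k) = w (k + 1)
  G0 : ∀ u ∈ closedBall (w 0) r₁, G 0 u = u
  Gw : ∀ k, G k (w k) = w 0
  inv : ∀ k, ∀ u ∈ closedBall (w k) r₁, f^[k] (G k u) = u
  lo : ∀ k, ∀ u ∈ closedBall (w k) r₁, ∀ u' ∈ closedBall (w k) r₁,
    ‖u - u'‖ ≤ 2 * L k * ‖G k u - G k u'‖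
  up : ∀ k, ∀ u ∈ closedBall (w k) r₁, ∀ u' ∈ closedBall (w k) r₁,
    L k * ‖G k u - G k u'‖ ≤ 2 * ‖u - u'‖
  surj : ∀ k, ∀ y ∈ ball (w 0) (r₁ / (4 * L k)), ∃ u ∈ closedBall (w k) r₁, G k u = y
  dbl : ∀ k, ∀ A ∈ closedBall (w k) r₁, ∀ B ∈ closedBall (w k) r₁, ∀ A' ∈ closedBall (w k) r₁,
    ∀ B' ∈ closedBall (w k) r₁, L k * ‖(G k B - G k A) - (G k B' - G k A')‖ ≤
      M * ‖(B - A) - (B' - A')‖ + M * ‖A - A'‖ * ‖B' - A'‖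

/-- the perturbation, with poles near `Hl` -/
structure Prt (w : ℕ → ℂ) (Hl : Finset ℂ) (f : ℂ → ℂ) (F : ℂ → ℂ → ℂ) (r₁ M κ : ℝ) : Prop where
  κ0 : 0 < κ
  p1 : ∀ k, ∀ z ∈ closedBall (w k) r₁, ∀ ρ : ℝ, 0 < ρ → ρ ≤ 1 → (∀ h ∈ Hl, ρ ≤ ‖z - h‖) →
    ∀ l : ℂ, ‖l‖ ≤ κ * ρ → ‖F l z - f z‖ ≤ M * ‖l‖ / ρ
  p2 : ∀ k, ∀ z ∈ closedBall (w k) r₁, ∀ z' ∈ closedBall (w k) r₁, ∀ ρ : ℝ, 0 < ρ → ρ ≤ 1 →
    (∀ h ∈ Hl, ρ ≤ ‖z - h‖) → (∀ h ∈ Hl, ρ ≤ ‖z' - h‖) →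
    ∀ l l' : ℂ, ‖l‖ ≤ κ * ρ → ‖l'‖ ≤ κ * ρ →
      ‖(F l z - f z) - (F l' z' - f z')‖ ≤ M * (‖l - l'‖ / ρ + ‖l'‖ * ‖z - z'‖ / ρ ^ 2)

section

variable {w : ℕ → ℂ} {f : ℂ → ℂ} {G : ℕ → ℂ → ℂ} {L : ℕ → ℝ} {r₁ M κ : ℝ} {Hl : Finset ℂ}
  {F : ℂ → ℂ → ℂ} {v : ℂ → ℂ} {c : ℝ}

/-- the perturbed orbit -/
def ZZ (F : ℂ → ℂ → ℂ) (v : ℂ → ℂ) (k : ℕ) (ξ : ℂ) : ℂ := (F (ξ ^ 2))^[k] (v ξ)

lemma ZZ_succ (k : ℕ) (ξ : ℂ) : ZZ F v (k + 1) ξ = F (ξ ^ 2) (ZZ F v k ξ) := by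
  unfold ZZ; rw [Function.iterate_succ_apply']

/-- the parameter `ξ` is allowed up to time `k` -/
def Al (F : ℂ → ℂ → ℂ) (v : ℂ → ℂ) (Hl : Finset ℂ) (ρ : ℕ → ℝ) (k : ℕ) (ξ : ℂ) : Prop :=
  ∀ i < k, ∀ h ∈ Hl, ρ i ≤ ‖ZZ F v i ξ - h‖

/-- the numerical conditions at the scale `ϱ` up to time `n` -/
structure Num (L : ℕ → ℝ) (r₁ M κ c ϱ η : ℝ) (ρ β γ : ℕ → ℝ) (n : ℕ) : Prop where
  ϱ0 : 0 < ϱ
  cp : 0 < c
  ηdef : 8 * M * c * η = r₁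
  scale : ∀ k ≤ n, L k * ϱ ≤ η
  ρ0 : ∀ k < n, 0 < ρ k
  ρ1 : ∀ k < n, ρ k ≤ 1
  κρ : ∀ k < n, ϱ ^ 2 ≤ κ * ρ k
  small : ∀ k < n, M * ϱ ^ 2 / ρ k ≤ r₁ / 2
  γ0 : ∀ k < n, 2 * M * (M * ϱ ^ 2 / ρ k) / L k ≤ γ k
  β0 : ∀ k < n, M ^ 3 * (2 * ϱ / ρ k + 3 * c * L k * ϱ ^ 2 / ρ k ^ 2) / L k +
    3 * c * M ^ 2 * ϱ ^ 2 / ρ k ≤ β k
  γs : ∀ k ≤ n, ∑ i ∈ Finset.range k, γ i ≤ c / 4 * ϱ
  βs : ∀ k ≤ n, ∑ i ∈ Finset.range k, β i ≤ c / 4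

variable {ϱ η : ℝ} {ρ β γ : ℕ → ℝ} {n : ℕ}

lemma norm_v (hv0 : v 0 = w 0) (hv : ∀ ξ ∈ ball (0 : ℂ) ϱ, ∀ ξ' ∈ ball (0 : ℂ) ϱ, ∃ c₀ : ℂ, ‖c₀‖ = c ∧
      ‖v ξ - v ξ' - c₀ * (ξ - ξ')‖ ≤ c / 4 * ‖ξ - ξ'‖) (hϱ : 0 < ϱ) {ξ : ℂ}
    (hξ : ξ ∈ ball (0 : ℂ) ϱ) : ‖v ξ - w 0‖ ≤ 5 / 4 * c * ϱ := by
  obtain ⟨c₀, hc, h⟩ := hv ξ hξ 0 (mem_ball_self hϱ)
  rw [sub_zero, hv0] at h
  have h1 : ‖v ξ - w 0‖ ≤ ‖v ξ - w 0 - c₀ * ξ‖ + ‖c₀ * ξ‖ := by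
    have := norm_add_le (v ξ - w 0 - c₀ * ξ) (c₀ * ξ)
    rwa [sub_add_cancel] at this
  rw [norm_mul, hc] at h1
  rw [mem_ball_zero_iff] at hξ
  have hc0 : 0 ≤ c := hc ▸ norm_nonneg _
  nlinarith [norm_nonneg ξ]

theorem single (hB : Brs w f G L r₁ M) (hP : Prt w Hl f F r₁ M κ) (hv0 : v 0 = w 0)
    (hv : ∀ ξ ∈ ball (0 : ℂ) ϱ, ∀ ξ' ∈ ball (0 : ℂ) ϱ, ∃ c₀ : ℂ, ‖c₀‖ = c ∧
      ‖v ξ - v ξ' - c₀ * (ξ - ξ')‖ ≤ c / 4 * ‖ξ - ξ'‖)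
    (hN : Num L r₁ M κ c ϱ η ρ β γ n) (ξ : ℂ) (hξ : ξ ∈ ball (0 : ℂ) ϱ) :
    ∀ k, k ≤ n → Al F v Hl ρ k ξ → ZZ F v k ξ ∈ closedBall (w k) r₁ ∧
      ‖G k (ZZ F v k ξ) - v ξ‖ ≤ ∑ i ∈ Finset.range k, γ i ∧
      (∀ j, j + 1 = k → f (ZZ F v j ξ) ∈ closedBall (w k) r₁ ∧
        G k (f (ZZ F v j ξ)) = G j (ZZ F v j ξ)) := by
  have hr1 := hB.r1
  have hM1 := hB.M1
  have hcp := hN.cp
  have hϱ := hN.ϱ0
  have hη : 0 < η := by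
    by_contra h
    push Not at h
    have := hN.ηdef
    have h1 : 8 * M * c * η ≤ 0 := mul_nonpos_of_nonneg_of_nonpos (by positivity) h
    linarith
  have hnv := norm_v (w := w) (v := v) (c := c) hv0 hv hϱ hξ
  have hξn : ‖ξ‖ < ϱ := mem_ball_zero_iff.1 hξ
  intro k
  induction k with
  | zero =>
    intro _ _
    have h1 : v ξ ∈ closedBall (w 0) r₁ := by
      rw [mem_closedBall, dist_eq_norm]
      refine hnv.trans ?_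
      have h2 := hN.scale 0 (Nat.zero_le _)
      rw [hB.L0, one_mul] at h2
      have h3 := hN.ηdef
      have h4 : 8 * 1 * c * η ≤ 8 * M * c * η := by gcongr
      nlinarith
    refine ⟨h1, ?_, fun j hj => absurd hj (by omega)⟩
    show ‖G 0 (v ξ) - v ξ‖ ≤ _
    rw [hB.G0 _ h1]
    simp
  | succ k ih =>
    intro hk hal
    obtain ⟨i1, i2, -⟩ := ih (by omega) (fun i hi => hal i (by omega))
    have hρ0 := hN.ρ0 k (by omega)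
    have hY : ‖G k (ZZ F v k ξ) - w 0‖ ≤ 3 / 2 * c * ϱ := by
      have h1 := norm_add_le (G k (ZZ F v k ξ) - v ξ) (v ξ - w 0)
      rw [sub_add_sub_cancel] at h1
      have h2 := hN.γs k (by omega)
      linarith
    have hLs := hN.scale (k + 1) hk
    have hL1 := hB.Lpos (k + 1)
    have hsc : L k * ϱ ≤ η := hN.scale k (by omega)
    have hL2 : L (k + 1) * ϱ ≤ η := hLs
    have hYb : G k (ZZ F v k ξ) ∈ ball (w 0) (r₁ / (4 * L (k + 1))) := by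
      rw [mem_ball, dist_eq_norm, lt_div_iff₀ (by positivity)]
      have h3 := hN.ηdef
      have h4 : 8 * 1 * c * η ≤ 8 * M * c * η := by gcongr
      have h5 : ‖G k (ZZ F v k ξ) - w 0‖ * (4 * L (k + 1)) ≤ 3 / 2 * c * ϱ * (4 * L (k + 1)) := by
        gcongr
      have h6 : 3 / 2 * c * ϱ * (4 * L (k + 1)) = 6 * c * (L (k + 1) * ϱ) := by ring
      have h7 : 6 * c * (L (k + 1) * ϱ) ≤ 6 * c * η := by gcongr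
      nlinarith [mul_pos hcp hη]
    obtain ⟨u, hu, hGu⟩ := hB.surj (k + 1) _ hYb
    have hfu : f (ZZ F v k ξ) = u := by
      have h1 := hB.inv (k + 1) u hu
      rw [hGu, Function.iterate_succ_apply', hB.inv k _ i1] at h1
      exact h1
    have hA : f (ZZ F v k ξ) ∈ closedBall (w (k + 1)) r₁ := by rw [hfu]; exact hu
    have hGA : G (k + 1) (f (ZZ F v k ξ)) = G k (ZZ F v k ξ) := by rw [hfu, hGu]
    have hAw : ‖f (ZZ F v k ξ) - w (k + 1)‖ ≤ 3 / 8 * r₁ := by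
      have h1 := hB.lo (k + 1) _ hA _ (mem_closedBall_self hr1.le)
      rw [hGA, hB.Gw] at h1
      refine h1.trans ?_
      have h2 : 2 * L (k + 1) * ‖G k (ZZ F v k ξ) - w 0‖ ≤ 2 * L (k + 1) * (3 / 2 * c * ϱ) := by
        gcongr
      have h3 : 2 * L (k + 1) * (3 / 2 * c * ϱ) = 3 * c * (L (k + 1) * ϱ) := by ring
      have h4 : 3 * c * (L (k + 1) * ϱ) ≤ 3 * c * η := by gcongr
      have h5 := hN.ηdef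
      have h6 : 8 * 1 * c * η ≤ 8 * M * c * η := by gcongr
      linarith
    have hl : ‖ξ ^ 2‖ ≤ ϱ ^ 2 := by
      rw [norm_pow]
      exact pow_le_pow_left₀ (norm_nonneg _) hξn.le 2
    have hg := hP.p1 k _ i1 (ρ k) hρ0 (hN.ρ1 k (by omega)) (fun h hh => hal k (by omega) h hh)
      (ξ ^ 2) (hl.trans (hN.κρ k (by omega)))
    have hg2 : ‖F (ξ ^ 2) (ZZ F v k ξ) - f (ZZ F v k ξ)‖ ≤ M * ϱ ^ 2 / ρ k := by
      refine hg.trans ?_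
      gcongr
    have hZ : ZZ F v (k + 1) ξ ∈ closedBall (w (k + 1)) r₁ := by
      rw [mem_closedBall, dist_eq_norm, ZZ_succ]
      have h1 := norm_add_le (F (ξ ^ 2) (ZZ F v k ξ) - f (ZZ F v k ξ)) (f (ZZ F v k ξ) - w (k + 1))
      rw [sub_add_sub_cancel] at h1
      have h2 := hN.small k (by omega)
      linarith
    refine ⟨hZ, ?_, ?_⟩
    · have h1 := hB.up (k + 1) _ hZ _ hA
      rw [hGA, ZZ_succ] at h1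
      have h2 : ‖G (k + 1) (ZZ F v (k + 1) ξ) - G k (ZZ F v k ξ)‖ ≤ γ k := by
        refine le_trans ?_ (hN.γ0 k (by omega))
        rw [le_div_iff₀ (hB.Lpos k), ZZ_succ]
        have h3 := hB.dn1 k
        have h4 : ‖G (k + 1) (F (ξ ^ 2) (ZZ F v k ξ)) - G k (ZZ F v k ξ)‖ * L k ≤
            ‖G (k + 1) (F (ξ ^ 2) (ZZ F v k ξ)) - G k (ZZ F v k ξ)‖ * (M * L (k + 1)) := by
          gcongr
        have h5 : M * (L (k + 1) * ‖G (k + 1) (F (ξ ^ 2) (ZZ F v k ξ)) - G k (ZZ F v k ξ)‖) ≤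
            M * (2 * (M * ϱ ^ 2 / ρ k)) :=
          mul_le_mul_of_nonneg_left (h1.trans (by linarith)) (by positivity)
        have h6 : 2 * M * (M * ϱ ^ 2 / ρ k) = M * (2 * (M * ϱ ^ 2 / ρ k)) := by ring
        rw [h6]
        refine h4.trans (le_trans (le_of_eq (by ring)) h5)
      rw [Finset.sum_range_succ]
      have h3 := norm_add_le (G (k + 1) (ZZ F v (k + 1) ξ) - G k (ZZ F v k ξ))
        (G k (ZZ F v k ξ) - v ξ)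
      rw [sub_add_sub_cancel] at h3
      linarith
    · intro j hj
      obtain rfl : j = k := by omega
      exact ⟨hA, hGA⟩

/-- Lipschitz estimate for the pulled back orbits -/
theorem pair (hB : Brs w f G L r₁ M) (hP : Prt w Hl f F r₁ M κ) (hv0 : v 0 = w 0)
    (hv : ∀ ξ ∈ ball (0 : ℂ) ϱ, ∀ ξ' ∈ ball (0 : ℂ) ϱ, ∃ c₀ : ℂ, ‖c₀‖ = c ∧
      ‖v ξ - v ξ' - c₀ * (ξ - ξ')‖ ≤ c / 4 * ‖ξ - ξ'‖)
    (hN : Num L r₁ M κ c ϱ η ρ β γ n) (ξ ξ' : ℂ) (hξ : ξ ∈ ball (0 : ℂ) ϱ)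
    (hξ' : ξ' ∈ ball (0 : ℂ) ϱ) :
    ∀ k, k ≤ n → Al F v Hl ρ k ξ → Al F v Hl ρ k ξ' →
      ‖(G k (ZZ F v k ξ) - v ξ) - (G k (ZZ F v k ξ') - v ξ')‖ ≤
        (∑ i ∈ Finset.range k, β i) * ‖ξ - ξ'‖ ∧
      c / 2 * ‖ξ - ξ'‖ ≤ ‖G k (ZZ F v k ξ) - G k (ZZ F v k ξ')‖ ∧
      ‖G k (ZZ F v k ξ) - G k (ZZ F v k ξ')‖ ≤ 3 / 2 * c * ‖ξ - ξ'‖ := by
  have hr1 := hB.r1
  have hM1 := hB.M1
  have hcp := hN.cp
  have hϱ := hN.ϱ0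
  have hξn : ‖ξ‖ < ϱ := mem_ball_zero_iff.1 hξ
  have hξn' : ‖ξ'‖ < ϱ := mem_ball_zero_iff.1 hξ'
  have hnn := norm_nonneg (ξ - ξ')
  -- the second part follows from the first
  have key : ∀ k, k ≤ n → ‖(G k (ZZ F v k ξ) - v ξ) - (G k (ZZ F v k ξ') - v ξ')‖ ≤
        (∑ i ∈ Finset.range k, β i) * ‖ξ - ξ'‖ →
      c / 2 * ‖ξ - ξ'‖ ≤ ‖G k (ZZ F v k ξ) - G k (ZZ F v k ξ')‖ ∧
      ‖G k (ZZ F v k ξ) - G k (ZZ F v k ξ')‖ ≤ 3 / 2 * c * ‖ξ - ξ'‖ := by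
    intro k hk h
    obtain ⟨c₀, hc, h1⟩ := hv ξ hξ ξ' hξ'
    have h2 : (∑ i ∈ Finset.range k, β i) * ‖ξ - ξ'‖ ≤ c / 4 * ‖ξ - ξ'‖ :=
      mul_le_mul_of_nonneg_right (hN.βs k hk) hnn
    have e : G k (ZZ F v k ξ) - G k (ZZ F v k ξ') =
        ((G k (ZZ F v k ξ) - v ξ) - (G k (ZZ F v k ξ') - v ξ')) + (v ξ - v ξ' - c₀ * (ξ - ξ')) +
          c₀ * (ξ - ξ') := by ring
    have h3 : ‖c₀ * (ξ - ξ')‖ = c * ‖ξ - ξ'‖ := by rw [norm_mul, hc]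
    constructor
    · have h4 : ‖c₀ * (ξ - ξ')‖ ≤ ‖G k (ZZ F v k ξ) - G k (ZZ F v k ξ')‖ +
          ‖((G k (ZZ F v k ξ) - v ξ) - (G k (ZZ F v k ξ') - v ξ')) +
            (v ξ - v ξ' - c₀ * (ξ - ξ'))‖ := by
        have e2 : c₀ * (ξ - ξ') = (G k (ZZ F v k ξ) - G k (ZZ F v k ξ')) -
          (((G k (ZZ F v k ξ) - v ξ) - (G k (ZZ F v k ξ') - v ξ')) +
            (v ξ - v ξ' - c₀ * (ξ - ξ'))) := by ring
        conv_lhs => rw [e2]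
        exact norm_sub_le _ _
      have h5 := norm_add_le ((G k (ZZ F v k ξ) - v ξ) - (G k (ZZ F v k ξ') - v ξ'))
        (v ξ - v ξ' - c₀ * (ξ - ξ'))
      linarith
    · rw [e]
      have h4 := norm_add_le (((G k (ZZ F v k ξ) - v ξ) - (G k (ZZ F v k ξ') - v ξ')) +
        (v ξ - v ξ' - c₀ * (ξ - ξ'))) (c₀ * (ξ - ξ'))
      have h5 := norm_add_le ((G k (ZZ F v k ξ) - v ξ) - (G k (ZZ F v k ξ') - v ξ'))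
        (v ξ - v ξ' - c₀ * (ξ - ξ'))
      linarith
  intro k
  induction k with
  | zero =>
    intro _ _ _
    have s1 := single hB hP hv0 hv hN ξ hξ 0 (Nat.zero_le _) (fun i hi => absurd hi (by omega))
    have s2 := single hB hP hv0 hv hN ξ' hξ' 0 (Nat.zero_le _) (fun i hi => absurd hi (by omega))
    have h0 : ‖(G 0 (ZZ F v 0 ξ) - v ξ) - (G 0 (ZZ F v 0 ξ') - v ξ')‖ ≤
        (∑ i ∈ Finset.range 0, β i) * ‖ξ - ξ'‖ := by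
      rw [hB.G0 _ s1.1, hB.G0 _ s2.1]
      simp [ZZ]
    exact ⟨h0, key 0 (Nat.zero_le _) h0⟩
  | succ k ih =>
    intro hk hal hal'
    obtain ⟨i1, i2, i3⟩ := ih (by omega) (fun i hi => hal i (by omega)) (fun i hi => hal' i (by omega))
    obtain ⟨a1, -, a3⟩ := single hB hP hv0 hv hN ξ hξ (k + 1) hk hal
    obtain ⟨b1, -, b3⟩ := single hB hP hv0 hv hN ξ' hξ' (k + 1) hk hal'
    obtain ⟨a4, a5⟩ := a3 k rfl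
    obtain ⟨b4, b5⟩ := b3 k rfl
    obtain ⟨a6, -, -⟩ := single hB hP hv0 hv hN ξ hξ k (by omega) (fun i hi => hal i (by omega))
    obtain ⟨b6, -, -⟩ := single hB hP hv0 hv hN ξ' hξ' k (by omega) (fun i hi => hal' i (by omega))
    have hρ0 := hN.ρ0 k (by omega)
    have hLk := hB.Lpos k
    have hLk1 := hB.Lpos (k + 1)
    have hl : ‖ξ ^ 2‖ ≤ ϱ ^ 2 := by
      rw [norm_pow]
      exact pow_le_pow_left₀ (norm_nonneg _) hξn.le 2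
    have hl' : ‖ξ' ^ 2‖ ≤ ϱ ^ 2 := by
      rw [norm_pow]
      exact pow_le_pow_left₀ (norm_nonneg _) hξn'.le 2
    have hll : ‖ξ ^ 2 - ξ' ^ 2‖ ≤ 2 * ϱ * ‖ξ - ξ'‖ := by
      have e : ξ ^ 2 - ξ' ^ 2 = (ξ + ξ') * (ξ - ξ') := by ring
      rw [e, norm_mul]
      have := norm_add_le ξ ξ'
      gcongr
      linarith
    -- distances of the orbits
    have hz : ‖ZZ F v k ξ - ZZ F v k ξ'‖ ≤ 3 * c * L k * ‖ξ - ξ'‖ := by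
      refine (hB.lo k _ a6 _ b6).trans ?_
      have : 2 * L k * ‖G k (ZZ F v k ξ) - G k (ZZ F v k ξ')‖ ≤
        2 * L k * (3 / 2 * c * ‖ξ - ξ'‖) := by gcongr
      linarith
    have hA : ‖f (ZZ F v k ξ) - f (ZZ F v k ξ')‖ ≤ 3 * c * L (k + 1) * ‖ξ - ξ'‖ := by
      refine (hB.lo (k + 1) _ a4 _ b4).trans ?_
      rw [a5, b5]
      have : 2 * L (k + 1) * ‖G k (ZZ F v k ξ) - G k (ZZ F v k ξ')‖ ≤
        2 * L (k + 1) * (3 / 2 * c * ‖ξ - ξ'‖) := by gcongr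
      linarith
    have hg' : ‖F (ξ' ^ 2) (ZZ F v k ξ') - f (ZZ F v k ξ')‖ ≤ M * ϱ ^ 2 / ρ k := by
      refine (hP.p1 k _ b6 (ρ k) hρ0 (hN.ρ1 k (by omega)) (fun h hh => hal' k (by omega) h hh)
        (ξ' ^ 2) (hl'.trans (hN.κρ k (by omega)))).trans ?_
      gcongr
    have hgg : ‖(F (ξ ^ 2) (ZZ F v k ξ) - f (ZZ F v k ξ)) -
        (F (ξ' ^ 2) (ZZ F v k ξ') - f (ZZ F v k ξ'))‖ ≤
        M * (2 * ϱ / ρ k + 3 * c * L k * ϱ ^ 2 / ρ k ^ 2) * ‖ξ - ξ'‖ := by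
      refine (hP.p2 k _ a6 _ b6 (ρ k) hρ0 (hN.ρ1 k (by omega))
        (fun h hh => hal k (by omega) h hh) (fun h hh => hal' k (by omega) h hh) (ξ ^ 2) (ξ' ^ 2)
        (hl.trans (hN.κρ k (by omega))) (hl'.trans (hN.κρ k (by omega)))).trans ?_
      have h1 : ‖ξ ^ 2 - ξ' ^ 2‖ / ρ k ≤ 2 * ϱ * ‖ξ - ξ'‖ / ρ k := by gcongr
      have h2 : ‖ξ' ^ 2‖ * ‖ZZ F v k ξ - ZZ F v k ξ'‖ / ρ k ^ 2 ≤
        ϱ ^ 2 * (3 * c * L k * ‖ξ - ξ'‖) / ρ k ^ 2 := by gcongr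
      have h3 : M * (2 * ϱ / ρ k + 3 * c * L k * ϱ ^ 2 / ρ k ^ 2) * ‖ξ - ξ'‖ =
        M * (2 * ϱ * ‖ξ - ξ'‖ / ρ k + ϱ ^ 2 * (3 * c * L k * ‖ξ - ξ'‖) / ρ k ^ 2) := by ring
      rw [h3]
      gcongr
    have hd := hB.dbl (k + 1) _ a4 _ a1 _ b4 _ b1
    rw [a5, b5] at hd
    have hinc : ‖(G (k + 1) (ZZ F v (k + 1) ξ) - G k (ZZ F v k ξ)) -
        (G (k + 1) (ZZ F v (k + 1) ξ') - G k (ZZ F v k ξ'))‖ ≤ β k * ‖ξ - ξ'‖ := by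
      have h1 : L (k + 1) * ‖(G (k + 1) (ZZ F v (k + 1) ξ) - G k (ZZ F v k ξ)) -
        (G (k + 1) (ZZ F v (k + 1) ξ') - G k (ZZ F v k ξ'))‖ ≤
          M * (M * (2 * ϱ / ρ k + 3 * c * L k * ϱ ^ 2 / ρ k ^ 2) * ‖ξ - ξ'‖) +
          M * (3 * c * L (k + 1) * ‖ξ - ξ'‖) * (M * ϱ ^ 2 / ρ k) := by
        refine hd.trans ?_
        rw [ZZ_succ, ZZ_succ]
        gcongr
      have h2 : ‖(G (k + 1) (ZZ F v (k + 1) ξ) - G k (ZZ F v k ξ)) -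
        (G (k + 1) (ZZ F v (k + 1) ξ') - G k (ZZ F v k ξ'))‖ ≤
          (M * (M * (2 * ϱ / ρ k + 3 * c * L k * ϱ ^ 2 / ρ k ^ 2) * ‖ξ - ξ'‖) +
          M * (3 * c * L (k + 1) * ‖ξ - ξ'‖) * (M * ϱ ^ 2 / ρ k)) / L (k + 1) := by
        rw [le_div_iff₀ hLk1]
        linarith
      refine h2.trans ?_
      have h3 : (M * (M * (2 * ϱ / ρ k + 3 * c * L k * ϱ ^ 2 / ρ k ^ 2) * ‖ξ - ξ'‖) +
          M * (3 * c * L (k + 1) * ‖ξ - ξ'‖) * (M * ϱ ^ 2 / ρ k)) / L (k + 1) =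
          (M ^ 2 * (2 * ϱ / ρ k + 3 * c * L k * ϱ ^ 2 / ρ k ^ 2) / L (k + 1) +
            3 * c * M ^ 2 * ϱ ^ 2 / ρ k) * ‖ξ - ξ'‖ := by
        field_simp
      rw [h3]
      refine mul_le_mul_of_nonneg_right (le_trans ?_ (hN.β0 k (by omega))) hnn
      have h4 : M ^ 2 * (2 * ϱ / ρ k + 3 * c * L k * ϱ ^ 2 / ρ k ^ 2) / L (k + 1) ≤
          M ^ 3 * (2 * ϱ / ρ k + 3 * c * L k * ϱ ^ 2 / ρ k ^ 2) / L k := by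
        rw [div_le_div_iff₀ hLk1 hLk]
        have h5 := hB.dn1 k
        have h6 : 0 ≤ M ^ 2 * (2 * ϱ / ρ k + 3 * c * L k * ϱ ^ 2 / ρ k ^ 2) := by positivity
        have h7 := mul_le_mul_of_nonneg_left h5 h6
        refine h7.trans (le_of_eq ?_)
        ring
      linarith
    have h0 : ‖(G (k + 1) (ZZ F v (k + 1) ξ) - v ξ) - (G (k + 1) (ZZ F v (k + 1) ξ') - v ξ')‖ ≤
        (∑ i ∈ Finset.range (k + 1), β i) * ‖ξ - ξ'‖ := by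
      have e : (G (k + 1) (ZZ F v (k + 1) ξ) - v ξ) - (G (k + 1) (ZZ F v (k + 1) ξ') - v ξ') =
        ((G (k + 1) (ZZ F v (k + 1) ξ) - G k (ZZ F v k ξ)) -
        (G (k + 1) (ZZ F v (k + 1) ξ') - G k (ZZ F v k ξ'))) +
        ((G k (ZZ F v k ξ) - v ξ) - (G k (ZZ F v k ξ') - v ξ')) := by ring
      rw [e, Finset.sum_range_succ, add_mul]
      refine (norm_add_le _ _).trans ?_
      linarith
    exact ⟨h0, key (k + 1) hk h0⟩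

end

end Run7.h725
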