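import Pool.Agent.Run7.h725.A2Shadow

/-! Excluded parameters: final form. -/

set_option autoImplicit false

open Topology Filter Metric Set MeasureTheory

namespace Run7.h725

variable {w : ℕ → ℂ} {f : ℂ → ℂ} {G : ℕ → ℂ → ℂ} {L : ℕ → ℝ} {r₁ M κ : ℝ} {Hl : Finset ℂ}
  {F : ℂ → ℂ → ℂ} {v : ℂ → ℂ} {c : ℝ} {ϱ η : ℝ} {ρ β γ : ℕ → ℝ} {n : ℕ}

lemma vol_diam (X : Set ℂ) (R : ℝ) (hR : 0 ≤ R) (h : ∀ a ∈ X, ∀ b ∈ X, ‖a - b‖ ≤ R) :
    volume X ≤ ENNReal.ofReal (4 * R ^ 2) := by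
  rcases X.eq_empty_or_nonempty with rfl | ⟨b, hb⟩
  · simp
  have h1 : X ⊆ closedBall b R := fun a ha => by
    rw [mem_closedBall, dist_eq_norm]; exact h a ha b hb
  refine (measure_mono h1).trans ?_
  rw [Complex.volume_closedBall, ← ENNReal.ofReal_pow hR]
  have e : (NNReal.pi : ENNReal) = ENNReal.ofReal Real.pi := by
    rw [← NNReal.coe_real_pi, ENNReal.ofReal_coe_nnreal]
  rw [e, mul_comm, ← ENNReal.ofReal_mul Real.pi_pos.le]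
  apply ENNReal.ofReal_le_ofReal
  have := Real.pi_le_four
  gcongr

theorem excl (hB : Brs w f G L r₁ M) (hP : Prt w Hl f F r₁ M κ) (hv0 : v 0 = w 0)
    (hv : ∀ ξ ∈ ball (0 : ℂ) ϱ, ∀ ξ' ∈ ball (0 : ℂ) ϱ, ∃ c₀ : ℂ, ‖c₀‖ = c ∧
      ‖v ξ - v ξ' - c₀ * (ξ - ξ')‖ ≤ c / 4 * ‖ξ - ξ'‖)
    (hN : Num L r₁ M κ c ϱ η ρ β γ n) (k : ℕ) (hk : k ≤ n) (y : ℂ) (s : ℝ) (hs : 0 < s) :
    volume {ξ : ℂ | ξ ∈ ball (0 : ℂ) ϱ ∧ Al F v Hl ρ k ξ ∧ ‖ZZ F v k ξ - y‖ < s} ≤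
      ENNReal.ofReal (4 * (8 * s / (c * L k)) ^ 2) := by
  have hc := hN.cp
  have hL := hB.Lpos k
  apply vol_diam _ _ (by positivity)
  rintro ξ ⟨h1, h2, h3⟩ ξ' ⟨h1', h2', h3'⟩
  obtain ⟨-, p2, -⟩ := pair hB hP hv0 hv hN ξ ξ' h1 h1' k hk h2 h2'
  obtain ⟨s1, -, -⟩ := single hB hP hv0 hv hN ξ h1 k hk h2
  obtain ⟨s1', -, -⟩ := single hB hP hv0 hv hN ξ' h1' k hk h2'
  have h4 := hB.up k _ s1 _ s1'
  have h5 : ‖ZZ F v k ξ - ZZ F v k ξ'‖ ≤ 2 * s := by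
    have := norm_sub_le (ZZ F v k ξ - y) (ZZ F v k ξ' - y)
    rw [sub_sub_sub_cancel_right] at this
    linarith
  rw [le_div_iff₀ (by positivity)]
  have h6 : L k * (c / 2 * ‖ξ - ξ'‖) ≤ L k * ‖G k (ZZ F v k ξ) - G k (ZZ F v k ξ')‖ := by
    gcongr
  linarith [h6, h4, h5]

/-- at small scales, outside a small set of parameters some image of the moving point is outside a
given family of discs, the orbit staying close to the given one and away from the poles -/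
theorem shadow (hB : Brs w f G L r₁ M) (hP : Prt w Hl f F r₁ M κ)
    (hw : ∀ k, ∀ h ∈ Hl, w k ≠ h) (hv0 : v 0 = w 0) {c₀ : ℂ} (hc₀ : c₀ ≠ 0) {ϱ₁ : ℝ} (hϱ₁ : 0 < ϱ₁)
    (hv : ∀ ξ ∈ ball (0 : ℂ) ϱ₁, ∀ ξ' ∈ ball (0 : ℂ) ϱ₁,
      ‖v ξ - v ξ' - c₀ * (ξ - ξ')‖ ≤ ‖c₀‖ / 4 * ‖ξ - ξ'‖) :
    ∃ C : ℝ, 0 < C ∧ ∀ ε : ℝ, 0 < ε → ∀ t : Finset (ℂ × ℝ), (∀ p ∈ t, 0 < p.2) →
      ∑ p ∈ t, p.2 ^ 2 ≤ ε → ∃ ϱ₀ : ℝ, 0 < ϱ₀ ∧ ∀ ϱ : ℝ, 0 < ϱ → ϱ ≤ ϱ₀ → ∃ X : Set ℂ,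
        volume X ≤ ENNReal.ofReal (C * ε * ϱ ^ 2) ∧ ∀ ξ ∈ ball (0 : ℂ) ϱ \ X, ∃ n : ℕ,
          (∀ k < n, ZZ F v k ξ ∈ closedBall (w k) r₁ ∧ ∃ ρ : ℝ, 0 < ρ ∧ ρ ≤ 1 ∧ ‖ξ ^ 2‖ ≤ κ * ρ ∧
            ∀ h ∈ Hl, ρ ≤ ‖ZZ F v k ξ - h‖) ∧
          ZZ F v n ξ ∈ closedBall (w n) r₁ ∧ ∀ p ∈ t, ZZ F v n ξ ∉ ball p.1 p.2 := by
  classical
  have hr1 := hB.r1
  have hM1 := hB.M1
  have hM0 : 0 < M := by linarith
  obtain ⟨c, hcdef⟩ : ∃ c : ℝ, c = ‖c₀‖ := ⟨_, rfl⟩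
  have hc : 0 < c := by rw [hcdef]; exact norm_pos_iff.2 hc₀
  obtain ⟨η, hηdef⟩ : ∃ η : ℝ, η = r₁ / (8 * M * c) := ⟨_, rfl⟩
  have hη : 0 < η := by rw [hηdef]; positivity
  have hη8 : 8 * M * c * η = r₁ := by rw [hηdef]; field_simp
  have hκ := hP.κ0
  have hLinv : ∀ k, (L k)⁻¹ ≤ M := fun k => by
    have h1 := hB.low k
    rw [inv_le_iff_one_le_mul₀ (hB.Lpos k)]
    exact h1
  have hsqL : ∀ k, (√(L k))⁻¹ ≤ M := fun k => by
    have h1 := hB.low k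
    have h2 := hB.Lpos k
    have h3 : 0 < √(L k) := Real.sqrt_pos.2 h2
    rw [inv_le_iff_one_le_mul₀ h3]
    by_contra h
    push Not at h
    have h4 : √(L k) * √(L k) = L k := Real.mul_self_sqrt h2.le
    have h5 : √(L k) ≤ 1 := by nlinarith
    nlinarith
  obtain ⟨K1, hK1⟩ : ∃ K1 : ℝ, K1 = M ^ 3 * (2 * M + 3 * c) + 3 * c * M ^ 2 := ⟨_, rfl⟩
  have hK1p : 0 < K1 := by rw [hK1]; positivity
  refine ⟨256 / c ^ 2 + 256 * M ^ 2 / (c ^ 2 * η ^ 2), by positivity, ?_⟩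
  intro ε hε t ht0 htε
  obtain ⟨δ, hδ⟩ : ∃ δ : ℝ, δ = min (min (c / (8 * K1)) (c / (16 * M ^ 3))) (ε / (Hl.card + 1)) :=
    ⟨_, rfl⟩
  have hδp : 0 < δ := by rw [hδ]; positivity
  have hδ1 : K1 * δ ≤ c / 8 := by
    have : δ ≤ c / (8 * K1) := by rw [hδ]; exact (min_le_left _ _).trans (min_le_left _ _)
    calc K1 * δ ≤ K1 * (c / (8 * K1)) := by gcongr
      _ = c / 8 := by field_simp
  have hδ2 : 2 * M ^ 3 * δ ≤ c / 8 := by
    have : δ ≤ c / (16 * M ^ 3) := by rw [hδ]; exact (min_le_left _ _).trans (min_le_right _ _)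
    calc 2 * M ^ 3 * δ ≤ 2 * M ^ 3 * (c / (16 * M ^ 3)) := by gcongr
      _ = c / 8 := by field_simp; norm_num
  have hδ3 : Hl.card * δ ≤ ε := by
    have h1 : δ ≤ ε / (Hl.card + 1) := by rw [hδ]; exact min_le_right _ _
    have h2 : (0 : ℝ) < Hl.card + 1 := by positivity
    rw [le_div_iff₀ h2] at h1
    nlinarith
  -- the tail
  obtain ⟨J0, hJ0⟩ : ∃ J0 : ℕ, ∀ n, ∑ k ∈ (Finset.range n).filter (fun k => J0 ≤ k), (L k)⁻¹ ≤ δ := by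
    have h1 := hB.sum.tendsto_sum_tsum_nat
    have h2 : ∀ᶠ J in atTop, (∑' k, (L k)⁻¹) - δ < ∑ k ∈ Finset.range J, (L k)⁻¹ :=
      h1.eventually (lt_mem_nhds (by linarith))
    obtain ⟨J0, hJ⟩ := h2.exists
    refine ⟨J0, fun n => ?_⟩
    have h3 : ∑ k ∈ Finset.range J0 ∪ (Finset.range n).filter (fun k => J0 ≤ k), (L k)⁻¹ ≤
        ∑' k, (L k)⁻¹ := hB.sum.sum_le_tsum _ fun k _ => (inv_pos.2 (hB.Lpos k)).le
    rw [Finset.sum_union] at h3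
    · linarith
    · rw [Finset.disjoint_left]
      intro k hk hk'
      rw [Finset.mem_range] at hk
      rw [Finset.mem_filter] at hk'
      omega
  -- the distance to the poles of the first points
  obtain ⟨m₀, hm0, hm1, hm2⟩ : ∃ m₀ : ℝ, 0 < m₀ ∧ m₀ ≤ 1 ∧ ∀ k < J0, ∀ h ∈ Hl, 2 * m₀ ≤ ‖w k - h‖ := by
    have h1 : ∀ᶠ m in 𝓝[>] (0 : ℝ), ∀ p ∈ Finset.range J0 ×ˢ Hl, 2 * m < ‖w p.1 - p.2‖ := by
      rw [Finset.eventually_all]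
      intro p hp
      rw [Finset.mem_product] at hp
      have h2 : 0 < ‖w p.1 - p.2‖ := norm_pos_iff.2 (sub_ne_zero.2 (hw _ _ hp.2))
      have h3 : Tendsto (fun m : ℝ => 2 * m) (𝓝[>] 0) (𝓝 0) := by
        have : Tendsto (fun m : ℝ => 2 * m) (𝓝 0) (𝓝 (2 * 0)) :=
          (continuous_const.mul continuous_id).tendsto 0
        rw [mul_zero] at this
        exact this.mono_left nhdsWithin_le_nhds
      exact h3.eventually (gt_mem_nhds h2)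
    have h2 : ∀ᶠ m in 𝓝[>] (0 : ℝ), m ≤ 1 :=
      (eventually_le_nhds (zero_lt_one)).filter_mono nhdsWithin_le_nhds
    obtain ⟨m, ⟨h3, h4⟩, h5⟩ := ((h1.and h2).and self_mem_nhdsWithin).exists
    exact ⟨m, h5, h4, fun k hk h hh => (h3 (k, h) (Finset.mem_product.2 ⟨Finset.mem_range.2 hk, hh⟩)).le⟩
  obtain ⟨Λ, hΛ⟩ : ∃ Λ : ℝ, Λ = ∑ k ∈ Finset.range J0, L k := ⟨_, rfl⟩
  have hΛ1 : ∀ k < J0, L k ≤ Λ := fun k hk => by
    rw [hΛ]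
    exact Finset.single_le_sum (f := L) (fun i _ => (hB.Lpos i).le) (Finset.mem_range.2 hk)
  have hΛ0 : 0 ≤ Λ := by rw [hΛ]; exact Finset.sum_nonneg fun i _ => (hB.Lpos i).le
  obtain ⟨A2, hA2⟩ : ∃ A2 : ℝ, A2 = 2 * M ^ 4 / m₀ + 3 * c * M ^ 3 / m₀ ^ 2 + 3 * c * M ^ 2 / m₀ :=
    ⟨_, rfl⟩
  have hA2p : 0 < A2 := by rw [hA2]; positivity
  -- the scale
  obtain ⟨ϱ₀, hϱ₀, hs⟩ : ∃ ϱ₀ : ℝ, 0 < ϱ₀ ∧ ∀ ϱ : ℝ, 0 < ϱ → ϱ ≤ ϱ₀ → ϱ ≤ ϱ₁ ∧ ϱ ≤ 1 ∧ ϱ ≤ η ∧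
      ϱ ≤ κ * m₀ ∧ ϱ ≤ κ / M ∧ M * ϱ / m₀ ≤ r₁ / 2 ∧ M ^ 2 * ϱ ≤ r₁ / 2 ∧ η * ϱ ≤ 1 ∧
      J0 * (2 * M ^ 3 / m₀) * ϱ ≤ c / 8 ∧ J0 * A2 * ϱ ≤ c / 8 ∧ 3 * c * Λ * ϱ ≤ m₀ := by
    have hlin : ∀ a b : ℝ, 0 < b → ∀ᶠ ϱ in 𝓝[>] (0 : ℝ), a * ϱ ≤ b := by
      intro a b hb
      have h1 : Tendsto (fun ϱ : ℝ => a * ϱ) (𝓝[>] 0) (𝓝 0) := by
        have : Tendsto (fun m : ℝ => a * m) (𝓝 0) (𝓝 (a * 0)) :=
          (continuous_const.mul continuous_id).tendsto 0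
        rw [mul_zero] at this
        exact this.mono_left nhdsWithin_le_nhds
      exact h1.eventually (ge_mem_nhds hb)
    have h := (hlin 1 ϱ₁ hϱ₁).and ((hlin 1 1 one_pos).and ((hlin 1 η hη).and
      ((hlin 1 (κ * m₀) (by positivity)).and ((hlin 1 (κ / M) (by positivity)).and
      ((hlin (M / m₀) (r₁ / 2) (by positivity)).and ((hlin (M ^ 2) (r₁ / 2) (by positivity)).and
      ((hlin η 1 one_pos).and ((hlin (J0 * (2 * M ^ 3 / m₀)) (c / 8) (by positivity)).and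
      ((hlin (J0 * A2) (c / 8) (by positivity)).and (hlin (3 * c * Λ) m₀ hm0))))))))))
    obtain ⟨b, hb, hb'⟩ := mem_nhdsGT_iff_exists_Ioc_subset.1 h
    refine ⟨b, hb, fun ϱ h1 h2 => ?_⟩
    obtain ⟨g1, g2, g3, g4, g5, g6, g7, g8, g9, g10, g11⟩ := hb' ⟨h1, h2⟩
    rw [one_mul] at g1 g2 g3 g4 g5
    refine ⟨g1, g2, g3, g4, g5, ?_, g7, g8, g9, g10, g11⟩
    rw [div_mul_eq_mul_div] at g6
    exact g6
  refine ⟨ϱ₀, hϱ₀, fun ϱ hϱ hϱ' => ?_⟩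
  obtain ⟨g1, g2, g3, g4, g5, g6, g7, g8, g9, g10, g11⟩ := hs ϱ hϱ hϱ'
  -- the time
  obtain ⟨n, hn1, hn2⟩ : ∃ n : ℕ, (∀ k ≤ n, L k * ϱ ≤ η) ∧ η ≤ M * (L n * ϱ) := by
    have h1 : ∃ k, η < L k * ϱ := by
      have h2 := hB.sum.tendsto_atTop_zero
      have h3 : ∀ᶠ k in atTop, (L k)⁻¹ < ϱ / η := h2.eventually (gt_mem_nhds (by positivity))
      obtain ⟨k, hk⟩ := h3.exists
      refine ⟨k, ?_⟩
      have h4 := hB.Lpos k
      rw [inv_eq_one_div, div_lt_div_iff₀ h4 hη] at hk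
      linarith
    have h2 := Nat.find_spec h1
    have h3 : Nat.find h1 ≠ 0 := by
      intro h4
      rw [h4, hB.L0] at h2
      linarith
    obtain ⟨n, hn⟩ := Nat.exists_eq_succ_of_ne_zero h3
    refine ⟨n, fun k hk => ?_, ?_⟩
    · have := Nat.find_min h1 (m := k) (by omega)
      push Not at this
      exact this
    · rw [hn] at h2
      have h4 := hB.up1 n
      have h5 : L (n + 1) * ϱ ≤ M * L n * ϱ := by gcongr
      have h6 : η < L (n + 1) * ϱ := h2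
      linarith
  obtain ⟨ρ, hρ⟩ : ∃ ρ : ℕ → ℝ, ρ = fun k => if k < J0 then m₀ else √(L k) * ϱ := ⟨_, rfl⟩
  have hρ1 : ∀ k < J0, ρ k = m₀ := fun k hk => by rw [hρ]; simp [hk]
  have hρ2 : ∀ k, J0 ≤ k → ρ k = √(L k) * ϱ := fun k hk => by
    rw [hρ]; simp only; rw [if_neg (by omega)]
  have hsq : ∀ k, 0 < √(L k) := fun k => Real.sqrt_pos.2 (hB.Lpos k)
  have hss : ∀ k, √(L k) * √(L k) = L k := fun k => Real.mul_self_sqrt (hB.Lpos k).le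
  have hsϱ : ∀ k ≤ n, √(L k) * ϱ ≤ 1 := fun k hk => by
    have h1 := hn1 k hk
    have h2 : (√(L k) * ϱ) ^ 2 ≤ 1 := by
      have e : (√(L k) * ϱ) ^ 2 = L k * ϱ * ϱ := by
        rw [mul_pow, sq, hss, sq]; ring
      rw [e]
      have : L k * ϱ * ϱ ≤ η * ϱ := by gcongr
      linarith
    nlinarith [hsq k, mul_pos (hsq k) hϱ]
  have hρ0 : ∀ k, 0 < ρ k := fun k => by
    by_cases hk : k < J0
    · rw [hρ1 k hk]; exact hm0
    · rw [hρ2 k (by omega)]; exact mul_pos (hsq k) hϱ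
  obtain ⟨γ, hγ⟩ : ∃ γ : ℕ → ℝ, γ = fun k => 2 * M * (M * ϱ ^ 2 / ρ k) / L k := ⟨_, rfl⟩
  obtain ⟨β, hβ⟩ : ∃ β : ℕ → ℝ, β = fun k =>
    M ^ 3 * (2 * ϱ / ρ k + 3 * c * L k * ϱ ^ 2 / ρ k ^ 2) / L k + 3 * c * M ^ 2 * ϱ ^ 2 / ρ k :=
    ⟨_, rfl⟩
  have hγ1 : ∀ k < J0, γ k ≤ 2 * M ^ 3 / m₀ * ϱ * ϱ := fun k hk => by
    rw [hγ]
    simp only
    rw [hρ1 k hk]
    have h1 := hLinv k
    calc 2 * M * (M * ϱ ^ 2 / m₀) / L k = 2 * M * (M * ϱ ^ 2 / m₀) * (L k)⁻¹ := by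
          rw [div_eq_mul_inv]
      _ ≤ 2 * M * (M * ϱ ^ 2 / m₀) * M := by gcongr
      _ = 2 * M ^ 3 / m₀ * ϱ * ϱ := by ring
  have hγ2 : ∀ k, J0 ≤ k → γ k ≤ 2 * M ^ 3 * ϱ * (L k)⁻¹ := fun k hk => by
    rw [hγ]
    simp only
    rw [hρ2 k hk]
    have h1 := hsqL k
    have h2 := hsq k
    have h3 := hB.Lpos k
    calc 2 * M * (M * ϱ ^ 2 / (√(L k) * ϱ)) / L k = 2 * M * M * ϱ * (√(L k))⁻¹ * (L k)⁻¹ := by
          field_simp
      _ ≤ 2 * M * M * ϱ * M * (L k)⁻¹ := by gcongr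
      _ = 2 * M ^ 3 * ϱ * (L k)⁻¹ := by ring
  have hβ1 : ∀ k < J0, β k ≤ A2 * ϱ := fun k hk => by
    rw [hβ]
    simp only
    rw [hρ1 k hk, hA2]
    have h1 := hLinv k
    have h3 := hB.Lpos k
    have h4 : M ^ 3 * (2 * ϱ / m₀ + 3 * c * L k * ϱ ^ 2 / m₀ ^ 2) / L k =
        2 * M ^ 3 / m₀ * ϱ * (L k)⁻¹ + 3 * c * M ^ 3 / m₀ ^ 2 * ϱ ^ 2 := by
      field_simp
    rw [h4]
    have h5 : 2 * M ^ 3 / m₀ * ϱ * (L k)⁻¹ ≤ 2 * M ^ 3 / m₀ * ϱ * M := by gcongr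
    have h6 : ϱ ^ 2 ≤ ϱ := by nlinarith
    have h7 : 3 * c * M ^ 3 / m₀ ^ 2 * ϱ ^ 2 ≤ 3 * c * M ^ 3 / m₀ ^ 2 * ϱ := by gcongr
    have h8 : 3 * c * M ^ 2 * ϱ ^ 2 / m₀ ≤ 3 * c * M ^ 2 * ϱ / m₀ := by gcongr
    have e : (2 * M ^ 4 / m₀ + 3 * c * M ^ 3 / m₀ ^ 2 + 3 * c * M ^ 2 / m₀) * ϱ =
      2 * M ^ 3 / m₀ * ϱ * M + 3 * c * M ^ 3 / m₀ ^ 2 * ϱ + 3 * c * M ^ 2 * ϱ / m₀ := by ring
    rw [e]
    linarith
  have hβ2 : ∀ k ≤ n, J0 ≤ k → β k ≤ K1 * (L k)⁻¹ := fun k hkn hk => by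
    rw [hβ]
    simp only
    rw [hρ2 k hk, hK1]
    have h1 := hsqL k
    have h2 := hsq k
    have h3 := hB.Lpos k
    have h4 := hsϱ k hkn
    have h5 : M ^ 3 * (2 * ϱ / (√(L k) * ϱ) + 3 * c * L k * ϱ ^ 2 / (√(L k) * ϱ) ^ 2) / L k =
        M ^ 3 * (2 * (√(L k))⁻¹ + 3 * c) * (L k)⁻¹ := by
      have e : (√(L k) * ϱ) ^ 2 = L k * ϱ ^ 2 := by rw [mul_pow, sq (√(L k)), hss]
      rw [e]
      field_simp
    have h6 : 3 * c * M ^ 2 * ϱ ^ 2 / (√(L k) * ϱ) = 3 * c * M ^ 2 * (√(L k) * ϱ) * (L k)⁻¹ := by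
      have e : (L k)⁻¹ = (√(L k) * √(L k))⁻¹ := by rw [hss]
      rw [e]
      field_simp
    rw [h5, h6]
    have h7 : M ^ 3 * (2 * (√(L k))⁻¹ + 3 * c) * (L k)⁻¹ ≤ M ^ 3 * (2 * M + 3 * c) * (L k)⁻¹ := by
      gcongr
    have h8 : 3 * c * M ^ 2 * (√(L k) * ϱ) * (L k)⁻¹ ≤ 3 * c * M ^ 2 * 1 * (L k)⁻¹ := by gcongr
    linarith
  have hsplit : ∀ (a : ℕ → ℝ) (A B : ℝ), 0 ≤ A → 0 ≤ B → (∀ k < J0, a k ≤ A) →
      (∀ k ≤ n, J0 ≤ k → a k ≤ B * (L k)⁻¹) → ∀ k ≤ n,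
      ∑ i ∈ Finset.range k, a i ≤ J0 * A + B * δ := by
    intro a A B hA hB' h1 h2 k hk
    rw [← Finset.sum_filter_add_sum_filter_not (Finset.range k) (fun i => J0 ≤ i)]
    have h3 : ∑ i ∈ (Finset.range k).filter (fun i => J0 ≤ i), a i ≤ B * δ := by
      calc ∑ i ∈ (Finset.range k).filter (fun i => J0 ≤ i), a i ≤
          ∑ i ∈ (Finset.range k).filter (fun i => J0 ≤ i), B * (L i)⁻¹ := by
            apply Finset.sum_le_sum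
            intro i hi
            rw [Finset.mem_filter, Finset.mem_range] at hi
            exact h2 i (by omega) hi.2
        _ = B * ∑ i ∈ (Finset.range k).filter (fun i => J0 ≤ i), (L i)⁻¹ := by
            rw [Finset.mul_sum]
        _ ≤ B * δ := by gcongr; exact hJ0 k
    have h4 : ∑ i ∈ (Finset.range k).filter (fun i => ¬ J0 ≤ i), a i ≤ J0 * A := by
      calc ∑ i ∈ (Finset.range k).filter (fun i => ¬ J0 ≤ i), a i ≤
          ∑ i ∈ (Finset.range k).filter (fun i => ¬ J0 ≤ i), A := by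
            apply Finset.sum_le_sum
            intro i hi
            rw [Finset.mem_filter, Finset.mem_range] at hi
            exact h1 i (by omega)
        _ = ((Finset.range k).filter (fun i => ¬ J0 ≤ i)).card * A := by
            rw [Finset.sum_const, nsmul_eq_mul]
        _ ≤ J0 * A := by
            gcongr
            have h5 : (Finset.range k).filter (fun i => ¬ J0 ≤ i) ⊆ Finset.range J0 := by
              intro i hi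
              rw [Finset.mem_filter] at hi
              rw [Finset.mem_range]
              omega
            have := Finset.card_le_card h5
            rwa [Finset.card_range] at this
    linarith
  have hN : Num L r₁ M κ c ϱ η ρ β γ n := by
    refine ⟨hϱ, hc, hη8, hn1, fun k _ => hρ0 k, ?_, ?_, ?_, ?_, ?_, ?_, ?_⟩
    · intro k hk
      by_cases hkJ : k < J0
      · rw [hρ1 k hkJ]; exact hm1
      · rw [hρ2 k (by omega)]; exact hsϱ k hk.le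
    · intro k hk
      by_cases hkJ : k < J0
      · rw [hρ1 k hkJ]
        nlinarith
      · rw [hρ2 k (by omega)]
        have h1 := hsqL k
        have h2 := hsq k
        have h3 : ϱ ≤ κ * √(L k) := by
          refine g5.trans ?_
          rw [div_le_iff₀ hM0]
          rw [inv_le_iff_one_le_mul₀ h2] at h1
          nlinarith
        calc ϱ ^ 2 = ϱ * ϱ := sq ϱ
          _ ≤ κ * √(L k) * ϱ := by gcongr
          _ = κ * (√(L k) * ϱ) := by ring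
    · intro k hk
      by_cases hkJ : k < J0
      · rw [hρ1 k hkJ]
        refine le_trans ?_ g6
        have : ϱ ^ 2 ≤ ϱ := by nlinarith
        gcongr
      · rw [hρ2 k (by omega)]
        refine le_trans ?_ g7
        have h1 := hsqL k
        have h2 := hsq k
        calc M * ϱ ^ 2 / (√(L k) * ϱ) = M * ϱ * (√(L k))⁻¹ := by field_simp
          _ ≤ M * ϱ * M := by gcongr
          _ = M ^ 2 * ϱ := by ring
    · intro k _; rw [hγ]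
    · intro k _; rw [hβ]
    · intro k hk
      have h1 := hsplit γ (2 * M ^ 3 / m₀ * ϱ * ϱ) (2 * M ^ 3 * ϱ) (by positivity) (by positivity)
        hγ1 (fun k _ hk => hγ2 k hk) k hk
      refine h1.trans ?_
      have h2 : J0 * (2 * M ^ 3 / m₀ * ϱ * ϱ) = J0 * (2 * M ^ 3 / m₀) * ϱ * ϱ := by ring
      have h3 : 2 * M ^ 3 * ϱ * δ = 2 * M ^ 3 * δ * ϱ := by ring
      rw [h2, h3]
      have h4 : J0 * (2 * M ^ 3 / m₀) * ϱ * ϱ ≤ c / 8 * ϱ := by gcongr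
      have h5 : 2 * M ^ 3 * δ * ϱ ≤ c / 8 * ϱ := by gcongr
      linarith
    · intro k hk
      have h1 := hsplit β (A2 * ϱ) K1 (by positivity) hK1p.le hβ1 hβ2 k hk
      refine h1.trans ?_
      have h2 : J0 * (A2 * ϱ) = J0 * A2 * ϱ := by ring
      rw [h2]
      linarith
  have hv' : ∀ ξ ∈ ball (0 : ℂ) ϱ, ∀ ξ' ∈ ball (0 : ℂ) ϱ, ∃ c₀ : ℂ, ‖c₀‖ = c ∧
      ‖v ξ - v ξ' - c₀ * (ξ - ξ')‖ ≤ c / 4 * ‖ξ - ξ'‖ := by
    intro ξ hξ ξ' hξ'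
    refine ⟨c₀, hcdef.symm, ?_⟩
    rw [hcdef]
    exact hv ξ (ball_subset_ball g1 hξ) ξ' (ball_subset_ball g1 hξ')
  -- the excluded set
  obtain ⟨X1, hX1⟩ : ∃ X1 : ℕ → ℂ → Set ℂ, X1 = fun k h =>
    {ξ : ℂ | ξ ∈ ball (0 : ℂ) ϱ ∧ Al F v Hl ρ k ξ ∧ ‖ZZ F v k ξ - h‖ < ρ k} := ⟨_, rfl⟩
  obtain ⟨X2, hX2⟩ : ∃ X2 : ℂ × ℝ → Set ℂ, X2 = fun p =>
    {ξ : ℂ | ξ ∈ ball (0 : ℂ) ϱ ∧ Al F v Hl ρ n ξ ∧ ‖ZZ F v n ξ - p.1‖ < p.2} := ⟨_, rfl⟩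
  refine ⟨(⋃ q ∈ (Finset.range n).filter (fun k => J0 ≤ k) ×ˢ Hl, X1 q.1 q.2) ∪ ⋃ p ∈ t, X2 p,
    ?_, ?_⟩
  · refine (measure_union_le _ _).trans ?_
    have h1 : volume (⋃ q ∈ (Finset.range n).filter (fun k => J0 ≤ k) ×ˢ Hl, X1 q.1 q.2) ≤
        ENNReal.ofReal (256 / c ^ 2 * ε * ϱ ^ 2) := by
      refine (measure_biUnion_finset_le _ _).trans ?_
      have h2 : ∀ q ∈ (Finset.range n).filter (fun k => J0 ≤ k) ×ˢ Hl, volume (X1 q.1 q.2) ≤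
          ENNReal.ofReal (256 / c ^ 2 * ϱ ^ 2 * (L q.1)⁻¹) := by
        intro q hq
        rw [Finset.mem_product, Finset.mem_filter, Finset.mem_range] at hq
        rw [hX1]
        refine (excl hB hP hv0 hv' hN q.1 hq.1.1.le q.2 (ρ q.1) (hρ0 _)).trans (le_of_eq ?_)
        congr 1
        rw [hρ2 q.1 hq.1.2]
        have h3 := hB.Lpos q.1
        have e : (8 * (√(L q.1) * ϱ) / (c * L q.1)) ^ 2 = 64 * (√(L q.1) * √(L q.1)) * ϱ ^ 2 /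
          (c ^ 2 * L q.1 ^ 2) := by ring
        rw [e, hss]
        field_simp
        norm_num
      refine (Finset.sum_le_sum h2).trans ?_
      rw [← ENNReal.ofReal_sum_of_nonneg (fun q _ => by have := hB.Lpos q.1; positivity)]
      apply ENNReal.ofReal_le_ofReal
      rw [Finset.sum_product]
      simp only [Finset.sum_const, nsmul_eq_mul]
      rw [← Finset.mul_sum, ← Finset.mul_sum]
      have h3 := hJ0 n
      have h4 : (Hl.card : ℝ) * ∑ k ∈ (Finset.range n).filter (fun k => J0 ≤ k), (L k)⁻¹ ≤ ε := by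
        refine le_trans ?_ hδ3
        gcongr
      calc (Hl.card : ℝ) * (256 / c ^ 2 * ϱ ^ 2 *
          ∑ k ∈ (Finset.range n).filter (fun k => J0 ≤ k), (L k)⁻¹) = 256 / c ^ 2 * ϱ ^ 2 *
          ((Hl.card : ℝ) * ∑ k ∈ (Finset.range n).filter (fun k => J0 ≤ k), (L k)⁻¹) := by ring
        _ ≤ 256 / c ^ 2 * ϱ ^ 2 * ε := by gcongr
        _ = 256 / c ^ 2 * ε * ϱ ^ 2 := by ring
    have h2 : volume (⋃ p ∈ t, X2 p) ≤
        ENNReal.ofReal (256 * M ^ 2 / (c ^ 2 * η ^ 2) * ε * ϱ ^ 2) := by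
      refine (measure_biUnion_finset_le _ _).trans ?_
      have h2 : ∀ p ∈ t, volume (X2 p) ≤
          ENNReal.ofReal (256 * M ^ 2 / (c ^ 2 * η ^ 2) * ϱ ^ 2 * p.2 ^ 2) := by
        intro p hp
        rw [hX2]
        refine (excl hB hP hv0 hv' hN n le_rfl p.1 p.2 (ht0 p hp)).trans ?_
        apply ENNReal.ofReal_le_ofReal
        have h3 := hB.Lpos n
        have h4 : (L n)⁻¹ ≤ M * ϱ / η := by
          rw [inv_le_iff_one_le_mul₀ h3, div_mul_eq_mul_div, le_div_iff₀ hη]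
          linarith
        have h5 := ht0 p hp
        calc 4 * (8 * p.2 / (c * L n)) ^ 2 = 4 * (8 * p.2 / c * (L n)⁻¹) ^ 2 := by
              field_simp
          _ ≤ 4 * (8 * p.2 / c * (M * ϱ / η)) ^ 2 := by gcongr
          _ = 256 * M ^ 2 / (c ^ 2 * η ^ 2) * ϱ ^ 2 * p.2 ^ 2 := by ring
      refine (Finset.sum_le_sum h2).trans ?_
      rw [← ENNReal.ofReal_sum_of_nonneg (fun q _ => by positivity)]
      apply ENNReal.ofReal_le_ofReal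
      rw [← Finset.mul_sum]
      calc 256 * M ^ 2 / (c ^ 2 * η ^ 2) * ϱ ^ 2 * ∑ p ∈ t, p.2 ^ 2 ≤
          256 * M ^ 2 / (c ^ 2 * η ^ 2) * ϱ ^ 2 * ε := by gcongr
        _ = 256 * M ^ 2 / (c ^ 2 * η ^ 2) * ε * ϱ ^ 2 := by ring
    refine (add_le_add h1 h2).trans ?_
    rw [← ENNReal.ofReal_add (by positivity) (by positivity)]
    apply ENNReal.ofReal_le_ofReal
    apply le_of_eq
    ring
  · rintro ξ ⟨hξ, hξX⟩
    rw [mem_union, not_or] at hξX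
    -- allowed up to time n
    have hal : ∀ k ≤ n, Al F v Hl ρ k ξ := by
      intro k
      induction k with
      | zero => intro _ i hi; exact absurd hi (by omega)
      | succ k ih =>
        intro hk i hi h hh
        have ih' := ih (by omega)
        by_cases hik : i < k
        · exact ih' i hik h hh
        obtain rfl : i = k := by omega
        by_contra hlt
        push Not at hlt
        by_cases hkJ : i < J0
        · -- early times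
          obtain ⟨s1, s2, -⟩ := single hB hP hv0 hv' hN ξ hξ i (by omega) ih'
          have h1 := norm_v (w := w) (v := v) (c := c) hv0 hv' hϱ hξ
          have h2 : ‖G i (ZZ F v i ξ) - w 0‖ ≤ 3 / 2 * c * ϱ := by
            have h3 := norm_add_le (G i (ZZ F v i ξ) - v ξ) (v ξ - w 0)
            rw [sub_add_sub_cancel] at h3
            have h4 := hN.γs i (by omega)
            linarith
          have h3 := hB.lo i _ s1 _ (mem_closedBall_self hr1.le)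
          rw [hB.Gw] at h3
          have h4 : ‖ZZ F v i ξ - w i‖ ≤ m₀ := by
            refine h3.trans (le_trans ?_ g11)
            have h5 := hΛ1 i hkJ
            have h6 := hB.Lpos i
            calc 2 * L i * ‖G i (ZZ F v i ξ) - w 0‖ ≤ 2 * Λ * (3 / 2 * c * ϱ) := by gcongr
              _ = 3 * c * Λ * ϱ := by ring
          have h5 := hm2 i hkJ h hh
          have h6 := norm_add_le (w i - ZZ F v i ξ) (ZZ F v i ξ - h)
          rw [sub_add_sub_cancel, norm_sub_rev (w i) (ZZ F v i ξ)] at h6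
          rw [hρ1 i hkJ] at hlt
          linarith
        · apply hξX.1
          rw [mem_iUnion₂]
          refine ⟨(i, h), Finset.mem_product.2 ⟨Finset.mem_filter.2 ⟨Finset.mem_range.2 (by omega),
            by simpa using hkJ⟩, hh⟩, ?_⟩
          rw [hX1]
          exact ⟨hξ, ih', hlt⟩
    refine ⟨n, fun k hk => ⟨(single hB hP hv0 hv' hN ξ hξ k hk.le (hal k hk.le)).1, ρ k, hρ0 k,
      hN.ρ1 k hk, ?_, fun h hh => hal n le_rfl k hk h hh⟩,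
      (single hB hP hv0 hv' hN ξ hξ n le_rfl (hal n le_rfl)).1, ?_⟩
    · refine le_trans ?_ (hN.κρ k hk)
      rw [norm_pow]
      exact pow_le_pow_left₀ (norm_nonneg _) (mem_ball_zero_iff.1 hξ).le 2
    · intro p hp hmem
      apply hξX.2
      rw [mem_iUnion₂]
      refine ⟨p, hp, ?_⟩
      rw [hX2]
      rw [mem_ball, dist_eq_norm] at hmem
      exact ⟨hξ, hal n le_rfl, hmem⟩

end Run7.h725
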