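import Pool.Agent.Run7.h904.R5Main
import Pool.Agent.R239.Fat.T16
import Pool.Agent.Run7.h725.A3Shadow

/-! Attracted points of the reduced map stay attracted for nondegenerate maps near a degenerate
map. `plane_attU`, `trap_attU` are the theorems `plane_att`, `trap_att` of `R239/Fat` with a
uniform conclusion. -/

set_option autoImplicit false

open Topology Filter Metric Set Polynomial MeasureTheory
open scoped OnePoint
open Pool.Agent.H790R3.RB (CV hF ND sp pol hc pr hF_contDiff cr cr_self cr_smul_left Sink Attd)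
open Pool.Agent.H790R3.RB.SP (pr_zero pr_ne pr_eq_iff pr_hc sp_pr sp_cont continuousAt_pr)
open Pool.Agent.H790R3.RB.PQ (hF_one hF_inf part1 sp_eval pol_natDegree pol_coeff pol_coeff_gt)
open Pool.Agent.R239.Fat

namespace Run7.h725

section plane

variable {W : Set ℂ} {F : ℂ → ℂ} {r : ℝ}

theorem plane_attU (hW : IsOpen W) {R : ℝ} (hR : 0 < R) (hb : ∀ z ∈ W, ‖z‖ ≤ R)
    (hF : DifferentiableOn ℂ F W) (hr : 0 < r) (h : ∀ z ∈ W, ball (F z) r ⊆ W) {x : ℂ}
    (hx : x ∈ W) :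
    ∃ m n : ℕ, 0 < n ∧ ∃ p ∈ W, F^[n] p = p ∧
      (∃ U ∈ 𝓝 p, U ⊆ W ∧ ∀ V ∈ 𝓝 p, ∀ᶠ k : ℕ in atTop, ∀ w ∈ U, F^[n * k] w ∈ V) ∧
      Tendsto (fun k : ℕ => F^[n * k] (F^[m] x)) atTop (𝓝 p) := by
  have hmaps : ∀ z ∈ W, F z ∈ W := fun z hz => h z hz (mem_ball_self hr)
  set θ : ℝ := 1 / (1 + r / (4 * R)) with hθ
  have hθ0 : 0 < θ := by positivity
  have hθ1 : θ < 1 := by
    rw [hθ, div_lt_one (by positivity)]
    have : 0 < r / (4 * R) := by positivity
    linarith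
  set C : ℝ := 4 * R / r with hC
  have hC0 : 0 < C := by positivity
  obtain ⟨n₀, hn₀⟩ : ∃ n₀ : ℕ, ∀ n, n₀ ≤ n → C * θ ^ n ≤ 1 / 4 := by
    have h1 : Tendsto (fun n : ℕ => C * θ ^ n) atTop (𝓝 (C * 0)) :=
      (tendsto_pow_atTop_nhds_zero_of_lt_one hθ0.le hθ1).const_mul C
    rw [mul_zero] at h1
    exact eventually_atTop.1 ((h1.eventually (gt_mem_nhds (by norm_num : (0 : ℝ) < 1 / 4))).mono
      fun n hn => hn.le)
  -- two close points
  obtain ⟨i, j, hij, hd⟩ : ∃ i j : ℕ, i < j ∧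
      dist (F^[(i * (n₀ + 1)) + 1] x) (F^[(j * (n₀ + 1)) + 1] x) < r / 8 := by
    have hcpt : IsCompact (closedBall (0 : ℂ) R) := isCompact_closedBall 0 R
    obtain ⟨y, -, φ, hφ, hlim⟩ := hcpt.tendsto_subseq
      (x := fun k : ℕ => F^[(k * (n₀ + 1)) + 1] x)
      (fun k => by rw [mem_closedBall_zero_iff]; exact hb _ (maps_iter hmaps _ x hx))
    obtain ⟨N, hN⟩ := Metric.cauchySeq_iff.1 hlim.cauchySeq (r / 8) (by positivity)
    exact ⟨φ N, φ (N + 1), hφ (by omega), hN N le_rfl (N + 1) (by omega)⟩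
  set u := F^[(i * (n₀ + 1)) + 1] x with hu
  set n := (j - i) * (n₀ + 1) with hn
  have hn0 : 0 < n := Nat.mul_pos (by omega) (by omega)
  have hnn : n₀ ≤ n := by
    have : 1 ≤ j - i := by omega
    nlinarith
  have hFu : F^[n] u = F^[(j * (n₀ + 1)) + 1] x := by
    rw [hu, ← Function.iterate_add_apply]
    congr 1
    rw [hn, Nat.sub_mul]
    have : i * (n₀ + 1) ≤ j * (n₀ + 1) := Nat.mul_le_mul_right _ hij.le
    omega
  rw [← hFu] at hd
  have hub : ball u r ⊆ W := by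
    rw [hu, Function.iterate_succ_apply']
    exact h _ (maps_iter hmaps _ x hx)
  have hder : ∀ v ∈ closedBall u (r / 4), ‖deriv F^[n] v‖ ≤ 1 / 4 := by
    intro v hv
    refine (contract hW hR hb hF hr h ?_ n).trans (hn₀ n hnn)
    intro w hw
    apply hub
    rw [mem_ball] at hw ⊢
    rw [mem_closedBall] at hv
    have := dist_triangle w v u
    linarith
  have hdiff := diff_iter hF hmaps n
  have hcl : ∀ v ∈ closedBall u (r / 4), v ∈ W := fun v hv =>
    hub (closedBall_subset_ball (by linarith) hv)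
  have hlip : ∀ v ∈ closedBall u (r / 4), ∀ v' ∈ closedBall u (r / 4),
      ‖F^[n] v - F^[n] v'‖ ≤ 1 / 4 * ‖v - v'‖ := by
    intro v hv v' hv'
    exact (convex_closedBall u (r / 4)).norm_image_sub_le_of_norm_deriv_le
      (fun w hw => hdiff.differentiableAt (hW.mem_nhds (hcl w hw))) hder hv' hv
  have huB : u ∈ closedBall u (r / 4) := mem_closedBall_self (by positivity)
  have hmB : ∀ v ∈ closedBall u (r / 4), F^[n] v ∈ closedBall u (r / 5) := by
    intro v hv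
    rw [mem_closedBall, dist_eq_norm]
    have h1 := hlip v hv u huB
    rw [mem_closedBall, dist_eq_norm] at hv
    have h2 : ‖F^[n] u - u‖ < r / 8 := by rw [← dist_eq_norm, dist_comm]; exact hd
    have h3 := norm_sub_le_norm_sub_add_norm_sub (F^[n] v) (F^[n] u) u
    linarith
  have hmB' : ∀ v ∈ closedBall u (r / 4), F^[n] v ∈ closedBall u (r / 4) := fun v hv =>
    closedBall_subset_closedBall (by linarith) (hmB v hv)
  have hpow : ∀ k : ℕ, ∀ v ∈ closedBall u (r / 4), (F^[n])^[k] v ∈ closedBall u (r / 4) := by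
    intro k
    induction k with
    | zero => intro v hv; exact hv
    | succ k ih => intro v hv; rw [Function.iterate_succ_apply']; exact hmB' _ (ih v hv)
  have hpl : ∀ k : ℕ, ∀ v ∈ closedBall u (r / 4), ∀ v' ∈ closedBall u (r / 4),
      ‖(F^[n])^[k] v - (F^[n])^[k] v'‖ ≤ (1 / 4) ^ k * ‖v - v'‖ := by
    intro k
    induction k with
    | zero => intro v _ v' _; simp
    | succ k ih =>
      intro v hv v' hv'
      rw [Function.iterate_succ_apply', Function.iterate_succ_apply']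
      refine (hlip _ (hpow k v hv) _ (hpow k v' hv')).trans ?_
      have := ih v hv v' hv'
      rw [pow_succ]
      nlinarith
  obtain ⟨p, hp⟩ := cauchySeq_tendsto_of_complete
    (cauchySeq_of_le_geometric (1 / 4) (r / 2) (by norm_num)
      (f := fun k => (F^[n])^[k] u) (by
        intro k
        rw [dist_eq_norm, Function.iterate_succ_apply]
        refine (hpl k u huB _ (hmB' u huB)).trans ?_
        have h1 : ‖u - F^[n] u‖ ≤ r / 2 := by
          rw [← dist_eq_norm]; linarith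
        rw [mul_comm]
        gcongr))
  have hpB : p ∈ closedBall u (r / 4) := isClosed_closedBall.mem_of_tendsto hp
    (Eventually.of_forall fun k => hpow k u huB)
  have hpfix : F^[n] p = p := by
    have h1 : Tendsto (fun k : ℕ => (F^[n])^[k + 1] u) atTop (𝓝 p) :=
      hp.comp (tendsto_add_atTop_nat 1)
    have h2 : Tendsto (fun k : ℕ => F^[n] ((F^[n])^[k] u)) atTop (𝓝 (F^[n] p)) :=
      ((hdiff.differentiableAt (hW.mem_nhds (hcl p hpB))).continuousAt.tendsto).comp hp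
    have h3 : (fun k : ℕ => F^[n] ((F^[n])^[k] u)) = fun k : ℕ => (F^[n])^[k + 1] u := by
      funext k; rw [Function.iterate_succ_apply']
    rw [h3] at h2
    exact tendsto_nhds_unique h2 h1
  have hpU : closedBall u (r / 4) ∈ 𝓝 p := by
    refine mem_of_superset (isOpen_ball.mem_nhds (?_ : p ∈ ball u (r / 4))) ball_subset_closedBall
    have h1 := hmB p hpB
    rw [hpfix] at h1
    exact closedBall_subset_ball (by linarith) h1
  have hconv : ∀ v ∈ closedBall u (r / 4), Tendsto (fun k : ℕ => F^[n * k] v) atTop (𝓝 p) := by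
    intro v hv
    rw [tendsto_iff_norm_sub_tendsto_zero]
    have h1 : Tendsto (fun k : ℕ => (1 / 4 : ℝ) ^ k * ‖v - p‖) atTop (𝓝 (0 * ‖v - p‖)) :=
      (tendsto_pow_atTop_nhds_zero_of_lt_one (by norm_num) (by norm_num)).mul_const _
    rw [zero_mul] at h1
    refine squeeze_zero (fun _ => norm_nonneg _) (fun k => ?_) h1
    have h2 := hpl k v hv p hpB
    rw [Function.iterate_fixed hpfix k] at h2
    rw [Function.iterate_mul]
    exact h2
  refine ⟨(i * (n₀ + 1)) + 1, n, hn0, p, hcl p hpB, hpfix,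
    ⟨closedBall u (r / 4), hpU, hcl, ?_⟩, hconv u huB⟩
  intro V hV
  obtain ⟨e, he, heV⟩ := Metric.mem_nhds_iff.1 hV
  have h1 : Tendsto (fun k : ℕ => (1 / 4 : ℝ) ^ k * (r / 2)) atTop (𝓝 (0 * (r / 2))) :=
    (tendsto_pow_atTop_nhds_zero_of_lt_one (by norm_num) (by norm_num)).mul_const _
  rw [zero_mul] at h1
  filter_upwards [h1.eventually (gt_mem_nhds he)] with k hk w hw
  apply heV
  rw [mem_ball, dist_eq_norm]
  have h2 := hpl k w hw p hpB
  rw [Function.iterate_fixed hpfix k] at h2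
  rw [Function.iterate_mul]
  refine (h2.trans ?_).trans_lt hk
  have h3 : ‖w - p‖ ≤ r / 2 := by
    have h4 := norm_sub_le_norm_sub_add_norm_sub w u p
    have h5 : ‖w - u‖ ≤ r / 4 := by rw [← dist_eq_norm]; exact hw
    have h6 : ‖u - p‖ ≤ r / 4 := by rw [← dist_eq_norm, dist_comm]; exact hpB
    linarith
  gcongr


end plane

/-- Robustly invariant bounded open sets of the plane. -/
theorem sph_attU {g : Sph → Sph} (hg : Hol g) {W : Set ℂ} (hW : IsOpen W) {R : ℝ} (hR : 0 < R)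
    (hb : ∀ z ∈ W, ‖z‖ ≤ R) {r : ℝ} (hr : 0 < r)
    (h : ∀ z ∈ W, ∃ u : ℂ, g (z : Sph) = (u : Sph) ∧ ball u r ⊆ W) {z : ℂ} (hz : z ∈ W) :
    Attd g (z : Sph) := by
  obtain ⟨G, hG⟩ := hg.lift
  set F := pl G with hF
  have hFg : ∀ z ∈ W, g (z : Sph) = (F z : Sph) ∧ ball (F z) r ⊆ W := by
    intro z hz
    obtain ⟨u, h1, h2⟩ := h z hz
    have h3 := (pl_spec hG h1).2
    rw [hF, h3]
    exact ⟨h1, h2⟩
  have hmaps : ∀ z ∈ W, F z ∈ W := fun z hz => (hFg z hz).2 (mem_ball_self hr)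
  have hFd : DifferentiableOn ℂ F W := by
    intro z hz
    obtain ⟨u, h1, -⟩ := h z hz
    exact (pl_diff hG.cd (pl_spec hG h1).1).differentiableWithinAt
  have hit : ∀ n, ∀ z ∈ W, g^[n] (z : Sph) = (F^[n] z : Sph) := by
    intro n
    induction n with
    | zero => intro z _; rfl
    | succ n ih =>
      intro z hz
      rw [Function.iterate_succ_apply', ih z hz, (hFg _ (maps_iter hmaps n z hz)).1,
        Function.iterate_succ_apply']
  obtain ⟨m, n, hn, p, hpW, hp, ⟨U, hU, hUW, hU'⟩, ht⟩ :=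
    plane_attU hW hR hb hFd hr (fun z hz => (hFg z hz).2) hz
  apply Pool.Agent.W376.RQTRAP.attd_of_iter hg.cont (m := m)
  refine ⟨n, (p : Sph), ⟨hn, ?_, _, nhds_coe hU, ?_⟩, ?_⟩
  · rw [hit n p hpW, hp]
  · intro V hV
    have h1 : (fun z : ℂ => (z : Sph)) ⁻¹' V ∈ 𝓝 p :=
      OnePoint.continuous_coe.continuousAt.preimage_mem_nhds hV
    filter_upwards [hU' _ h1] with k hk
    rintro _ ⟨w, hw, rfl⟩
    show g^[n * k] (w : Sph) ∈ V
    rw [hit _ w (hUW hw)]
    exact hk w hw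
  · refine ((OnePoint.continuous_coe.tendsto p).comp ht).congr fun k => ?_
    show ((F^[n * k] (F^[m] z) : ℂ) : Sph) = _
    rw [hit m z hz, hit _ _ (maps_iter hmaps m z hz)]

/-- points in an open set which is mapped into a compact subset are attracted -/
theorem trap_attU {h : Sph → Sph} (hh : Hol h) {W K : Set Sph} (hW : IsOpen W) (hK : IsCompact K)
    (hKW : K ⊆ W) {z₀ : ℂ} (hz₀ : (z₀ : Sph) ∉ closure W) (hm : ∀ x ∈ W, h x ∈ K) :
    ∀ x ∈ W, Attd h x := by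
  set φ := hz z₀ with hφ
  have hφi : φ (z₀ : Sph) = ∞ := hz_apply z₀
  have hh' : Hol (fun y => φ (h (φ.symm y))) := hol_conj z₀ hh
  set i : ℂ → Sph := fun z => (z : Sph) with hi
  have hic : Continuous i := OnePoint.continuous_coe
  set W₁ : Set ℂ := i ⁻¹' (φ.symm ⁻¹' W) with hW₁
  set K₁ : Set ℂ := i ⁻¹' (φ.symm ⁻¹' K) with hK₁
  have hW₁o : IsOpen W₁ := (hW.preimage φ.symm.continuous).preimage hic
  -- boundedness
  obtain ⟨R, hR, hRb⟩ : ∃ R : ℝ, 0 < R ∧ ∀ z ∈ W₁, ‖z‖ ≤ R := by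
    have h1 : (φ.symm ⁻¹' (closure W))ᶜ ∈ 𝓝 (∞ : Sph) := by
      have h2 : IsOpen (φ.symm ⁻¹' (closure W))ᶜ :=
        (isClosed_closure.preimage φ.symm.continuous).isOpen_compl
      refine h2.mem_nhds fun h3 => hz₀ ?_
      have h4 : φ.symm ∞ ∈ closure W := h3
      rw [← hφi, φ.symm_apply_apply] at h4
      exact h4
    obtain ⟨ρ, hρ, h2⟩ := nhds_big h1
    refine ⟨ρ, hρ, fun z hz => ?_⟩
    by_contra h3
    push Not at h3
    exact h2 (z : Sph) (big_coe.2 h3) (subset_closure hz)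
  have hK₁W : K₁ ⊆ W₁ := fun z hz => hKW hz
  have hK₁c : IsCompact K₁ := by
    refine Metric.isCompact_of_isClosed_isBounded
      ((hK.isClosed.preimage φ.symm.continuous).preimage hic) ?_
    exact isBounded_iff_forall_norm_le.2 ⟨R, fun z hz => hRb z (hK₁W hz)⟩
  obtain ⟨ε, hε, hεW⟩ := hK₁c.exists_thickening_subset_open hW₁o hK₁W
  intro x hx
  have hne : ∀ y ∈ W, ∃ z : ℂ, φ y = (z : Sph) := by
    intro y hy
    have : φ y ≠ ∞ := by
      intro h1
      rw [← hφi] at h1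
      rw [φ.injective h1] at hy
      exact hz₀ (subset_closure hy)
    obtain ⟨z, hz⟩ := OnePoint.ne_infty_iff_exists.1 this
    exact ⟨z, hz.symm⟩
  obtain ⟨z, hz⟩ := hne x hx
  have hcj : ∀ z, h (φ.symm z) = φ.symm (φ (h (φ.symm z))) := fun z => (φ.symm_apply_apply _).symm
  suffices hA : Attd (fun y => φ (h (φ.symm y))) (φ x) by
    have := Pool.Agent.H790R3.RB.ALL.attd φ.symm hcj hA
    rwa [φ.symm_apply_apply] at this
  rw [hz]
  have hmem : ∀ (y : Sph) (S : Set Sph) (z : ℂ), φ y = (z : Sph) → (y ∈ S ↔ z ∈ i ⁻¹' (φ.symm ⁻¹' S)) := by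
    intro y S z hz
    show y ∈ S ↔ φ.symm (z : Sph) ∈ S
    rw [← hz, φ.symm_apply_apply]
  refine sph_attU hh' hW₁o hR hRb hε (fun v hv => ?_) ((hmem x W z hz).1 hx)
  have h1 : h (φ.symm (v : Sph)) ∈ K := hm _ hv
  obtain ⟨u, hu⟩ := hne _ (hKW h1)
  refine ⟨u, hu, fun s hs => hεW ?_⟩
  rw [mem_thickening_iff]
  exact ⟨u, (hmem _ K u hu).1 h1, by rw [mem_ball] at hs; exact hs⟩

theorem attd_of_iterate {f : Sph → Sph} {n : ℕ} (hn : n ≠ 0) {x : Sph} (h : Attd f^[n] x) :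
    Attd f x := by
  obtain ⟨k, z, ⟨hk, hz, U, hU, hU'⟩, ht⟩ := h
  have h1 : ∀ j : ℕ, (f^[n])^[k * j] = f^[n * k * j] := by
    intro j
    rw [← Function.iterate_mul, Nat.mul_assoc]
  refine ⟨n * k, z, ⟨Nat.mul_pos (Nat.pos_of_ne_zero hn) hk, ?_, U, hU, fun V hV => ?_⟩, ?_⟩
  · rw [Function.iterate_mul]; exact hz
  · have h2 := hU' V hV
    simp only [h1] at h2
    exact h2
  · simp only [h1] at ht
    exact ht

/-- attracted points whose orbit avoids the holes stay attracted near the degenerate map -/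
theorem persistA {d m : ℕ} (hd : 1 ≤ d) {y : CV d} (hy : ND y) {A : Set Sph} (hA : A.Finite)
    (hmap : ∀ a ∈ A, sp y a ∈ A) (hs : ∀ a ∈ A, ∃ n, Snk (sp y) n a) {q : Fin m → ℂ}
    (hqA : ∀ j, ((q j : ℂ) : Sph) ∉ A) {v : Sph} (hv : AttBy (sp y) A v)
    (hesc : ∀ n j, (sp y)^[n] v ≠ ((q j : ℂ) : Sph)) :
    ∃ O ∈ 𝓝 v, ∀ᶠ x in 𝓝 (deg y q), ND x → ∀ u ∈ O, Attd (sp x) u := by
  have hyH : Hol (sp y) := hol_sp hd hy
  set Hl : Set Sph := Set.range fun j => ((q j : ℂ) : Sph) with hHl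
  have hHlf : Hl.Finite := Set.finite_range _
  have hψ : ∀ s ∉ Hl, hF (deg y q) (hc s) ≠ 0 ∧ pr (hF (deg y q) (hc s)) = sp y s :=
    fun s hs => deg_hole hy q hs
  obtain ⟨U, hUo, hAU, hU1, hU2⟩ := absorb hyH.cont hA hmap hs
  have hAHl : ∀ a ∈ A, a ∉ Hl := by
    rintro a ha ⟨j, rfl⟩
    exact hqA j ha
  set V₁ : Set Sph := U ∩ Hlᶜ with hV₁
  have hV₁o : IsOpen V₁ := hUo.inter hHlf.isClosed.isOpen_compl
  have hAV₁ : A ⊆ V₁ := fun a ha => ⟨hAU ha, hAHl a ha⟩
  obtain ⟨n₁, hn₁⟩ := hU2 V₁ hV₁o hAV₁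
  obtain ⟨z₀, hz₀⟩ : ∃ z₀ : ℂ, (z₀ : Sph) ∉ A := by
    by_contra hcon
    push Not at hcon
    have h1 : (Set.range fun z : ℂ => (z : Sph)) ⊆ A := by
      rintro _ ⟨z, rfl⟩
      exact hcon z
    exact (Set.infinite_range_of_injective OnePoint.coe_injective) (hA.subset h1)
  set O₁ : Set Sph := ((⋂ i ∈ Finset.range n₁, (sp y)^[i] ⁻¹' V₁) ∩ U) ∩ {(z₀ : Sph)}ᶜ with hO₁
  have hO₁o : IsOpen O₁ := ((isOpen_biInter_finset fun i _ =>
    hV₁o.preimage (hyH.cont.iterate i)).inter hUo).inter isOpen_compl_singleton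
  have hAO₁ : A ⊆ O₁ := by
    intro a ha
    refine ⟨⟨?_, hAU ha⟩, fun h => hz₀ (by rw [mem_singleton_iff] at h; rwa [← h])⟩
    rw [mem_iInter₂]
    intro i _
    exact hAV₁ (iter_mem hmap ha i)
  obtain ⟨W, hWo, hAW, hWcl, hWc⟩ := exists_open_between_and_isCompact_closure hA.isCompact
    hO₁o hAO₁
  obtain ⟨W₁, hW₁o, hAW₁, hW₁cl, hW₁c⟩ := exists_open_between_and_isCompact_closure
    hA.isCompact hWo hAW
  obtain ⟨n₂, hn₂⟩ := hU2 W₁ hW₁o hAW₁
  have hz₀W : (z₀ : Sph) ∉ closure W := fun h => (hWcl h).2 rfl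
  have hWhole : ∀ s ∈ closure W, ∀ i, (sp y)^[i] s ∉ Hl := by
    intro s hs i
    have h1 := hWcl hs
    by_cases hi : i < n₁
    · have h2 := h1.1.1
      rw [mem_iInter₂] at h2
      exact (h2 i (Finset.mem_range.2 hi)).2
    · exact (hn₁ i (by omega) s h1.1.2).2
  have ht := jc_compact hψ hWc (n := n₂ + 1) (fun s hs i _ => hWhole s hs i) hW₁o
    (fun s hs => hn₂ (n₂ + 1) (by omega) s (hWcl hs).1.2)
  have hspH : ∀ x : CV (m + d), ND x → Hol (sp x) := fun x hx => hol_sp (by omega) hx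
  have htrap : ∀ᶠ x in 𝓝 (deg y q), ND x → ∀ s ∈ W, Attd (sp x) s := by
    filter_upwards [ht] with x hx hnd s hs
    have hit : ∀ n, Hol (sp x)^[n] := by
      intro n
      induction n with
      | zero => exact Hol.id
      | succ n ih => rw [Function.iterate_succ']; exact ih.comp (hspH x hnd)
    refine attd_of_iterate (n := n₂ + 1) (by omega) ?_
    exact trap_attU (hit _) hWo hW₁c hW₁cl hz₀W
      (fun v hv => subset_closure (hx hnd v (subset_closure hv))) s hs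
  obtain ⟨k, hk⟩ : ∃ k : ℕ, (sp y)^[k] v ∈ W := by
    obtain ⟨n, hn⟩ := (hU1 v).1 hv
    refine ⟨n₂ + n, ?_⟩
    rw [Function.iterate_add_apply]
    exact hW₁cl (subset_closure (hn₂ n₂ le_rfl _ hn))
  have h1 := ev_iff.1 ((jc_iter hψ (n := k) (s₀ := v) (fun i _ => by
    rintro ⟨j, hj⟩
    exact hesc i j hj.symm)).eventually (hWo.mem_nhds hk))
  rw [nhds_prod_eq, eventually_prod_iff] at h1
  obtain ⟨pa, hpa, pb, hpb, h2⟩ := h1
  refine ⟨{s | pb s}, hpb, ?_⟩
  filter_upwards [htrap, hpa] with x hx1 hx2 hnd u hu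
  exact Pool.Agent.W376.RQTRAP.attd_of_iter (hspH x hnd).cont (m := k) (hx1 hnd _ (h2 hx2 hu hnd))

/-- attracted points whose orbit avoids the holes stay attracted near the degenerate map -/
theorem persist {d m : ℕ} (hd : 1 ≤ d) {y : CV d} (hy : ND y) {q : Fin m → ℂ}
    (hqp : ∀ j, ∀ n, 0 < n → (sp y)^[n] ((q j : ℂ) : Sph) ≠ ((q j : ℂ) : Sph)) {v : Sph}
    (hv : Attd (sp y) v) (hesc : ∀ n j, (sp y)^[n] v ≠ ((q j : ℂ) : Sph)) :
    ∃ O ∈ 𝓝 v, ∀ᶠ x in 𝓝 (deg y q), ND x → ∀ u ∈ O, Attd (sp x) u := by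
  have hyH : Hol (sp y) := hol_sp hd hy
  obtain ⟨n, a, hsk, ht⟩ := hv
  have hn := hsk.1
  have hfix := hsk.2.1
  refine persistA hd hy (A := (fun i => (sp y)^[i] a) '' (Finset.range n : Set ℕ))
    ((Finset.finite_toSet _).image _) ?_ ?_ ?_ ⟨a, ⟨0, by simpa using hn, rfl⟩, n, hn, ht⟩ hesc
  · rintro _ ⟨i, hi, rfl⟩
    simp only [Finset.coe_range, mem_Iio] at hi
    rcases Nat.lt_or_ge (i + 1) n with h | h
    · refine ⟨i + 1, by simpa using h, ?_⟩
      simp only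
      rw [Function.iterate_succ_apply']
    · refine ⟨0, by simpa using hn, ?_⟩
      have h1 : i + 1 = n := by omega
      have h2 : sp y ((sp y)^[i] a) = (sp y)^[i + 1] a := (Function.iterate_succ_apply' _ _ _).symm
      show (sp y)^[0] a = sp y ((sp y)^[i] a)
      rw [h2, h1, hfix]
      rfl
  · rintro _ ⟨i, -, rfl⟩
    exact ⟨n, Pool.Agent.W376.RQTRAP.sink_iter hyH.cont hsk i⟩
  · rintro j ⟨i, -, hi⟩
    apply hqp j n hn
    simp only at hi
    rw [← hi, ← Function.iterate_add_apply, add_comm, Function.iterate_add_apply, hfix]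

end Run7.h725
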