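import Pool.Agent.Run7.h725.A4Pers

/-! Copies of the theorems of the files `Run7/h904/Z4Bad`, `Z5A` for the set of the points which
are not attracted by sinks. -/

set_option autoImplicit false

open Topology Filter Metric Set Polynomial MeasureTheory Asymptotics
open scoped OnePoint

namespace Run7.h725

open Run7.h904.RF
open Pool.Agent.H790R3.RB (CV hF cr ND wr rt sp pr hc pol Sink Attd HypTop)
open Pool.Agent.W757.QR Pool.Agent.W757.RF Pool.Agent.W757.Q2
open Pool.Agent.W29.RQSNK (sp_iter fin_of sp_fx sp_inf fx_iter_diff)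

/-- points some image of which is attracted -/
def AtE {d : ℕ} (x : CV d) (z : OnePoint ℂ) : Prop := ∃ k : ℕ, Attd (sp x) ((sp x)^[k] z)

lemma atE_of {d : ℕ} {x : CV d} {z : OnePoint ℂ} (h : Attd (sp x) z) : AtE x z := ⟨0, h⟩

lemma atE_back {d : ℕ} {x : CV d} {z : OnePoint ℂ} (n : ℕ) (h : AtE x ((sp x)^[n] z)) : AtE x z := by
  obtain ⟨k, hk⟩ := h
  refine ⟨k + n, ?_⟩
  rwa [Function.iterate_add_apply]

lemma at_fw {d : ℕ} {x : CV d} {z : OnePoint ℂ} (h : Attd (sp x) z) :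
    ∃ n, 0 < n ∧ Attd (sp x) ((sp x)^[n] z) := by
  have key : ∀ (n : ℕ) (a : OnePoint ℂ), Tendsto (fun k : ℕ => (sp x)^[n * k] z) atTop (𝓝 a) →
      Tendsto (fun k : ℕ => (sp x)^[n * k] ((sp x)^[n] z)) atTop (𝓝 a) := by
    intro n a h1
    have h2 := (tendsto_add_atTop_iff_nat (f := fun k : ℕ => (sp x)^[n * k] z) 1).2 h1
    refine h2.congr fun k => ?_
    rw [← Function.iterate_add_apply]
    congr 1
  obtain ⟨n, a, hs, hlim⟩ := h
  exact ⟨n, hs.1, n, a, hs, key n a hlim⟩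

lemma atE_fw {d : ℕ} {x : CV d} {z : OnePoint ℂ} (h : AtE x z) : AtE x (sp x z) := by
  obtain ⟨k, hk⟩ := h
  rcases k with _ | k
  · obtain ⟨n, hn, h1⟩ := at_fw hk
    obtain ⟨m, rfl⟩ : ∃ m, n = m + 1 := ⟨n - 1, by omega⟩
    refine ⟨m, ?_⟩
    rw [Function.iterate_zero_apply, Function.iterate_succ_apply] at h1
    exact h1
  · rw [Function.iterate_succ_apply] at hk
    exact ⟨k, hk⟩

lemma atE_fwn {d : ℕ} {x : CV d} {z : OnePoint ℂ} (h : AtE x z) (n : ℕ) : AtE x ((sp x)^[n] z) := by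
  induction n with
  | zero => exact h
  | succ n ih => rw [Function.iterate_succ_apply']; exact atE_fw ih

/-- the attracted points -/
lemma attd_of_atE {d : ℕ} (hd : 2 ≤ d) {x : CV d} (hx : ND x) {z : OnePoint ℂ} (h : AtE x z) :
    Attd (sp x) z := by
  obtain ⟨k, hk⟩ := h
  exact Pool.Agent.W376.RQTRAP.attd_of_iter (sp_cont hd x hx) hk

/-- a neighbourhood of attracted points with uniform convergence -/
theorem at_unif {d : ℕ} (hd : 2 ≤ d) (x : CV d) (hx : ND x)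
    (hinf : ∞ ∉ Function.periodicPts (sp x)) (z : OnePoint ℂ) (h : Attd (sp x) z) :
    ∃ U ∈ 𝓝 z, (∀ w ∈ U, Attd (sp x) w) ∧ ∃ (N : ℕ) (a : OnePoint ℂ), 0 < N ∧
      ∀ V ∈ 𝓝 a, ∀ᶠ k : ℕ in atTop, ∀ w ∈ U, (sp x)^[N * k] w ∈ V := by
  obtain ⟨σ, U, hσ, hU, H⟩ := Pool.Agent.W324.RQOPA.task d x z hd hx h
  obtain ⟨U', hU', -, N, a, hN, h1⟩ := gd_unif hd x hx hinf z (Or.inl h)
  refine ⟨U ∩ U', inter_mem hU hU', fun w hw => (H x (by rw [sub_self, norm_zero]; exact hσ)).2 w hw.1,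
    N, a, hN, fun V hV => ?_⟩
  filter_upwards [h1 V hV] with k hk w hw
  exact hk w hw.2

/-- uniform convergence to a cycle -/
theorem atE_unif {d : ℕ} (hd : 2 ≤ d) (x : CV d) (hx : ND x)
    (hinf : ∞ ∉ Function.periodicPts (sp x)) (z : OnePoint ℂ) (h : AtE x z) :
    ∃ U ∈ 𝓝 z, (∀ w ∈ U, AtE x w) ∧ ∃ C : Set (OnePoint ℂ), C.Finite ∧
      C ⊆ Function.periodicPts (sp x) ∧
      ∀ O : Set (OnePoint ℂ), IsOpen O → C ⊆ O → ∀ᶠ m : ℕ in atTop, ∀ w ∈ U, (sp x)^[m] w ∈ O := by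
  obtain ⟨k, hk⟩ := h
  have hcont := sp_cont hd x hx
  obtain ⟨U, hU, hUg, N, a, hN, hun⟩ := at_unif hd x hx hinf _ hk
  have ha : (sp x)^[N] a = a := by
    have h0 : Tendsto (fun j : ℕ => (sp x)^[N * j] ((sp x)^[k] z)) atTop (𝓝 a) := by
      rw [tendsto_iff_forall_eventually_mem]
      intro V hV
      exact (hun V hV).mono fun j hj => hj _ (mem_of_mem_nhds hU)
    have h1 : Tendsto (fun j : ℕ => (sp x)^[N] ((sp x)^[N * j] ((sp x)^[k] z))) atTop
        (𝓝 ((sp x)^[N] a)) := ((hcont.iterate N).tendsto a).comp h0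
    have h2 := (tendsto_add_atTop_iff_nat (f := fun j : ℕ => (sp x)^[N * j] ((sp x)^[k] z)) 1).2 h0
    refine tendsto_nhds_unique (h1.congr fun j => ?_) h2
    rw [← Function.iterate_add_apply]
    congr 1
    ring
  refine ⟨(sp x)^[k] ⁻¹' U, (hcont.iterate k).continuousAt.preimage_mem_nhds hU,
    fun w hw => ⟨k, hUg _ hw⟩, (fun i : ℕ => (sp x)^[i] a) '' (Finset.range N : Set ℕ),
    (Finset.finite_toSet _).image _, ?_, ?_⟩
  · rintro _ ⟨i, -, rfl⟩
    refine Function.mk_mem_periodicPts hN ?_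
    show (sp x)^[N] ((sp x)^[i] a) = (sp x)^[i] a
    rw [← Function.iterate_add_apply, add_comm, Function.iterate_add_apply, ha]
  · intro O hO hCO
    have h1 : ∀ᶠ b in 𝓝 a, ∀ i ∈ Finset.range N, (sp x)^[i] b ∈ O := by
      rw [Finset.eventually_all]
      intro i hi
      exact (hcont.iterate i).continuousAt.eventually (hO.mem_nhds (hCO ⟨i, hi, rfl⟩))
    obtain ⟨j₀, hj₀⟩ := (hun _ h1).exists_forall_of_atTop
    filter_upwards [eventually_ge_atTop (k + N * j₀)] with m hm w hw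
    obtain ⟨s, hs⟩ : ∃ s, s = m - k := ⟨_, rfl⟩
    have e : m = s % N + (N * (s / N) + k) := by
      have := Nat.mod_add_div s N
      omega
    rw [e, Function.iterate_add_apply, Function.iterate_add_apply]
    refine hj₀ (s / N) ?_ _ hw (s % N) (Finset.mem_range.2 (Nat.mod_lt _ hN))
    exact (Nat.le_div_iff_mul_le hN).2 (by rw [mul_comm]; omega)

/-- the setting for the proof that the bad set has zero area -/
structure YS {d : ℕ} (x : CV d) (P : Set (OnePoint ℂ)) (q₂ : ℂ) : Prop where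
  hd : 2 ≤ d
  hx : ND x
  pc : PC x P
  cl : IsClosed P
  cnt : P.Countable
  q2 : (q₂ : OnePoint ℂ) ∈ P
  ginf : AtE x ∞
  pinf : ∞ ∉ Function.periodicPts (sp x)

/-- the bad set in the plane -/
def NA {d : ℕ} (x : CV d) : Set ℂ := {z | ¬ AtE x (z : OnePoint ℂ)}

section setting

variable {d : ℕ} {x : CV d} {P : Set (OnePoint ℂ)} {q₂ : ℂ}

lemma YS.closed (h : YS x P q₂) : IsClosed (NA x) := by
  rw [← isOpen_compl_iff, isOpen_iff_mem_nhds]
  intro z hz
  have hz' : AtE x (z : OnePoint ℂ) := by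
    by_contra h0
    exact hz h0
  obtain ⟨U, hU, hUg, -⟩ := atE_unif h.hd x h.hx h.pinf _ hz'
  filter_upwards [OnePoint.continuous_coe.continuousAt.preimage_mem_nhds hU] with w hw hw2
  exact hw2 (hUg _ hw)

lemma YS.bdd (h : YS x P q₂) : ∃ M : ℝ, 0 < M ∧ ∀ z ∈ NA x, ‖z‖ ≤ M := by
  obtain ⟨U, hU, hUg, -⟩ := atE_unif h.hd x h.hx h.pinf _ h.ginf
  have h1 := (OnePoint.tendsto_coe_infty (X := ℂ)).eventually hU
  rw [Filter.coclosedCompact_eq_cocompact, Metric.cobounded_eq_cocompact.symm] at h1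
  have h2 : ∀ᶠ z : ℂ in Bornology.cobounded ℂ, (z : OnePoint ℂ) ∈ U := h1
  rw [← comap_norm_atTop, eventually_comap] at h2
  obtain ⟨M, hM⟩ := h2.exists_forall_of_atTop
  refine ⟨max M 1, lt_max_of_lt_right one_pos, fun z hz => ?_⟩
  by_contra hcon
  push Not at hcon
  exact hz (hUg _ (hM ‖z‖ ((le_max_left _ _).trans hcon.le) z rfl))

lemma YS.fin (h : YS x P q₂) {z : ℂ} (hz : z ∈ NA x) : Fin' x z := by
  apply fin_of
  intro j hj
  apply hz
  apply atE_back j
  rw [hj]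
  exact h.ginf

lemma YS.orb (h : YS x P q₂) {z : ℂ} (hz : z ∈ NA x) (n : ℕ) :
    (sp x)^[n] (z : OnePoint ℂ) = (((fx x)^[n] z : ℂ) : OnePoint ℂ) ∧ (fx x)^[n] z ∈ NA x := by
  have h1 := sp_iter x z n (fun j _ => h.fin hz j)
  refine ⟨h1, fun h2 => hz (atE_back n ?_)⟩
  rw [h1]
  exact h2

/-- backward invariance -/
lemma YS.back (h : YS x P q₂) {z w : ℂ} {n : ℕ} (hw : w ∈ NA x)
    (he : (sp x)^[n] (z : OnePoint ℂ) = w) : z ∈ NA x := by
  intro h1
  apply hw
  rw [← he]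
  exact atE_fwn h1 n

/-- points with an image outside `P` have planar orbits up to this time -/
lemma YS.fin_of_not (h : YS x P q₂) {w u : ℂ} {n : ℕ} (he : (sp x)^[n] (w : OnePoint ℂ) = u)
    (hu : (u : OnePoint ℂ) ∉ P) : (∀ j < n, (de x).eval ((fx x)^[j] w) ≠ 0) ∧ (fx x)^[n] w = u := by
  have h1 : ∀ j ≤ n, (sp x)^[j] (w : OnePoint ℂ) ≠ ∞ := by
    intro j hj h0
    apply hu
    rw [← he]
    have e : n = (n - j) + j := by omega
    rw [e, Function.iterate_add_apply, h0]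
    exact h.pc.iter h.pc.inf _
  have h2 : ∀ j < n, (de x).eval ((fx x)^[j] w) ≠ 0 := by
    intro j
    induction j using Nat.strong_induction_on with
    | _ j ih =>
      intro hj h0
      apply h1 (j + 1) (by omega)
      rw [Function.iterate_succ_apply', sp_iter x w j (fun i hi => ih i hi (by omega)),
        sp_inf x _ h0]
  refine ⟨h2, ?_⟩
  rw [sp_iter x w n h2] at he
  exact OnePoint.coe_injective he

/-- inverse branches -/
theorem YS.branch (h : YS x P q₂) (v : ℂ) (R : ℝ) (hD : ∀ u ∈ ball v R, (u : OnePoint ℂ) ∉ P)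
    (n : ℕ) (z u₀ : ℂ) (hu₀ : u₀ ∈ ball v R) (hz : (sp x)^[n] (z : OnePoint ℂ) = u₀) :
    ∃ g : ℂ → ℂ, g u₀ = z ∧ DifferentiableOn ℂ g (ball v R) ∧ InjOn g (ball v R) ∧
      (∀ u ∈ ball v R, (sp x)^[n] (g u : OnePoint ℂ) = u) ∧
      (∀ u ∈ ball v R, g u ≠ q₂) ∧
      ∀ u ∈ ball v R, deriv ((fx x)^[n]) (g u) * deriv g u = 1 := by
  obtain ⟨g, h1, h2, h3⟩ := lift_disc h.hd x h.hx h.pc v R hD n z u₀ hu₀ hz
  refine ⟨g, OnePoint.coe_injective h1, h2, ?_, h3, ?_, ?_⟩
  · intro u hu u' hu' he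
    have e1 := h3 u hu
    rw [he, h3 u' hu'] at e1
    exact OnePoint.coe_injective e1.symm
  · intro u hu he
    apply hD u hu
    rw [← h3 u hu, he]
    exact h.pc.iter h.q2 n
  · intro u hu
    obtain ⟨h4, h5⟩ := h.fin_of_not (h3 u hu) (hD u hu)
    have h6 : HasDerivAt ((fx x)^[n]) (deriv ((fx x)^[n]) (g u)) (g u) :=
      (fx_iter_diff x (g u) n h4).hasDerivAt
    have h7 : HasDerivAt g (deriv g u) u :=
      (h2.differentiableAt (isOpen_ball.mem_nhds hu)).hasDerivAt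
    have h8 := h6.comp u h7
    have h9 : (fun u => (fx x)^[n] (g u)) =ᶠ[𝓝 u] fun u => u := by
      filter_upwards [isOpen_ball.mem_nhds hu] with u' hu'
      exact (h.fin_of_not (h3 u' hu') (hD u' hu')).2
    have h10 : HasDerivAt (fun u : ℂ => u) (deriv ((fx x)^[n]) (g u) * deriv g u) u :=
      h8.congr_of_eventuallyEq h9.symm
    exact h10.unique (hasDerivAt_id u)

end setting


section

variable {d : ℕ} {x : CV d} {P : Set (OnePoint ℂ)} {q₂ : ℂ}

/-- the derivatives are bounded on a disc in the bad set -/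
lemma YS.cauchy (h : YS x P q₂) {z : ℂ} {s : ℝ} (hs : 0 < s) (hb : ball z s ⊆ NA x) :
    ∃ C : ℝ, ∀ n : ℕ, ‖deriv ((fx x)^[n]) z‖ ≤ C := by
  obtain ⟨M, hM, hMb⟩ := h.bdd
  refine ⟨M / (s / 2), fun n => ?_⟩
  have hsub : closedBall z (s / 2) ⊆ ball z s := closedBall_subset_ball (by linarith)
  refine Complex.norm_deriv_le_of_forall_mem_sphere_norm_le (by positivity) ?_ ?_
  · refine DifferentiableOn.diffContOnCl ?_
    rw [closure_ball _ (by positivity)]
    intro w hw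
    exact (fx_iter_diff x w n fun j _ => h.fin (hb (hsub hw)) j).differentiableWithinAt
  · intro w hw
    exact hMb _ (h.orb (hb (hsub (sphere_subset_closedBall hw))) n).2

/-- a density point of the bad set has bounded derivatives at the times when it is close to a point
outside the postcritical set -/
theorem YS.caseA (h : YS x P q₂) (z : ℂ) (hz : z ∈ NA x)
    (hdens : ∀ ε : ℝ, 0 < ε → ∃ s₀ : ℝ, 0 < s₀ ∧ ∀ s : ℝ, 0 < s → s < s₀ →
      volume (closedBall z s ∩ (NA x)ᶜ) ≤ ENNReal.ofReal ε * volume (closedBall z s))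
    (y : ℂ) (r : ℝ) (hr : 0 < r) (hD : ∀ u ∈ ball y (8 * r), (u : OnePoint ℂ) ∉ P) :
    ∃ C : ℝ, ∀ n : ℕ, (fx x)^[n] z ∈ ball y r → ‖deriv ((fx x)^[n]) z‖ ≤ C := by
  by_contra hcon
  push Not at hcon
  obtain ⟨E, hE⟩ : ∃ E : Set ℂ, E = ball y r ∩ (NA x)ᶜ := ⟨_, rfl⟩
  have hEo : IsOpen E := by rw [hE]; exact isOpen_ball.inter h.closed.isOpen_compl
  have hEm : MeasurableSet E := hEo.measurableSet
  have hEfin : volume E ≠ ⊤ := by
    refine ne_top_of_le_ne_top measure_ball_lt_top.ne (measure_mono (?_ : E ⊆ ball y r))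
    rw [hE]; exact inter_subset_left
  obtain ⟨v₁, hv₁⟩ : ∃ v₁ : ℝ, v₁ = (volume (ball (0 : ℂ) 1)).toReal := ⟨_, rfl⟩
  have hv₁0 : 0 < v₁ := by
    rw [hv₁]
    exact ENNReal.toReal_pos (measure_ball_pos volume _ one_pos).ne' measure_ball_lt_top.ne
  have hvol : ∀ s : ℝ, 0 < s → volume (closedBall z s) = ENNReal.ofReal (s ^ 2 * v₁) := by
    intro s hs
    rw [Measure.addHaar_closedBall volume z hs.le, Complex.finrank_real_complex,
      ENNReal.ofReal_mul (by positivity), hv₁, ENNReal.ofReal_toReal measure_ball_lt_top.ne]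
  have hnull : volume E = 0 := by
    by_contra hne
    have hV : 0 < (volume E).toReal := ENNReal.toReal_pos hne hEfin
    obtain ⟨V, hVd⟩ : ∃ V, V = (volume E).toReal := ⟨_, rfl⟩
    rw [← hVd] at hV
    obtain ⟨T, hT⟩ : ∃ T : ℝ, T = 4 * r ^ 2 * Real.exp 4 ^ 4 * v₁ := ⟨_, rfl⟩
    have hT0 : 0 < T := by
      rw [hT]
      have := Real.exp_pos 4
      positivity
    obtain ⟨s₀, hs₀, hs⟩ := hdens (V / (2 * T)) (by positivity)
    obtain ⟨n, hn1, hn2⟩ := hcon (2 * r * Real.exp 4 / s₀ + 1)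
    have hexp := Real.exp_pos 4
    have hDn : 0 < ‖deriv ((fx x)^[n]) z‖ := by
      have : 0 ≤ 2 * r * Real.exp 4 / s₀ := by positivity
      linarith
    obtain ⟨hn3, -⟩ := h.orb hz n
    obtain ⟨p, hp⟩ : ∃ p, p = (fx x)^[n] z := ⟨_, rfl⟩
    rw [← hp] at hn1 hn3
    have hp8 : p ∈ ball y (8 * r) := ball_subset_ball (by linarith) hn1
    obtain ⟨g, hg1, hg2, hg3, hg4, -, hg6⟩ := h.branch y (8 * r) hD n z p hp8 hn3
    have hsub4 : ball p (2 * (2 * r)) ⊆ ball y (8 * r) := by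
      intro w hw
      rw [mem_ball] at hw hn1 ⊢
      linarith [dist_triangle w p y]
    have hsub2 : ball y r ⊆ ball p (2 * r) := by
      intro w hw
      rw [mem_ball] at hw hn1 ⊢
      rw [dist_comm] at hn1
      linarith [dist_triangle w y p]
    have hdis := distort g p (2 * r) (by linarith) (hg2.mono hsub4) (hg3.mono hsub4)
    have hlip := distort_lip g p (2 * r) (by linarith) (hg2.mono hsub4) (hg3.mono hsub4)
    obtain ⟨ρ, hρ⟩ : ∃ ρ, ρ = ‖deriv g p‖ := ⟨_, rfl⟩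
    rw [← hρ] at hdis hlip
    have hρD : ‖deriv ((fx x)^[n]) z‖ * ρ = 1 := by
      have h1 := hg6 p hp8
      rw [hg1] at h1
      rw [hρ, ← norm_mul, h1, norm_one]
    have hρ0 : 0 < ρ := by
      by_contra h0
      push Not at h0
      nlinarith
    obtain ⟨s, hsd⟩ : ∃ s : ℝ, s = 2 * r * Real.exp 4 * ρ := ⟨_, rfl⟩
    have hs0 : 0 < s := by rw [hsd]; positivity
    have hss₀ : s < s₀ := by
      have h1 : 2 * r * Real.exp 4 / s₀ < ‖deriv ((fx x)^[n]) z‖ := by linarith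
      rw [div_lt_iff₀ hs₀] at h1
      have h2 := mul_lt_mul_of_pos_right h1 hρ0
      rw [hsd]
      have h3 : ‖deriv ((fx x)^[n]) z‖ * s₀ * ρ = s₀ := by
        rw [mul_right_comm, hρD, one_mul]
      linarith
    -- the image of `E`
    have himg : g '' E ⊆ closedBall z s ∩ (NA x)ᶜ := by
      rintro _ ⟨u, hu, rfl⟩
      rw [hE] at hu
      refine ⟨?_, ?_⟩
      · rw [mem_closedBall, dist_eq_norm, ← hg1]
        have hu2 := hsub2 hu.1
        refine (hlip u hu2).trans ?_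
        rw [mem_ball, dist_eq_norm] at hu2
        rw [hsd]
        calc Real.exp 4 * ρ * ‖u - p‖ ≤ Real.exp 4 * ρ * (2 * r) :=
              mul_le_mul_of_nonneg_left hu2.le (by positivity)
          _ = 2 * r * Real.exp 4 * ρ := by ring
      · intro hgu
        apply hu.2
        have h1 := h.orb hgu n
        rw [hg4 u (hsub4 (ball_subset_ball (by linarith) (hsub2 hu.1)))] at h1
        have h2 := OnePoint.coe_injective h1.1
        rw [h2]
        exact h1.2
    have harea := area_image g E hEm (ball y (8 * r)) isOpen_ball (by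
      rw [hE]
      exact inter_subset_left.trans (ball_subset_ball (by linarith))) hg2 hg3
      (Real.exp (-4) * ρ) (by positivity) (fun u hu => by
        rw [hE] at hu
        exact (hdis u (hsub2 hu.1)).1)
    have hfin := (harea.trans (measure_mono himg)).trans (hs s hs0 hss₀)
    rw [hvol s hs0, ← ENNReal.ofReal_mul (by positivity)] at hfin
    have hEr : volume E = ENNReal.ofReal V := by rw [hVd, ENNReal.ofReal_toReal hEfin]
    rw [hEr, ← ENNReal.ofReal_mul (by positivity), ENNReal.ofReal_le_ofReal_iff (by positivity)]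
      at hfin
    have he : Real.exp (-4) * Real.exp 4 = 1 := by rw [← Real.exp_add]; norm_num
    -- `(e ρ) ^ 2 V ≤ V / (2 T) * (s ^ 2 v)`
    have h1 : (Real.exp (-4) * ρ) ^ 2 * V * (Real.exp 4 ^ 2) = ρ ^ 2 * V := by
      calc (Real.exp (-4) * ρ) ^ 2 * V * (Real.exp 4 ^ 2) =
            (Real.exp (-4) * Real.exp 4) ^ 2 * ρ ^ 2 * V := by ring
        _ = ρ ^ 2 * V := by rw [he]; ring
    have h2 : V / (2 * T) * (s ^ 2 * v₁) * (Real.exp 4 ^ 2) = ρ ^ 2 * V / 2 := by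
      rw [hsd, hT]
      field_simp
      ring
    have h3 := mul_le_mul_of_nonneg_right hfin (by positivity : 0 ≤ Real.exp 4 ^ 2)
    rw [h1, h2] at h3
    have h4 : 0 < ρ ^ 2 * V := by positivity
    linarith
  have hempty : E = ∅ := (hEo.measure_eq_zero_iff volume).1 hnull
  have hball : ball y r ⊆ NA x := by
    intro w hw
    by_contra h0
    have : w ∈ E := by rw [hE]; exact ⟨hw, h0⟩
    rw [hempty] at this
    exact this
  -- a disc around `z` in the bad set
  obtain ⟨n, hn1, -⟩ := hcon 0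
  have h1 : ∀ᶠ w in 𝓝 z, w ∈ NA x := by
    have h2 := Pool.Agent.W29.RQAPP.ne_nhds n (x, z) (fun j _ => h.fin hz j)
    have h3 : Tendsto (fun w : ℂ => ((x, w) : CV d × ℂ)) (𝓝 z) (𝓝 (x, z)) :=
      tendsto_const_nhds.prodMk_nhds tendsto_id
    have h4 : ContinuousAt ((fx x)^[n]) z := (fx_iter_diff x z n fun j _ => h.fin hz j).continuousAt
    filter_upwards [h3.eventually h2, h4.eventually (isOpen_ball.mem_nhds hn1)] with w h5 h6
    exact h.back (hball h6) (sp_iter x w n h5)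
  obtain ⟨s, hs, hsb⟩ := Metric.eventually_nhds_iff_ball.1 h1
  obtain ⟨C, hC⟩ := h.cauchy hs (fun w hw => hsb w hw)
  obtain ⟨m, -, hm⟩ := hcon C
  linarith [hC m]


end

end Run7.h725
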