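import Pool.Agent.Run7.h725.A6Z

/-! Copy of `Run7/h904/Z7Cont` for the set of the points which are not attracted by sinks. -/

set_option autoImplicit false

open Topology Filter Metric Set Polynomial MeasureTheory Asymptotics
open scoped OnePoint

namespace Run7.h725

open Run7.h904.RF
open Pool.Agent.H790R3.RB (CV hF cr ND wr rt sp pr hc pol Sink Attd HypTop)
open Pool.Agent.W757.QR Pool.Agent.W757.RF Pool.Agent.W757.Q2
open Pool.Agent.W29.RQSNK (sp_iter fin_of sp_fx sp_inf fx_iter_diff)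

variable {d : ℕ} {x : CV d} {P : Set (OnePoint ℂ)} {q₂ : ℂ}

/-- the continuation step -/
lemma YS.cn_closed (h : YS x P q₂) (m : ℕ → ℕ) (v₁ : ℂ) (hv₁ : (v₁ : OnePoint ℂ) ∉ P)
    (hcl : v₁ ∈ closure {v | Cn x P m v}) : Cn x P m v₁ := by
  classical
  have h1 : ∀ᶠ u : ℂ in 𝓝 v₁, (u : OnePoint ℂ) ∉ P :=
    OnePoint.continuous_coe.continuousAt.eventually (h.cl.isOpen_compl.mem_nhds hv₁)
  obtain ⟨R', hR', hball⟩ := Metric.eventually_nhds_iff_ball.1 h1
  obtain ⟨R, hR⟩ : ∃ R : ℝ, R = R' / 4 := ⟨_, rfl⟩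
  have hR0 : 0 < R := by rw [hR]; positivity
  have hD : ∀ u ∈ ball v₁ (4 * R), (u : OnePoint ℂ) ∉ P := fun u hu => hball u (by
    rw [hR] at hu
    have e : 4 * (R' / 4) = R' := by ring
    rwa [e] at hu)
  obtain ⟨v, hv, hvv⟩ := Metric.mem_closure_iff.1 hcl R hR0
  obtain ⟨ρ₀, hρ₀, hDv, φ, hφ1, hφ2, hφ3⟩ := hv
  obtain ⟨ρ, hρ⟩ : ∃ ρ : ℝ, ρ = min ρ₀ R := ⟨_, rfl⟩
  have hρ0 : 0 < ρ := by rw [hρ]; exact lt_min hρ₀ hR0
  have hρρ₀ : ball v ρ ⊆ ball v ρ₀ := ball_subset_ball (by rw [hρ]; exact min_le_left _ _)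
  have hρR : ρ ≤ R := by rw [hρ]; exact min_le_right _ _
  rw [dist_comm] at hvv
  have hvR : v ∈ ball v₁ (4 * R) := by rw [mem_ball]; linarith
  have hb3 : ball v (3 * R) ⊆ ball v₁ (4 * R) := by
    intro u hu
    rw [mem_ball] at hu ⊢
    linarith [dist_triangle u v v₁]
  have hbr : ∀ j, ∃ g : ℂ → ℂ, g v = φ j v ∧ DifferentiableOn ℂ g (ball v₁ (4 * R)) ∧
      InjOn g (ball v₁ (4 * R)) ∧
      (∀ u ∈ ball v₁ (4 * R), (sp x)^[m j] (g u : OnePoint ℂ) = u) ∧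
      (∀ u ∈ ball v₁ (4 * R), g u ≠ q₂) ∧
      ∀ u ∈ ball v₁ (4 * R), deriv ((fx x)^[m j]) (g u) * deriv g u = 1 := fun j =>
    h.branch v₁ (4 * R) hD (m j) (φ j v) v hvR (hφ2 j v (hρρ₀ (mem_ball_self hρ0)))
  choose g g1 g2 g3 g4 g5 g6 using hbr
  have hgφ : ∀ j, EqOn (g j) (φ j) (ball v ρ) := by
    intro j
    have hs : ball v ρ ⊆ ball v₁ (4 * R) := (ball_subset_ball (by linarith)).trans hb3
    exact lift_unique h.hd x h.hx h.pc (ball v ρ) (convex_ball v ρ).isPreconnected isOpen_ball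
      (fun u hu => hD u (hs hu)) (m j) (g j) (φ j) ((g2 j).continuousOn.mono hs)
      ((hφ1 j).continuousOn.mono hρρ₀) (fun u hu => g4 j u (hs hu)) (fun u hu => hφ2 j u (hρρ₀ hu))
      v (mem_ball_self hρ0) (g1 j)
  -- bounds
  obtain ⟨K, hK⟩ : ∃ K : ℝ, K = 4 * (‖v - q₂‖ + 1) / (3 * R) := ⟨_, rfl⟩
  have hK0 : 0 < K := by rw [hK]; positivity
  have hexp := Real.exp_pos 4
  have hbd : ∀ j, ‖φ j v - v‖ ≤ 1 → ∀ u ∈ ball v (3 / 2 * R),
      ‖g j u‖ ≤ ‖v‖ + 1 + Real.exp 4 * K * (3 / 2 * R) := by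
    intro j hj u hu
    have e : 2 * (3 / 2 * R) = 3 * R := by ring
    have h2 := Run7.h102.kb_omit (Z := g j) (p := v) (A := 3 * R) (by positivity)
      ((g2 j).mono hb3) ((g3 j).mono hb3) (u := q₂) (fun w hw => g5 j w (hb3 hw))
    rw [g1] at h2
    have h3 : ‖deriv (g j) v‖ ≤ K := by
      rw [hK, le_div_iff₀ (by positivity)]
      have h4 : ‖φ j v - q₂‖ ≤ ‖v - q₂‖ + 1 := by
        have h5 := norm_add_le (φ j v - v) (v - q₂)
        rw [sub_add_sub_cancel] at h5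
        linarith
      linarith
    have h4 := distort_lip (g j) v (3 / 2 * R) (by positivity) (by rw [e]; exact (g2 j).mono hb3)
      (by rw [e]; exact (g3 j).mono hb3) u hu
    rw [g1] at h4
    rw [mem_ball, dist_eq_norm] at hu
    have h5 : Real.exp 4 * ‖deriv (g j) v‖ * ‖u - v‖ ≤ Real.exp 4 * K * (3 / 2 * R) := by
      refine mul_le_mul ?_ hu.le (norm_nonneg _) (by positivity)
      exact mul_le_mul_of_nonneg_left h3 hexp.le
    have h6 := norm_add_le (g j u - φ j v) (φ j v)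
    rw [sub_add_cancel] at h6
    have h7 := norm_add_le (φ j v - v) v
    rw [sub_add_cancel] at h7
    linarith
  refine ⟨R / 4, by positivity, fun u hu => hD u (ball_subset_ball (by linarith) hu), g,
    fun j => (g2 j).mono (ball_subset_ball (by linarith)),
    fun j u hu => g4 j u (ball_subset_ball (by linarith) hu), ?_⟩
  intro η hη
  by_contra hcon
  rw [not_eventually] at hcon
  obtain ⟨I, hI⟩ : ∃ I : Set ℕ, I = {j | ¬ ∀ u ∈ ball v₁ (R / 4), ‖g j u - u‖ < η} := ⟨_, rfl⟩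
  have hne : (atTop ⊓ 𝓟 I : Filter ℕ).NeBot := by
    rw [hI, ← frequently_mem_iff_neBot]
    exact hcon
  obtain ⟨𝒰, h𝒰⟩ : ∃ 𝒰 : Ultrafilter ℕ, (𝒰 : Filter ℕ) ≤ atTop ⊓ 𝓟 I :=
    ⟨Ultrafilter.of _, Ultrafilter.of_le _⟩
  have hev1 : ∀ᶠ j in (𝒰 : Filter ℕ), ‖φ j v - v‖ ≤ 1 := by
    refine (h𝒰.trans inf_le_left) ?_
    filter_upwards [hφ3 1 one_pos] with j hj
    exact (hj v (hρρ₀ (mem_ball_self hρ0))).le
  obtain ⟨F, hF⟩ : ∃ F : ℕ → ℂ → ℂ, F = fun j => if ‖φ j v - v‖ ≤ 1 then g j else fun _ => 0 :=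
    ⟨_, rfl⟩
  have hFg : ∀ j, ‖φ j v - v‖ ≤ 1 → F j = g j := by
    intro j hj
    rw [hF]
    simp only [hj, if_true]
  have hW3 : ball v (3 / 2 * R) ⊆ ball v₁ (4 * R) := (ball_subset_ball (by linarith)).trans hb3
  have hFd : ∀ j, DifferentiableOn ℂ (F j) (ball v (3 / 2 * R)) := by
    intro j
    by_cases hj : ‖φ j v - v‖ ≤ 1
    · rw [hFg j hj]; exact (g2 j).mono hW3
    · rw [hF]; simp only [hj, if_false]; exact differentiableOn_const 0
  have hFb : ∀ j, ∀ u ∈ ball v (3 / 2 * R), ‖F j u‖ ≤ ‖v‖ + 1 + Real.exp 4 * K * (3 / 2 * R) := by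
    intro j u hu
    by_cases hj : ‖φ j v - v‖ ≤ 1
    · rw [hFg j hj]; exact hbd j hj u hu
    · rw [hF]; simp only [hj, if_false, norm_zero]; positivity
  obtain ⟨Φ, hΦd, hΦ⟩ := Pool.Agent.Helper114.Montel.montel isOpen_ball F hFd _ hFb 𝒰
  have hid : ∀ u ∈ ball v ρ, Φ u = u := by
    intro u hu
    have huW : u ∈ ball v (3 / 2 * R) := ball_subset_ball (by linarith) hu
    have t1 : Tendsto (fun j => F j u) (𝒰 : Filter ℕ) (𝓝 (Φ u)) := hΦ.tendsto_at huW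
    have t2 : Tendsto (fun j => F j u) (𝒰 : Filter ℕ) (𝓝 u) := by
      rw [Metric.tendsto_nhds]
      intro ε hε
      have h2 : ∀ᶠ j in (𝒰 : Filter ℕ), ∀ u ∈ ball v ρ₀, ‖φ j u - u‖ < ε :=
        (h𝒰.trans inf_le_left) (hφ3 ε hε)
      filter_upwards [h2, hev1] with j h3 h4
      rw [hFg j h4, hgφ j hu, dist_eq_norm]
      exact h3 u (hρρ₀ hu)
    exact tendsto_nhds_unique t1 t2
  have hidW : EqOn Φ (fun u => u) (ball v (3 / 2 * R)) := by
    refine (hΦd.analyticOnNhd isOpen_ball).eqOn_of_preconnected_of_eventuallyEq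
      (fun u _ => analyticAt_id) (convex_ball _ _).isPreconnected
      (mem_ball_self (by positivity : 0 < 3 / 2 * R)) ?_
    filter_upwards [ball_mem_nhds v hρ0] with u hu
    exact hid u hu
  have hcomp : closedBall v₁ (R / 4) ⊆ ball v (3 / 2 * R) := by
    intro u hu
    rw [mem_closedBall] at hu
    rw [mem_ball]
    rw [dist_comm] at hvv
    linarith [dist_triangle u v₁ v]
  have hunif := (tendstoLocallyUniformlyOn_iff_forall_isCompact isOpen_ball).1 hΦ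
    (closedBall v₁ (R / 4)) hcomp (isCompact_closedBall _ _)
  rw [Metric.tendstoUniformlyOn_iff] at hunif
  have h2 := hunif η hη
  have h3 : ∀ᶠ j in (𝒰 : Filter ℕ), j ∈ I :=
    (h𝒰.trans inf_le_right) (mem_principal_self I)
  obtain ⟨j, ⟨hj1, hj2⟩, hj3⟩ := ((h2.and h3).and hev1).exists
  rw [hI] at hj2
  apply hj2
  intro u hu
  have h4 := hj1 u (ball_subset_closedBall hu)
  rw [hidW (hcomp (ball_subset_closedBall hu)), hFg j hj3, dist_comm, dist_eq_norm] at h4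
  exact h4

/-- there are no inverse branches of high iterates converging to the identity -/
theorem YS.no_cn (h : YS x P q₂) (m : ℕ → ℕ) (hm : ∀ j, j ≤ m j) (y : ℂ) (hy : Cn x P m y) :
    False := by
  obtain ⟨P', hP'⟩ : ∃ P' : Set ℂ, P' = {v : ℂ | (v : OnePoint ℂ) ∈ P} := ⟨_, rfl⟩
  have hP'c : P'.Countable := by
    rw [hP']
    exact h.cnt.preimage OnePoint.coe_injective
  have hconn : IsConnected P'ᶜ :=
    hP'c.isConnected_compl_of_one_lt_rank (by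
      rw [Complex.rank_real_complex]
      exact Cardinal.one_lt_two)
  have hsub : P'ᶜ ⊆ {v | Cn x P m v} := by
    refine hconn.isPreconnected.subset_of_closure_inter_subset (cn_open m) ?_ ?_
    · refine ⟨y, ?_, hy⟩
      obtain ⟨ρ, hρ, hD, -⟩ := hy
      rw [hP']
      exact hD y (mem_ball_self hρ)
    · rintro v ⟨hv1, hv2⟩
      rw [hP'] at hv2
      exact h.cn_closed m v hv2 hv1
  -- a good point
  obtain ⟨M, hM, hMb⟩ := h.bdd
  have hbad : (P' ∪ {z : ℂ | (z : OnePoint ℂ) ∈ Function.periodicPts (sp x)}).Countable :=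
    hP'c.union (per_countable h.hd x h.hx)
  have hdense := hbad.dense_compl ℝ
  obtain ⟨u₀, hu1, hu2⟩ := hdense.inter_open_nonempty {z : ℂ | M < ‖z‖}
    (isOpen_lt continuous_const continuous_norm) ⟨((M + 1 : ℝ) : ℂ), by
      show M < ‖((M + 1 : ℝ) : ℂ)‖
      rw [Complex.norm_of_nonneg (by linarith)]
      linarith⟩
  have hu1' : M < ‖u₀‖ := hu1
  rw [mem_compl_iff, mem_union, not_or] at hu2
  have hg : AtE x (u₀ : OnePoint ℂ) := by
    by_contra h0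
    linarith [hMb u₀ h0]
  obtain ⟨U, hU, -, C, hC, hCp, hun⟩ := atE_unif h.hd x h.hx h.pinf _ hg
  have h1 := hun {(u₀ : OnePoint ℂ)}ᶜ isOpen_compl_singleton (fun c hc hcu => by
    rw [mem_singleton_iff] at hcu
    rw [hcu] at hc
    exact hu2.2 (hCp hc))
  obtain ⟨ρ, hρ, -, φ, -, hφ2, hφ3⟩ := hsub (hu2.1 : u₀ ∈ P'ᶜ)
  have h2 : Tendsto (fun j => φ j u₀) atTop (𝓝 u₀) := by
    rw [Metric.tendsto_nhds]
    intro ε hε
    filter_upwards [hφ3 ε hε] with j hj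
    rw [dist_eq_norm]
    exact hj u₀ (mem_ball_self hρ)
  have h3 : ∀ᶠ j in atTop, (φ j u₀ : OnePoint ℂ) ∈ U :=
    ((OnePoint.continuous_coe.tendsto u₀).comp h2).eventually hU
  have h4 : Tendsto m atTop atTop := tendsto_atTop_mono hm tendsto_id
  obtain ⟨j, hj1, hj2⟩ := (h3.and (h4.eventually h1)).exists
  have h5 := hj2 _ hj1
  rw [hφ2 j u₀ (mem_ball_self hρ)] at h5
  exact h5 rfl


end Run7.h725
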