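import Pool.Agent.Run7.h725.A7Z
import Pool.Agent.Run7.h904.Z9Zero

/-! Hyperbolic rational maps in good coordinates: the points which are not attracted form a compact
null set on which the map is uniformly expanding. -/

set_option autoImplicit false

open Topology Filter Metric Set Polynomial MeasureTheory Asymptotics
open scoped OnePoint

namespace Run7.h725

open Run7.h904.RF
open Pool.Agent.H790R3.RB (CV hF cr ND wr rt sp pr hc pol Sink Attd HypTop)
open Pool.Agent.W757.QR Pool.Agent.W757.RF Pool.Agent.W757.Q2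
open Pool.Agent.W29.RQSNK (sp_iter fin_of sp_fx sp_inf fx_iter_diff)

/-- the closure of an attracted orbit -/
lemma exists_KA {d : ℕ} (hd : 2 ≤ d) (x : CV d) (hx : ND x) (c : OnePoint ℂ)
    (hc : Attd (sp x) c) : ∃ K : Set (OnePoint ℂ), IsClosed K ∧ K.Countable ∧ c ∈ K ∧
      (∀ z ∈ K, sp x z ∈ K) ∧ ∀ w ∈ K, AtE x w := by
  have hcont := sp_cont hd x hx
  obtain ⟨n, a, hs, hlim⟩ := hc
  obtain ⟨h1, h2, h3, h4⟩ := orbit_closure hcont hs.1 hs.2.1 hlim _ rfl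
  refine ⟨_, h1, h2, h3, h4, ?_⟩
  intro w hw
  have hga : AtE x a := by
    refine atE_of ⟨n, a, hs, ?_⟩
    have : ∀ k : ℕ, (sp x)^[n * k] a = a := by
      intro k
      rw [Function.iterate_mul]
      exact Function.iterate_fixed hs.2.1 k
    simp only [this]
    exact tendsto_const_nhds
  have hgc : AtE x c := atE_of ⟨n, a, hs, hlim⟩
  obtain ⟨i, -, hw⟩ := mem_iUnion₂.1 hw
  rcases hw with rfl | ⟨k, rfl⟩
  · exact atE_fwn hga i
  · exact atE_fwn (atE_fwn hgc _) i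

/-- hyperbolic maps in good coordinates -/
structure HC {d : ℕ} (x : CV d) : Prop where
  hd : 2 ≤ d
  hx : ND x
  crit : ∀ z ∈ Crt x, Attd (sp x) z
  inf : Attd (sp x) ∞
  pinf : ∞ ∉ Function.periodicPts (sp x)

lemma HC.ys {d : ℕ} {x : CV d} (h : HC x) : ∃ (P : Set (OnePoint ℂ)) (q₂ : ℂ), YS x P q₂ ∧
    ∀ w ∈ P, AtE x w := by
  classical
  have hd := h.hd
  have hx := h.hx
  obtain ⟨U, hU, hUg, -⟩ := at_unif hd x hx h.pinf _ h.inf
  obtain ⟨q₂, hq₂⟩ : ∃ q₂ : ℂ, Attd (sp x) (q₂ : OnePoint ℂ) := by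
    have h1 := (OnePoint.tendsto_coe_infty (X := ℂ)).eventually hU
    rw [Filter.coclosedCompact_eq_cocompact] at h1
    obtain ⟨q, hq⟩ := h1.exists
    exact ⟨q, hUg _ hq⟩
  obtain ⟨Cs, hCs⟩ : ∃ Cs : Set (OnePoint ℂ), Cs = Crt x ∪ {∞, (q₂ : OnePoint ℂ)} := ⟨_, rfl⟩
  have hCsf : Cs.Finite := by
    rw [hCs]
    exact (crt_finite hd x hx).union (by simp)
  have hCsg : ∀ c ∈ Cs, Attd (sp x) c := by
    intro c hc
    rw [hCs] at hc
    rcases hc with hc | rfl | hc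
    · exact h.crit c hc
    · exact h.inf
    · rw [mem_singleton_iff] at hc
      rw [hc]
      exact hq₂
  have hex : ∀ c : OnePoint ℂ, ∃ K : Set (OnePoint ℂ), c ∈ Cs → IsClosed K ∧ K.Countable ∧ c ∈ K ∧
      (∀ z ∈ K, sp x z ∈ K) ∧ ∀ w ∈ K, AtE x w := by
    intro c
    by_cases hc : c ∈ Cs
    · obtain ⟨K, h⟩ := exists_KA hd x hx c (hCsg c hc)
      exact ⟨K, fun _ => h⟩
    · exact ⟨∅, fun h => absurd h hc⟩
  choose K hKA using hex
  obtain ⟨P, hP⟩ : ∃ P : Set (OnePoint ℂ), P = ⋃ c ∈ Cs, K c := ⟨_, rfl⟩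
  have hmem : ∀ c ∈ Cs, c ∈ P := fun c hc => by
    rw [hP]; exact mem_biUnion hc (hKA c hc).2.2.1
  have hfw : ∀ z ∈ P, sp x z ∈ P := by
    intro z hz
    rw [hP] at hz ⊢
    obtain ⟨c, hc, hz⟩ := mem_iUnion₂.1 hz
    exact mem_biUnion hc ((hKA c hc).2.2.2.1 z hz)
  have hPc : IsClosed P := by
    rw [hP]
    exact hCsf.isClosed_biUnion fun c hc => (hKA c hc).1
  have hPn : P.Countable := by
    rw [hP]
    exact hCsf.countable.biUnion fun c hc => (hKA c hc).2.1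
  refine ⟨P, q₂, ⟨hd, hx, ⟨fun z hz => hfw z (hmem z ?_), hfw, hmem ∞ ?_⟩, hPc, hPn, hmem _ ?_,
      atE_of h.inf, h.pinf⟩, ?_⟩
  · rw [hCs]; exact Or.inl hz
  · rw [hCs]; right; simp
  · rw [hCs]; right; simp
  · intro w hw
    rw [hP] at hw
    obtain ⟨c, hc, hw⟩ := mem_iUnion₂.1 hw
    exact (hKA c hc).2.2.2.2 w hw

/-- the set of points which are not attracted is compact -/
lemma HC.compact {d : ℕ} {x : CV d} (h : HC x) : IsCompact (NA x) := by
  obtain ⟨P, q₂, hY, -⟩ := h.ys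
  obtain ⟨M, hM, hMb⟩ := hY.bdd
  exact Metric.isCompact_of_isClosed_isBounded hY.closed
    (isBounded_iff_forall_norm_le.2 ⟨M, hMb⟩)

/-- the postcritical set is away from the points which are not attracted -/
lemma HC.away {d : ℕ} {x : CV d} (h : HC x) : ∃ (P : Set (OnePoint ℂ)) (q₂ : ℂ) (R : ℝ),
    YS x P q₂ ∧ 0 < R ∧ ∀ w ∈ NA x, ∀ u ∈ ball w R, (u : OnePoint ℂ) ∉ P := by
  obtain ⟨P, q₂, hY, hPA⟩ := h.ys
  obtain ⟨δ, hδ, hδ'⟩ := h.compact.exists_thickening_subset_open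
    (t := {u : ℂ | (u : OnePoint ℂ) ∉ P}) (hY.cl.isOpen_compl.preimage OnePoint.continuous_coe)
    (fun w hw hwP => hw (hPA _ hwP))
  refine ⟨P, q₂, δ, hY, hδ, fun w hw u hu => hδ' ?_⟩
  rw [mem_thickening_iff]
  exact ⟨w, hw, hu⟩

/-- the derivatives are unbounded -/
lemma HC.unbdd {d : ℕ} {x : CV d} (h : HC x) (z : ℂ) (hz : z ∈ NA x) (C : ℝ) :
    ∃ n : ℕ, C < ‖deriv ((fx x)^[n]) z‖ := by
  by_contra hcon
  push Not at hcon
  obtain ⟨P, q₂, R, hY, hR, hRP⟩ := h.away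
  have hcomp := h.compact
  obtain ⟨y, hy, φ, hφ, hlim⟩ := hcomp.tendsto_subseq (x := fun n => (fx x)^[n] z)
    (fun n => (hY.orb hz n).2)
  have hD : ∀ u ∈ ball y (8 * (R / 8)), (u : OnePoint ℂ) ∉ P := fun u hu => hRP y hy u (by
      have e : 8 * (R / 8) = R := by ring
      rwa [e] at hu)
  have hfreq : ∀ ε : ℝ, 0 < ε → ∃ᶠ n : ℕ in atTop, (fx x)^[n] z ∈ ball y ε := by
    intro ε hε
    have h1 : ∀ᶠ j in atTop, (fx x)^[φ j] z ∈ ball y ε := hlim.eventually (ball_mem_nhds y hε)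
    exact hφ.tendsto_atTop.frequently h1.frequently
  obtain ⟨m, φ, ε, hε, hεr, hm, hφ⟩ := hY.caseB z hz y (R / 8) (by positivity) hD C
    (fun n _ => hcon n) hfreq
  refine hY.no_cn m hm y ⟨ε, hε, fun u hu => hD u (ball_subset_ball (by linarith) hu), φ,
    fun j => (hφ j).1, fun j => (hφ j).2.1, fun η hη => ?_⟩
  have h5 : Tendsto (fun j : ℕ => 1 / ((j : ℝ) + 1)) atTop (𝓝 0) :=
    tendsto_one_div_add_atTop_nhds_zero_nat
  filter_upwards [h5.eventually (gt_mem_nhds hη)] with j hj u hu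
  exact ((hφ j).2.2 u hu).trans_lt hj

/-- the set of points which are not attracted has zero area -/
theorem HC.zero {d : ℕ} {x : CV d} (h : HC x) : volume (NA x) = 0 := by
  obtain ⟨P, q₂, R, hY, hR, hRP⟩ := h.away
  have hae1 := Besicovitch.ae_tendsto_measure_inter_div_of_measurableSet (volume : Measure ℂ)
    (s := (NA x)ᶜ) hY.closed.measurableSet.compl
  have hae : ∀ᵐ z : ℂ, z ∉ NA x := by
    filter_upwards [hae1] with z h1 hz
    have hcomp := h.compact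
    obtain ⟨y, hy, φ, hφ, hlim⟩ := hcomp.tendsto_subseq (x := fun n => (fx x)^[n] z)
      (fun n => (hY.orb hz n).2)
    have hfreq : ∀ ε : ℝ, 0 < ε → ∃ᶠ n : ℕ in atTop, (fx x)^[n] z ∈ ball y ε := by
      intro ε hε
      have h1 : ∀ᶠ j in atTop, (fx x)^[φ j] z ∈ ball y ε := hlim.eventually (ball_mem_nhds y hε)
      exact hφ.tendsto_atTop.frequently h1.frequently
    have hD : ∀ u ∈ ball y (8 * (R / 8)), (u : OnePoint ℂ) ∉ P := fun u hu => hRP y hy u (by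
      have e : 8 * (R / 8) = R := by ring
      rwa [e] at hu)
    have hind : (NA x)ᶜ.indicator (1 : ℂ → ENNReal) z = 0 := by
      rw [indicator_of_notMem]
      exact fun h3 => h3 hz
    rw [hind] at h1
    have hdens : ∀ ε : ℝ, 0 < ε → ∃ s₀ : ℝ, 0 < s₀ ∧ ∀ s : ℝ, 0 < s → s < s₀ →
        volume (closedBall z s ∩ (NA x)ᶜ) ≤ ENNReal.ofReal ε * volume (closedBall z s) := by
      intro ε hε
      have h3 := h1.eventually (ge_mem_nhds (ENNReal.ofReal_pos.2 hε))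
      rw [eventually_nhdsWithin_iff, Metric.eventually_nhds_iff_ball] at h3
      obtain ⟨s₀, hs₀, h4⟩ := h3
      refine ⟨s₀, hs₀, fun s hs hss => ?_⟩
      have h5 := h4 s (by rw [mem_ball, dist_zero_right, Real.norm_of_nonneg hs.le]; exact hss) hs
      rw [inter_comm]
      exact (ENNReal.div_le_iff (measure_closedBall_pos volume z hs).ne'
        measure_closedBall_lt_top.ne).1 h5
    obtain ⟨C, hC⟩ := hY.caseA z hz hdens y (R / 8) (by positivity) hD
    obtain ⟨m, φ, ε, hε, hεr, hm, hφ⟩ := hY.caseB z hz y (R / 8) (by positivity) hD C hC hfreq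
    refine hY.no_cn m hm y ⟨ε, hε, fun u hu => hD u (ball_subset_ball (by linarith) hu), φ,
      fun j => (hφ j).1, fun j => (hφ j).2.1, fun η hη => ?_⟩
    have h5 : Tendsto (fun j : ℕ => 1 / ((j : ℝ) + 1)) atTop (𝓝 0) :=
      tendsto_one_div_add_atTop_nhds_zero_nat
    filter_upwards [h5.eventually (gt_mem_nhds hη)] with j hj u hu
    exact ((hφ j).2.2 u hu).trans_lt hj
  have := ae_iff.1 hae
  simpa using this

/-- the derivative of an iterate along an orbit of non-attracted points -/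
lemma HC.chain {d : ℕ} {x : CV d} (h : HC x) {z : ℂ} (hz : z ∈ NA x) (m n : ℕ) :
    deriv ((fx x)^[m + n]) z = deriv ((fx x)^[m]) ((fx x)^[n] z) * deriv ((fx x)^[n]) z := by
  obtain ⟨P, q₂, hY, -⟩ := h.ys
  have h1 : HasDerivAt ((fx x)^[n]) (deriv ((fx x)^[n]) z) z :=
    (fx_iter_diff x z n fun j _ => hY.fin hz j).hasDerivAt
  have hz' := (hY.orb hz n).2
  have h2 : HasDerivAt ((fx x)^[m]) (deriv ((fx x)^[m]) ((fx x)^[n] z)) ((fx x)^[n] z) :=
    (fx_iter_diff x _ m fun j _ => hY.fin hz' j).hasDerivAt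
  have h3 := h2.comp z h1
  rw [← Function.iterate_add] at h3
  exact h3.deriv

lemma HC.deriv_ne {d : ℕ} {x : CV d} (h : HC x) {z : ℂ} (hz : z ∈ NA x) (n : ℕ) :
    deriv ((fx x)^[n]) z ≠ 0 := by
  obtain ⟨P, q₂, R, hY, hR, hRP⟩ := h.away
  obtain ⟨g, -, -, -, -, -, h6⟩ := hY.branch _ R (hRP _ (hY.orb hz n).2) n z _ (mem_ball_self hR)
    (hY.orb hz n).1
  intro h0
  have h1 := h6 _ (mem_ball_self hR)
  obtain ⟨g, h1, -, -, -, -, h6⟩ := hY.branch _ R (hRP _ (hY.orb hz n).2) n z _ (mem_ball_self hR)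
    (hY.orb hz n).1
  have h2 := h6 _ (mem_ball_self hR)
  rw [h1, h0, zero_mul] at h2
  exact zero_ne_one h2

lemma HC.cont_deriv {d : ℕ} {x : CV d} (h : HC x) (n : ℕ) {z : ℂ} (hz : z ∈ NA x) :
    ContinuousAt (deriv ((fx x)^[n])) z := by
  obtain ⟨P, q₂, hY, -⟩ := h.ys
  have hfin : ∀ j < n, (de x).eval ((fx x)^[j] z) ≠ 0 := fun j _ => hY.fin hz j
  have key : ∀ n : ℕ, (∀ j < n, (de x).eval ((fx x)^[j] z) ≠ 0) →
      ∀ᶠ w in 𝓝 z, ∀ j < n, (de x).eval ((fx x)^[j] w) ≠ 0 := by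
    intro n hn
    have h1 : ∀ j ∈ Finset.range n, ∀ᶠ w in 𝓝 z, (de x).eval ((fx x)^[j] w) ≠ 0 := by
      intro j hj
      rw [Finset.mem_range] at hj
      have h2 : ContinuousAt (fun w => (de x).eval ((fx x)^[j] w)) z :=
        ((de x).continuous.continuousAt).comp
          (fx_iter_diff x z j fun i hi => hn i (by omega)).continuousAt
      exact h2.eventually_ne (hn j hj)
    filter_upwards [(Finset.eventually_all _).2 h1] with w hw j hj
    exact hw j (Finset.mem_range.2 hj)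
  obtain ⟨r, hr, hb⟩ := Metric.eventually_nhds_iff_ball.1 (key n hfin)
  have h1 : DifferentiableOn ℂ ((fx x)^[n]) (ball z r) := fun w hw =>
    (fx_iter_diff x w n (hb w hw)).differentiableWithinAt
  exact ((h1.analyticOnNhd isOpen_ball).deriv.differentiableOn.differentiableAt
    (ball_mem_nhds z hr)).continuousAt

/-- uniform expansion -/
theorem HC.expand {d : ℕ} {x : CV d} (h : HC x) : ∃ C ϑ : ℝ, 1 ≤ C ∧ 0 < ϑ ∧ ϑ < 1 ∧
    (∀ z ∈ NA x, ∀ k : ℕ, ‖deriv ((fx x)^[k]) z‖⁻¹ ≤ C * ϑ ^ k) ∧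
    ∀ z ∈ NA x, ‖deriv (fx x) z‖ ≤ C ∧ ‖deriv (fx x) z‖⁻¹ ≤ C := by
  obtain ⟨P, q₂, hY, -⟩ := h.ys
  have hcomp := h.compact
  -- bounds for the derivative
  have hc1 : ∀ z ∈ NA x, ContinuousAt (deriv (fx x)) z := fun z hz => by
    have := h.cont_deriv 1 hz
    rwa [Function.iterate_one] at this
  obtain ⟨M, hM1, hM⟩ : ∃ M : ℝ, 1 ≤ M ∧ ∀ z ∈ NA x, ‖deriv (fx x) z‖ ≤ M ∧
      ‖deriv (fx x) z‖⁻¹ ≤ M := by
    have h1 : ContinuousOn (fun z => ‖deriv (fx x) z‖) (NA x) := fun z hz =>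
      (hc1 z hz).norm.continuousWithinAt
    have h2 : ContinuousOn (fun z => ‖deriv (fx x) z‖⁻¹) (NA x) := fun z hz => by
      refine ((hc1 z hz).norm.inv₀ ?_).continuousWithinAt
      have := h.deriv_ne hz 1
      rw [Function.iterate_one] at this
      exact norm_ne_zero_iff.2 this
    obtain ⟨M1, hM1⟩ := (hcomp.image_of_continuousOn h1).bddAbove
    obtain ⟨M2, hM2⟩ := (hcomp.image_of_continuousOn h2).bddAbove
    refine ⟨max 1 (max M1 M2), le_max_left _ _, fun z hz => ⟨?_, ?_⟩⟩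
    · exact (hM1 ⟨z, hz, rfl⟩).trans ((le_max_left _ _).trans (le_max_right _ _))
    · exact (hM2 ⟨z, hz, rfl⟩).trans ((le_max_right _ _).trans (le_max_right _ _))
  -- expansion in a bounded time
  obtain ⟨N, hN⟩ : ∃ N : ℕ, ∀ z ∈ NA x, ∃ n, 1 ≤ n ∧ n ≤ N ∧ 2 ≤ ‖deriv ((fx x)^[n]) z‖ := by
    have h1 : ∀ z ∈ NA x, ∃ n, 1 ≤ n ∧ 2 < ‖deriv ((fx x)^[n]) z‖ := by
      intro z hz
      obtain ⟨n, hn⟩ := h.unbdd z hz 2
      refine ⟨n, ?_, hn⟩
      by_contra hcon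
      obtain rfl : n = 0 := by omega
      rw [Function.iterate_zero, deriv_id, norm_one] at hn
      linarith
    choose! n hn1 hn2 using h1
    obtain ⟨t, ht, ht'⟩ := hcomp.elim_nhds_subcover (fun z => {w | 2 < ‖deriv ((fx x)^[n z]) w‖})
      (fun z hz => (h.cont_deriv (n z) hz).norm.eventually (lt_mem_nhds (hn2 z hz)))
    refine ⟨t.sup n, fun z hz => ?_⟩
    obtain ⟨w, hw, hzw⟩ := mem_iUnion₂.1 (ht' hz)
    exact ⟨n w, hn1 w (ht w hw), Finset.le_sup hw, le_of_lt hzw⟩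
  obtain ⟨ϑ, hϑ0, hϑ1, hϑN⟩ : ∃ ϑ : ℝ, 0 < ϑ ∧ ϑ < 1 ∧ 1 / 2 ≤ ϑ ^ (N + 1) := by
    refine ⟨1 + -(1 / (2 * ((N : ℝ) + 1))), ?_, ?_, ?_⟩
    · have : 1 / (2 * ((N : ℝ) + 1)) < 1 := by
        rw [div_lt_one (by positivity)]
        have : (0 : ℝ) ≤ N := Nat.cast_nonneg _
        linarith
      linarith
    · have : 0 < 1 / (2 * ((N : ℝ) + 1)) := by positivity
      linarith
    · have h1 : -2 ≤ -(1 / (2 * ((N : ℝ) + 1))) := by
        have : 1 / (2 * ((N : ℝ) + 1)) < 1 := by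
          rw [div_lt_one (by positivity)]
          have : (0 : ℝ) ≤ N := Nat.cast_nonneg _
          linarith
        linarith
      have h2 := one_add_mul_le_pow h1 (N + 1)
      refine le_trans (le_of_eq ?_) h2
      push_cast
      field_simp
      norm_num
  have hlow : ∀ k : ℕ, ∀ z ∈ NA x, ‖deriv ((fx x)^[k]) z‖⁻¹ ≤ M ^ k := by
    intro k
    induction k with
    | zero => intro z _; simp
    | succ k ih =>
      intro z hz
      have h1 := h.chain hz k 1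
      rw [Function.iterate_one] at h1
      rw [h1, norm_mul, mul_inv, pow_succ]
      have hz' : fx x z ∈ NA x := by
        have := (hY.orb hz 1).2
        rwa [Function.iterate_one] at this
      exact mul_le_mul (ih _ hz') (hM z hz).2 (by positivity) (by positivity)
  have hmain : ∀ k : ℕ, ∀ z ∈ NA x, ‖deriv ((fx x)^[k]) z‖⁻¹ ≤ 2 * M ^ (N + 1) * ϑ ^ k := by
    intro k
    induction k using Nat.strong_induction_on with
    | _ k ih =>
      intro z hz
      by_cases hk : k < N + 1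
      · refine (hlow k z hz).trans ?_
        have h1 : M ^ k ≤ M ^ (N + 1) := pow_le_pow_right₀ hM1 hk.le
        have h2 : ϑ ^ (N + 1) ≤ ϑ ^ k := pow_le_pow_of_le_one hϑ0.le hϑ1.le hk.le
        have h3 : 0 < M ^ (N + 1) := by positivity
        nlinarith
      · obtain ⟨n, hn1, hn2, hn3⟩ := hN z hz
        obtain ⟨j, rfl⟩ : ∃ j, k = j + n := ⟨k - n, by omega⟩
        rw [h.chain hz j n, norm_mul, mul_inv]
        have h1 := ih j (by omega) _ (hY.orb hz n).2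
        have h2 : ‖deriv ((fx x)^[n]) z‖⁻¹ ≤ 1 / 2 := by
          rw [one_div]
          exact inv_anti₀ (by norm_num) hn3
        have h3 : 1 / 2 ≤ ϑ ^ n := hϑN.trans (pow_le_pow_of_le_one hϑ0.le hϑ1.le (by omega))
        calc ‖deriv ((fx x)^[j]) ((fx x)^[n] z)‖⁻¹ * ‖deriv ((fx x)^[n]) z‖⁻¹ ≤
            (2 * M ^ (N + 1) * ϑ ^ j) * ϑ ^ n :=
              mul_le_mul h1 (h2.trans h3) (by positivity) (by positivity)
          _ = 2 * M ^ (N + 1) * ϑ ^ (j + n) := by rw [pow_add]; ring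
  have hMC : M ≤ 2 * M ^ (N + 1) := by
    have h1 : M ^ 1 ≤ M ^ (N + 1) := pow_le_pow_right₀ hM1 (by omega)
    rw [pow_one] at h1
    have : 0 < M ^ (N + 1) := by positivity
    linarith
  exact ⟨2 * M ^ (N + 1), ϑ, hM1.trans hMC, hϑ0, hϑ1, fun z hz k => hmain k z hz,
    fun z hz => ⟨(hM z hz).1.trans hMC, (hM z hz).2.trans hMC⟩⟩

end Run7.h725
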