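import Pool.Agent.Run7.h725.A8Exp

/-! Inverse branches along the orbits in the Julia set of a hyperbolic map. -/

set_option autoImplicit false

open Topology Filter Metric Set Polynomial MeasureTheory Asymptotics
open scoped OnePoint

namespace Run7.h725

open Run7.h904.RF
open Pool.Agent.H790R3.RB (CV hF cr ND wr rt sp pr hc pol Sink Attd HypTop)
open Pool.Agent.W757.QR Pool.Agent.W757.RF Pool.Agent.W757.Q2
open Pool.Agent.W29.RQSNK (sp_iter fin_of sp_fx sp_inf fx_iter_diff)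

/-- estimates for univalent functions on small discs -/
theorem gest (g : ℂ → ℂ) (p : ℂ) (R : ℝ) (hR : 0 < R) (hd : DifferentiableOn ℂ g (ball p R))
    (hi : InjOn g (ball p R)) (r D : ℝ) (hr : r = R / (16 * Real.exp 4)) (hD : D = ‖deriv g p‖) :
    0 < D ∧ (∀ u ∈ closedBall p r, ∀ u' ∈ closedBall p r, D / 2 * ‖u - u'‖ ≤ ‖g u - g u'‖ ∧
      ‖g u - g u'‖ ≤ 3 / 2 * D * ‖u - u'‖) ∧
    (∀ y ∈ ball (g p) (D * r / 4), ∃ u ∈ closedBall p r, g u = y) ∧
    ∀ A ∈ closedBall p r, ∀ B ∈ closedBall p r, ∀ A' ∈ closedBall p r, ∀ B' ∈ closedBall p r,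
      ‖(g B - g A) - (g B' - g A')‖ ≤ D * (Real.exp 4 * ‖(B - A) - (B' - A')‖ +
        8 * Real.exp 4 / R * ‖A - A'‖ * ‖B' - A'‖) := by
  have he : 1 ≤ Real.exp 4 := Real.one_le_exp (by norm_num)
  have hr0 : 0 < r := by rw [hr]; positivity
  have hr1 : 16 * r ≤ R := by
    rw [hr, mul_div_assoc', div_le_iff₀ (by positivity)]
    nlinarith
  have hR2 : 2 * (R / 2) = R := by ring
  have hdist := distort g p (R / 2) (by positivity) (by rw [hR2]; exact hd) (by rw [hR2]; exact hi)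
  have hsub : ball p (R / 2) ⊆ ball p R := ball_subset_ball (by linarith)
  have hD0 : 0 < D := by
    rw [hD]
    exact norm_pos_iff.2 (Pool.Agent.H792R2.SS.t_KB g p R hR hd hi).1
  have hg1 : ∀ w ∈ ball p (R / 2), ‖deriv g w‖ ≤ Real.exp 4 * D := fun w hw => by
    rw [hD]; exact (hdist w hw).2
  have hg2 : ∀ w ∈ ball p (R / 2), ‖deriv (deriv g) w‖ ≤ 8 * Real.exp 4 / R * D := by
    intro w hw
    have h1 : ball w (R / 2) ⊆ ball p R := by
      intro v hv
      rw [mem_ball] at hw hv ⊢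
      linarith [dist_triangle v w p]
    have h2 := (Pool.Agent.H792R2.SS.t_KB g w (R / 2) (by positivity) (hd.mono h1) (hi.mono h1)).2
    have h3 := hg1 w hw
    have h4 : ‖deriv (deriv g) w‖ * (R / 2) ≤ 4 * (Real.exp 4 * D) := by
      calc ‖deriv (deriv g) w‖ * (R / 2) = R / 2 * ‖deriv (deriv g) w‖ := mul_comm _ _
        _ ≤ 4 * ‖deriv g w‖ := h2
        _ ≤ 4 * (Real.exp 4 * D) := by gcongr
    rw [← le_div_iff₀ (by positivity)] at h4
    refine h4.trans (le_of_eq ?_)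
    field_simp
    norm_num
  have hgd : ∀ w ∈ ball p (R / 2), DifferentiableAt ℂ g w := fun w hw =>
    hd.differentiableAt (isOpen_ball.mem_nhds (hsub hw))
  have hgd' : ∀ w ∈ ball p (R / 2), DifferentiableAt ℂ (deriv g) w := fun w hw =>
    (hd.analyticOnNhd isOpen_ball).deriv.differentiableOn.differentiableAt
      (isOpen_ball.mem_nhds (hsub hw))
  have hcb : closedBall p r ⊆ ball p (R / 2) := closedBall_subset_ball (by linarith)
  have hlip' : ∀ v ∈ ball p (R / 2), ∀ v' ∈ ball p (R / 2),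
      ‖deriv g v - deriv g v'‖ ≤ 8 * Real.exp 4 / R * D * ‖v - v'‖ := fun v hv v' hv' =>
    (convex_ball p (R / 2)).norm_image_sub_le_of_norm_deriv_le (𝕜 := ℂ) (f := deriv g) hgd' hg2 hv' hv
  have hlip : ∀ v ∈ ball p (R / 2), ∀ v' ∈ ball p (R / 2),
      ‖g v - g v'‖ ≤ Real.exp 4 * D * ‖v - v'‖ := fun v hv v' hv' =>
    (convex_ball p (R / 2)).norm_image_sub_le_of_norm_deriv_le (𝕜 := ℂ) (f := g) hgd hg1 hv' hv
  have hpm : p ∈ ball p (R / 2) := mem_ball_self (by positivity)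
  -- close to the linear map
  have hlin : ∀ u ∈ closedBall p r, ∀ u' ∈ closedBall p r,
      ‖(g u - deriv g p * u) - (g u' - deriv g p * u')‖ ≤ D / 2 * ‖u - u'‖ := by
    intro u hu u' hu'
    refine (convex_closedBall p r).norm_image_sub_le_of_norm_deriv_le (𝕜 := ℂ)
      (f := fun u => g u - deriv g p * u) (fun w hw => ?_) (fun w hw => ?_) hu' hu
    · exact (hgd w (hcb hw)).sub ((differentiableAt_id).const_mul _)
    · have h1 : HasDerivAt (fun u => g u - deriv g p * u) (deriv g w - deriv g p * 1) w :=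
        (hgd w (hcb hw)).hasDerivAt.sub ((hasDerivAt_id w).const_mul (deriv g p))
      rw [h1.deriv, mul_one]
      refine (hlip' w (hcb hw) p hpm).trans ?_
      rw [mem_closedBall, dist_eq_norm] at hw
      have h2 : 8 * Real.exp 4 / R * D * ‖w - p‖ ≤ 8 * Real.exp 4 / R * D * r := by gcongr
      refine h2.trans (le_of_eq ?_)
      rw [hr]
      field_simp
      norm_num
  have hbl : ∀ u ∈ closedBall p r, ∀ u' ∈ closedBall p r, D / 2 * ‖u - u'‖ ≤ ‖g u - g u'‖ ∧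
      ‖g u - g u'‖ ≤ 3 / 2 * D * ‖u - u'‖ := by
    intro u hu u' hu'
    have h1 := hlin u hu u' hu'
    have h2 : ‖deriv g p * (u - u')‖ = D * ‖u - u'‖ := by rw [norm_mul, hD]
    have e1 : g u - g u' = ((g u - deriv g p * u) - (g u' - deriv g p * u')) +
      deriv g p * (u - u') := by ring
    constructor
    · have e2 : deriv g p * (u - u') = (g u - g u') -
        ((g u - deriv g p * u) - (g u' - deriv g p * u')) := by ring
      have h3 := norm_sub_le (g u - g u') ((g u - deriv g p * u) - (g u' - deriv g p * u'))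
      rw [← e2, h2] at h3
      linarith
    · rw [e1]
      have h3 := norm_add_le ((g u - deriv g p * u) - (g u' - deriv g p * u')) (deriv g p * (u - u'))
      linarith
  refine ⟨hD0, hbl, ?_, ?_⟩
  · have h1 : DiffContOnCl ℂ g (ball p r) :=
      DifferentiableOn.diffContOnCl_ball (U := ball p R) hd (closedBall_subset_ball (by linarith))
    have h2 : ∀ z ∈ sphere p r, D * r / 2 ≤ ‖g z - g p‖ := by
      intro z hz
      have h3 := (hbl z (sphere_subset_closedBall hz) p (mem_closedBall_self hr0.le)).1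
      rw [mem_sphere, dist_eq_norm] at hz
      rw [hz] at h3
      linarith
    have h3 : ∃ᶠ z in 𝓝 p, g z ≠ g p := by
      have h4 : ∃ᶠ z in 𝓝[≠] p, g z ≠ g p := by
        refine Eventually.frequently ?_
        filter_upwards [self_mem_nhdsWithin, nhdsWithin_le_nhds (ball_mem_nhds p hR)] with z hz hz'
        exact fun h => hz (hi hz' (mem_ball_self hR) h)
      exact h4.filter_mono nhdsWithin_le_nhds
    have h4 := h1.ball_subset_image_closedBall hr0 h2 h3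
    intro y hy
    obtain ⟨u, hu, huy⟩ := h4 (by
      have e : D * r / 2 / 2 = D * r / 4 := by ring
      rw [e]; exact hy)
    exact ⟨u, hu, huy⟩
  · intro A hA B hB A' hA' B' hB'
    have hmid : ∀ s ∈ closedBall p r, s + (B' - A') ∈ ball p (R / 2) := by
      intro s hs
      rw [mem_closedBall, dist_eq_norm] at hs hA' hB'
      rw [mem_ball, dist_eq_norm]
      have e : s + (B' - A') - p = (s - p) + ((B' - p) - (A' - p)) := by ring
      rw [e]
      have h1 := norm_add_le (s - p) ((B' - p) - (A' - p))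
      have h2 := norm_sub_le (B' - p) (A' - p)
      linarith
    have h1 : ‖g B - g (A + (B' - A'))‖ ≤ Real.exp 4 * D * ‖B - (A + (B' - A'))‖ :=
      hlip B (hcb hB) _ (hmid A hA)
    have h2 : ‖(g (A + (B' - A')) - g A) - (g (A' + (B' - A')) - g A')‖ ≤
        8 * Real.exp 4 / R * D * ‖B' - A'‖ * ‖A - A'‖ := by
      refine (convex_closedBall p r).norm_image_sub_le_of_norm_deriv_le (𝕜 := ℂ)
        (f := fun s => g (s + (B' - A')) - g s) (fun w hw => ?_) (fun w hw => ?_) hA' hA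
      · exact (((hgd _ (hmid w hw)).hasDerivAt.comp_add_const w (B' - A')).differentiableAt).sub
          (hgd w (hcb hw))
      · have h3 : HasDerivAt (fun s => g (s + (B' - A')) - g s)
            (deriv g (w + (B' - A')) - deriv g w) w :=
          ((hgd _ (hmid w hw)).hasDerivAt.comp_add_const w (B' - A')).sub
            (hgd w (hcb hw)).hasDerivAt
        rw [h3.deriv]
        refine (hlip' _ (hmid w hw) w (hcb hw)).trans (le_of_eq ?_)
        rw [add_sub_cancel_left]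
    have e1 : (g B - g A) - (g B' - g A') = (g B - g (A + (B' - A'))) +
        ((g (A + (B' - A')) - g A) - (g (A' + (B' - A')) - g A')) := by
      have e2 : A' + (B' - A') = B' := by ring
      rw [e2]; ring
    rw [e1]
    refine (norm_add_le _ _).trans ((add_le_add h1 h2).trans (le_of_eq ?_))
    have e3 : B - (A + (B' - A')) = (B - A) - (B' - A') := by ring
    rw [e3]
    ring

/-- inverse branches along an orbit in the Julia set -/
theorem HC.brs {d : ℕ} {x : CV d} (h : HC x) : ∃ r₁ M : ℝ, 0 < r₁ ∧ ∀ w₀ ∈ NA x,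
    ∃ G : ℕ → ℂ → ℂ, Brs (fun k => (fx x)^[k] w₀) (fx x) G
      (fun k => ‖deriv ((fx x)^[k]) w₀‖) r₁ M := by
  obtain ⟨P, q₂, R, hY, hR, hRP⟩ := h.away
  obtain ⟨C, ϑ, hC1, hϑ0, hϑ1, hexp, hder⟩ := h.expand
  have he : 1 ≤ Real.exp 4 := Real.one_le_exp (by norm_num)
  obtain ⟨r₁, hr₁⟩ : ∃ r₁ : ℝ, r₁ = R / (16 * Real.exp 4) := ⟨_, rfl⟩
  have hr₁0 : 0 < r₁ := by rw [hr₁]; positivity
  have hr₁R : r₁ < R := by
    rw [hr₁, div_lt_iff₀ (by positivity)]
    nlinarith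
  refine ⟨r₁, max C (max (Real.exp 4) (8 * Real.exp 4 / R)), hr₁0, fun w₀ hw₀ => ?_⟩
  obtain ⟨M, hM⟩ : ∃ M : ℝ, M = max C (max (Real.exp 4) (8 * Real.exp 4 / R)) := ⟨_, rfl⟩
  rw [← hM]
  have hMC : C ≤ M := by rw [hM]; exact le_max_left _ _
  have hMe : Real.exp 4 ≤ M := by rw [hM]; exact (le_max_left _ _).trans (le_max_right _ _)
  have hMR : 8 * Real.exp 4 / R ≤ M := by
    rw [hM]; exact (le_max_right _ _).trans (le_max_right _ _)
  have horb := fun k => hY.orb hw₀ k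
  have hbr := fun k => hY.branch ((fx x)^[k] w₀) R (hRP _ (horb k).2) k w₀ _ (mem_ball_self hR)
    (horb k).1
  choose G g1 g2 g3 g4 g5 g6 using hbr
  have hLp : ∀ k, 0 < ‖deriv ((fx x)^[k]) w₀‖ := fun k => norm_pos_iff.2 (h.deriv_ne hw₀ k)
  have hD : ∀ k, ‖deriv (G k) ((fx x)^[k] w₀)‖ = (‖deriv ((fx x)^[k]) w₀‖)⁻¹ := by
    intro k
    have h1 := g6 k _ (mem_ball_self hR)
    rw [g1] at h1
    have h2 : ‖deriv ((fx x)^[k]) w₀‖ * ‖deriv (G k) ((fx x)^[k] w₀)‖ = 1 := by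
      rw [← norm_mul, h1, norm_one]
    exact eq_inv_of_mul_eq_one_right h2
  have hge := fun k => gest (G k) ((fx x)^[k] w₀) R hR (g2 k) (g3 k) r₁ _ hr₁ rfl
  have hL0 : ‖deriv ((fx x)^[0]) w₀‖ = 1 := by
    rw [Function.iterate_zero, deriv_id, norm_one]
  have hsucc : ∀ k, ‖deriv ((fx x)^[k + 1]) w₀‖ =
      ‖deriv (fx x) ((fx x)^[k] w₀)‖ * ‖deriv ((fx x)^[k]) w₀‖ := by
    intro k
    have h1 := h.chain hw₀ 1 k
    rw [Function.iterate_one] at h1
    rw [add_comm, h1, norm_mul]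
  have hcb : ∀ k, closedBall ((fx x)^[k] w₀) r₁ ⊆ ball ((fx x)^[k] w₀) R := fun k =>
    closedBall_subset_ball hr₁R
  refine ⟨G, hr₁0, hC1.trans hMC, hLp, hL0, ?_, ?_, ?_, ?_, ?_, ?_, g1, ?_, ?_, ?_, ?_, ?_⟩
  · intro k
    have h1 := hexp w₀ hw₀ k
    have h2 : ϑ ^ k ≤ 1 := pow_le_one₀ hϑ0.le hϑ1.le
    have h3 : (‖deriv ((fx x)^[k]) w₀‖)⁻¹ ≤ M := by nlinarith
    rw [inv_le_iff_one_le_mul₀ (hLp k)] at h3
    exact h3
  · intro k
    rw [hsucc]
    exact mul_le_mul_of_nonneg_right ((hder _ (horb k).2).1.trans hMC) (hLp k).le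
  · intro k
    rw [hsucc]
    have h1 := (hder _ (horb k).2).2.trans hMC
    have h2 : 0 < ‖deriv (fx x) ((fx x)^[k] w₀)‖ := by
      have := h.deriv_ne (horb k).2 1
      rw [Function.iterate_one] at this
      exact norm_pos_iff.2 this
    rw [inv_le_iff_one_le_mul₀ h2] at h1
    calc ‖deriv ((fx x)^[k]) w₀‖ = 1 * ‖deriv ((fx x)^[k]) w₀‖ := (one_mul _).symm
      _ ≤ (M * ‖deriv (fx x) ((fx x)^[k] w₀)‖) * ‖deriv ((fx x)^[k]) w₀‖ :=
        mul_le_mul_of_nonneg_right h1 (hLp k).le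
      _ = M * (‖deriv (fx x) ((fx x)^[k] w₀)‖ * ‖deriv ((fx x)^[k]) w₀‖) := by ring
  · refine Summable.of_nonneg_of_le (fun k => (inv_pos.2 (hLp k)).le) (fun k => hexp w₀ hw₀ k) ?_
    exact (summable_geometric_of_lt_one hϑ0.le hϑ1).mul_left C
  · intro k
    exact (Function.iterate_succ_apply' _ _ _).symm
  · intro u hu
    exact OnePoint.coe_injective (g4 0 u (hcb 0 hu))
  · intro k u hu
    exact (hY.fin_of_not (g4 k u (hcb k hu)) (hRP _ (horb k).2 u (hcb k hu))).2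
  · intro k u hu u' hu'
    have h1 := ((hge k).2.1 u hu u' hu').1
    rw [hD] at h1
    have h2 := hLp k
    calc ‖u - u'‖ = 2 * ‖deriv ((fx x)^[k]) w₀‖ * ((‖deriv ((fx x)^[k]) w₀‖)⁻¹ / 2 * ‖u - u'‖) := by
          field_simp
      _ ≤ 2 * ‖deriv ((fx x)^[k]) w₀‖ * ‖G k u - G k u'‖ := by gcongr
  · intro k u hu u' hu'
    have h1 := ((hge k).2.1 u hu u' hu').2
    rw [hD] at h1
    have h2 := hLp k
    calc ‖deriv ((fx x)^[k]) w₀‖ * ‖G k u - G k u'‖ ≤
        ‖deriv ((fx x)^[k]) w₀‖ * (3 / 2 * (‖deriv ((fx x)^[k]) w₀‖)⁻¹ * ‖u - u'‖) := by gcongr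
      _ = 3 / 2 * ‖u - u'‖ := by field_simp
      _ ≤ 2 * ‖u - u'‖ := by linarith [norm_nonneg (u - u')]
  · intro k y hy
    have h2 := hLp k
    apply (hge k).2.2.1 y
    rw [hD, g1]
    have e : (‖deriv ((fx x)^[k]) w₀‖)⁻¹ * r₁ / 4 = r₁ / (4 * ‖deriv ((fx x)^[k]) w₀‖) := by
      field_simp
    rw [e]
    exact hy
  · intro k A hA B hB A' hA' B' hB'
    have h1 := (hge k).2.2.2 A hA B hB A' hA' B' hB'
    rw [hD] at h1
    have h2 := hLp k
    calc ‖deriv ((fx x)^[k]) w₀‖ * ‖(G k B - G k A) - (G k B' - G k A')‖ ≤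
        ‖deriv ((fx x)^[k]) w₀‖ * ((‖deriv ((fx x)^[k]) w₀‖)⁻¹ *
          (Real.exp 4 * ‖(B - A) - (B' - A')‖ + 8 * Real.exp 4 / R * ‖A - A'‖ * ‖B' - A'‖)) := by
          gcongr
      _ = Real.exp 4 * ‖(B - A) - (B' - A')‖ + 8 * Real.exp 4 / R * ‖A - A'‖ * ‖B' - A'‖ := by
          field_simp
      _ ≤ M * ‖(B - A) - (B' - A')‖ + M * ‖A - A'‖ * ‖B' - A'‖ := by gcongr

/-- monotonicity in the constant -/
lemma Brs.mono {w : ℕ → ℂ} {f : ℂ → ℂ} {G : ℕ → ℂ → ℂ} {L : ℕ → ℝ} {r₁ M M' r : ℝ}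
    (h : Brs w f G L r₁ M) (hM : M ≤ M') (hr0 : 0 < r) (hr : r ≤ r₁) : Brs w f G L r M' := by
  have hcb : ∀ k, closedBall (w k) r ⊆ closedBall (w k) r₁ := fun k =>
    closedBall_subset_closedBall hr
  refine ⟨hr0, h.M1.trans hM, h.Lpos, h.L0, fun k => ?_, fun k => ?_, fun k => ?_, h.sum, h.orb,
    fun u hu => h.G0 u (hcb 0 hu), h.Gw, fun k u hu => h.inv k u (hcb k hu),
    fun k u hu u' hu' => h.lo k u (hcb k hu) u' (hcb k hu'),
    fun k u hu u' hu' => h.up k u (hcb k hu) u' (hcb k hu'), ?_, ?_⟩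
  · exact (h.low k).trans (mul_le_mul_of_nonneg_right hM (h.Lpos k).le)
  · exact (h.up1 k).trans (mul_le_mul_of_nonneg_right hM (h.Lpos k).le)
  · exact (h.dn1 k).trans (mul_le_mul_of_nonneg_right hM (h.Lpos _).le)
  · intro k y hy
    have hL := h.Lpos k
    obtain ⟨u, hu, huy⟩ := h.surj k y (ball_subset_ball (by gcongr) hy)
    refine ⟨u, ?_, huy⟩
    have h1 := h.lo k u hu _ (mem_closedBall_self h.r1.le)
    rw [h.Gw, huy] at h1
    rw [mem_ball, dist_eq_norm] at hy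
    rw [mem_closedBall, dist_eq_norm]
    have h2 : 2 * L k * ‖y - w 0‖ ≤ 2 * L k * (r / (4 * L k)) := by gcongr
    have h3 : 2 * L k * (r / (4 * L k)) = r / 2 := by field_simp; norm_num
    linarith
  · intro k A hA B hB A' hA' B' hB'
    refine (h.dbl k A (hcb k hA) B (hcb k hB) A' (hcb k hA') B' (hcb k hB')).trans ?_
    gcongr

lemma Prt.mono {w : ℕ → ℂ} {Hl : Finset ℂ} {f : ℂ → ℂ} {F : ℂ → ℂ → ℂ} {r₁ M κ M' r : ℝ}
    (h : Prt w Hl f F r₁ M κ) (hM : M ≤ M') (hr : r ≤ r₁) : Prt w Hl f F r M' κ := by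
  have hcb : ∀ k, closedBall (w k) r ⊆ closedBall (w k) r₁ := fun k =>
    closedBall_subset_closedBall hr
  refine ⟨h.κ0, fun k z hz ρ h1 h2 h3 l h4 => ?_, fun k z hz z' hz' ρ h1 h2 h3 h3' l l' h4 h4' => ?_⟩
  · refine (h.p1 k z (hcb k hz) ρ h1 h2 h3 l h4).trans ?_
    gcongr
  · refine (h.p2 k z (hcb k hz) z' (hcb k hz') ρ h1 h2 h3 h3' l l' h4 h4').trans ?_
    gcongr

end Run7.h725
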