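import Pool.Agent.Run7.h725.A9Brs

/-! The perturbation estimates near the points which are not attracted. -/

set_option autoImplicit false

open Topology Filter Metric Set Polynomial MeasureTheory Asymptotics
open scoped OnePoint

namespace Run7.h725

open Run7.h904.RF
open Pool.Agent.H790R3.RB (CV hF cr ND wr rt sp pr hc pol Sink Attd HypTop)
open Pool.Agent.W757.QR Pool.Agent.W757.RF Pool.Agent.W757.Q2
open Pool.Agent.W29.RQSNK (sp_iter fin_of sp_fx sp_inf fx_iter_diff)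
open Pool.Agent.R239.Fat (Hp Hp_eval Hp_ne Hp_root Hp_deriv deg pol_deg)

lemma pol_lin {D : ℕ} (X V : CV D) (l : ℂ) (i : Fin 2) :
    pol (X + l • V) i = pol X i + C l * pol V i := by
  unfold pol
  rw [Finset.mul_sum, ← Finset.sum_add_distrib]
  refine Finset.sum_congr rfl fun j _ => ?_
  rw [C_mul_monomial, ← map_add]
  rfl

/-- a polynomial is bounded and Lipschitz on discs -/
lemma poly_bd (p : ℂ[X]) (R : ℝ) : ∃ B : ℝ, 0 ≤ B ∧ (∀ z : ℂ, ‖z‖ ≤ R → ‖p.eval z‖ ≤ B) ∧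
    ∀ z z' : ℂ, ‖z‖ ≤ R → ‖z'‖ ≤ R → ‖p.eval z - p.eval z'‖ ≤ B * ‖z - z'‖ := by
  have hK : IsCompact (closedBall (0 : ℂ) R) := isCompact_closedBall 0 R
  obtain ⟨B1, hB1⟩ := (hK.image p.continuous.norm).bddAbove
  obtain ⟨B2, hB2⟩ := (hK.image (derivative p).continuous.norm).bddAbove
  refine ⟨max 0 (max B1 B2), le_max_left _ _, fun z hz => ?_, fun z z' hz hz' => ?_⟩
  · exact (hB1 ⟨z, mem_closedBall_zero_iff.2 hz, rfl⟩).trans
      ((le_max_left _ _).trans (le_max_right _ _))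
  · have h1 := (convex_closedBall (0 : ℂ) R).norm_image_sub_le_of_norm_deriv_le (𝕜 := ℂ)
      (f := fun z => p.eval z) (C := max 0 (max B1 B2)) (fun w _ => p.differentiable w)
      (fun w hw => by
        rw [Polynomial.deriv]
        exact (hB2 ⟨w, hw, rfl⟩).trans ((le_max_right _ _).trans (le_max_right _ _)))
      (mem_closedBall_zero_iff.2 hz') (mem_closedBall_zero_iff.2 hz)
    exact h1

/-- lower bound for a polynomial with simple roots -/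
lemma hp_low {m : ℕ} {q : Fin m → ℂ} (hinj : Function.Injective q) :
    ∃ c : ℝ, 0 < c ∧ ∀ (z : ℂ) (ρ : ℝ), 0 < ρ → ρ ≤ 1 → (∀ j, ρ ≤ ‖z - q j‖) →
      c * ρ ≤ ‖(Hp q).eval z‖ := by
  classical
  obtain ⟨s, hs0, hs1, hs2⟩ : ∃ s : ℝ, 0 < s ∧ s ≤ 1 ∧ ∀ i j, i ≠ j → 2 * s ≤ ‖q i - q j‖ := by
    have h1 : ∀ᶠ s in 𝓝[>] (0 : ℝ), ∀ p ∈ (Finset.univ : Finset (Fin m × Fin m)), p.1 ≠ p.2 →
        2 * s ≤ ‖q p.1 - q p.2‖ := by
      rw [Finset.eventually_all]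
      intro p _
      by_cases hp : p.1 = p.2
      · exact Eventually.of_forall fun s h => absurd hp h
      · have h2 : 0 < ‖q p.1 - q p.2‖ := norm_pos_iff.2 (sub_ne_zero.2 (fun h => hp (hinj h)))
        have h3 : Tendsto (fun m : ℝ => 2 * m) (𝓝[>] 0) (𝓝 0) := by
          have : Tendsto (fun m : ℝ => 2 * m) (𝓝 0) (𝓝 (2 * 0)) :=
            (continuous_const.mul continuous_id).tendsto 0
          rw [mul_zero] at this
          exact this.mono_left nhdsWithin_le_nhds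
        filter_upwards [h3.eventually (gt_mem_nhds h2)] with s hs _
        exact hs.le
    have h2 : ∀ᶠ s in 𝓝[>] (0 : ℝ), s ≤ 1 :=
      (eventually_le_nhds (zero_lt_one)).filter_mono nhdsWithin_le_nhds
    obtain ⟨s, ⟨h3, h4⟩, h5⟩ := ((h1.and h2).and self_mem_nhdsWithin).exists
    exact ⟨s, h5, h4, fun i j hij => h3 (i, j) (Finset.mem_univ _) hij⟩
  refine ⟨s ^ m, by positivity, fun z ρ hρ hρ1 hz => ?_⟩
  rw [Hp_eval, norm_prod]
  by_cases hj : ∃ j, ‖z - q j‖ < s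
  · obtain ⟨j, hj⟩ := hj
    rw [← Finset.mul_prod_erase _ _ (Finset.mem_univ j)]
    have h1 : s ^ (Finset.univ.erase j).card ≤ ∏ i ∈ Finset.univ.erase j, ‖z - q i‖ := by
      rw [← Finset.prod_const]
      refine Finset.prod_le_prod (fun _ _ => hs0.le) fun i hi => ?_
      have h2 := hs2 i j (Finset.ne_of_mem_erase hi)
      have h3 : ‖q i - q j‖ ≤ ‖z - q j‖ + ‖z - q i‖ := by
        have e : q i - q j = (z - q j) - (z - q i) := by ring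
        rw [e]
        exact norm_sub_le _ _
      linarith
    have h2 : s ^ m ≤ s ^ (Finset.univ.erase j).card := by
      apply pow_le_pow_of_le_one hs0.le hs1
      have := Finset.card_le_univ (Finset.univ.erase j)
      simpa using this
    calc s ^ m * ρ = ρ * s ^ m := mul_comm _ _
      _ ≤ ‖z - q j‖ * ∏ i ∈ Finset.univ.erase j, ‖z - q i‖ :=
        mul_le_mul (hz j) (h2.trans h1) (by positivity) (norm_nonneg _)
  · push Not at hj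
    have h1 : s ^ m ≤ ∏ i, ‖z - q i‖ := by
      have h2 : s ^ (Finset.univ : Finset (Fin m)).card ≤ ∏ i, ‖z - q i‖ := by
        rw [← Finset.prod_const]
        exact Finset.prod_le_prod (fun _ _ => hs0.le) fun i _ => hj i
      simpa using h2
    have h3 : 0 < s ^ m := by positivity
    nlinarith

/-- the algebra of the perturbation -/
lemma pert_id {p q' u w h l : ℂ} (hq : q' ≠ 0) (hd : h * q' + l * w ≠ 0) :
    (h * p + l * u) / (h * q' + l * w) - p / q' =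
      l * (u * q' - p * w) / (q' * (h * q' + l * w)) := by
  field_simp
  ring

/-- the estimates in terms of a numerator and a denominator -/
lemma pert_two {l l' n n' D D' : ℂ} {B c₁ ρ e : ℝ} (hB : 0 ≤ B) (hc : 0 < c₁) (hρ : 0 < ρ)
    (he : 0 ≤ e) (hl' : ‖l'‖ ≤ ρ)
    (hn : ‖n‖ ≤ B) (hn' : ‖n'‖ ≤ B) (hnn : ‖n - n'‖ ≤ B * e) (hD : c₁ * ρ ≤ ‖D‖)
    (hD' : c₁ * ρ ≤ ‖D'‖) (hDB : ‖D'‖ ≤ 2 * B) (hDD : ‖D - D'‖ ≤ 2 * B * e + B * ‖l - l'‖) :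
    ‖l * n / D - l' * n' / D'‖ ≤
      (B / c₁ + 4 * B ^ 2 / c₁ ^ 2) * (‖l - l'‖ / ρ + ‖l'‖ * e / ρ ^ 2) := by
  have hD0 : D ≠ 0 := by
    rintro rfl
    rw [norm_zero] at hD
    have := mul_pos hc hρ
    linarith
  have hD0' : D' ≠ 0 := by
    rintro rfl
    rw [norm_zero] at hD'
    have := mul_pos hc hρ
    linarith
  have e1 : l * n / D - l' * n' / D' = (l - l') * n / D +
      l' * ((n - n') * D' + n' * (D' - D)) / (D * D') := by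
    field_simp
    ring
  rw [e1]
  refine (norm_add_le _ _).trans ?_
  have h1 : ‖(l - l') * n / D‖ ≤ ‖l - l'‖ * B / (c₁ * ρ) := by
    rw [norm_div, norm_mul]
    gcongr
  have h2 : ‖(n - n') * D' + n' * (D' - D)‖ ≤ 4 * B ^ 2 * e + B ^ 2 * ‖l - l'‖ := by
    refine (norm_add_le _ _).trans ?_
    rw [norm_mul, norm_mul, norm_sub_rev D' D]
    have h3 : ‖n - n'‖ * ‖D'‖ ≤ B * e * (2 * B) := mul_le_mul hnn hDB (norm_nonneg _) (by positivity)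
    have h4 : ‖n'‖ * ‖D - D'‖ ≤ B * (2 * B * e + B * ‖l - l'‖) :=
      mul_le_mul hn' hDD (norm_nonneg _) hB
    nlinarith
  have h3 : ‖l' * ((n - n') * D' + n' * (D' - D)) / (D * D')‖ ≤
      ‖l'‖ * (4 * B ^ 2 * e + B ^ 2 * ‖l - l'‖) / ((c₁ * ρ) * (c₁ * ρ)) := by
    rw [norm_div, norm_mul, norm_mul]
    gcongr
  refine (add_le_add h1 h3).trans ?_
  have e2 : ‖l'‖ * (4 * B ^ 2 * e + B ^ 2 * ‖l - l'‖) / ((c₁ * ρ) * (c₁ * ρ)) =
      4 * B ^ 2 / c₁ ^ 2 * (‖l'‖ * e / ρ ^ 2) + B ^ 2 / c₁ ^ 2 * (‖l - l'‖ * ‖l'‖ / ρ ^ 2) := by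
    field_simp
  have e3 : ‖l - l'‖ * B / (c₁ * ρ) = B / c₁ * (‖l - l'‖ / ρ) := by field_simp
  rw [e2, e3]
  have h4 : ‖l - l'‖ * ‖l'‖ / ρ ^ 2 ≤ ‖l - l'‖ / ρ := by
    rw [div_le_div_iff₀ (by positivity) hρ]
    have : ‖l - l'‖ * ‖l'‖ * ρ ≤ ‖l - l'‖ * ρ * ρ := by gcongr
    refine this.trans (le_of_eq ?_)
    ring
  have h5 : B ^ 2 / c₁ ^ 2 * (‖l - l'‖ * ‖l'‖ / ρ ^ 2) ≤ 4 * B ^ 2 / c₁ ^ 2 * (‖l - l'‖ / ρ) := by
    have h6 : B ^ 2 / c₁ ^ 2 ≤ 4 * B ^ 2 / c₁ ^ 2 := by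
      gcongr
      nlinarith [sq_nonneg B]
    exact mul_le_mul h6 h4 (by positivity) (by positivity)
  have h7 : 0 ≤ B / c₁ * (‖l'‖ * e / ρ ^ 2) := by positivity
  linarith [h5, h7]

/-- the perturbation estimates -/
theorem HC.prt {d m : ℕ} {y : CV d} (h : HC y) {q : Fin m → ℂ} (hinj : Function.Injective q)
    (V : CV (m + d)) (Hl : Finset ℂ) (hHl : ∀ j, q j ∈ Hl) :
    ∃ r₂ M κ : ℝ, 0 < r₂ ∧ 0 < κ ∧
      (∀ w ∈ NA y, ∀ z ∈ closedBall w r₂, ∀ ρ : ℝ, 0 < ρ → ρ ≤ 1 → (∀ h ∈ Hl, ρ ≤ ‖z - h‖) →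
        ∀ l : ℂ, ‖l‖ ≤ κ * ρ → (de (deg y q + l • V)).eval z ≠ 0) ∧
      ∀ w : ℕ → ℂ, (∀ k, w k ∈ NA y) →
        Prt w Hl (fx y) (fun l z => fx (deg y q + l • V) z) r₂ M κ := by
  obtain ⟨P', q₂, hY, -⟩ := h.ys
  have hcomp := h.compact
  -- the denominator of `y` near the bad set
  obtain ⟨r₂, cQ, R, hr₂, hcQ, hQ, hR⟩ : ∃ r₂ cQ R : ℝ, 0 < r₂ ∧ 0 < cQ ∧
      (∀ w ∈ NA y, ∀ z ∈ closedBall w r₂, cQ ≤ ‖(de y).eval z‖) ∧
      (∀ w ∈ NA y, ∀ z ∈ closedBall w r₂, ‖z‖ ≤ R) := by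
    obtain ⟨δ, hδ, hδ'⟩ := hcomp.exists_cthickening_subset_open
      (isOpen_ne_fun (de y).continuous continuous_const : IsOpen {z : ℂ | (de y).eval z ≠ 0})
      (fun z hz => hY.fin hz 0)
    have hc2 : IsCompact (cthickening δ (NA y)) := hcomp.cthickening
    have hin : ∀ w ∈ NA y, ∀ z ∈ closedBall w δ, z ∈ cthickening δ (NA y) := fun w hw z hz =>
      closedBall_subset_cthickening hw δ hz
    obtain ⟨M1, hM1⟩ := hc2.isBounded.exists_norm_le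
    have h2 : ContinuousOn (fun z => ‖(de y).eval z‖⁻¹) (cthickening δ (NA y)) := fun z hz =>
      (((de y).continuous.norm.continuousAt).inv₀ (norm_ne_zero_iff.2 (hδ' hz))).continuousWithinAt
    obtain ⟨M2, hM2⟩ := (hc2.image_of_continuousOn h2).bddAbove
    refine ⟨δ, (max M2 1)⁻¹, M1, hδ, by positivity, fun w hw z hz => ?_,
      fun w hw z hz => hM1 z (hin w hw z hz)⟩
    have h3 : ‖(de y).eval z‖⁻¹ ≤ max M2 1 := (hM2 ⟨z, hin w hw z hz, rfl⟩).trans (le_max_left _ _)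
    have h4 : 0 < ‖(de y).eval z‖ := norm_pos_iff.2 (hδ' (hin w hw z hz))
    exact inv_le_of_inv_le₀ h4 h3
  obtain ⟨c, hc, hlow⟩ := hp_low hinj
  obtain ⟨P, hP⟩ : ∃ P, P = pol y 0 := ⟨_, rfl⟩
  obtain ⟨Q, hQd⟩ : ∃ Q, Q = pol y 1 := ⟨_, rfl⟩
  obtain ⟨U, hU⟩ : ∃ U, U = pol V 0 := ⟨_, rfl⟩
  obtain ⟨W, hW⟩ : ∃ W, W = pol V 1 := ⟨_, rfl⟩
  have hX : ∀ l : ℂ, nu (deg y q + l • V) = Hp q * P + C l * U ∧
      de (deg y q + l • V) = Hp q * Q + C l * W := by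
    intro l
    unfold nu de
    rw [pol_lin, pol_lin, (pol_deg y q).1, (pol_deg y q).2, hP, hQd, hU, hW]
    exact ⟨rfl, rfl⟩
  have hyQ : de y = Q := hQd.symm
  have hyP : nu y = P := hP.symm
  rw [hyQ] at hQ
  obtain ⟨BW, hBW0, hBW, -⟩ := poly_bd W R
  obtain ⟨BN, hBN0, hBN, hBN'⟩ := poly_bd (U * Q - P * W) R
  obtain ⟨BS, hBS0, hBS, hBS'⟩ := poly_bd (Q * (Hp q * Q)) R
  obtain ⟨BT, hBT0, hBT, hBT'⟩ := poly_bd (Q * W) R
  obtain ⟨κ, hκd⟩ : ∃ κ : ℝ, κ = min 1 (c * cQ / (2 * (BW + 1))) := ⟨_, rfl⟩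
  have hκ0 : 0 < κ := by rw [hκd]; positivity
  have hκ1 : κ ≤ 1 := by rw [hκd]; exact min_le_left _ _
  have hκ2 : κ * BW ≤ c * cQ / 2 := by
    have h1 : κ ≤ c * cQ / (2 * (BW + 1)) := by rw [hκd]; exact min_le_right _ _
    rw [le_div_iff₀ (by positivity)] at h1
    nlinarith
  obtain ⟨c₁, hc₁⟩ : ∃ c₁ : ℝ, c₁ = cQ * (c * cQ / 2) := ⟨_, rfl⟩
  have hc₁0 : 0 < c₁ := by rw [hc₁]; positivity
  obtain ⟨B, hB⟩ : ∃ B : ℝ, B = BN + BS + BT := ⟨_, rfl⟩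
  have hB0 : 0 ≤ B := by rw [hB]; positivity
  -- lower bound for the denominator
  have hden : ∀ w ∈ NA y, ∀ z ∈ closedBall w r₂, ∀ ρ : ℝ, 0 < ρ → ρ ≤ 1 →
      (∀ h ∈ Hl, ρ ≤ ‖z - h‖) → ∀ l : ℂ, ‖l‖ ≤ κ * ρ →
      c * cQ / 2 * ρ ≤ ‖(Hp q).eval z * Q.eval z + l * W.eval z‖ := by
    intro w hw z hz ρ hρ hρ1 hh l hl
    have h1 := hlow z ρ hρ hρ1 (fun j => hh _ (hHl j))
    have h2 := hQ w hw z hz
    have h3 : c * ρ * cQ ≤ ‖(Hp q).eval z * Q.eval z‖ := by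
      rw [norm_mul]
      exact mul_le_mul h1 h2 hcQ.le (norm_nonneg _)
    have h4 : ‖l * W.eval z‖ ≤ c * cQ / 2 * ρ := by
      rw [norm_mul]
      calc ‖l‖ * ‖W.eval z‖ ≤ κ * ρ * BW :=
            mul_le_mul hl (hBW z (hR w hw z hz)) (norm_nonneg _) (by positivity)
        _ = κ * BW * ρ := by ring
        _ ≤ c * cQ / 2 * ρ := by gcongr
    have h5 := norm_sub_le ((Hp q).eval z * Q.eval z + l * W.eval z) (l * W.eval z)
    rw [add_sub_cancel_right] at h5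
    linarith
  have hDlow : ∀ w ∈ NA y, ∀ z ∈ closedBall w r₂, ∀ ρ : ℝ, 0 < ρ → ρ ≤ 1 →
      (∀ h ∈ Hl, ρ ≤ ‖z - h‖) → ∀ l : ℂ, ‖l‖ ≤ κ * ρ →
      c₁ * ρ ≤ ‖Q.eval z * ((Hp q).eval z * Q.eval z + l * W.eval z)‖ := by
    intro w hw z hz ρ hρ hρ1 hh l hl
    rw [norm_mul, hc₁, mul_assoc]
    exact mul_le_mul (hQ w hw z hz) (hden w hw z hz ρ hρ hρ1 hh l hl) (by positivity) (norm_nonneg _)
  have hne : ∀ w ∈ NA y, ∀ z ∈ closedBall w r₂, ∀ ρ : ℝ, 0 < ρ → ρ ≤ 1 →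
      (∀ h ∈ Hl, ρ ≤ ‖z - h‖) → ∀ l : ℂ, ‖l‖ ≤ κ * ρ →
      (Hp q).eval z * Q.eval z + l * W.eval z ≠ 0 := by
    intro w hw z hz ρ hρ hρ1 hh l hl h0
    have h1 := hden w hw z hz ρ hρ hρ1 hh l hl
    rw [h0, norm_zero] at h1
    have : 0 < c * cQ / 2 * ρ := by positivity
    linarith
  have hQne : ∀ w ∈ NA y, ∀ z ∈ closedBall w r₂, Q.eval z ≠ 0 := by
    intro w hw z hz h0
    have h1 := hQ w hw z hz
    rw [h0, norm_zero] at h1
    linarith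
  have hid : ∀ w ∈ NA y, ∀ z ∈ closedBall w r₂, ∀ ρ : ℝ, 0 < ρ → ρ ≤ 1 →
      (∀ h ∈ Hl, ρ ≤ ‖z - h‖) → ∀ l : ℂ, ‖l‖ ≤ κ * ρ →
      fx (deg y q + l • V) z - fx y z = l * (U * Q - P * W).eval z /
        (Q.eval z * ((Hp q).eval z * Q.eval z + l * W.eval z)) := by
    intro w hw z hz ρ hρ hρ1 hh l hl
    unfold fx fr
    rw [(hX l).1, (hX l).2, hyQ, hyP]
    simp only [eval_add, eval_mul, eval_C, eval_sub]
    exact pert_id (hQne w hw z hz) (hne w hw z hz ρ hρ hρ1 hh l hl)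
  refine ⟨r₂, B / c₁ + 4 * B ^ 2 / c₁ ^ 2, κ, hr₂, hκ0, ?_, fun w hw => ⟨hκ0, ?_, ?_⟩⟩
  · intro w hw z hz ρ hρ hρ1 hh l hl
    rw [(hX l).2]
    simp only [eval_add, eval_mul, eval_C]
    exact hne w hw z hz ρ hρ hρ1 hh l hl
  · intro k z hz ρ hρ hρ1 hh l hl
    rw [hid (w k) (hw k) z hz ρ hρ hρ1 hh l hl, norm_div, norm_mul]
    have h1 := hDlow (w k) (hw k) z hz ρ hρ hρ1 hh l hl
    have h2 := hBN z (hR _ (hw k) z hz)
    have h3 : ‖(U * Q - P * W).eval z‖ ≤ B := by rw [hB]; linarith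
    calc ‖l‖ * ‖(U * Q - P * W).eval z‖ / ‖Q.eval z * ((Hp q).eval z * Q.eval z + l * W.eval z)‖ ≤
        ‖l‖ * B / (c₁ * ρ) := by gcongr
      _ = B / c₁ * ‖l‖ / ρ := by field_simp
      _ ≤ (B / c₁ + 4 * B ^ 2 / c₁ ^ 2) * ‖l‖ / ρ := by
        gcongr
        have : 0 ≤ 4 * B ^ 2 / c₁ ^ 2 := by positivity
        linarith
  · intro k z hz z' hz' ρ hρ hρ1 hh hh' l l' hl hl'
    rw [hid (w k) (hw k) z hz ρ hρ hρ1 hh l hl, hid (w k) (hw k) z' hz' ρ hρ hρ1 hh' l' hl']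
    have hz1 := hR _ (hw k) z hz
    have hz1' := hR _ (hw k) z' hz'
    have hlρ : ‖l'‖ ≤ ρ := by nlinarith
    have eD : ∀ (l z : ℂ), Q.eval z * ((Hp q).eval z * Q.eval z + l * W.eval z) =
        (Q * (Hp q * Q)).eval z + l * (Q * W).eval z := by
      intro l z
      simp only [eval_mul]
      ring
    refine pert_two hB0 hc₁0 hρ (norm_nonneg _) hlρ ?_ ?_ ?_
      (hDlow (w k) (hw k) z hz ρ hρ hρ1 hh l hl) (hDlow (w k) (hw k) z' hz' ρ hρ hρ1 hh' l' hl') ?_ ?_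
    · have := hBN z hz1
      rw [hB]; linarith
    · have := hBN z' hz1'
      rw [hB]; linarith
    · refine (hBN' z z' hz1 hz1').trans ?_
      gcongr
      rw [hB]; linarith
    · rw [eD]
      refine (norm_add_le _ _).trans ?_
      rw [norm_mul]
      have h1 := hBS z' hz1'
      have h2 := hBT z' hz1'
      have h3 : ‖l'‖ * ‖(Q * W).eval z'‖ ≤ 1 * BT :=
        mul_le_mul (hlρ.trans hρ1) h2 (norm_nonneg _) zero_le_one
      rw [hB]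
      linarith
    · rw [eD, eD]
      have e2 : (Q * (Hp q * Q)).eval z + l * (Q * W).eval z -
          ((Q * (Hp q * Q)).eval z' + l' * (Q * W).eval z') =
          ((Q * (Hp q * Q)).eval z - (Q * (Hp q * Q)).eval z') + (l - l') * (Q * W).eval z +
          l' * ((Q * W).eval z - (Q * W).eval z') := by ring
      rw [e2]
      have h1 := hBS' z z' hz1 hz1'
      have h2 := hBT z hz1
      have h3 := hBT' z z' hz1 hz1'
      have h4 : ‖(l - l') * (Q * W).eval z‖ ≤ ‖l - l'‖ * BT := by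
        rw [norm_mul]; gcongr
      have h5 : ‖l' * ((Q * W).eval z - (Q * W).eval z')‖ ≤ 1 * (BT * ‖z - z'‖) := by
        rw [norm_mul]
        exact mul_le_mul (hlρ.trans hρ1) h3 (norm_nonneg _) zero_le_one
      refine (norm_add₃_le).trans ?_
      have hnn := norm_nonneg (z - z')
      have hnn' := norm_nonneg (l - l')
      rw [hB]
      nlinarith [mul_nonneg hBN0 hnn, mul_nonneg hBS0 hnn, mul_nonneg hBT0 hnn,
        mul_nonneg hBN0 hnn', mul_nonneg hBS0 hnn', mul_nonneg hBT0 hnn']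

end Run7.h725
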