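import Pool.Agent.Run7.h725.B1Crit
import Pool.Agent.Run7.h725.B2Prt
import Pool.Agent.Run7.h725.A1Cover

/-! Nondegeneracy, the critical points and the critical values near the holes. -/

set_option autoImplicit false

open Topology Filter Metric Set Polynomial MeasureTheory Asymptotics
open scoped OnePoint

namespace Run7.h725

open Run7.h904.RF
open Pool.Agent.H790R3.RB (CV hF cr ND wr rt sp pr hc pol Sink Attd HypTop hF_smul hF_contDiff)
open Pool.Agent.H790R3.RB.PQ (hF_one hF_inf)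
open Pool.Agent.W757.QR Pool.Agent.W757.RF Pool.Agent.W757.Q2
open Pool.Agent.W29.RQSNK (sp_iter fin_of sp_fx sp_inf fx_iter_diff)
open Pool.Agent.R239.Fat (Hp Hp_eval Hp_ne Hp_root Hp_deriv deg pol_deg deg_hole pol_eval_cont
  pol_deriv_cont ev_coe hc_coe hc_inf)

/-- the direction is transversal at the holes -/
def Tv {d m : ℕ} (y : CV d) (q : Fin m → ℂ) (V : CV (m + d)) : Prop :=
  ∀ j, (pol V 0).eval (q j) * (pol y 1).eval (q j) -
    (pol y 0).eval (q j) * (pol V 1).eval (q j) ≠ 0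

lemma line_cont {D : ℕ} (X V : CV D) : Tendsto (fun l : ℂ => X + l • V) (𝓝 0) (𝓝 X) := by
  have h : Continuous (fun l : ℂ => X + l • V) := by fun_prop
  have h1 := h.tendsto 0
  rwa [zero_smul, add_zero] at h1

/-- nondegeneracy in terms of the values -/
lemma nd_of {D : ℕ} (x : CV D) (h1 : ∀ z : ℂ, hF x (z, 1) ≠ 0) (h2 : hF x (1, 0) ≠ 0) : ND x := by
  intro p hp
  by_contra h0
  by_cases hp2 : p.2 = 0
  · have hp1 : p.1 ≠ 0 := fun h => h0 (Prod.ext h hp2)
    have e : p = p.1 • ((1, 0) : ℂ × ℂ) := by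
      ext
      · simp
      · simp [hp2]
    rw [e, hF_smul] at hp
    exact h2 ((smul_eq_zero.1 hp).resolve_left (pow_ne_zero _ hp1))
  · have e : p = p.2 • ((p.1 / p.2, 1) : ℂ × ℂ) := by
      ext
      · simp [mul_div_cancel₀ _ hp2]
      · simp
    rw [e, hF_smul] at hp
    exact h1 _ ((smul_eq_zero.1 hp).resolve_left (pow_ne_zero _ hp2))

/-- the maps on a transversal line are nondegenerate -/
theorem nd_small {d m : ℕ} (hm : 0 < m) {y : CV d} (hy : ND y) {q : Fin m → ℂ} {V : CV (m + d)}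
    (hV : Tv y q V) : ∀ᶠ l in 𝓝 (0 : ℂ), l ≠ 0 → ND (deg y q + l • V) := by
  obtain ⟨N, hN⟩ : ∃ N : ℂ[X], N = pol V 0 * pol y 1 - pol y 0 * pol V 1 := ⟨_, rfl⟩
  have hNq : ∀ j, N.eval (q j) ≠ 0 := fun j => by
    rw [hN, eval_sub, eval_mul, eval_mul]
    exact hV j
  have hN0 : N ≠ 0 := by
    intro h0
    apply hNq ⟨0, hm⟩
    rw [h0, eval_zero]
  have hcont : ∀ p : ℂ × ℂ, hF (deg y q) p ≠ 0 →
      ∀ᶠ l in 𝓝 (0 : ℂ), hF (deg y q + l • V) p ≠ 0 := by
    intro p hp
    have h1 : Continuous (fun x : CV (m + d) => hF x p) :=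
      (hF_contDiff (m + d) 1).continuous.comp (continuous_id.prodMk continuous_const)
    exact (h1.continuousAt.tendsto.comp (line_cont (deg y q) V)).eventually
      (isOpen_compl_singleton.mem_nhds hp)
  have h1 : ∀ᶠ l in 𝓝 (0 : ℂ), ∀ z ∈ N.roots.toFinset, hF (deg y q + l • V) (z, 1) ≠ 0 := by
    rw [Finset.eventually_all]
    intro z hz
    rw [Multiset.mem_toFinset, mem_roots hN0] at hz
    refine hcont _ ?_
    have hz' : (z : OnePoint ℂ) ∉ (Set.range fun j => ((q j : ℂ) : OnePoint ℂ)) := by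
      rintro ⟨j, hj⟩
      have := OnePoint.coe_injective hj
      apply hNq j
      rw [this]
      exact hz
    exact (deg_hole hy q hz').1
  have h2 : ∀ᶠ l in 𝓝 (0 : ℂ), hF (deg y q + l • V) (1, 0) ≠ 0 := by
    refine hcont _ ?_
    have hz' : (∞ : OnePoint ℂ) ∉ (Set.range fun j => ((q j : ℂ) : OnePoint ℂ)) := by
      rintro ⟨j, hj⟩
      exact OnePoint.coe_ne_infty _ hj
    exact (deg_hole hy q hz').1
  filter_upwards [h1, h2] with l h3 h4 hl
  refine nd_of _ (fun z hz => ?_) h4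
  by_cases hzN : N.eval z = 0
  · refine h3 z ?_ hz
    rw [Multiset.mem_toFinset, mem_roots hN0]
    exact hzN
  · rw [hF_one, pol_lin, pol_lin, (pol_deg y q).1, (pol_deg y q).2] at hz
    simp only [eval_add, eval_mul, eval_C, Prod.mk_eq_zero] at hz
    obtain ⟨h5, h6⟩ := hz
    apply hzN
    have h7 : l * N.eval z = 0 := by
      rw [hN, eval_sub, eval_mul, eval_mul]
      linear_combination (pol y 1).eval z * h5 - (pol y 0).eval z * h6
    exact (mul_eq_zero.1 h7).resolve_left hl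

/-- the hypotheses on the holes in good coordinates -/
structure HH {d m : ℕ} (y : CV d) (q : Fin m → ℂ) : Prop where
  hc : HC y
  inj : Function.Injective q
  self : ∀ i j, ∀ n, 0 < n → (sp y)^[n] ((q i : ℂ) : OnePoint ℂ) ≠ ((q j : ℂ) : OnePoint ℂ)
  crt : ∀ c ∈ Crt y, ∀ n j, (sp y)^[n] c ≠ ((q j : ℂ) : OnePoint ℂ)
  inf : ∀ n j, (sp y)^[n] ∞ ≠ ((q j : ℂ) : OnePoint ℂ)
  fin : ∀ j, ∀ n, (sp y)^[n] ((q j : ℂ) : OnePoint ℂ) ≠ ∞

section

variable {d m : ℕ} {y : CV d} {q : Fin m → ℂ}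

lemma HH.Q (h : HH y q) (j : Fin m) : (pol y 1).eval (q j) ≠ 0 := by
  intro h0
  apply h.fin j 1
  rw [Function.iterate_one]
  exact sp_inf y (q j) h0

lemma HH.pers (h : HH y q) {v : OnePoint ℂ} (hv : Attd (sp y) v)
    (hesc : ∀ n j, (sp y)^[n] v ≠ ((q j : ℂ) : OnePoint ℂ)) :
    ∃ O ∈ 𝓝 v, ∀ᶠ x in 𝓝 (deg y q), ND x → ∀ u ∈ O, Attd (sp x) u :=
  persist (by have := h.hc.hd; omega) h.hc.hx (fun j n hn => h.self j j n hn) hv hesc

/-- classification of the critical points of nearby maps -/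
theorem HH.cls (h : HH y q) {δ : ℝ} (hδ : 0 < δ) : ∀ᶠ x in 𝓝 (deg y q), ND x → ∀ c ∈ Crt x,
    Attd (sp x) c ∨ ∃ j, ∃ z ∈ ball (q j) δ, c = ((z : ℂ) : OnePoint ℂ) := by
  have hd := h.hc.hd
  have key : ∀ s : OnePoint ℂ, ∀ᶠ p : CV (m + d) × OnePoint ℂ in 𝓝 (deg y q, s), ND p.1 →
      p.2 ∈ Crt p.1 → (Attd (sp p.1) p.2 ∨ ∃ j, ∃ z ∈ ball (q j) δ, p.2 = ((z : ℂ) : OnePoint ℂ)) := by
    intro s₀
    -- attracted points
    have hA : Attd (sp y) s₀ → (∀ n j, (sp y)^[n] s₀ ≠ ((q j : ℂ) : OnePoint ℂ)) →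
        ∀ᶠ p : CV (m + d) × OnePoint ℂ in 𝓝 (deg y q, s₀), ND p.1 → p.2 ∈ Crt p.1 →
        (Attd (sp p.1) p.2 ∨ ∃ j, ∃ z ∈ ball (q j) δ, p.2 = ((z : ℂ) : OnePoint ℂ)) := by
      intro h1 h2
      obtain ⟨O, hO, hx⟩ := h.pers h1 h2
      rw [nhds_prod_eq]
      filter_upwards [prod_mem_prod hx hO] with p hp hnd _
      exact Or.inl (hp.1 hnd p.2 hp.2)
    induction s₀ using OnePoint.rec with
    | infty => exact hA h.hc.inf h.inf
    | coe z =>
      by_cases hz : ∃ j, z = q j
      · obtain ⟨j, rfl⟩ := hz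
        have h1 : (fun w : ℂ => (w : OnePoint ℂ)) '' ball (q j) δ ∈ 𝓝 ((q j : ℂ) : OnePoint ℂ) :=
          OnePoint.isOpenEmbedding_coe.isOpenMap.image_mem_nhds (ball_mem_nhds _ hδ)
        rw [nhds_prod_eq]
        filter_upwards [prod_mem_prod univ_mem h1] with p hp _ _
        obtain ⟨w, hw, hwp⟩ := hp.2
        exact Or.inr ⟨j, w, hw, hwp.symm⟩
      · push Not at hz
        by_cases hQz : (pol y 1).eval z = 0
        · refine hA ?_ ?_
          · apply Pool.Agent.W376.RQTRAP.attd_of_iter (sp_cont hd y h.hc.hx) (m := 1)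
            rw [Function.iterate_one, sp_inf y z hQz]
            exact h.hc.inf
          · intro n j
            rcases n with _ | n
            · intro he
              exact hz j (OnePoint.coe_injective he)
            · rw [Function.iterate_succ_apply, sp_inf y z hQz]
              exact h.inf n j
        · by_cases hcr : ((z : ℂ) : OnePoint ℂ) ∈ Crt y
          · exact hA (h.hc.crit _ hcr) (h.crt _ hcr)
          · -- no critical points
            have hW : (derivative (pol y 0)).eval z * (pol y 1).eval z -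
                (pol y 0).eval z * (derivative (pol y 1)).eval z ≠ 0 := by
              intro h0
              apply hcr
              refine crt_of_notinj hd y h.hc.hx _ (notinj_fin y z hQz ?_)
              show (derivative (pol y 0) * pol y 1 - pol y 0 * derivative (pol y 1)).eval z = 0
              rw [eval_sub, eval_mul, eval_mul]
              exact h0
            obtain ⟨h0, h1⟩ := pol_deg y q
            have hHz : (Hp q).eval z ≠ 0 := Hp_ne hz
            have e2 : ∀ᶠ p : CV (m + d) × ℂ in 𝓝 (deg y q, z),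
                (derivative (pol p.1 0)).eval p.2 * (pol p.1 1).eval p.2 -
                  (pol p.1 0).eval p.2 * (derivative (pol p.1 1)).eval p.2 ≠ 0 := by
              refine (((pol_deriv_cont _ 0).mul (pol_eval_cont _ 1)).sub
                ((pol_eval_cont _ 0).mul (pol_deriv_cont _ 1))).continuousAt.eventually_ne ?_
              show (derivative (pol (deg y q) 0)).eval z * (pol (deg y q) 1).eval z -
                (pol (deg y q) 0).eval z * (derivative (pol (deg y q) 1)).eval z ≠ 0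
              rw [h0, h1, derivative_mul, derivative_mul, eval_add, eval_add, eval_mul, eval_mul,
                eval_mul, eval_mul, eval_mul, eval_mul]
              have h3 : ((derivative (Hp q)).eval z * (pol y 0).eval z +
                  (Hp q).eval z * (derivative (pol y 0)).eval z) *
                  ((Hp q).eval z * (pol y 1).eval z) -
                  (Hp q).eval z * (pol y 0).eval z * ((derivative (Hp q)).eval z *
                  (pol y 1).eval z + (Hp q).eval z * (derivative (pol y 1)).eval z) =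
                  (Hp q).eval z ^ 2 * ((derivative (pol y 0)).eval z * (pol y 1).eval z -
                  (pol y 0).eval z * (derivative (pol y 1)).eval z) := by ring
              rw [h3]
              exact mul_ne_zero (pow_ne_zero 2 hHz) hW
            apply ev_coe
            filter_upwards [e2] with p hp hnd hc
            exfalso
            apply hp
            have h4 := crt_wn (by omega) p.1 p.2 hc
            have h5 : (derivative (pol p.1 0) * pol p.1 1 -
              pol p.1 0 * derivative (pol p.1 1)).eval p.2 = 0 := h4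
            rw [eval_sub, eval_mul, eval_mul] at h5
            exact h5
  have hcr := isCompact_univ.eventually_forall_of_forall_eventually
    (P := fun (x : CV (m + d)) (s : OnePoint ℂ) => ND x → s ∈ Crt x → (Attd (sp x) s ∨
      ∃ j, ∃ z ∈ ball (q j) δ, s = ((z : ℂ) : OnePoint ℂ))) (fun s _ => key s)
  filter_upwards [hcr] with x hx hnd c hc
  exact hx c (mem_univ c) hnd hc

/-- the good points of the plane -/
def Gp {d m : ℕ} (y : CV d) (q : Fin m → ℂ) : Set ℂ :=
  {z | ∃ O ∈ 𝓝 z, ∀ᶠ x in 𝓝 (deg y q), ND x → ∀ u ∈ O, Attd (sp x) ((u : ℂ) : OnePoint ℂ)}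

lemma gp_open : IsOpen (Gp y q) := by
  rw [isOpen_iff_mem_nhds]
  rintro z ⟨O, hO, hx⟩
  obtain ⟨O', hO', hO'o, hz⟩ := _root_.mem_nhds_iff.1 hO
  filter_upwards [hO'o.mem_nhds hz] with w hw
  exact ⟨O', hO'o.mem_nhds hw, hx.mono fun x h hnd u hu => h hnd u (hO' hu)⟩

lemma HH.gp_null (h : HH y q) : volume (Gp y q)ᶜ = 0 := by
  have h1 : (Gp y q)ᶜ ⊆ NA y ∪ ⋃ n : ℕ, ⋃ j : Fin m, (fun z : ℂ => (z : OnePoint ℂ)) ⁻¹'
      {z : OnePoint ℂ | (sp y)^[n] z = ((q j : ℂ) : OnePoint ℂ)} := by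
    intro z hz
    by_contra hcon
    rw [mem_union, not_or] at hcon
    obtain ⟨h2, h3⟩ := hcon
    apply hz
    have h4 : AtE y (z : OnePoint ℂ) := by
      by_contra h0
      exact h2 h0
    obtain ⟨O, hO, hx⟩ := h.pers (attd_of_atE h.hc.hd h.hc.hx h4) (fun n j he => h3 (by
      rw [mem_iUnion]
      exact ⟨n, mem_iUnion.2 ⟨j, he⟩⟩))
    refine ⟨(fun z : ℂ => (z : OnePoint ℂ)) ⁻¹' O,
      OnePoint.continuous_coe.continuousAt.preimage_mem_nhds hO, ?_⟩
    filter_upwards [hx] with x hx hnd u hu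
    exact hx hnd _ hu
  refine measure_mono_null h1 ?_
  rw [measure_union_null_iff]
  refine ⟨h.hc.zero, ?_⟩
  refine Set.Countable.measure_zero (Set.countable_iUnion fun n => Set.countable_iUnion fun j => ?_) _
  exact (Pool.Agent.W342.RE.PTW.pre_countable h.hc.hd h.hc.hx _ n).preimage OnePoint.coe_injective

/-- compact sets of good points -/
lemma gp_compact {K : Set ℂ} (hK : IsCompact K) (hKG : K ⊆ Gp y q) :
    ∀ᶠ x in 𝓝 (deg y q), ND x → ∀ u ∈ K, Attd (sp x) ((u : ℂ) : OnePoint ℂ) := by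
  have h0 : ∀ z ∈ K, ∃ O ∈ 𝓝 z, ∀ᶠ x in 𝓝 (deg y q), ND x →
      ∀ u ∈ O, Attd (sp x) ((u : ℂ) : OnePoint ℂ) := fun z hz => hKG hz
  choose! O hO hx using h0
  obtain ⟨t, htK, ht⟩ := hK.elim_nhds_subcover O (fun z hz => hO z hz)
  have h1 : ∀ᶠ x in 𝓝 (deg y q), ∀ z ∈ t, ND x → ∀ u ∈ O z, Attd (sp x) ((u : ℂ) : OnePoint ℂ) := by
    rw [Finset.eventually_all]
    exact fun z hz => hx z (htK z hz)
  filter_upwards [h1] with x h2 hnd u hu
  obtain ⟨z, hz, huz⟩ := mem_iUnion₂.1 (ht hu)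
  exact h2 z hz hnd u huz

end

end Run7.h725
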