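import Pool.Agent.Run7.h725.B3Crit

/-! Hyperbolic maps on complex lines through the degenerate map. -/

set_option autoImplicit false

open Topology Filter Metric Set Polynomial MeasureTheory Asymptotics
open scoped OnePoint

namespace Run7.h725

open Run7.h904.RF
open Pool.Agent.H790R3.RB (CV hF cr ND wr rt sp pr hc pol Sink Attd HypTop hF_smul hF_contDiff)
open Pool.Agent.H790R3.RB.PQ (hF_one hF_inf)
open Pool.Agent.W757.QR Pool.Agent.W757.RF Pool.Agent.W757.Q2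
open Pool.Agent.W29.RQSNK (sp_iter fin_of sp_fx sp_inf fx_iter_diff)
open Pool.Agent.R239.Fat (Hp Hp_eval Hp_ne Hp_root Hp_deriv deg pol_deg deg_hole pol_eval_cont
  pol_deriv_cont ev_coe hc_coe hc_inf)

variable {d m : ℕ} {y : CV d} {q : Fin m → ℂ}

lemma line_ev (X V : CV (m + d)) {p : CV (m + d) → Prop} (h : ∀ᶠ x in 𝓝 X, p x) :
    ∃ ϱ : ℝ, 0 < ϱ ∧ ∀ ξ ∈ ball (0 : ℂ) ϱ, p (X + ξ ^ 2 • V) := by
  have h1 : Tendsto (fun ξ : ℂ => ξ ^ 2) (𝓝 0) (𝓝 0) := by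
    have h2 := (continuous_pow (M := ℂ) 2).tendsto 0
    rwa [zero_pow two_ne_zero] at h2
  have h2 := ((line_cont X V).comp h1).eventually h
  exact Metric.eventually_nhds_iff_ball.1 h2

/-- the critical value at a hole is attracted for most parameters -/
theorem HH.hole_est (h : HH y q) (V : CV (m + d)) (j : Fin m) {v : ℂ → ℂ} {c₀ : ℂ} (hc₀ : c₀ ≠ 0)
    (hv : HasStrictDerivAt v c₀ 0) (hv0 : v 0 = fx y (q j)) :
    ∃ C : ℝ, 0 < C ∧ ∀ ε : ℝ, 0 < ε → ∃ ϱ₀ : ℝ, 0 < ϱ₀ ∧ ∀ ϱ : ℝ, 0 < ϱ → ϱ ≤ ϱ₀ →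
      ∃ X : Set ℂ, volume X ≤ ENNReal.ofReal (C * ε * ϱ ^ 2) ∧
        ∀ ξ ∈ ball (0 : ℂ) ϱ \ X, ND (deg y q + ξ ^ 2 • V) →
          Attd (sp (deg y q + ξ ^ 2 • V)) ((v ξ : ℂ) : OnePoint ℂ) := by
  classical
  have hd := h.hc.hd
  have hval : sp y ((q j : ℂ) : OnePoint ℂ) = ((v 0 : ℂ) : OnePoint ℂ) := by
    rw [hv0]
    exact sp_fx y (q j) (h.Q j)
  have hitv : ∀ n, (sp y)^[n] ((v 0 : ℂ) : OnePoint ℂ) =
      (sp y)^[n + 1] ((q j : ℂ) : OnePoint ℂ) := by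
    intro n
    rw [← hval, Function.iterate_succ_apply]
  have hesc : ∀ n i, (sp y)^[n] ((v 0 : ℂ) : OnePoint ℂ) ≠ ((q i : ℂ) : OnePoint ℂ) := by
    intro n i
    rw [hitv]
    exact h.self j i (n + 1) (Nat.succ_pos n)
  by_cases hA : AtE y ((v 0 : ℂ) : OnePoint ℂ)
  · -- attracted value
    obtain ⟨O, hO, hx⟩ := h.pers (attd_of_atE hd h.hc.hx hA) hesc
    refine ⟨1, one_pos, fun ε hε => ?_⟩
    obtain ⟨ϱ₁, hϱ₁, h1⟩ := line_ev (deg y q) V hx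
    have h2 : ∀ᶠ ξ in 𝓝 (0 : ℂ), ((v ξ : ℂ) : OnePoint ℂ) ∈ O := by
      have h3 : ContinuousAt (fun ξ => ((v ξ : ℂ) : OnePoint ℂ)) 0 :=
        OnePoint.continuous_coe.continuousAt.comp hv.hasDerivAt.continuousAt
      exact h3.preimage_mem_nhds hO
    obtain ⟨ϱ₂, hϱ₂, h2⟩ := Metric.eventually_nhds_iff_ball.1 h2
    refine ⟨min ϱ₁ ϱ₂, lt_min hϱ₁ hϱ₂, fun ϱ hϱ hϱ' => ⟨∅, by simp, ?_⟩⟩
    rintro ξ ⟨hξ, -⟩ hnd
    exact h1 ξ (ball_subset_ball (hϱ'.trans (min_le_left _ _)) hξ) hnd _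
      (h2 ξ (ball_subset_ball (hϱ'.trans (min_le_right _ _)) hξ))
  · -- value in the Julia set
    have hvN : v 0 ∈ NA y := hA
    obtain ⟨P', q₂, hY, -⟩ := h.hc.ys
    obtain ⟨r₁, M₁, hr₁, hbr⟩ := h.hc.brs
    obtain ⟨G, hB⟩ := hbr (v 0) hvN
    obtain ⟨Hl, hHl⟩ : ∃ Hl : Finset ℂ, Hl = Finset.univ.image q := ⟨_, rfl⟩
    have hHl1 : ∀ i, q i ∈ Hl := fun i => by
      rw [hHl]; exact Finset.mem_image_of_mem _ (Finset.mem_univ i)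
    have hHl2 : ∀ u ∈ Hl, ∃ i, u = q i := fun u hu => by
      rw [hHl] at hu
      obtain ⟨i, -, hi⟩ := Finset.mem_image.1 hu
      exact ⟨i, hi.symm⟩
    obtain ⟨r₂, M₂, κ, hr₂, hκ, hden, hprt⟩ := h.hc.prt h.inj V Hl hHl1
    obtain ⟨w, hwd⟩ : ∃ w : ℕ → ℂ, w = fun k => (fx y)^[k] (v 0) := ⟨_, rfl⟩
    have hwN : ∀ k, w k ∈ NA y := fun k => by rw [hwd]; exact (hY.orb hvN k).2
    have hws : ∀ k, (sp y)^[k] ((v 0 : ℂ) : OnePoint ℂ) = ((w k : ℂ) : OnePoint ℂ) := fun k => by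
      rw [hwd]; exact (hY.orb hvN k).1
    have hP := hprt w hwN
    obtain ⟨r, hr⟩ : ∃ r, r = min r₁ r₂ := ⟨_, rfl⟩
    have hr0 : 0 < r := by rw [hr]; exact lt_min hr₁ hr₂
    have hrr₁ : r ≤ r₁ := by rw [hr]; exact min_le_left _ _
    have hrr₂ : r ≤ r₂ := by rw [hr]; exact min_le_right _ _
    have hB' : Brs w (fx y) G (fun k => ‖deriv ((fx y)^[k]) (v 0)‖) r (max M₁ M₂) := by
      rw [hwd]
      exact hB.mono (le_max_left _ _) hr0 hrr₁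
    have hP' := hP.mono (le_max_right M₁ M₂) hrr₂
    -- the Lipschitz condition
    obtain ⟨ϱ₁, hϱ₁, hlip⟩ : ∃ ϱ₁ : ℝ, 0 < ϱ₁ ∧ ∀ ξ ∈ ball (0 : ℂ) ϱ₁, ∀ ξ' ∈ ball (0 : ℂ) ϱ₁,
        ‖v ξ - v ξ' - c₀ * (ξ - ξ')‖ ≤ ‖c₀‖ / 4 * ‖ξ - ξ'‖ := by
      have h1 := hv.isLittleO.bound (c := ‖c₀‖ / 4) (by
        have := norm_pos_iff.2 hc₀
        positivity)
      rw [Metric.eventually_nhds_iff_ball] at h1
      obtain ⟨ϱ₁, hϱ₁, h1⟩ := h1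
      refine ⟨ϱ₁, hϱ₁, fun ξ hξ ξ' hξ' => ?_⟩
      have h2 := h1 (ξ, ξ') (by
        rw [mem_ball, Prod.dist_eq, max_lt_iff]
        exact ⟨hξ, hξ'⟩)
      simp only at h2
      rw [mul_comm c₀]
      simpa using h2
    obtain ⟨C, hC, hS⟩ := shadow hB' hP' (fun k u hu he => by
      obtain ⟨i, rfl⟩ := hHl2 u hu
      apply hesc k i
      rw [hws, he]) (by rw [hwd]; rfl) hc₀ hϱ₁ hlip
    refine ⟨C, hC, fun ε hε => ?_⟩
    -- the compact set of good points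
    obtain ⟨R₀, hR₀⟩ := h.hc.compact.isBounded.exists_norm_le
    have hR : ∀ k, closedBall (w k) r ⊆ closedBall 0 (R₀ + r) := by
      intro k z hz
      rw [mem_closedBall, dist_eq_norm] at hz
      rw [mem_closedBall_zero_iff]
      have h1 := hR₀ (w k) (hwN k)
      have h2 := norm_add_le (z - w k) (w k)
      rw [sub_add_cancel] at h2
      linarith
    have hJc : IsCompact (closedBall (0 : ℂ) (R₀ + r) ∩ (Gp y q)ᶜ) :=
      (isCompact_closedBall _ _).inter_right gp_open.isClosed_compl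
    have hJ0 : volume (closedBall (0 : ℂ) (R₀ + r) ∩ (Gp y q)ᶜ) = 0 :=
      measure_mono_null inter_subset_right h.gp_null
    obtain ⟨t, ht0, ht1, ht2⟩ := cover_null _ hJc hJ0 ε hε
    have hKc : IsCompact (closedBall (0 : ℂ) (R₀ + r) \ ⋃ p ∈ t, ball p.1 p.2) :=
      (isCompact_closedBall _ _).diff (isOpen_biUnion fun _ _ => isOpen_ball)
    have hKG : closedBall (0 : ℂ) (R₀ + r) \ ⋃ p ∈ t, ball p.1 p.2 ⊆ Gp y q := by
      rintro z ⟨hz1, hz2⟩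
      by_contra hz3
      exact hz2 (ht1 ⟨hz1, hz3⟩)
    obtain ⟨ϱ₂, hϱ₂, h2⟩ := line_ev (deg y q) V (gp_compact hKc hKG)
    obtain ⟨ϱ₃, hϱ₃, h3⟩ := hS ε hε t ht0 ht2
    refine ⟨min ϱ₂ ϱ₃, lt_min hϱ₂ hϱ₃, fun ϱ hϱ hϱ' => ?_⟩
    obtain ⟨X, hX, hX'⟩ := h3 ϱ hϱ (hϱ'.trans (min_le_right _ _))
    refine ⟨X, hX, fun ξ hξ hnd => ?_⟩
    obtain ⟨n, hn1, hn2, hn3⟩ := hX' ξ hξ
    have hzn : ZZ (fun l z => fx (deg y q + l • V) z) v n ξ ∈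
        closedBall (0 : ℂ) (R₀ + r) \ ⋃ p ∈ t, ball p.1 p.2 := by
      refine ⟨hR n hn2, fun hmem => ?_⟩
      obtain ⟨p, hp, hp'⟩ := mem_iUnion₂.1 hmem
      exact hn3 p hp hp'
    have hatt := h2 ξ (ball_subset_ball (hϱ'.trans (min_le_left _ _)) hξ.1) hnd _ hzn
    have hit : ∀ k ≤ n, (sp (deg y q + ξ ^ 2 • V))^[k] ((v ξ : ℂ) : OnePoint ℂ) =
        ((ZZ (fun l z => fx (deg y q + l • V) z) v k ξ : ℂ) : OnePoint ℂ) := by
      intro k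
      induction k with
      | zero => intro _; rfl
      | succ k ih =>
        intro hk
        rw [Function.iterate_succ_apply', ih (by omega), ZZ_succ]
        obtain ⟨g1, ρ, g2, g3, g4, g5⟩ := hn1 k (by omega)
        exact sp_fx _ _ (hden (w k) (hwN k) _ (closedBall_subset_closedBall hrr₂ g1) ρ g2 g3 g5 _ g4)
    apply Pool.Agent.W376.RQTRAP.attd_of_iter (sp_cont (by omega) _ hnd) (m := n)
    rw [hit n le_rfl]
    exact hatt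

/-- most maps on a transversal complex line are hyperbolic -/
theorem HH.line (h : HH y q) (hm : 0 < m) {V : CV (m + d)} (hV : Tv y q V) :
    ∃ C : ℝ, 0 < C ∧ ∀ ε : ℝ, 0 < ε → ∃ ϱ₀ : ℝ, 0 < ϱ₀ ∧ ∀ ϱ : ℝ, 0 < ϱ → ϱ ≤ ϱ₀ →
      volume {ξ : ℂ | ξ ∈ ball (0 : ℂ) ϱ ∧ ¬ HyR (deg y q + ξ ^ 2 • V)} ≤
        ENNReal.ofReal (C * ε * ϱ ^ 2) := by
  classical
  have hd := h.hc.hd
  -- the critical points near the holes
  have hcr : ∀ j, ∃ (v : ℂ → ℂ) (c₀ : ℂ) (δ : ℝ), c₀ ≠ 0 ∧ HasStrictDerivAt v c₀ 0 ∧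
      v 0 = fx y (q j) ∧ 0 < δ ∧ ∀ ξ : ℂ, ξ ≠ 0 → ‖ξ‖ < δ → ∀ z : ℂ, ‖z - q j‖ < δ →
        (wn (nu (deg y q + ξ ^ 2 • V)) (de (deg y q + ξ ^ 2 • V))).eval z = 0 →
        (de (deg y q + ξ ^ 2 • V)).eval z ≠ 0 ∧ (fx (deg y q + ξ ^ 2 • V) z = v ξ ∨
          fx (deg y q + ξ ^ 2 • V) z = v (-ξ)) := by
    intro j
    obtain ⟨H₁, hH₁⟩ : ∃ H₁ : ℂ[X], H₁ = ∏ i ∈ Finset.univ.erase j, (X - C (q i)) := ⟨_, rfl⟩
    have hHp : Hp q = (X - C (q j)) * H₁ := by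
      rw [hH₁]
      exact (Finset.mul_prod_erase _ _ (Finset.mem_univ j)).symm
    have hH₁0 : H₁.eval (q j) ≠ 0 := by
      rw [hH₁, eval_prod, Finset.prod_ne_zero_iff]
      intro i hi
      rw [eval_sub, eval_X, eval_C, sub_ne_zero]
      exact fun he => (Finset.ne_of_mem_erase hi) (h.inj he).symm
    have hw : (wn (pol y 0) (pol y 1)).eval (q j) ≠ 0 := by
      intro h0
      exact h.crt _ (crt_of_notinj hd y h.hc.hx _ (notinj_fin y (q j) (h.Q j) h0)) 0 j rfl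
    obtain ⟨v, c₀, hc₀, hv, hv0, δ, hδ, hcrit⟩ := hole_crit (P := pol y 0) (Q := pol y 1)
      (U := pol V 0) (W := pol V 1) (H₁ := H₁) (a := q j) hH₁0 (h.Q j) hw (hV j)
    have hX : ∀ l : ℂ, nu (deg y q + l • V) = (X - C (q j)) * H₁ * pol y 0 + C l * pol V 0 ∧
        de (deg y q + l • V) = (X - C (q j)) * H₁ * pol y 1 + C l * pol V 1 := by
      intro l
      unfold nu de
      rw [pol_lin, pol_lin, (pol_deg y q).1, (pol_deg y q).2, hHp]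
      exact ⟨rfl, rfl⟩
    refine ⟨v, c₀, δ, hc₀, hv, hv0, hδ, fun ξ hξ0 hξ z hz hcr => ?_⟩
    unfold fx fr
    rw [(hX (ξ ^ 2)).1, (hX (ξ ^ 2)).2] at hcr ⊢
    exact hcrit ξ hξ0 hξ z hz hcr
  choose v c₀ δ hc₀ hv hv0 hδ hcr using hcr
  obtain ⟨δ₀, hδ₀, hδ₀'⟩ : ∃ δ₀ : ℝ, 0 < δ₀ ∧ ∀ j, δ₀ ≤ δ j := by
    have h1 : ∀ᶠ s in 𝓝[>] (0 : ℝ), ∀ j ∈ (Finset.univ : Finset (Fin m)), s ≤ δ j := by
      rw [Finset.eventually_all]
      exact fun j _ => (eventually_le_nhds (hδ j)).filter_mono nhdsWithin_le_nhds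
    obtain ⟨s, h2, h3⟩ := (h1.and self_mem_nhdsWithin).exists
    exact ⟨s, h3, fun j => h2 j (Finset.mem_univ j)⟩
  obtain ⟨ϱ₁, hϱ₁, hcls⟩ := line_ev (deg y q) V (h.cls hδ₀)
  obtain ⟨ϱ₂, hϱ₂, hnd⟩ : ∃ ϱ₂ : ℝ, 0 < ϱ₂ ∧ ∀ ξ ∈ ball (0 : ℂ) ϱ₂, ξ ≠ 0 →
      ND (deg y q + ξ ^ 2 • V) := by
    have h1 : Tendsto (fun ξ : ℂ => ξ ^ 2) (𝓝 0) (𝓝 0) := by
      have h2 := (continuous_pow (M := ℂ) 2).tendsto 0
      rwa [zero_pow two_ne_zero] at h2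
    obtain ⟨ϱ₂, h3, h4⟩ := Metric.eventually_nhds_iff_ball.1 (h1.eventually (nd_small hm h.hc.hx hV))
    exact ⟨ϱ₂, h3, fun ξ hξ hξ0 => h4 ξ hξ (pow_ne_zero _ hξ0)⟩
  have hest := fun j => h.hole_est V j (hc₀ j) (hv j) (hv0 j)
  choose Cj hCj hest using hest
  refine ⟨∑ j, 2 * Cj j, Finset.sum_pos (fun j _ => by have := hCj j; positivity)
    ⟨⟨0, hm⟩, Finset.mem_univ _⟩, fun ε hε => ?_⟩
  choose ϱj hϱj hest using fun j => hest j ε hε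
  obtain ⟨ϱ₃, hϱ₃, hϱ₃'⟩ : ∃ δ₀ : ℝ, 0 < δ₀ ∧ ∀ j, δ₀ ≤ ϱj j := by
    have h1 : ∀ᶠ s in 𝓝[>] (0 : ℝ), ∀ j ∈ (Finset.univ : Finset (Fin m)), s ≤ ϱj j := by
      rw [Finset.eventually_all]
      exact fun j _ => (eventually_le_nhds (hϱj j)).filter_mono nhdsWithin_le_nhds
    obtain ⟨s, h2, h3⟩ := (h1.and self_mem_nhdsWithin).exists
    exact ⟨s, h3, fun j => h2 j (Finset.mem_univ j)⟩
  refine ⟨min (min ϱ₁ ϱ₂) (min ϱ₃ δ₀), by positivity, fun ϱ hϱ hϱ' => ?_⟩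
  have k1 : ϱ ≤ ϱ₁ := hϱ'.trans ((min_le_left _ _).trans (min_le_left _ _))
  have k2 : ϱ ≤ ϱ₂ := hϱ'.trans ((min_le_left _ _).trans (min_le_right _ _))
  have k3 : ϱ ≤ ϱ₃ := hϱ'.trans ((min_le_right _ _).trans (min_le_left _ _))
  have k4 : ϱ ≤ δ₀ := hϱ'.trans ((min_le_right _ _).trans (min_le_right _ _))
  choose Xj hXj hXj' using fun j => hest j ϱ hϱ (k3.trans (hϱ₃' j))
  have hsub : {ξ : ℂ | ξ ∈ ball (0 : ℂ) ϱ ∧ ¬ HyR (deg y q + ξ ^ 2 • V)} ⊆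
      {0} ∪ ⋃ j ∈ (Finset.univ : Finset (Fin m)), (Xj j ∪ Neg.neg ⁻¹' (Xj j)) := by
    rintro ξ ⟨hξ, hbad⟩
    by_contra hcon
    rw [mem_union, not_or] at hcon
    obtain ⟨hξ0, hξX⟩ := hcon
    have hξ0' : ξ ≠ 0 := hξ0
    have hX1 : ∀ j, ξ ∉ Xj j ∧ -ξ ∉ Xj j := by
      intro j
      constructor
      · intro hmem
        exact hξX (mem_biUnion (Finset.mem_coe.2 (Finset.mem_univ j)) (Or.inl hmem))
      · intro hmem
        exact hξX (mem_biUnion (Finset.mem_coe.2 (Finset.mem_univ j)) (Or.inr hmem))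
    have hξ' : -ξ ∈ ball (0 : ℂ) ϱ := by
      rw [mem_ball_zero_iff] at hξ ⊢
      rwa [norm_neg]
    have hndξ := hnd ξ (ball_subset_ball k2 hξ) hξ0'
    apply hbad
    refine ⟨hndξ, fun c hc => ?_⟩
    rcases hcls ξ (ball_subset_ball k1 hξ) hndξ c hc with h1 | ⟨j, z, hz, rfl⟩
    · exact h1
    · have h2 := crt_wn (by omega) _ z hc
      rw [mem_ball, dist_eq_norm] at hz
      rw [mem_ball_zero_iff] at hξ
      obtain ⟨h3, h4⟩ := hcr j ξ hξ0' (hξ.trans_le (k4.trans (hδ₀' j))) z (hz.trans_le (hδ₀' j)) h2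
      apply Pool.Agent.W376.RQTRAP.attd_of_iter (sp_cont (by omega) _ hndξ) (m := 1)
      rw [Function.iterate_one, sp_fx _ z h3]
      rcases h4 with h4 | h4
      · rw [h4]
        exact hXj' j ξ ⟨mem_ball_zero_iff.2 hξ, (hX1 j).1⟩ hndξ
      · rw [h4]
        have h5 := hXj' j (-ξ) ⟨hξ', (hX1 j).2⟩
        rw [neg_sq] at h5
        exact h5 hndξ
  refine (measure_mono hsub).trans ((measure_union_le _ _).trans ?_)
  rw [measure_singleton, zero_add]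
  refine (measure_biUnion_finset_le _ _).trans ?_
  have h1 : ∀ j ∈ (Finset.univ : Finset (Fin m)), volume (Xj j ∪ Neg.neg ⁻¹' (Xj j)) ≤
      ENNReal.ofReal (2 * Cj j * ε * ϱ ^ 2) := by
    intro j _
    refine (measure_union_le _ _).trans ?_
    rw [Measure.measure_preimage_neg]
    refine (add_le_add (hXj j) (hXj j)).trans ?_
    have := hCj j
    rw [← ENNReal.ofReal_add (by positivity) (by positivity)]
    apply ENNReal.ofReal_le_ofReal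
    apply le_of_eq
    ring
  refine (Finset.sum_le_sum h1).trans ?_
  rw [← ENNReal.ofReal_sum_of_nonneg (fun j _ => by have := hCj j; positivity)]
  apply ENNReal.ofReal_le_ofReal
  rw [Finset.sum_mul, Finset.sum_mul]

end Run7.h725
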