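import Pool.Agent.Run7.h904.RDen

/-! Full density from the density on almost all complex lines (linear parameter). -/

set_option autoImplicit false

open Topology Filter Metric Set MeasureTheory
open scoped Pointwise

namespace Run7.h725

open Run7.h904.RF (BB density_gen)

/-- the line condition in the direction `V` -/
def Lm {ι : Type} (c0 : ι → ℂ) (G : Set (ι → ℂ)) (V : ι → ℂ) : Prop :=
  ∀ ε : ℝ, 0 < ε → ∃ R₀ : ℝ, 0 < R₀ ∧ ∀ R : ℝ, 0 < R → R ≤ R₀ →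
    volume {l : ℂ | l ∈ ball (0 : ℂ) R ∧ c0 + l • V ∉ G} ≤ ENNReal.ofReal (ε * R ^ 2)

lemma lm_scale {ι : Type} (c0 : ι → ℂ) (G : Set (ι → ℂ)) (V : ι → ℂ) (r : ℝ) (hr : 0 < r) :
    volume {ξ : ℂ | ξ ∈ ball (0 : ℂ) 2 ∧ c0 + (r : ℂ) • ξ • V ∉ G} =
      ENNReal.ofReal ((r ^ 2)⁻¹) * volume {l : ℂ | l ∈ ball (0 : ℂ) (2 * r) ∧ c0 + l • V ∉ G} := by
  have h1 : {ξ : ℂ | ξ ∈ ball (0 : ℂ) 2 ∧ c0 + (r : ℂ) • ξ • V ∉ G} =
      r⁻¹ • {l : ℂ | l ∈ ball (0 : ℂ) (2 * r) ∧ c0 + l • V ∉ G} := by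
    ext ξ
    rw [mem_smul_set_iff_inv_smul_mem₀ (inv_ne_zero hr.ne'), inv_inv]
    have e1 : ‖r • ξ‖ = r * ‖ξ‖ := by
      rw [norm_smul, Real.norm_of_nonneg hr.le]
    have e2 : (r : ℂ) • ξ • V = (r • ξ) • V := by
      rw [smul_smul, Complex.real_smul]
    simp only [mem_ofPred_eq, mem_ball_zero_iff, e1, e2]
    have e5 : r * ‖ξ‖ < 2 * r ↔ ‖ξ‖ < 2 := by
      rw [mul_comm 2 r]
      exact mul_lt_mul_iff_right₀ hr
    rw [e5]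
  rw [h1, Measure.addHaar_smul, Complex.finrank_real_complex, inv_pow, abs_of_nonneg (by positivity)]

lemma lm_tendsto {ι : Type} (c0 : ι → ℂ) (G : Set (ι → ℂ)) (V : ι → ℂ) (h : Lm c0 G V)
    (r : ℕ → ℝ) (hr : Tendsto r atTop (𝓝[>] 0)) :
    Tendsto (fun j => volume {ξ : ℂ | ξ ∈ ball (0 : ℂ) 2 ∧ c0 + (r j : ℂ) • ξ • V ∉ G}) atTop
      (𝓝 0) := by
  rw [ENNReal.tendsto_nhds_zero]
  intro e he
  obtain ⟨e', he', he2⟩ : ∃ e' : ℝ, 0 < e' ∧ ENNReal.ofReal e' ≤ e := by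
    by_cases htop : e = ⊤
    · exact ⟨1, one_pos, by rw [htop]; exact le_top⟩
    · exact ⟨e.toReal, ENNReal.toReal_pos he.ne' htop, (ENNReal.ofReal_toReal htop).le⟩
  obtain ⟨R₀, hR₀, h1⟩ := h (e' / 4) (by positivity)
  have h2 : ∀ᶠ s : ℝ in 𝓝[>] 0, 0 < s ∧ 2 * s ≤ R₀ := by
    refine Eventually.and self_mem_nhdsWithin ?_
    have h3 : Tendsto (fun s : ℝ => 2 * s) (𝓝 0) (𝓝 (2 * 0)) :=
      (continuous_const.mul continuous_id).tendsto 0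
    rw [mul_zero] at h3
    exact (h3.mono_left nhdsWithin_le_nhds).eventually (ge_mem_nhds hR₀)
  filter_upwards [hr.eventually h2] with j hj
  obtain ⟨hj1, hj2⟩ := hj
  rw [lm_scale c0 G V (r j) hj1]
  have h3 := h1 (2 * r j) (by positivity) hj2
  refine le_trans ?_ he2
  calc ENNReal.ofReal ((r j ^ 2)⁻¹) * volume {l : ℂ | l ∈ ball (0 : ℂ) (2 * r j) ∧
        c0 + l • V ∉ G} ≤ ENNReal.ofReal ((r j ^ 2)⁻¹) * ENNReal.ofReal (e' / 4 * (2 * r j) ^ 2) := by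
        gcongr
    _ = ENNReal.ofReal e' := by
        rw [← ENNReal.ofReal_mul (by positivity)]
        congr 1
        field_simp
        norm_num

/-- full density from complex lines -/
theorem density_lm {ι : Type} [Fintype ι] (c0 : ι → ℂ) (G : Set (ι → ℂ)) (hG : MeasurableSet G)
    (H : ∀ᵐ V : ι → ℂ, Lm c0 G V) :
    Tendsto (fun r : ℝ => volume {a : ι → ℂ | (∀ i, ‖a i - c0 i‖ ≤ r) ∧ a ∉ G} /
      volume {a : ι → ℂ | ∀ i, ‖a i - c0 i‖ ≤ r}) (𝓝[>] 0) (𝓝 0) := by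
  refine density_gen c0 G hG fun r hr => ?_
  have hBB : BB ι = closedBall (0 : ι → ℂ) 1 := by
    ext v
    rw [mem_closedBall, dist_zero_right, pi_norm_le_iff_of_nonneg zero_le_one]
    rfl
  have hB1c : MeasurableSet (BB ι) := by rw [hBB]; exact isClosed_closedBall.measurableSet
  have hB1fin : volume (BB ι) ≠ ⊤ := by
    rw [hBB]; exact measure_closedBall_lt_top.ne
  obtain ⟨μ, hμ⟩ : ∃ μ : Measure ℂ, μ = volume.restrict (ball (0 : ℂ) 2) := ⟨_, rfl⟩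
  obtain ⟨ν, hν⟩ : ∃ ν : Measure (ι → ℂ), ν = volume.restrict (BB ι) := ⟨_, rfl⟩
  haveI : IsFiniteMeasure μ := by
    rw [hμ]; exact ⟨by rw [Measure.restrict_apply_univ]; exact measure_ball_lt_top⟩
  haveI : IsFiniteMeasure ν := by
    rw [hν]; exact ⟨by rw [Measure.restrict_apply_univ]; exact hB1fin.lt_top⟩
  obtain ⟨E, hE⟩ : ∃ E : ℕ → Set (ℂ × (ι → ℂ)),
      E = fun j => {p | c0 + (r j : ℂ) • p.1 • p.2 ∉ G} := ⟨_, rfl⟩
  have hEm : ∀ j, MeasurableSet (E j) := by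
    intro j
    rw [hE]
    have hcont : Continuous (fun p : ℂ × (ι → ℂ) => c0 + (r j : ℂ) • p.1 • p.2) := by fun_prop
    exact (hcont.measurable hG).compl
  have hlim : Tendsto (fun j => (μ.prod ν) (E j)) atTop (𝓝 0) := by
    have h1 : ∀ j, (μ.prod ν) (E j) = ∫⁻ V, μ ((fun ξ => (ξ, V)) ⁻¹' E j) ∂ν := fun j =>
      Measure.prod_apply_symm (hEm j)
    simp only [h1]
    have h2 : (0 : ENNReal) = ∫⁻ _ : ι → ℂ, 0 ∂ν := by simp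
    rw [h2]
    refine tendsto_lintegral_of_dominated_convergence (fun _ => μ univ) (fun j => ?_)
      (fun j => Eventually.of_forall fun V => measure_mono (subset_univ _)) ?_ ?_
    · exact measurable_measure_prodMk_right (hEm j)
    · rw [lintegral_const]
      exact ENNReal.mul_ne_top (measure_ne_top _ _) (measure_ne_top _ _)
    · have h3 : ∀ᵐ V ∂ν, Lm c0 G V := by
        rw [hν]; exact ae_restrict_of_ae H
      filter_upwards [h3] with V hV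
      refine (lm_tendsto c0 G V hV r hr).congr fun j => ?_
      rw [hμ, Measure.restrict_apply' measurableSet_ball, hE]
      congr 1
      ext ξ
      simp only [mem_ofPred_eq, mem_inter_iff, mem_preimage]
      exact and_comm
  -- a subsequence
  obtain ⟨φ, hφ, hφ2⟩ := Filter.extraction_forall_of_eventually
    (P := fun n k => (μ.prod ν) (E k) ≤ (2⁻¹ : ENNReal) ^ n) (fun n =>
      hlim.eventually (ge_mem_nhds (ENNReal.pow_pos (ENNReal.inv_pos.2 ENNReal.ofNat_ne_top) n)))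
  have hsum : ∑' n, (μ.prod ν) (E (φ n)) ≠ ⊤ := by
    refine ne_top_of_le_ne_top ?_ (ENNReal.tsum_le_tsum hφ2)
    rw [ENNReal.tsum_geometric, ENNReal.one_sub_inv_two, inv_inv]
    exact ENNReal.ofNat_ne_top
  have hae := ae_eventually_notMem hsum
  have hae2 : ∀ᵐ ξ ∂μ, ∀ᵐ V ∂ν, ∀ᶠ n in atTop, (ξ, V) ∉ E (φ n) := Measure.ae_ae_of_ae_prod hae
  rw [hμ, ae_restrict_iff' measurableSet_ball] at hae2
  -- a good parameter
  obtain ⟨ξ, hξ1, hξ2, hξ3⟩ : ∃ ξ : ℂ, 1 < ‖ξ‖ ∧ ‖ξ‖ < 2 ∧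
      ∀ᵐ V ∂ν, ∀ᶠ n in atTop, (ξ, V) ∉ E (φ n) := by
    by_contra hcon
    have h1 : {ξ : ℂ | 1 < ‖ξ‖ ∧ ‖ξ‖ < 2} ⊆ {ξ : ℂ | ¬ (ξ ∈ ball (0 : ℂ) 2 →
        ∀ᵐ V ∂ν, ∀ᶠ n in atTop, (ξ, V) ∉ E (φ n))} := by
      rintro ξ ⟨h2, h3⟩ h4
      exact hcon ⟨ξ, h2, h3, h4 (mem_ball_zero_iff.2 h3)⟩
    have h2 : volume {ξ : ℂ | 1 < ‖ξ‖ ∧ ‖ξ‖ < 2} = 0 := measure_mono_null h1 (ae_iff.1 hae2)
    have h3 : IsOpen {ξ : ℂ | 1 < ‖ξ‖ ∧ ‖ξ‖ < 2} :=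
      (isOpen_lt continuous_const continuous_norm).inter (isOpen_lt continuous_norm continuous_const)
    have h4 : ({ξ : ℂ | 1 < ‖ξ‖ ∧ ‖ξ‖ < 2}).Nonempty := by
      refine ⟨((3 / 2 : ℝ) : ℂ), ?_⟩
      show 1 < ‖((3 / 2 : ℝ) : ℂ)‖ ∧ ‖((3 / 2 : ℝ) : ℂ)‖ < 2
      rw [Complex.norm_of_nonneg (by norm_num)]
      norm_num
    exact (h3.measure_pos volume h4).ne' h2
  have hξ0 : ξ ≠ 0 := by
    rintro rfl
    rw [norm_zero] at hξ1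
    linarith
  refine ⟨φ, hφ.tendsto_atTop, ?_⟩
  rw [hν, ae_restrict_iff' hB1c] at hξ3
  -- change of variables
  have hbad : volume {V : ι → ℂ | ¬ (V ∈ BB ι → ∀ᶠ n in atTop, (ξ, V) ∉ E (φ n))} = 0 :=
    ae_iff.1 hξ3
  have h5 : {v : ι → ℂ | ¬ (v ∈ BB ι → ∀ᶠ j in atTop, c0 + r (φ j) • v ∈ G)} ⊆
      (fun v : ι → ℂ => ξ⁻¹ • v) ⁻¹'
        {V : ι → ℂ | ¬ (V ∈ BB ι → ∀ᶠ n in atTop, (ξ, V) ∉ E (φ n))} := by
    intro v hv h6
    apply hv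
    intro hvB
    have h7 : ξ⁻¹ • v ∈ BB ι := by
      intro i
      have h8 := hvB i
      rw [Pi.smul_apply, smul_eq_mul, norm_mul, norm_inv]
      have h9 : (‖ξ‖)⁻¹ ≤ 1 := inv_le_one_of_one_le₀ hξ1.le
      have h10 : 0 ≤ (‖ξ‖)⁻¹ := by positivity
      nlinarith [norm_nonneg (v i)]
    filter_upwards [h6 h7] with j hj
    rw [hE] at hj
    simp only [mem_ofPred_eq, not_not] at hj
    rw [smul_smul ξ, mul_inv_cancel₀ hξ0, one_smul] at hj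
    rw [← Complex.coe_smul]
    exact hj
  rw [ae_iff]
  refine measure_mono_null h5 ?_
  have h11 : (fun v : ι → ℂ => ξ⁻¹ • v) ⁻¹'
      {V : ι → ℂ | ¬ (V ∈ BB ι → ∀ᶠ n in atTop, (ξ, V) ∉ E (φ n))} =
      (LinearMap.restrictScalars ℝ (ξ⁻¹ • (LinearMap.id : (ι → ℂ) →ₗ[ℂ] (ι → ℂ)))) ⁻¹'
      {V : ι → ℂ | ¬ (V ∈ BB ι → ∀ᶠ n in atTop, (ξ, V) ∉ E (φ n))} := rfl
  rw [h11]
  have hdet : LinearMap.det (LinearMap.restrictScalars ℝ
      (ξ⁻¹ • (LinearMap.id : (ι → ℂ) →ₗ[ℂ] (ι → ℂ)))) ≠ 0 := by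
    intro h0
    have h12 := LinearMap.bot_lt_ker_of_det_eq_zero h0
    obtain ⟨v, hv, hv0⟩ := (Submodule.ne_bot_iff _).1 h12.ne'
    apply hv0
    have h13 : ξ⁻¹ • v = 0 := hv
    exact (smul_eq_zero.1 h13).resolve_left (inv_ne_zero hξ0)
  rw [Measure.addHaar_preimage_linearMap _ hdet, hbad, mul_zero]

/-- area and multiplication -/
lemma det_mul (k : ℂ) : |LinearMap.det (LinearMap.mulLeft ℝ k)| = ‖k‖ ^ 2 := by
  have h1 : LinearMap.det (LinearMap.mulLeft ℝ k) = Algebra.norm ℝ k := rfl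
  rw [h1, Algebra.norm_complex_apply, Complex.normSq_eq_norm_sq, abs_of_nonneg (by positivity)]

lemma vol_smul (k : ℂ) (S : Set ℂ) : volume (k • S) = ENNReal.ofReal (‖k‖ ^ 2) * volume S := by
  have h1 : k • S = (LinearMap.mulLeft ℝ k) '' S := rfl
  rw [h1, Measure.addHaar_image_linearMap, det_mul]

/-- transport of the line condition by a linear map -/
lemma lm_transport {ι : Type} {c0 c1 : ι → ℂ} {G : Set (ι → ℂ)} {V : ι → ℂ}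
    (T : (ι → ℂ) →ₗ[ℂ] (ι → ℂ)) {k : ℂ} (hk : k ≠ 0) (h : Lm c1 G V)
    (hT : ∀ X ∈ G, k • T X ∈ G) (hc : c0 = k • T c1) : Lm c0 G (T V) := by
  intro ε hε
  have hk' : 0 < ‖k‖ := norm_pos_iff.2 hk
  obtain ⟨R₀, hR₀, h1⟩ := h ε hε
  refine ⟨‖k‖ * R₀, by positivity, fun R hR hR' => ?_⟩
  have h2 := h1 (R / ‖k‖) (by positivity) (by rw [div_le_iff₀ hk']; linarith)
  have h3 : {l : ℂ | l ∈ ball (0 : ℂ) R ∧ c0 + l • T V ∉ G} ⊆
      (fun l : ℂ => k⁻¹ * l) ⁻¹' {l : ℂ | l ∈ ball (0 : ℂ) (R / ‖k‖) ∧ c1 + l • V ∉ G} := by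
    rintro l ⟨h4, h5⟩
    refine ⟨?_, fun h6 => h5 ?_⟩
    · rw [mem_ball_zero_iff] at h4 ⊢
      rw [norm_mul, norm_inv, lt_div_iff₀ hk']
      field_simp
      exact h4
    · have h7 := hT _ h6
      rw [map_add, map_smul, smul_add, smul_smul, ← mul_assoc, mul_inv_cancel₀ hk, one_mul,
        ← hc] at h7
      exact h7
  refine (measure_mono h3).trans ?_
  have h6 : (fun l : ℂ => k⁻¹ * l) ⁻¹' {l : ℂ | l ∈ ball (0 : ℂ) (R / ‖k‖) ∧ c1 + l • V ∉ G} =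
      k • {l : ℂ | l ∈ ball (0 : ℂ) (R / ‖k‖) ∧ c1 + l • V ∉ G} := by
    ext l
    rw [mem_smul_set_iff_inv_smul_mem₀ hk]
    rfl
  rw [h6]
  have h7 : volume (k • {l : ℂ | l ∈ ball (0 : ℂ) (R / ‖k‖) ∧ c1 + l • V ∉ G}) =
      ENNReal.ofReal (‖k‖ ^ 2) * volume {l : ℂ | l ∈ ball (0 : ℂ) (R / ‖k‖) ∧ c1 + l • V ∉ G} :=
    vol_smul k _
  rw [h7]
  calc ENNReal.ofReal (‖k‖ ^ 2) * volume {l : ℂ | l ∈ ball (0 : ℂ) (R / ‖k‖) ∧ c1 + l • V ∉ G} ≤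
        ENNReal.ofReal (‖k‖ ^ 2) * ENNReal.ofReal (ε * (R / ‖k‖) ^ 2) := by gcongr
    _ = ENNReal.ofReal (ε * R ^ 2) := by
      rw [← ENNReal.ofReal_mul (by positivity)]
      congr 1
      field_simp

end Run7.h725
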