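import Pool.Agent.Run7.h725.C1Dens
import Pool.Agent.Run7.h725.B3Crit
import Pool.Agent.Run7.h904.R5Main

/-! From good coordinates to general coordinates. -/

set_option autoImplicit false

open Topology Filter Metric Set Polynomial MeasureTheory Asymptotics
open scoped OnePoint

namespace Run7.h725

open Run7.h904.RF
open Pool.Agent.H790R3.RB (CV hF cr ND wr rt sp pr hc pol Sink Attd HypTop hF_smul hF_contDiff)
open Pool.Agent.H790R3.RB.PQ (hF_one hF_inf pol_natDegree)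
open Pool.Agent.W757.QR Pool.Agent.W757.RF Pool.Agent.W757.Q2
open Pool.Agent.W29.RQSNK (sp_iter fin_of sp_fx sp_inf fx_iter_diff)
open Pool.Agent.W440.RE.GENM (hF_ne hF_inj)
open Pool.Agent.W440.RE.GENM2
open Pool.Agent.R239.Fat (Hp Hp_eval Hp_ne Hp_root Hp_deriv Hp_natDegree Hp_monic deg pol_deg
  deg_hole)

/-- the homogeneous form of the degenerate map -/
lemma hF_deg {d m : ℕ} (y : CV d) (q : Fin m → ℂ) (p : ℂ × ℂ) :
    hF (deg y q) p = (∏ j, (p.1 - q j * p.2)) • hF y p := by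
  obtain ⟨h0, h1⟩ := pol_deg y q
  by_cases hp : p.2 = 0
  · have e : p = p.1 • ((1, 0) : ℂ × ℂ) := by
      ext
      · simp
      · simp [hp]
    have h2 : hF (deg y q) (1, 0) = hF y (1, 0) := by
      rw [hF_inf, hF_inf, h0, h1]
      have h2 : (Hp q).coeff m = 1 := by
        have := Hp_monic q
        rw [Monic, leadingCoeff, Hp_natDegree] at this
        exact this
      rw [coeff_mul_add_eq_of_natDegree_le (Hp_natDegree q).le (pol_natDegree y 0),
        coeff_mul_add_eq_of_natDegree_le (Hp_natDegree q).le (pol_natDegree y 1), h2, one_mul,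
        one_mul]
    have h3 : ∏ j : Fin m, (p.1 - q j * p.2) = p.1 ^ m := by
      simp [hp]
    rw [h3]
    conv_lhs => rw [e, hF_smul, h2]
    conv_rhs => rw [e, hF_smul]
    simp only [Prod.smul_fst, smul_eq_mul, mul_one]
    rw [smul_smul, pow_add]
  · obtain ⟨z, hz⟩ : ∃ z, z = p.1 / p.2 := ⟨_, rfl⟩
    have hz' : p.1 = p.2 * z := by rw [hz, mul_div_cancel₀ _ hp]
    have e : p = p.2 • ((z, 1) : ℂ × ℂ) := by
      ext
      · simp [hz']
      · simp
    have h2 : hF (deg y q) (z, 1) = (Hp q).eval z • hF y (z, 1) := by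
      rw [hF_one, hF_one, h0, h1, eval_mul, eval_mul]
      rfl
    have h3 : ∏ j : Fin m, (p.1 - q j * p.2) = p.2 ^ m * (Hp q).eval z := by
      rw [Hp_eval]
      have h4 : p.2 ^ m = ∏ _j : Fin m, p.2 := by simp
      rw [h4, ← Finset.prod_mul_distrib]
      refine Finset.prod_congr rfl fun j _ => ?_
      rw [hz']
      ring
    rw [h3]
    conv_lhs => rw [e, hF_smul, h2]
    conv_rhs => rw [e, hF_smul]
    simp only [Prod.smul_snd, smul_eq_mul, mul_one]
    rw [smul_smul, smul_smul, pow_add]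
    congr 1
    ring

/-- multiples of a map -/
lemma sp_smul {d : ℕ} {k : ℂ} (hk : k ≠ 0) (x : CV d) (hx : ND x) (z : OnePoint ℂ) :
    sp (k • x) z = sp x z := by
  have h1 : hc z ≠ 0 := (Pool.Agent.H790R3.RB.SP.pr_hc z).2
  have h2 := hF_ne hx h1
  unfold sp
  rw [Pool.Agent.W440.RE.GENM.hF_smul_left]
  unfold pr
  by_cases h3 : (hF x (hc z)).2 = 0
  · rw [if_pos h3, if_pos (by simp [h3])]
  · rw [if_neg h3, if_neg (by simp [h3, hk])]
    simp only [Prod.smul_fst, Prod.smul_snd, smul_eq_mul]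
    rw [mul_div_mul_left _ _ hk]

lemma nd_smul {d : ℕ} {k : ℂ} (hk : k ≠ 0) (x : CV d) (hx : ND x) : ND (k • x) := by
  intro p hp
  rw [Pool.Agent.W440.RE.GENM.hF_smul_left] at hp
  exact hx p ((smul_eq_zero.1 hp).resolve_left hk)

lemma hyR_smul {d : ℕ} (hd : 2 ≤ d) {k : ℂ} (hk : k ≠ 0) (x : CV d) (hx : HyR x) :
    HyR (k • x) := by
  obtain ⟨h1, h2⟩ := hx
  have e : sp (k • x) = sp x := funext (sp_smul hk x h1)
  refine ⟨nd_smul hk x h1, fun z hz => ?_⟩
  have h3 := crt_notinj hd _ (nd_smul hk x h1) z hz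
  rw [e] at h3 ⊢
  exact h2 z (crt_of_notinj hd x h1 z h3)

/-- there is a critical point -/
lemma crt_nonempty {d : ℕ} (hd : 2 ≤ d) (x : CV d) : (Crt x).Nonempty := by
  obtain ⟨W, hWd, hWe, hWc⟩ := (Pool.Agent.H790R3.RB.WR d x hd).2.1
  by_cases h0 : wr x (1, 0) = 0
  · exact ⟨_, (1, 0), by simp, h0, rfl⟩
  · have h1 : W.degree ≠ 0 := by
      intro h2
      apply h0
      rw [← hWc]
      apply coeff_eq_zero_of_natDegree_lt
      have h3 : W.natDegree = 0 := natDegree_eq_of_degree_eq_some (n := 0) (by simpa using h2)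
      omega
    obtain ⟨ζ, hζ⟩ := IsAlgClosed.exists_root W h1
    refine ⟨_, (ζ, 1), by simp, ?_, rfl⟩
    rw [← hWe]
    exact hζ

/-- the holes in good coordinates -/
structure HG {d m : ℕ} (y : CV d) (q : Fin m → ℂ) : Prop where
  hc : HC y
  smp : ∀ i j, q i = q j → q i ∈ NA y → i = j
  self : ∀ i j, ∀ n, 0 < n → (sp y)^[n] ((q i : ℂ) : OnePoint ℂ) = ((q j : ℂ) : OnePoint ℂ) →
    q i ∈ NA y ∧ q i = q j
  inf : ∀ n j, (sp y)^[n] ∞ ≠ ((q j : ℂ) : OnePoint ℂ)
  fin : ∀ j, ∀ n, (sp y)^[n] ((q j : ℂ) : OnePoint ℂ) ≠ ∞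

/-- the theorem in general coordinates, from the theorem in good coordinates -/
theorem to_general {d m : ℕ} (hd : 2 ≤ d) (y : CV d) (hy : ND y)
    (hcr : ∀ z ∈ Crt y, Attd (sp y) z) (s : Fin m → OnePoint ℂ)
    (hself : ∀ i j, ∀ n, 0 < n → (sp y)^[n] (s i) = s j → ¬ Attd (sp y) (s i) ∧ s i = s j)
    (hsmp : ∀ i j, s i = s j → ¬ Attd (sp y) (s i) → i = j)
    (c : ℂ) (hc0 : c ≠ 0) (x₀ : CV (m + d))
    (hx₀ : ∀ p : ℂ × ℂ, hF x₀ p = (c * ∏ j, ((hc (s j)).2 * p.1 - (hc (s j)).1 * p.2)) • hF y p)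
    (Ex : ∀ (y₁ : CV d) (q : Fin m → ℂ), Prop)
    (hEx : ∀ (y₁ : CV d) (q : Fin m → ℂ) (h : OnePoint ℂ ≃ₜ OnePoint ℂ), ND y₁ →
      (∀ z, h (sp y z) = sp y₁ (h z)) → (∀ j, h (s j) = ((q j : ℂ) : OnePoint ℂ)) → Ex y₁ q)
    (R : CV (m + d) → CV (m + d) → Prop)
    (hR : ∀ (T : CV (m + d) →ₗ[ℂ] CV (m + d)) (k : ℂ) (c0 c1 V : CV (m + d)), k ≠ 0 →
      c0 = k • T c1 → (∀ X, HyR X → HyR (k • T X)) → R c1 V → R c0 (T V))
    (hline : ∀ (y₁ : CV d) (q : Fin m → ℂ), HG y₁ q → Ex y₁ q →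
      ∀ᵐ V : CV (m + d), R (deg y₁ q) V) :
    ∀ᵐ V : CV (m + d), R x₀ V := by
  classical
  have hD : 2 ≤ m + d := by omega
  -- the point sent to infinity
  obtain ⟨w, hw1, hw2, hw3, hw4⟩ : ∃ w : ℂ, Attd (sp y) (w : OnePoint ℂ) ∧
      (w : OnePoint ℂ) ∉ Function.periodicPts (sp y) ∧
      (∀ n j, (sp y)^[n] (w : OnePoint ℂ) ≠ s j) ∧
      (∀ n j, (sp y)^[n] (s j) ≠ (w : OnePoint ℂ)) := by
    obtain ⟨z₀, hz₀⟩ := crt_nonempty hd y
    obtain ⟨σ, U, hσ, hU, H⟩ := Pool.Agent.W324.RQOPA.task d y z₀ hd hy (hcr z₀ hz₀)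
    have hUa : ∀ u ∈ U, Attd (sp y) u := (H y (by rw [sub_self, norm_zero]; exact hσ)).2
    obtain ⟨B, hB⟩ : ∃ B : Set (OnePoint ℂ), B = {∞} ∪ Function.periodicPts (sp y) ∪
        ((⋃ n : ℕ, ⋃ j : Fin m, {z | (sp y)^[n] z = s j}) ∪
          ⋃ n : ℕ, ⋃ j : Fin m, {(sp y)^[n] (s j)}) := ⟨_, rfl⟩
    have hBc : B.Countable := by
      rw [hB]
      refine ((countable_singleton _).union (per_countableS hd y hy)).union (Set.Countable.union ?_ ?_)
      · exact countable_iUnion fun n => countable_iUnion fun j =>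
          Pool.Agent.W342.RE.PTW.pre_countable hd hy _ n
      · exact countable_iUnion fun n => countable_iUnion fun j => countable_singleton _
    have h1 : ¬ U ⊆ B := by
      intro hUB
      have h1 : (chart z₀ ⁻¹' U).Countable := (hBc.mono hUB).preimage (chart_inj z₀)
      have h2 : chart z₀ ⁻¹' U ∈ 𝓝 (0 : ℂ) := by
        apply (chart_cont z₀).continuousAt.preimage_mem_nhds
        rw [chart_zero]
        exact hU
      obtain ⟨r, hr, hb⟩ := Metric.mem_nhds_iff.1 h2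
      exact (measure_ball_pos volume (0 : ℂ) hr).ne' ((h1.mono hb).measure_zero volume)
    obtain ⟨z, hzU, hzB⟩ := not_subset.1 h1
    rw [hB] at hzB
    simp only [mem_union, mem_singleton_iff, mem_iUnion, mem_ofPred_eq, not_or, not_exists] at hzB
    obtain ⟨⟨g1, g2⟩, g3, g4⟩ := hzB
    induction z using OnePoint.rec with
    | infty => exact absurd rfl g1
    | coe w => exact ⟨w, hUa _ hzU, g2, fun n j => g3 n j, fun n j h => g4 n j h.symm⟩
  obtain ⟨h, hh, -⟩ := Pool.Agent.H790R3.RB.MOB Pool.Agent.H790R3.RB.SP 0 (-1) 1 (-w) (by norm_num)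
  obtain ⟨cj, hcjc, hcja, hcjs, -, hcjF⟩ := Pool.Agent.H790R3.RB.CJ d
  obtain ⟨cJ, hcJc, hcJa, hcJs, -, hcJF⟩ := Pool.Agent.H790R3.RB.CJ (m + d)
  obtain ⟨y₁, hy₁⟩ : ∃ y₁ : CV d, y₁ = cj ((0, -1), (1, -w)) y := ⟨_, rfl⟩
  obtain ⟨T, hT⟩ : ∃ T : CV (m + d) →ₗ[ℂ] CV (m + d), ∀ X, T X = cJ ((-w, 1), (-1, 0)) X :=
    ⟨{ toFun := fun X => cJ ((-w, 1), (-1, 0)) X
       map_add' := fun X X' => hcJa _ X X'
       map_smul' := fun t X => hcJs _ t X }, fun _ => rfl⟩
  have hh' : ∀ p : ℂ × ℂ, p ≠ 0 → h (pr p) = pr (mm w p) := by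
    intro p hp
    rw [hh p hp]
    congr 1
    unfold mm
    ext
    · simp
    · simp; ring
  have hy₁F : ∀ p, hF y₁ p = mm w (hF y (ad w p)) := by
    intro p
    rw [hy₁, hcjF]
    have e : ((-w * p.1 - -1 * p.2, 0 * p.2 - 1 * p.1) : ℂ × ℂ) = ad w p := by
      unfold ad; ext <;> simp
    simp only
    rw [e]
    unfold mm
    ext
    · simp
    · simp; ring
  have hTF : ∀ X p, hF (T X) p = ad w (hF X (mm w p)) := by
    intro y p
    rw [hT, hcJF]
    have e : ((0 * p.1 - 1 * p.2, -w * p.2 - -1 * p.1) : ℂ × ℂ) = mm w p := by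
      unfold mm; ext
      · simp
      · simp; ring
    simp only
    rw [e]
    unfold ad
    ext
    · simp
    · simp
  have hy₁ND : ND y₁ := by
    intro p hp
    rw [hy₁F] at hp
    exact ad_zero (hy _ (mm_zero hp))
  have hTND : ∀ X, ND X → ND (T X) := by
    intro y hy p hp
    rw [hTF] at hp
    exact mm_zero (hy _ (ad_zero hp))
  have hhc : ∀ z : OnePoint ℂ, pr (hc z) = z ∧ hc z ≠ 0 := Pool.Agent.H790R3.RB.SP.pr_hc
  have hmmne : ∀ p : ℂ × ℂ, p ≠ 0 → mm w p ≠ 0 := fun p hp h0 => hp (mm_zero h0)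
  have hadne : ∀ p : ℂ × ℂ, p ≠ 0 → ad w p ≠ 0 := fun p hp h0 => hp (ad_zero h0)
  have hsp : ∀ {D : ℕ} (_ : 1 ≤ D) (y : CV D), ND y → ∀ p : ℂ × ℂ, p ≠ 0 →
      sp y (pr p) = pr (hF y p) := by
    intro D hD y hy p hp
    have := (Pool.Agent.H790R3.RB.SP D y hD hy).2.1 p hp 1
    simpa using this
  have hs : ∀ z, h (sp y z) = sp y₁ (h z) := by
    intro z
    obtain ⟨e1, e2⟩ := hhc z
    have h1 : h (sp y z) = pr (mm w (hF y (hc z))) := hh' _ (hF_ne hy e2)
    have h2 : sp y₁ (h z) = pr (hF y₁ (mm w (hc z))) := by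
      conv_lhs => rw [← e1, hh' _ e2]
      exact hsp (by omega) y₁ hy₁ND _ (hmmne _ e2)
    rw [h1, h2, hy₁F, ad_mm]
  have hsT : ∀ X : CV (m + d), ND X → ∀ z, h (sp (T X) z) = sp X (h z) := by
    intro y hy z
    obtain ⟨e1, e2⟩ := hhc z
    have h1 : h (sp (T y) z) = pr (mm w (hF (T y) (hc z))) := hh' _ (hF_ne (hTND y hy) e2)
    have h2 : sp y (h z) = pr (hF y (mm w (hc z))) := by
      conv_lhs => rw [← e1, hh' _ e2]
      exact hsp (by omega) y hy _ (hmmne _ e2)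
    rw [h1, h2, hTF, mm_ad]
  have hw11 : ((w : ℂ), (1 : ℂ)) ≠ 0 := fun h => one_ne_zero (congrArg Prod.snd h)
  have hprw : pr ((w : ℂ), (1 : ℂ)) = (w : OnePoint ℂ) := by
    unfold pr
    rw [if_neg one_ne_zero, div_one]
  have hhw : h (w : OnePoint ℂ) = ∞ := by
    rw [← hprw, hh' _ hw11]
    unfold pr mm
    rw [if_pos (by simp)]
  have hs' : ∀ z, sp y₁ (h z) = h (sp y z) := fun z => (hs z).symm
  have hit := fun n z => Pool.Agent.H790R3.RB.ALL.iter h hs' n z
  have hsym : ∀ z, sp y (h.symm z) = h.symm (sp y₁ z) := by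
    intro z
    apply h.injective
    rw [hs, h.apply_symm_apply, h.apply_symm_apply]
  have hat : ∀ z, Attd (sp y) z → Attd (sp y₁) (h z) := fun z hz =>
    Pool.Agent.H790R3.RB.ALL.attd h hs' hz
  have hat' : ∀ z, Attd (sp y₁) (h z) → Attd (sp y) z := fun z hz => by
    have h7 := Pool.Agent.H790R3.RB.ALL.attd h.symm hsym hz
    rwa [h.symm_apply_apply] at h7
  -- the holes
  have hu0 : ∀ j, (hc (s j)).1 - w * (hc (s j)).2 ≠ 0 := by
    intro j h0
    obtain ⟨e1, e2⟩ := hhc (s j)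
    apply hw4 0 j
    show s j = (w : OnePoint ℂ)
    have h2 : (hc (s j)).2 ≠ 0 := by
      intro h2
      apply e2
      refine Prod.ext ?_ h2
      rw [h2, mul_zero, sub_zero] at h0
      exact h0
    rw [← e1]
    unfold pr
    rw [if_neg h2]
    congr 1
    rw [div_eq_iff h2]
    linear_combination h0
  obtain ⟨q, hq⟩ : ∃ q : Fin m → ℂ, ∀ j, q j =
      -(hc (s j)).2 / ((hc (s j)).1 - w * (hc (s j)).2) := ⟨_, fun j => rfl⟩
  have hqs : ∀ j, h (s j) = ((q j : ℂ) : OnePoint ℂ) := by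
    intro j
    obtain ⟨e1, e2⟩ := hhc (s j)
    conv_lhs => rw [← e1, hh' _ e2]
    unfold pr mm
    simp only
    rw [if_neg (hu0 j), hq]
  have hHG : HG y₁ q := by
    refine ⟨⟨hd, hy₁ND, ?_, ?_, ?_⟩, ?_, ?_, ?_, ?_⟩
    · intro z' hz'
      have h1 : h.symm z' ∈ Crt y := crt_conj hd hy₁ND hy h.symm (fun z => (hsym z).symm) z' hz'
      have h2 := hat _ (hcr _ h1)
      rwa [h.apply_symm_apply] at h2
    · rw [← hhw]; exact hat _ hw1
    · rintro ⟨n, hn, hper⟩
      apply hw2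
      refine Function.mk_mem_periodicPts hn ?_
      show (sp y)^[n] (w : OnePoint ℂ) = w
      apply h.injective
      rw [← hit, hhw]
      exact hper
    · intro i j hij hN
      apply hsmp i j
      · apply h.injective
        rw [hqs, hqs, hij]
      · intro hA
        apply hN
        have h2 := hat _ hA
        rw [hqs] at h2
        exact atE_of h2
    · intro i j n hn he
      obtain ⟨h1, h2⟩ := hself i j n hn (by
        apply h.injective
        rw [← hit, hqs, hqs]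
        exact he)
      refine ⟨fun hA => h1 (hat' _ ?_), OnePoint.coe_injective ?_⟩
      · rw [hqs]
        exact attd_of_atE hd hy₁ND hA
      · rw [← hqs, ← hqs, h2]
    · intro n j he
      apply hw3 n j
      apply h.injective
      rw [← hit, hqs, hhw]
      exact he
    · intro j n he
      apply hw4 n j
      apply h.injective
      rw [← hit, hqs, hhw]
      exact he
  have hL := hline y₁ q hHG (hEx y₁ q h hy₁ND hs hqs)
  -- the constant
  obtain ⟨k, hk⟩ : ∃ k : ℂ, k = c * ∏ j, ((hc (s j)).1 - w * (hc (s j)).2) := ⟨_, rfl⟩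
  have hk0 : k ≠ 0 := by
    rw [hk]
    exact mul_ne_zero hc0 (Finset.prod_ne_zero_iff.2 fun j _ => hu0 j)
  have hx₀T : x₀ = k • T (deg y₁ q) := by
    apply hF_inj
    intro p
    have hadmul : ∀ (t : ℂ) (u : ℂ × ℂ), ad w (t • u) = t • ad w u := by
      intro t u
      unfold ad
      ext
      · simp; ring
      · simp
    rw [Pool.Agent.W440.RE.GENM.hF_smul_left, hTF, hF_deg, hadmul, hy₁F, ad_mm, ad_mm, hx₀,
      smul_smul, hk]
    congr 1
    rw [mul_assoc, ← Finset.prod_mul_distrib]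
    congr 1
    refine Finset.prod_congr rfl fun j _ => ?_
    have h1 := hu0 j
    have e1 : (mm w p).1 = -p.2 := rfl
    have e2 : (mm w p).2 = p.1 - w * p.2 := rfl
    rw [hq, e1, e2]
    have key : ∀ u v a b : ℂ, u - w * v ≠ 0 →
        v * a - u * b = (u - w * v) * (-b - -v / (u - w * v) * (a - w * b)) := by
      intro u v a b h
      have h2 : -v / (u - w * v) * (a - w * b) = -v * (a - w * b) / (u - w * v) := by ring
      rw [h2, mul_sub, mul_div_cancel₀ _ h]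
      ring
    exact key _ _ _ _ h1
  have hHy : ∀ X : CV (m + d), HyR X → HyR (k • T X) := by
    rintro x' ⟨h1, h2⟩
    apply hyR_smul hD hk0
    have h3 := hTND x' h1
    have h4 := hsT x' h1
    refine ⟨h3, fun z hz => ?_⟩
    have h5 := h2 _ (crt_conj hD h3 h1 h h4 z hz)
    have h6 : ∀ w, sp (T x') (h.symm w) = h.symm (sp x' w) := by
      intro w
      apply h.injective
      rw [h4, h.apply_symm_apply, h.apply_symm_apply]
    have h7 := Pool.Agent.H790R3.RB.ALL.attd h.symm h6 h5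
    rwa [h.symm_apply_apply] at h7
  have hTi : Function.Injective T := by
    rw [← LinearMap.ker_eq_bot, LinearMap.ker_eq_bot']
    intro X hX
    apply hF_inj
    intro p
    have h0 : ∀ p : ℂ × ℂ, hF (0 : CV (m + d)) p = 0 := by
      intro p
      have := Pool.Agent.W440.RE.GENM.hF_smul_left (0 : ℂ) (0 : CV (m + d)) p
      rwa [zero_smul, zero_smul] at this
    have h1 := hTF X (ad w p)
    rw [hX, h0, mm_ad] at h1
    rw [h0]
    exact ad_zero h1.symm
  have hsurj : Function.Surjective T := LinearMap.injective_iff_surjective.mp hTi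
  rw [ae_iff] at hL ⊢
  have h1 : {V : CV (m + d) | ¬ R x₀ V} ⊆
      (T.restrictScalars ℝ) '' {V : CV (m + d) | ¬ R (deg y₁ q) V} := by
    intro V hV
    obtain ⟨V₁, rfl⟩ := hsurj V
    refine ⟨V₁, fun h2 => hV ?_, rfl⟩
    exact hR T k x₀ _ V₁ hk0 hx₀T hHy h2
  refine measure_mono_null h1 ?_
  rw [Measure.addHaar_image_linearMap, hL, mul_zero]

end Run7.h725
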