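import Pool.Agent.Run7.h725.B4Line
import Pool.Agent.Run7.h725.C2Gen

/-! The estimates for holes of any multiplicity in the Fatou set and simple holes in the
Julia set. -/

set_option autoImplicit false

open Topology Filter Metric Set Polynomial MeasureTheory Asymptotics
open scoped OnePoint

namespace Run7.h725

open Run7.h904.RF
open Pool.Agent.H790R3.RB (CV hF cr ND wr rt sp pr hc pol Sink Attd HypTop hF_smul hF_contDiff)
open Pool.Agent.H790R3.RB.PQ (hF_one hF_inf)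
open Pool.Agent.W757.QR Pool.Agent.W757.RF Pool.Agent.W757.Q2
open Pool.Agent.W29.RQSNK (sp_iter fin_of sp_fx sp_inf fx_iter_diff)
open Pool.Agent.R239.Fat (Hp Hp_eval Hp_ne Hp_root Hp_deriv deg pol_deg deg_hole pol_eval_cont
  pol_deriv_cont ev_coe hc_coe hc_inf)

variable {d m : ℕ} {y : CV d} {q : Fin m → ℂ}

lemma HG.Q (h : HG y q) (j : Fin m) : (pol y 1).eval (q j) ≠ 0 := by
  intro h0
  apply h.fin j 1
  rw [Function.iterate_one]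
  exact sp_inf y (q j) h0

/-- attracted points whose orbit avoids the holes stay attracted near the degenerate map, if the
holes are no attracting periodic points -/
theorem persistG {d m : ℕ} (hd : 1 ≤ d) {y : CV d} (hy : ND y) {q : Fin m → ℂ}
    (hqp : ∀ j, ∀ n, 0 < n → (sp y)^[n] ((q j : ℂ) : OnePoint ℂ) = ((q j : ℂ) : OnePoint ℂ) →
      ¬ Attd (sp y) ((q j : ℂ) : OnePoint ℂ)) {v : OnePoint ℂ}
    (hv : Attd (sp y) v) (hesc : ∀ n j, (sp y)^[n] v ≠ ((q j : ℂ) : OnePoint ℂ)) :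
    ∃ O ∈ 𝓝 v, ∀ᶠ x in 𝓝 (deg y q), ND x → ∀ u ∈ O, Attd (sp x) u := by
  have hyH := Pool.Agent.R239.Fat.hol_sp hd hy
  obtain ⟨n, a, hsk, ht⟩ := hv
  have hn := hsk.1
  have hfix := hsk.2.1
  refine persistA hd hy (A := (fun i => (sp y)^[i] a) '' (Finset.range n : Set ℕ))
    ((Finset.finite_toSet _).image _) ?_ ?_ ?_ ⟨a, ⟨0, by simpa using hn, rfl⟩, n, hn, ht⟩ hesc
  · rintro _ ⟨i, hi, rfl⟩
    simp only [Finset.coe_range, mem_Iio] at hi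
    rcases Nat.lt_or_ge (i + 1) n with h | h
    · refine ⟨i + 1, by simpa using h, ?_⟩
      simp only
      rw [Function.iterate_succ_apply']
    · refine ⟨0, by simpa using hn, ?_⟩
      have h1 : i + 1 = n := by omega
      have h2 : sp y ((sp y)^[i] a) = (sp y)^[i + 1] a := (Function.iterate_succ_apply' _ _ _).symm
      show (sp y)^[0] a = sp y ((sp y)^[i] a)
      rw [h2, h1, hfix]
      rfl
  · rintro _ ⟨i, -, rfl⟩
    exact ⟨n, Pool.Agent.W376.RQTRAP.sink_iter hyH.cont hsk i⟩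
  · rintro j ⟨i, -, hi⟩
    simp only at hi
    have h1 : (sp y)^[n] ((q j : ℂ) : OnePoint ℂ) = ((q j : ℂ) : OnePoint ℂ) := by
      rw [← hi, ← Function.iterate_add_apply, add_comm, Function.iterate_add_apply, hfix]
    apply hqp j n hn h1
    have h2 := Pool.Agent.W376.RQTRAP.sink_iter hyH.cont hsk i
    rw [hi] at h2
    refine ⟨n, _, h2, ?_⟩
    have h3 : ∀ k : ℕ, (sp y)^[n * k] ((q j : ℂ) : OnePoint ℂ) = ((q j : ℂ) : OnePoint ℂ) := by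
      intro k
      rw [Function.iterate_mul]
      exact Function.iterate_fixed h1 k
    simp only [h3]
    exact tendsto_const_nhds

lemma HG.pers (h : HG y q) {v : OnePoint ℂ} (hv : Attd (sp y) v)
    (hesc : ∀ n j, (sp y)^[n] v ≠ ((q j : ℂ) : OnePoint ℂ)) :
    ∃ O ∈ 𝓝 v, ∀ᶠ x in 𝓝 (deg y q), ND x → ∀ u ∈ O, Attd (sp x) u :=
  persistG (by have := h.hc.hd; omega) h.hc.hx
    (fun j n hn he hA => (h.self j j n hn he).1 (atE_of hA)) hv hesc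

lemma HG.gp_null (h : HG y q) : volume (Gp y q)ᶜ = 0 := by
  have h1 : (Gp y q)ᶜ ⊆ NA y ∪ ⋃ n : ℕ, ⋃ j : Fin m, (fun z : ℂ => (z : OnePoint ℂ)) ⁻¹'
      {z : OnePoint ℂ | (sp y)^[n] z = ((q j : ℂ) : OnePoint ℂ)} := by
    intro z hz
    by_contra hcon
    rw [mem_union, not_or] at hcon
    obtain ⟨h2, h3⟩ := hcon
    apply hz
    have h4 : AtE y (z : OnePoint ℂ) := by
      by_contra h0
      exact h2 h0
    obtain ⟨O, hO, hx⟩ := h.pers (attd_of_atE h.hc.hd h.hc.hx h4) (fun n j he => h3 (by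
      rw [mem_iUnion]
      exact ⟨n, mem_iUnion.2 ⟨j, he⟩⟩))
    refine ⟨(fun z : ℂ => (z : OnePoint ℂ)) ⁻¹' O,
      OnePoint.continuous_coe.continuousAt.preimage_mem_nhds hO, ?_⟩
    filter_upwards [hx] with x hx hnd u hu
    exact hx hnd _ hu
  refine measure_mono_null h1 ?_
  rw [measure_union_null_iff]
  refine ⟨h.hc.zero, ?_⟩
  refine Set.Countable.measure_zero (Set.countable_iUnion fun n => Set.countable_iUnion fun j => ?_) _
  exact (Pool.Agent.W342.RE.PTW.pre_countable h.hc.hd h.hc.hx _ n).preimage OnePoint.coe_injective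

/-- the perturbation estimates -/
theorem HC.prt' {d m : ℕ} {y : CV d} (h : HC y) {q : Fin m → ℂ}
    (hlow0 : ∃ c r : ℝ, 0 < c ∧ 0 < r ∧ ∀ w ∈ NA y, ∀ z ∈ closedBall w r, ∀ ρ : ℝ, 0 < ρ →
      ρ ≤ 1 → (∀ j, ρ ≤ ‖z - q j‖) → c * ρ ≤ ‖(Hp q).eval z‖)
    (V : CV (m + d)) (Hl : Finset ℂ) (hHl : ∀ j, q j ∈ Hl) :
    ∃ r₂ M κ : ℝ, 0 < r₂ ∧ 0 < κ ∧
      (∀ w ∈ NA y, ∀ z ∈ closedBall w r₂, ∀ ρ : ℝ, 0 < ρ → ρ ≤ 1 → (∀ h ∈ Hl, ρ ≤ ‖z - h‖) →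
        ∀ l : ℂ, ‖l‖ ≤ κ * ρ → (de (deg y q + l • V)).eval z ≠ 0) ∧
      ∀ w : ℕ → ℂ, (∀ k, w k ∈ NA y) →
        Prt w Hl (fx y) (fun l z => fx (deg y q + l • V) z) r₂ M κ := by
  obtain ⟨P', q₂, hY, -⟩ := h.ys
  have hcomp := h.compact
  -- the denominator of `y` near the bad set
  obtain ⟨r₂', cQ, R, hr₂', hcQ, hQ, hR⟩ : ∃ r₂ cQ R : ℝ, 0 < r₂ ∧ 0 < cQ ∧
      (∀ w ∈ NA y, ∀ z ∈ closedBall w r₂, cQ ≤ ‖(de y).eval z‖) ∧
      (∀ w ∈ NA y, ∀ z ∈ closedBall w r₂, ‖z‖ ≤ R) := by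
    obtain ⟨δ, hδ, hδ'⟩ := hcomp.exists_cthickening_subset_open
      (isOpen_ne_fun (de y).continuous continuous_const : IsOpen {z : ℂ | (de y).eval z ≠ 0})
      (fun z hz => hY.fin hz 0)
    have hc2 : IsCompact (cthickening δ (NA y)) := hcomp.cthickening
    have hin : ∀ w ∈ NA y, ∀ z ∈ closedBall w δ, z ∈ cthickening δ (NA y) := fun w hw z hz =>
      closedBall_subset_cthickening hw δ hz
    obtain ⟨M1, hM1⟩ := hc2.isBounded.exists_norm_le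
    have h2 : ContinuousOn (fun z => ‖(de y).eval z‖⁻¹) (cthickening δ (NA y)) := fun z hz =>
      (((de y).continuous.norm.continuousAt).inv₀ (norm_ne_zero_iff.2 (hδ' hz))).continuousWithinAt
    obtain ⟨M2, hM2⟩ := (hc2.image_of_continuousOn h2).bddAbove
    refine ⟨δ, (max M2 1)⁻¹, M1, hδ, by positivity, fun w hw z hz => ?_,
      fun w hw z hz => hM1 z (hin w hw z hz)⟩
    have h3 : ‖(de y).eval z‖⁻¹ ≤ max M2 1 := (hM2 ⟨z, hin w hw z hz, rfl⟩).trans (le_max_left _ _)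
    have h4 : 0 < ‖(de y).eval z‖ := norm_pos_iff.2 (hδ' (hin w hw z hz))
    exact inv_le_of_inv_le₀ h4 h3
  obtain ⟨c, r₃, hc, hr₃, hlow⟩ := hlow0
  obtain ⟨r₂, hr₂, hr₂a, hr₂b⟩ : ∃ r₂ : ℝ, 0 < r₂ ∧ r₂ ≤ r₂' ∧ r₂ ≤ r₃ :=
    ⟨min r₂' r₃, lt_min hr₂' hr₃, min_le_left _ _, min_le_right _ _⟩
  replace hQ : ∀ w ∈ NA y, ∀ z ∈ closedBall w r₂, cQ ≤ ‖(de y).eval z‖ := fun w hw z hz =>
    hQ w hw z (closedBall_subset_closedBall hr₂a hz)
  replace hR : ∀ w ∈ NA y, ∀ z ∈ closedBall w r₂, ‖z‖ ≤ R := fun w hw z hz =>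
    hR w hw z (closedBall_subset_closedBall hr₂a hz)
  replace hlow : ∀ w ∈ NA y, ∀ z ∈ closedBall w r₂, ∀ ρ : ℝ, 0 < ρ →
      ρ ≤ 1 → (∀ j, ρ ≤ ‖z - q j‖) → c * ρ ≤ ‖(Hp q).eval z‖ := fun w hw z hz =>
    hlow w hw z (closedBall_subset_closedBall hr₂b hz)
  obtain ⟨P, hP⟩ : ∃ P, P = pol y 0 := ⟨_, rfl⟩
  obtain ⟨Q, hQd⟩ : ∃ Q, Q = pol y 1 := ⟨_, rfl⟩
  obtain ⟨U, hU⟩ : ∃ U, U = pol V 0 := ⟨_, rfl⟩
  obtain ⟨W, hW⟩ : ∃ W, W = pol V 1 := ⟨_, rfl⟩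
  have hX : ∀ l : ℂ, nu (deg y q + l • V) = Hp q * P + C l * U ∧
      de (deg y q + l • V) = Hp q * Q + C l * W := by
    intro l
    unfold nu de
    rw [pol_lin, pol_lin, (pol_deg y q).1, (pol_deg y q).2, hP, hQd, hU, hW]
    exact ⟨rfl, rfl⟩
  have hyQ : de y = Q := hQd.symm
  have hyP : nu y = P := hP.symm
  rw [hyQ] at hQ
  obtain ⟨BW, hBW0, hBW, -⟩ := poly_bd W R
  obtain ⟨BN, hBN0, hBN, hBN'⟩ := poly_bd (U * Q - P * W) R
  obtain ⟨BS, hBS0, hBS, hBS'⟩ := poly_bd (Q * (Hp q * Q)) R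
  obtain ⟨BT, hBT0, hBT, hBT'⟩ := poly_bd (Q * W) R
  obtain ⟨κ, hκd⟩ : ∃ κ : ℝ, κ = min 1 (c * cQ / (2 * (BW + 1))) := ⟨_, rfl⟩
  have hκ0 : 0 < κ := by rw [hκd]; positivity
  have hκ1 : κ ≤ 1 := by rw [hκd]; exact min_le_left _ _
  have hκ2 : κ * BW ≤ c * cQ / 2 := by
    have h1 : κ ≤ c * cQ / (2 * (BW + 1)) := by rw [hκd]; exact min_le_right _ _
    rw [le_div_iff₀ (by positivity)] at h1
    nlinarith
  obtain ⟨c₁, hc₁⟩ : ∃ c₁ : ℝ, c₁ = cQ * (c * cQ / 2) := ⟨_, rfl⟩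
  have hc₁0 : 0 < c₁ := by rw [hc₁]; positivity
  obtain ⟨B, hB⟩ : ∃ B : ℝ, B = BN + BS + BT := ⟨_, rfl⟩
  have hB0 : 0 ≤ B := by rw [hB]; positivity
  -- lower bound for the denominator
  have hden : ∀ w ∈ NA y, ∀ z ∈ closedBall w r₂, ∀ ρ : ℝ, 0 < ρ → ρ ≤ 1 →
      (∀ h ∈ Hl, ρ ≤ ‖z - h‖) → ∀ l : ℂ, ‖l‖ ≤ κ * ρ →
      c * cQ / 2 * ρ ≤ ‖(Hp q).eval z * Q.eval z + l * W.eval z‖ := by
    intro w hw z hz ρ hρ hρ1 hh l hl
    have h1 := hlow w hw z hz ρ hρ hρ1 (fun j => hh _ (hHl j))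
    have h2 := hQ w hw z hz
    have h3 : c * ρ * cQ ≤ ‖(Hp q).eval z * Q.eval z‖ := by
      rw [norm_mul]
      exact mul_le_mul h1 h2 hcQ.le (norm_nonneg _)
    have h4 : ‖l * W.eval z‖ ≤ c * cQ / 2 * ρ := by
      rw [norm_mul]
      calc ‖l‖ * ‖W.eval z‖ ≤ κ * ρ * BW :=
            mul_le_mul hl (hBW z (hR w hw z hz)) (norm_nonneg _) (by positivity)
        _ = κ * BW * ρ := by ring
        _ ≤ c * cQ / 2 * ρ := by gcongr
    have h5 := norm_sub_le ((Hp q).eval z * Q.eval z + l * W.eval z) (l * W.eval z)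
    rw [add_sub_cancel_right] at h5
    linarith
  have hDlow : ∀ w ∈ NA y, ∀ z ∈ closedBall w r₂, ∀ ρ : ℝ, 0 < ρ → ρ ≤ 1 →
      (∀ h ∈ Hl, ρ ≤ ‖z - h‖) → ∀ l : ℂ, ‖l‖ ≤ κ * ρ →
      c₁ * ρ ≤ ‖Q.eval z * ((Hp q).eval z * Q.eval z + l * W.eval z)‖ := by
    intro w hw z hz ρ hρ hρ1 hh l hl
    rw [norm_mul, hc₁, mul_assoc]
    exact mul_le_mul (hQ w hw z hz) (hden w hw z hz ρ hρ hρ1 hh l hl) (by positivity) (norm_nonneg _)
  have hne : ∀ w ∈ NA y, ∀ z ∈ closedBall w r₂, ∀ ρ : ℝ, 0 < ρ → ρ ≤ 1 →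
      (∀ h ∈ Hl, ρ ≤ ‖z - h‖) → ∀ l : ℂ, ‖l‖ ≤ κ * ρ →
      (Hp q).eval z * Q.eval z + l * W.eval z ≠ 0 := by
    intro w hw z hz ρ hρ hρ1 hh l hl h0
    have h1 := hden w hw z hz ρ hρ hρ1 hh l hl
    rw [h0, norm_zero] at h1
    have : 0 < c * cQ / 2 * ρ := by positivity
    linarith
  have hQne : ∀ w ∈ NA y, ∀ z ∈ closedBall w r₂, Q.eval z ≠ 0 := by
    intro w hw z hz h0
    have h1 := hQ w hw z hz
    rw [h0, norm_zero] at h1
    linarith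
  have hid : ∀ w ∈ NA y, ∀ z ∈ closedBall w r₂, ∀ ρ : ℝ, 0 < ρ → ρ ≤ 1 →
      (∀ h ∈ Hl, ρ ≤ ‖z - h‖) → ∀ l : ℂ, ‖l‖ ≤ κ * ρ →
      fx (deg y q + l • V) z - fx y z = l * (U * Q - P * W).eval z /
        (Q.eval z * ((Hp q).eval z * Q.eval z + l * W.eval z)) := by
    intro w hw z hz ρ hρ hρ1 hh l hl
    unfold fx fr
    rw [(hX l).1, (hX l).2, hyQ, hyP]
    simp only [eval_add, eval_mul, eval_C, eval_sub]
    exact pert_id (hQne w hw z hz) (hne w hw z hz ρ hρ hρ1 hh l hl)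
  refine ⟨r₂, B / c₁ + 4 * B ^ 2 / c₁ ^ 2, κ, hr₂, hκ0, ?_, fun w hw => ⟨hκ0, ?_, ?_⟩⟩
  · intro w hw z hz ρ hρ hρ1 hh l hl
    rw [(hX l).2]
    simp only [eval_add, eval_mul, eval_C]
    exact hne w hw z hz ρ hρ hρ1 hh l hl
  · intro k z hz ρ hρ hρ1 hh l hl
    rw [hid (w k) (hw k) z hz ρ hρ hρ1 hh l hl, norm_div, norm_mul]
    have h1 := hDlow (w k) (hw k) z hz ρ hρ hρ1 hh l hl
    have h2 := hBN z (hR _ (hw k) z hz)
    have h3 : ‖(U * Q - P * W).eval z‖ ≤ B := by rw [hB]; linarith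
    calc ‖l‖ * ‖(U * Q - P * W).eval z‖ / ‖Q.eval z * ((Hp q).eval z * Q.eval z + l * W.eval z)‖ ≤
        ‖l‖ * B / (c₁ * ρ) := by gcongr
      _ = B / c₁ * ‖l‖ / ρ := by field_simp
      _ ≤ (B / c₁ + 4 * B ^ 2 / c₁ ^ 2) * ‖l‖ / ρ := by
        gcongr
        have : 0 ≤ 4 * B ^ 2 / c₁ ^ 2 := by positivity
        linarith
  · intro k z hz z' hz' ρ hρ hρ1 hh hh' l l' hl hl'
    rw [hid (w k) (hw k) z hz ρ hρ hρ1 hh l hl, hid (w k) (hw k) z' hz' ρ hρ hρ1 hh' l' hl']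
    have hz1 := hR _ (hw k) z hz
    have hz1' := hR _ (hw k) z' hz'
    have hlρ : ‖l'‖ ≤ ρ := by nlinarith
    have eD : ∀ (l z : ℂ), Q.eval z * ((Hp q).eval z * Q.eval z + l * W.eval z) =
        (Q * (Hp q * Q)).eval z + l * (Q * W).eval z := by
      intro l z
      simp only [eval_mul]
      ring
    refine pert_two hB0 hc₁0 hρ (norm_nonneg _) hlρ ?_ ?_ ?_
      (hDlow (w k) (hw k) z hz ρ hρ hρ1 hh l hl) (hDlow (w k) (hw k) z' hz' ρ hρ hρ1 hh' l' hl') ?_ ?_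
    · have := hBN z hz1
      rw [hB]; linarith
    · have := hBN z' hz1'
      rw [hB]; linarith
    · refine (hBN' z z' hz1 hz1').trans ?_
      gcongr
      rw [hB]; linarith
    · rw [eD]
      refine (norm_add_le _ _).trans ?_
      rw [norm_mul]
      have h1 := hBS z' hz1'
      have h2 := hBT z' hz1'
      have h3 : ‖l'‖ * ‖(Q * W).eval z'‖ ≤ 1 * BT :=
        mul_le_mul (hlρ.trans hρ1) h2 (norm_nonneg _) zero_le_one
      rw [hB]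
      linarith
    · rw [eD, eD]
      have e2 : (Q * (Hp q * Q)).eval z + l * (Q * W).eval z -
          ((Q * (Hp q * Q)).eval z' + l' * (Q * W).eval z') =
          ((Q * (Hp q * Q)).eval z - (Q * (Hp q * Q)).eval z') + (l - l') * (Q * W).eval z +
          l' * ((Q * W).eval z - (Q * W).eval z') := by ring
      rw [e2]
      have h1 := hBS' z z' hz1 hz1'
      have h2 := hBT z hz1
      have h3 := hBT' z z' hz1 hz1'
      have h4 : ‖(l - l') * (Q * W).eval z‖ ≤ ‖l - l'‖ * BT := by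
        rw [norm_mul]; gcongr
      have h5 : ‖l' * ((Q * W).eval z - (Q * W).eval z')‖ ≤ 1 * (BT * ‖z - z'‖) := by
        rw [norm_mul]
        exact mul_le_mul (hlρ.trans hρ1) h3 (norm_nonneg _) zero_le_one
      refine (norm_add₃_le).trans ?_
      have hnn := norm_nonneg (z - z')
      have hnn' := norm_nonneg (l - l')
      rw [hB]
      nlinarith [mul_nonneg hBN0 hnn, mul_nonneg hBS0 hnn, mul_nonneg hBT0 hnn,
        mul_nonneg hBN0 hnn', mul_nonneg hBS0 hnn', mul_nonneg hBT0 hnn']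

/-- lower bound for the polynomial of the holes near the Julia set -/
lemma HG.low (h : HG y q) : ∃ c r : ℝ, 0 < c ∧ 0 < r ∧ ∀ w ∈ NA y, ∀ z ∈ closedBall w r,
    ∀ ρ : ℝ, 0 < ρ → ρ ≤ 1 → (∀ j, ρ ≤ ‖z - q j‖) → c * ρ ≤ ‖(Hp q).eval z‖ := by
  classical
  have hcl : IsClosed (NA y) := h.hc.compact.isClosed
  have hlin : ∀ b : ℝ, 0 < b → ∀ᶠ s in 𝓝[>] (0 : ℝ), 2 * s ≤ b := by
    intro b hb
    have h3 : Tendsto (fun m : ℝ => 2 * m) (𝓝[>] 0) (𝓝 0) := by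
      have : Tendsto (fun m : ℝ => 2 * m) (𝓝 0) (𝓝 (2 * 0)) :=
        (continuous_const.mul continuous_id).tendsto 0
      rw [mul_zero] at this
      exact this.mono_left nhdsWithin_le_nhds
    exact h3.eventually (ge_mem_nhds hb)
  obtain ⟨s, hs0, hs1, hs2, hs3⟩ : ∃ s : ℝ, 0 < s ∧ s ≤ 1 ∧
      (∀ i j, i ≠ j → q j ∈ NA y → 2 * s ≤ ‖q i - q j‖) ∧
      (∀ j, q j ∉ NA y → ∀ w ∈ NA y, 2 * s ≤ ‖w - q j‖) := by
    have h1 : ∀ᶠ s in 𝓝[>] (0 : ℝ), ∀ p ∈ (Finset.univ : Finset (Fin m × Fin m)), p.1 ≠ p.2 →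
        q p.2 ∈ NA y → 2 * s ≤ ‖q p.1 - q p.2‖ := by
      rw [Finset.eventually_all]
      intro p _
      by_cases hp : p.1 ≠ p.2 ∧ q p.2 ∈ NA y
      · have h2 : 0 < ‖q p.1 - q p.2‖ := norm_pos_iff.2 (sub_ne_zero.2 (fun he =>
          hp.1 (h.smp p.2 p.1 he.symm hp.2).symm))
        filter_upwards [hlin _ h2] with s hs _ _
        exact hs
      · exact Eventually.of_forall fun s h3 h4 => absurd ⟨h3, h4⟩ hp
    have h2 : ∀ᶠ s in 𝓝[>] (0 : ℝ), ∀ j ∈ (Finset.univ : Finset (Fin m)),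
        q j ∉ NA y → ∀ w ∈ NA y, 2 * s ≤ ‖w - q j‖ := by
      rw [Finset.eventually_all]
      intro j _
      by_cases hj : q j ∈ NA y
      · exact Eventually.of_forall fun s h3 => absurd hj h3
      · obtain ⟨ε, hε, hb⟩ := Metric.isOpen_iff.1 hcl.isOpen_compl (q j) hj
        filter_upwards [hlin _ hε] with s hs _ w hw
        refine hs.trans ?_
        by_contra hcon
        push Not at hcon
        exact hb (by rw [mem_ball, dist_eq_norm]; exact hcon) hw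
    have h3 : ∀ᶠ s in 𝓝[>] (0 : ℝ), s ≤ 1 :=
      (eventually_le_nhds (zero_lt_one)).filter_mono nhdsWithin_le_nhds
    obtain ⟨s, ⟨⟨h4, h5⟩, h6⟩, h7⟩ := (((h1.and h2).and h3).and self_mem_nhdsWithin).exists
    exact ⟨s, h7, h6, fun i j hij => h4 (i, j) (Finset.mem_univ _) hij,
      fun j => h5 j (Finset.mem_univ _)⟩
  refine ⟨s ^ m, s, by positivity, hs0, fun w hw z hz ρ hρ hρ1 hzq => ?_⟩
  rw [mem_closedBall, dist_eq_norm] at hz
  rw [Hp_eval, norm_prod]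
  by_cases hj : ∃ j, ‖z - q j‖ < s
  · obtain ⟨j, hj⟩ := hj
    have hjN : q j ∈ NA y := by
      by_contra h0
      have h1 := hs3 j h0 w hw
      have h2 : ‖w - q j‖ ≤ ‖z - w‖ + ‖z - q j‖ := by
        have e : w - q j = (z - q j) - (z - w) := by ring
        rw [e, add_comm]
        exact norm_sub_le _ _
      linarith
    rw [← Finset.mul_prod_erase _ _ (Finset.mem_univ j)]
    have h1 : s ^ (Finset.univ.erase j).card ≤ ∏ i ∈ Finset.univ.erase j, ‖z - q i‖ := by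
      rw [← Finset.prod_const]
      refine Finset.prod_le_prod (fun _ _ => hs0.le) fun i hi => ?_
      have h2 := hs2 i j (Finset.ne_of_mem_erase hi) hjN
      have h3 : ‖q i - q j‖ ≤ ‖z - q j‖ + ‖z - q i‖ := by
        have e : q i - q j = (z - q j) - (z - q i) := by ring
        rw [e]
        exact norm_sub_le _ _
      linarith
    have h2 : s ^ m ≤ s ^ (Finset.univ.erase j).card := by
      apply pow_le_pow_of_le_one hs0.le hs1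
      have := Finset.card_le_univ (Finset.univ.erase j)
      simpa using this
    calc s ^ m * ρ = ρ * s ^ m := mul_comm _ _
      _ ≤ ‖z - q j‖ * ∏ i ∈ Finset.univ.erase j, ‖z - q i‖ :=
        mul_le_mul (hzq j) (h2.trans h1) (by positivity) (norm_nonneg _)
  · push Not at hj
    have h1 : s ^ m ≤ ∏ i, ‖z - q i‖ := by
      have h2 : s ^ (Finset.univ : Finset (Fin m)).card ≤ ∏ i, ‖z - q i‖ := by
        rw [← Finset.prod_const]
        exact Finset.prod_le_prod (fun _ _ => hs0.le) fun i _ => hj i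
      simpa using h2
    have h3 : 0 < s ^ m := by positivity
    nlinarith

/-- the critical value at a hole is attracted for most parameters -/
theorem HG.hole_est (h : HG y q) (V : CV (m + d)) (j : Fin m)
    (hnp : ∀ n i, 0 < n → (sp y)^[n] ((q j : ℂ) : OnePoint ℂ) ≠ ((q i : ℂ) : OnePoint ℂ))
    {v : ℂ → ℂ} {c₀ : ℂ} (hc₀ : c₀ ≠ 0)
    (hv : HasStrictDerivAt v c₀ 0) (hv0 : v 0 = fx y (q j)) :
    ∃ C : ℝ, 0 < C ∧ ∀ ε : ℝ, 0 < ε → ∃ ϱ₀ : ℝ, 0 < ϱ₀ ∧ ∀ ϱ : ℝ, 0 < ϱ → ϱ ≤ ϱ₀ →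
      ∃ X : Set ℂ, volume X ≤ ENNReal.ofReal (C * ε * ϱ ^ 2) ∧
        ∀ ξ ∈ ball (0 : ℂ) ϱ \ X, ND (deg y q + ξ ^ 2 • V) →
          Attd (sp (deg y q + ξ ^ 2 • V)) ((v ξ : ℂ) : OnePoint ℂ) := by
  classical
  have hd := h.hc.hd
  have hval : sp y ((q j : ℂ) : OnePoint ℂ) = ((v 0 : ℂ) : OnePoint ℂ) := by
    rw [hv0]
    exact sp_fx y (q j) (h.Q j)
  have hitv : ∀ n, (sp y)^[n] ((v 0 : ℂ) : OnePoint ℂ) =
      (sp y)^[n + 1] ((q j : ℂ) : OnePoint ℂ) := by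
    intro n
    rw [← hval, Function.iterate_succ_apply]
  have hesc : ∀ n i, (sp y)^[n] ((v 0 : ℂ) : OnePoint ℂ) ≠ ((q i : ℂ) : OnePoint ℂ) := by
    intro n i
    rw [hitv]
    exact hnp (n + 1) i (Nat.succ_pos n)
  by_cases hA : AtE y ((v 0 : ℂ) : OnePoint ℂ)
  · -- attracted value
    obtain ⟨O, hO, hx⟩ := h.pers (attd_of_atE hd h.hc.hx hA) hesc
    refine ⟨1, one_pos, fun ε hε => ?_⟩
    obtain ⟨ϱ₁, hϱ₁, h1⟩ := line_ev (deg y q) V hx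
    have h2 : ∀ᶠ ξ in 𝓝 (0 : ℂ), ((v ξ : ℂ) : OnePoint ℂ) ∈ O := by
      have h3 : ContinuousAt (fun ξ => ((v ξ : ℂ) : OnePoint ℂ)) 0 :=
        OnePoint.continuous_coe.continuousAt.comp hv.hasDerivAt.continuousAt
      exact h3.preimage_mem_nhds hO
    obtain ⟨ϱ₂, hϱ₂, h2⟩ := Metric.eventually_nhds_iff_ball.1 h2
    refine ⟨min ϱ₁ ϱ₂, lt_min hϱ₁ hϱ₂, fun ϱ hϱ hϱ' => ⟨∅, by simp, ?_⟩⟩
    rintro ξ ⟨hξ, -⟩ hnd
    exact h1 ξ (ball_subset_ball (hϱ'.trans (min_le_left _ _)) hξ) hnd _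
      (h2 ξ (ball_subset_ball (hϱ'.trans (min_le_right _ _)) hξ))
  · -- value in the Julia set
    have hvN : v 0 ∈ NA y := hA
    obtain ⟨P', q₂, hY, -⟩ := h.hc.ys
    obtain ⟨r₁, M₁, hr₁, hbr⟩ := h.hc.brs
    obtain ⟨G, hB⟩ := hbr (v 0) hvN
    obtain ⟨Hl, hHl⟩ : ∃ Hl : Finset ℂ, Hl = Finset.univ.image q := ⟨_, rfl⟩
    have hHl1 : ∀ i, q i ∈ Hl := fun i => by
      rw [hHl]; exact Finset.mem_image_of_mem _ (Finset.mem_univ i)
    have hHl2 : ∀ u ∈ Hl, ∃ i, u = q i := fun u hu => by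
      rw [hHl] at hu
      obtain ⟨i, -, hi⟩ := Finset.mem_image.1 hu
      exact ⟨i, hi.symm⟩
    obtain ⟨r₂, M₂, κ, hr₂, hκ, hden, hprt⟩ := h.hc.prt' h.low V Hl hHl1
    obtain ⟨w, hwd⟩ : ∃ w : ℕ → ℂ, w = fun k => (fx y)^[k] (v 0) := ⟨_, rfl⟩
    have hwN : ∀ k, w k ∈ NA y := fun k => by rw [hwd]; exact (hY.orb hvN k).2
    have hws : ∀ k, (sp y)^[k] ((v 0 : ℂ) : OnePoint ℂ) = ((w k : ℂ) : OnePoint ℂ) := fun k => by
      rw [hwd]; exact (hY.orb hvN k).1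
    have hP := hprt w hwN
    obtain ⟨r, hr⟩ : ∃ r, r = min r₁ r₂ := ⟨_, rfl⟩
    have hr0 : 0 < r := by rw [hr]; exact lt_min hr₁ hr₂
    have hrr₁ : r ≤ r₁ := by rw [hr]; exact min_le_left _ _
    have hrr₂ : r ≤ r₂ := by rw [hr]; exact min_le_right _ _
    have hB' : Brs w (fx y) G (fun k => ‖deriv ((fx y)^[k]) (v 0)‖) r (max M₁ M₂) := by
      rw [hwd]
      exact hB.mono (le_max_left _ _) hr0 hrr₁
    have hP' := hP.mono (le_max_right M₁ M₂) hrr₂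
    -- the Lipschitz condition
    obtain ⟨ϱ₁, hϱ₁, hlip⟩ : ∃ ϱ₁ : ℝ, 0 < ϱ₁ ∧ ∀ ξ ∈ ball (0 : ℂ) ϱ₁, ∀ ξ' ∈ ball (0 : ℂ) ϱ₁,
        ‖v ξ - v ξ' - c₀ * (ξ - ξ')‖ ≤ ‖c₀‖ / 4 * ‖ξ - ξ'‖ := by
      have h1 := hv.isLittleO.bound (c := ‖c₀‖ / 4) (by
        have := norm_pos_iff.2 hc₀
        positivity)
      rw [Metric.eventually_nhds_iff_ball] at h1
      obtain ⟨ϱ₁, hϱ₁, h1⟩ := h1
      refine ⟨ϱ₁, hϱ₁, fun ξ hξ ξ' hξ' => ?_⟩
      have h2 := h1 (ξ, ξ') (by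
        rw [mem_ball, Prod.dist_eq, max_lt_iff]
        exact ⟨hξ, hξ'⟩)
      simp only at h2
      rw [mul_comm c₀]
      simpa using h2
    obtain ⟨C, hC, hS⟩ := shadow hB' hP' (fun k u hu he => by
      obtain ⟨i, rfl⟩ := hHl2 u hu
      apply hesc k i
      rw [hws, he]) (by rw [hwd]; rfl) hc₀ hϱ₁ hlip
    refine ⟨C, hC, fun ε hε => ?_⟩
    -- the compact set of good points
    obtain ⟨R₀, hR₀⟩ := h.hc.compact.isBounded.exists_norm_le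
    have hR : ∀ k, closedBall (w k) r ⊆ closedBall 0 (R₀ + r) := by
      intro k z hz
      rw [mem_closedBall, dist_eq_norm] at hz
      rw [mem_closedBall_zero_iff]
      have h1 := hR₀ (w k) (hwN k)
      have h2 := norm_add_le (z - w k) (w k)
      rw [sub_add_cancel] at h2
      linarith
    have hJc : IsCompact (closedBall (0 : ℂ) (R₀ + r) ∩ (Gp y q)ᶜ) :=
      (isCompact_closedBall _ _).inter_right gp_open.isClosed_compl
    have hJ0 : volume (closedBall (0 : ℂ) (R₀ + r) ∩ (Gp y q)ᶜ) = 0 :=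
      measure_mono_null inter_subset_right h.gp_null
    obtain ⟨t, ht0, ht1, ht2⟩ := cover_null _ hJc hJ0 ε hε
    have hKc : IsCompact (closedBall (0 : ℂ) (R₀ + r) \ ⋃ p ∈ t, ball p.1 p.2) :=
      (isCompact_closedBall _ _).diff (isOpen_biUnion fun _ _ => isOpen_ball)
    have hKG : closedBall (0 : ℂ) (R₀ + r) \ ⋃ p ∈ t, ball p.1 p.2 ⊆ Gp y q := by
      rintro z ⟨hz1, hz2⟩
      by_contra hz3
      exact hz2 (ht1 ⟨hz1, hz3⟩)
    obtain ⟨ϱ₂, hϱ₂, h2⟩ := line_ev (deg y q) V (gp_compact hKc hKG)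
    obtain ⟨ϱ₃, hϱ₃, h3⟩ := hS ε hε t ht0 ht2
    refine ⟨min ϱ₂ ϱ₃, lt_min hϱ₂ hϱ₃, fun ϱ hϱ hϱ' => ?_⟩
    obtain ⟨X, hX, hX'⟩ := h3 ϱ hϱ (hϱ'.trans (min_le_right _ _))
    refine ⟨X, hX, fun ξ hξ hnd => ?_⟩
    obtain ⟨n, hn1, hn2, hn3⟩ := hX' ξ hξ
    have hzn : ZZ (fun l z => fx (deg y q + l • V) z) v n ξ ∈
        closedBall (0 : ℂ) (R₀ + r) \ ⋃ p ∈ t, ball p.1 p.2 := by
      refine ⟨hR n hn2, fun hmem => ?_⟩
      obtain ⟨p, hp, hp'⟩ := mem_iUnion₂.1 hmem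
      exact hn3 p hp hp'
    have hatt := h2 ξ (ball_subset_ball (hϱ'.trans (min_le_left _ _)) hξ.1) hnd _ hzn
    have hit : ∀ k ≤ n, (sp (deg y q + ξ ^ 2 • V))^[k] ((v ξ : ℂ) : OnePoint ℂ) =
        ((ZZ (fun l z => fx (deg y q + l • V) z) v k ξ : ℂ) : OnePoint ℂ) := by
      intro k
      induction k with
      | zero => intro _; rfl
      | succ k ih =>
        intro hk
        rw [Function.iterate_succ_apply', ih (by omega), ZZ_succ]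
        obtain ⟨g1, ρ, g2, g3, g4, g5⟩ := hn1 k (by omega)
        exact sp_fx _ _ (hden (w k) (hwN k) _ (closedBall_subset_closedBall hrr₂ g1) ρ g2 g3 g5 _ g4)
    apply Pool.Agent.W376.RQTRAP.attd_of_iter (sp_cont (by omega) _ hnd) (m := n)
    rw [hit n le_rfl]
    exact hatt

end Run7.h725
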