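import Mathlib
import Pool.Agent.Run7.h725.B1Crit

/-! Critical values of `(H P + l U) / (H Q + l W)` near a root of `H` of any multiplicity, and
near a critical point of `P / Q`. -/

set_option autoImplicit false

open Topology Filter Metric Set Polynomial

namespace Run7.h725

open Pool.Agent.W757.QR (wn)

section

variable {P Q U W H₁ : ℂ[X]} {a : ℂ}

lemma wn_pow (P Q U W H₁ : ℂ[X]) (a l z : ℂ) (k : ℕ) :
    (wn ((X - C a) ^ (k + 1) * H₁ * P + C l * U) ((X - C a) ^ (k + 1) * H₁ * Q + C l * W)).eval z =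
      ((z - a) ^ (k + 1) * H₁.eval z) ^ 2 * (wn P Q).eval z +
      l * (((k + 1 : ℂ) * (z - a) ^ k * H₁.eval z + (z - a) ^ (k + 1) * (derivative H₁).eval z) *
        (P.eval z * W.eval z - U.eval z * Q.eval z) +
        (z - a) ^ (k + 1) * H₁.eval z * ((wn P W).eval z + (wn U Q).eval z)) +
      l ^ 2 * (wn U W).eval z := by
  rw [wn_expand]
  unfold wn
  simp only [derivative_add, derivative_mul, derivative_C, eval_add, eval_sub, eval_mul, eval_C,
    eval_zero, zero_mul, zero_add, eval_pow, eval_X, derivative_pow, derivative_X, derivative_sub,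
    sub_zero, mul_one, Nat.add_sub_cancel, eval_natCast, Nat.cast_add, Nat.cast_one, eval_one]
  ring

/-- critical values near a root of `H` of any multiplicity -/
theorem hole_soft {k : ℕ} (hH : H₁.eval a ≠ 0) (hQ : Q.eval a ≠ 0) (hW : W.eval a ≠ 0)
    (hN : U.eval a * Q.eval a - P.eval a * W.eval a ≠ 0) {O₁ O₂ : Set ℂ}
    (hO₁ : O₁ ∈ 𝓝 (P.eval a / Q.eval a)) (hO₂ : O₂ ∈ 𝓝 (U.eval a / W.eval a)) :
    ∀ᶠ p : ℂ × ℂ in 𝓝 (0, a), p.1 ≠ 0 →
      (wn ((X - C a) ^ (k + 1) * H₁ * P + C p.1 * U)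
        ((X - C a) ^ (k + 1) * H₁ * Q + C p.1 * W)).eval p.2 = 0 →
      ((X - C a) ^ (k + 1) * H₁ * Q + C p.1 * W).eval p.2 ≠ 0 ∧
      (((X - C a) ^ (k + 1) * H₁ * P + C p.1 * U).eval p.2 /
        ((X - C a) ^ (k + 1) * H₁ * Q + C p.1 * W).eval p.2 ∈ O₁ ∨
       ((X - C a) ^ (k + 1) * H₁ * P + C p.1 * U).eval p.2 /
        ((X - C a) ^ (k + 1) * H₁ * Q + C p.1 * W).eval p.2 ∈ O₂) := by
  have hev : ∀ R : ℂ[X], Continuous fun p : ℂ × ℂ => R.eval p.2 := fun R =>
    R.continuous.comp continuous_snd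
  -- the two regimes
  have h1 : ∀ᶠ p : ℂ × ℂ in 𝓝 (0, a), H₁.eval p.2 * Q.eval p.2 + p.1 * W.eval p.2 ≠ 0 ∧
      (H₁.eval p.2 * P.eval p.2 + p.1 * U.eval p.2) /
        (H₁.eval p.2 * Q.eval p.2 + p.1 * W.eval p.2) ∈ O₁ := by
    have hc1 : Continuous fun p : ℂ × ℂ => H₁.eval p.2 * Q.eval p.2 + p.1 * W.eval p.2 :=
      ((hev _).mul (hev _)).add (continuous_fst.mul (hev _))
    have hc2 : Continuous fun p : ℂ × ℂ => H₁.eval p.2 * P.eval p.2 + p.1 * U.eval p.2 :=
      ((hev _).mul (hev _)).add (continuous_fst.mul (hev _))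
    have hne : H₁.eval a * Q.eval a + 0 * W.eval a ≠ 0 := by
      rw [zero_mul, add_zero]; exact mul_ne_zero hH hQ
    refine (hc1.continuousAt.eventually_ne hne).and ?_
    have hc3 := (hc2.continuousAt (x := (0, a))).div hc1.continuousAt hne
    refine hc3.preimage_mem_nhds ?_
    simp only [Pi.div_apply, zero_mul, add_zero]
    rw [mul_div_mul_left _ _ hH]
    exact hO₁
  have h2 : ∀ᶠ p : ℂ × ℂ in 𝓝 (0, a), p.1 * (H₁.eval p.2 * Q.eval p.2) + W.eval p.2 ≠ 0 ∧
      (p.1 * (H₁.eval p.2 * P.eval p.2) + U.eval p.2) /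
        (p.1 * (H₁.eval p.2 * Q.eval p.2) + W.eval p.2) ∈ O₂ := by
    have hc1 : Continuous fun p : ℂ × ℂ => p.1 * (H₁.eval p.2 * Q.eval p.2) + W.eval p.2 :=
      (continuous_fst.mul ((hev _).mul (hev _))).add (hev _)
    have hc2 : Continuous fun p : ℂ × ℂ => p.1 * (H₁.eval p.2 * P.eval p.2) + U.eval p.2 :=
      (continuous_fst.mul ((hev _).mul (hev _))).add (hev _)
    have hne : 0 * (H₁.eval a * Q.eval a) + W.eval a ≠ 0 := by
      rw [zero_mul, zero_add]; exact hW
    refine (hc1.continuousAt.eventually_ne hne).and ?_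
    have hc3 := (hc2.continuousAt (x := (0, a))).div hc1.continuousAt hne
    refine hc3.preimage_mem_nhds ?_
    simp only [Pi.div_apply, zero_mul, zero_add]
    exact hO₂
  -- the middle regime
  have h3 : ∀ᶠ p : ℂ × ℂ × ℂ in 𝓝 (0, 0, a), p.1 * ((H₁.eval p.2.2) ^ 2 * (wn P Q).eval p.2.2) +
      (((k + 1 : ℂ) * H₁.eval p.2.2 + (p.2.2 - a) * (derivative H₁).eval p.2.2) *
        (P.eval p.2.2 * W.eval p.2.2 - U.eval p.2.2 * Q.eval p.2.2) +
        (p.2.2 - a) * H₁.eval p.2.2 * ((wn P W).eval p.2.2 + (wn U Q).eval p.2.2)) +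
      p.2.1 * (wn U W).eval p.2.2 ≠ 0 := by
    have hev' : ∀ R : ℂ[X], Continuous fun p : ℂ × ℂ × ℂ => R.eval p.2.2 := fun R =>
      R.continuous.comp (continuous_snd.comp continuous_snd)
    have hz : Continuous fun p : ℂ × ℂ × ℂ => p.2.2 - a :=
      (continuous_snd.comp continuous_snd).sub continuous_const
    have hc : Continuous fun p : ℂ × ℂ × ℂ => p.1 * ((H₁.eval p.2.2) ^ 2 * (wn P Q).eval p.2.2) +
      (((k + 1 : ℂ) * H₁.eval p.2.2 + (p.2.2 - a) * (derivative H₁).eval p.2.2) *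
        (P.eval p.2.2 * W.eval p.2.2 - U.eval p.2.2 * Q.eval p.2.2) +
        (p.2.2 - a) * H₁.eval p.2.2 * ((wn P W).eval p.2.2 + (wn U Q).eval p.2.2)) +
      p.2.1 * (wn U W).eval p.2.2 :=
      ((continuous_fst.mul (((hev' _).pow 2).mul (hev' _))).add
        ((((continuous_const.mul (hev' _)).add (hz.mul (hev' _))).mul
          (((hev' _).mul (hev' _)).sub ((hev' _).mul (hev' _)))).add
          ((hz.mul (hev' _)).mul ((hev' _).add (hev' _))))).add
        ((continuous_fst.comp continuous_snd).mul (hev' _))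
    refine hc.continuousAt.eventually_ne ?_
    simp only [zero_mul, sub_self, add_zero, zero_add]
    refine mul_ne_zero (mul_ne_zero (Nat.cast_add_one_ne_zero k) hH) ?_
    intro h0
    apply hN
    linear_combination -h0
  obtain ⟨η, hη, h12⟩ := Metric.eventually_nhds_iff_ball.1 (h1.and h2)
  obtain ⟨δ, hδ, h3⟩ := Metric.eventually_nhds_iff_ball.1 h3
  have hη' : ∀ s z : ℂ, ‖s‖ < η → ‖z - a‖ < η → _ := fun s z hs hz =>
    h12 (s, z) (by
      rw [mem_ball, Prod.dist_eq, max_lt_iff, dist_eq_norm, dist_eq_norm, sub_zero]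
      exact ⟨hs, hz⟩)
  have hev2 : ∀ᶠ p : ℂ × ℂ in 𝓝 (0, a), ‖p.2 - a‖ < min η (min δ (δ * η)) := by
    have hc : Continuous fun p : ℂ × ℂ => ‖p.2 - a‖ := (continuous_snd.sub continuous_const).norm
    have := hc.continuousAt (x := ((0 : ℂ), a))
    refine this.eventually_lt continuousAt_const ?_
    simp only [sub_self, norm_zero]
    positivity
  filter_upwards [hev2] with p hp hl hcr
  obtain ⟨l, z⟩ := p
  simp only at hp hl hcr ⊢
  obtain ⟨t, ht⟩ : ∃ t, t = z - a := ⟨_, rfl⟩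
  have hp1 : ‖z - a‖ < η := hp.trans_le (min_le_left _ _)
  have hp2 : ‖z - a‖ < δ := hp.trans_le ((min_le_right _ _).trans (min_le_left _ _))
  have hp3 : ‖z - a‖ < δ * η := hp.trans_le ((min_le_right _ _).trans (min_le_right _ _))
  have evN : ∀ (R S : ℂ[X]), ((X - C a) ^ (k + 1) * H₁ * R + C l * S).eval z =
      t ^ (k + 1) * (H₁.eval z * R.eval z) + l * S.eval z := by
    intro R S
    simp only [eval_add, eval_mul, eval_pow, eval_sub, eval_X, eval_C, ← ht]
    ring
  have hlpos : 0 < ‖l‖ := norm_pos_iff.2 hl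
  rcases lt_or_ge ‖l‖ (η * ‖t ^ (k + 1)‖) with hA | hA
  · -- far from the hole
    have ht0 : t ^ (k + 1) ≠ 0 := by
      intro h0
      rw [h0, norm_zero, mul_zero] at hA
      linarith
    have htp : 0 < ‖t ^ (k + 1)‖ := norm_pos_iff.2 ht0
    obtain ⟨s, hs⟩ : ∃ s, s = l / t ^ (k + 1) := ⟨_, rfl⟩
    have hs1 : ‖s‖ < η := by
      rw [hs, norm_div, div_lt_iff₀ htp]
      exact hA
    have hls : l = t ^ (k + 1) * s := by rw [hs]; field_simp
    obtain ⟨⟨g1, g2⟩, -⟩ := hη' s z hs1 hp1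
    simp only at g1 g2
    have e : ∀ (R S : ℂ[X]), t ^ (k + 1) * (H₁.eval z * R.eval z) + l * S.eval z =
        t ^ (k + 1) * (H₁.eval z * R.eval z + s * S.eval z) := by
      intro R S
      rw [hls]
      ring
    rw [evN, evN, e, e]
    refine ⟨mul_ne_zero ht0 g1, Or.inl ?_⟩
    rw [mul_div_mul_left _ _ ht0]
    exact g2
  · rcases lt_or_ge ‖t ^ (k + 1)‖ (η * ‖l‖) with hB | hB
    · -- close to the hole
      obtain ⟨s, hs⟩ : ∃ s, s = t ^ (k + 1) / l := ⟨_, rfl⟩
      have hs1 : ‖s‖ < η := by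
        rw [hs, norm_div, div_lt_iff₀ hlpos]
        exact hB
      have hls : t ^ (k + 1) = l * s := by rw [hs]; field_simp
      obtain ⟨-, g1, g2⟩ := hη' s z hs1 hp1
      simp only at g1 g2
      have e : ∀ (R S : ℂ[X]), t ^ (k + 1) * (H₁.eval z * R.eval z) + l * S.eval z =
          l * (s * (H₁.eval z * R.eval z) + S.eval z) := by
        intro R S
        rw [hls]
        ring
      rw [evN, evN, e, e]
      refine ⟨mul_ne_zero hl g1, Or.inr ?_⟩
      rw [mul_div_mul_left _ _ hl]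
      exact g2
    · -- impossible
      exfalso
      have ht0 : t ≠ 0 := by
        rintro rfl
        rw [zero_pow (Nat.succ_ne_zero k), norm_zero] at hB
        have := mul_pos hη hlpos
        linarith
      have htk : t ^ (k + 1) ≠ 0 := pow_ne_zero _ ht0
      have htp : 0 < ‖t ^ (k + 1)‖ := norm_pos_iff.2 htk
      have htpos : 0 < ‖t‖ := norm_pos_iff.2 ht0
      have g1 : ‖t ^ (k + 1) / l * t‖ < δ := by
        rw [norm_mul, norm_div, div_mul_eq_mul_div, div_lt_iff₀ hlpos]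
        rw [← ht] at hp3
        calc ‖t ^ (k + 1)‖ * ‖t‖ < ‖t ^ (k + 1)‖ * (δ * η) := by gcongr
          _ = δ * (η * ‖t ^ (k + 1)‖) := by ring
          _ ≤ δ * ‖l‖ := by gcongr
      have g2 : ‖l / t ^ (k + 1) * t‖ < δ := by
        rw [norm_mul, norm_div, div_mul_eq_mul_div, div_lt_iff₀ htp]
        rw [← ht] at hp3
        calc ‖l‖ * ‖t‖ < ‖l‖ * (δ * η) := by gcongr
          _ = δ * (η * ‖l‖) := by ring
          _ ≤ δ * ‖t ^ (k + 1)‖ := by gcongr
      have g3 := h3 (t ^ (k + 1) / l * t, l / t ^ (k + 1) * t, z) (by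
        rw [mem_ball, Prod.dist_eq, Prod.dist_eq, max_lt_iff, max_lt_iff, dist_eq_norm,
          dist_eq_norm, dist_eq_norm, sub_zero, sub_zero]
        exact ⟨g1, g2, hp2⟩)
      simp only at g3
      apply g3
      rw [wn_pow, ← ht] at hcr
      rw [← ht]
      have g4 : l * t ^ k ≠ 0 := mul_ne_zero hl (pow_ne_zero _ ht0)
      refine (mul_eq_zero.1 (?_ : (l * t ^ k) * _ = 0)).resolve_left g4
      rw [← hcr]
      have e1 : t ^ (k + 1) = t ^ k * t := pow_succ t k
      rw [e1]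
      have htk' : t ^ k ≠ 0 := pow_ne_zero _ ht0
      field_simp

/-- the difference of the values near a point, in terms of the Wronskian -/
lemma fdiff {P Q : ℂ[X]} {c : ℂ} (hQ : Q.eval c ≠ 0) (hw : wn P Q ≠ 0) :
    ∃ g : ℂ → ℂ, ContinuousAt g c ∧ ∀ᶠ z in 𝓝 c,
      P.eval z / Q.eval z - P.eval c / Q.eval c = (z - c) * (wn P Q).eval z * g z := by
  obtain ⟨K, hK⟩ : ∃ K, K = C (Q.eval c) * P - C (P.eval c) * Q := ⟨_, rfl⟩
  have hwK : wn K Q = C (Q.eval c) * wn P Q := by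
    rw [hK]
    unfold wn
    simp only [derivative_sub, derivative_mul, derivative_C, zero_mul, zero_add]
    ring
  have hK0 : K ≠ 0 := by
    intro h0
    rw [h0] at hwK
    have h1 : wn 0 Q = 0 := by unfold wn; simp
    rw [h1] at hwK
    have h2 := mul_eq_zero.1 hwK.symm
    rcases h2 with h2 | h2
    · exact hQ (C_eq_zero.1 h2)
    · exact hw h2
  obtain ⟨K₁, hK₁, hnd⟩ := K.exists_eq_pow_rootMultiplicity_mul_and_not_dvd hK0 c
  have hK₁c : K₁.eval c ≠ 0 := fun h => hnd (dvd_iff_isRoot.2 h)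
  obtain ⟨n, hn⟩ : ∃ n, K.rootMultiplicity c = n + 1 := by
    refine Nat.exists_eq_succ_of_ne_zero ?_
    have : 0 < K.rootMultiplicity c := by
      rw [rootMultiplicity_pos hK0]
      show K.eval c = 0
      rw [hK]
      simp
      ring
    omega
  rw [hn] at hK₁
  obtain ⟨S, hS⟩ : ∃ S, S = C (n + 1 : ℂ) * K₁ * Q + (X - C c) * wn K₁ Q := ⟨_, rfl⟩
  have hwS : ∀ z, Q.eval c * (wn P Q).eval z = (z - c) ^ n * S.eval z := by
    intro z
    have h1 : (wn K Q).eval z = Q.eval c * (wn P Q).eval z := by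
      rw [hwK, eval_mul, eval_C]
    rw [← h1, hK₁, hS]
    unfold wn
    simp only [derivative_mul, eval_add, eval_sub, eval_mul, eval_C, eval_pow, eval_X,
      derivative_pow, derivative_X, derivative_sub, derivative_C, sub_zero, mul_one,
      Nat.add_sub_cancel, eval_natCast, Nat.cast_add, Nat.cast_one, eval_one]
    ring
  have hSc : S.eval c ≠ 0 := by
    rw [hS]
    simp only [eval_add, eval_mul, eval_C, eval_sub, eval_X, sub_self, zero_mul, add_zero]
    exact mul_ne_zero (mul_ne_zero (Nat.cast_add_one_ne_zero n) hK₁c) hQ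
  refine ⟨fun z => K₁.eval z / (Q.eval z * S.eval z), ?_, ?_⟩
  · exact K₁.continuous.continuousAt.div (Q.continuous.continuousAt.mul S.continuous.continuousAt)
      (mul_ne_zero hQ hSc)
  · filter_upwards [Q.continuous.continuousAt.eventually_ne hQ,
      S.continuous.continuousAt.eventually_ne hSc] with z h1 h2
    have h3 : K.eval z = Q.eval c * P.eval z - P.eval c * Q.eval z := by
      rw [hK]; simp
    have h4 : K.eval z = (z - c) ^ (n + 1) * K₁.eval z := by
      rw [hK₁]; simp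
    have h5 := hwS z
    have h6 : (wn P Q).eval z = (z - c) ^ n * S.eval z / Q.eval c := by
      rw [← h5]; field_simp
    rw [h6, div_sub_div _ _ h1 hQ]
    have h7 : P.eval z * Q.eval c - Q.eval z * P.eval c = (z - c) ^ (n + 1) * K₁.eval z := by
      rw [← h4, h3]; ring
    rw [h7, pow_succ]
    field_simp

/-- critical values near a critical point -/
theorem crit_soft {P Q U W H : ℂ[X]} {c : ℂ} (hH : H.eval c ≠ 0) (hQ : Q.eval c ≠ 0)
    (hw : wn P Q ≠ 0) {ε : ℝ} (hε : 0 < ε) :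
    ∀ᶠ p : ℂ × ℂ in 𝓝 (0, c), (wn (H * P + C p.1 * U) (H * Q + C p.1 * W)).eval p.2 = 0 →
      ‖(H * P + C p.1 * U).eval p.2 / (H * Q + C p.1 * W).eval p.2 -
        (H * P + C p.1 * U).eval c / (H * Q + C p.1 * W).eval c‖ ≤ ε * ‖p.1‖ := by
  obtain ⟨g, hg, hgz⟩ := fdiff hQ hw
  have hev : ∀ R : ℂ[X], Continuous fun p : ℂ × ℂ => R.eval p.2 := fun R =>
    R.continuous.comp continuous_snd
  have hcst : ∀ R : ℂ[X], Continuous fun _p : ℂ × ℂ => R.eval c := fun R => continuous_const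
  -- the bracket
  obtain ⟨Φ, hΦ⟩ : ∃ Φ : ℂ × ℂ → ℂ, Φ = fun p => -((p.2 - c) * (((wn (H * P) W).eval p.2 +
      (wn U (H * Q)).eval p.2 + p.1 * (wn U W).eval p.2) / (H.eval p.2) ^ 2) * g p.2) +
      ((U.eval p.2 * Q.eval p.2 - P.eval p.2 * W.eval p.2) /
        (Q.eval p.2 * (H.eval p.2 * Q.eval p.2 + p.1 * W.eval p.2)) -
      (U.eval c * Q.eval c - P.eval c * W.eval c) /
        (Q.eval c * (H.eval c * Q.eval c + p.1 * W.eval c))) := ⟨_, rfl⟩
  have hΦc : ContinuousAt Φ (0, c) := by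
    rw [hΦ]
    have hne1 : (H.eval c) ^ 2 ≠ 0 := pow_ne_zero _ hH
    have hne2 : Q.eval c * (H.eval c * Q.eval c + 0 * W.eval c) ≠ 0 := by
      rw [zero_mul, add_zero]
      exact mul_ne_zero hQ (mul_ne_zero hH hQ)
    have hg' : ContinuousAt (fun p : ℂ × ℂ => g p.2) (0, c) :=
      ContinuousAt.comp (g := g) (f := fun p : ℂ × ℂ => p.2) hg continuousAt_snd
    refine (((((continuous_snd.sub continuous_const).continuousAt).mul
      ((((hev _).add (hev _)).add (continuous_fst.mul (hev _))).continuousAt.div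
        ((hev _).pow 2).continuousAt hne1)).mul hg').neg).add ?_
    refine ContinuousAt.sub ?_ ?_
    · exact (((hev _).mul (hev _)).sub ((hev _).mul (hev _))).continuousAt.div
        ((hev _).mul (((hev _).mul (hev _)).add (continuous_fst.mul (hev _)))).continuousAt hne2
    · exact continuousAt_const.div (continuous_const.mul (continuous_const.add
        (continuous_fst.mul continuous_const))).continuousAt hne2
  have hΦ0 : Φ (0, c) = 0 := by
    rw [hΦ]; simp
  have h1 : ∀ᶠ p : ℂ × ℂ in 𝓝 (0, c), ‖Φ p‖ < ε := by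
    have h2 := hΦc.norm
    refine h2.eventually_lt continuousAt_const ?_
    rw [hΦ0, norm_zero]
    exact hε
  have hd1 : ∀ᶠ p : ℂ × ℂ in 𝓝 (0, c), H.eval p.2 * Q.eval p.2 + p.1 * W.eval p.2 ≠ 0 := by
    refine (((hev _).mul (hev _)).add (continuous_fst.mul (hev _))).continuousAt.eventually_ne ?_
    show H.eval c * Q.eval c + 0 * W.eval c ≠ 0
    rw [zero_mul, add_zero]
    exact mul_ne_zero hH hQ
  have hd2 : ∀ᶠ p : ℂ × ℂ in 𝓝 (0, c), H.eval c * Q.eval c + p.1 * W.eval c ≠ 0 := by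
    refine (continuous_const.add (continuous_fst.mul continuous_const)).continuousAt.eventually_ne ?_
    show H.eval c * Q.eval c + 0 * W.eval c ≠ 0
    rw [zero_mul, add_zero]
    exact mul_ne_zero hH hQ
  have hd3 : ∀ᶠ p : ℂ × ℂ in 𝓝 (0, c), Q.eval p.2 ≠ 0 := (hev Q).continuousAt.eventually_ne hQ
  have hd4 : ∀ᶠ p : ℂ × ℂ in 𝓝 (0, c), H.eval p.2 ≠ 0 := (hev H).continuousAt.eventually_ne hH
  have hd5 : ∀ᶠ p : ℂ × ℂ in 𝓝 (0, c),
      P.eval p.2 / Q.eval p.2 - P.eval c / Q.eval c = (p.2 - c) * (wn P Q).eval p.2 * g p.2 :=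
    (continuousAt_snd (p := ((0 : ℂ), c))).eventually hgz
  filter_upwards [h1, hd1, hd2, hd3, hd4, hd5] with p g1 g2 g3 g4 g5 g6 hcr
  obtain ⟨l, z⟩ := p
  simp only at g1 g2 g3 g4 g5 g6 hcr ⊢
  have e1 : ∀ u : ℂ, H.eval u * Q.eval u + l * W.eval u ≠ 0 → Q.eval u ≠ 0 →
      (H * P + C l * U).eval u / (H * Q + C l * W).eval u = P.eval u / Q.eval u +
        l * ((U.eval u * Q.eval u - P.eval u * W.eval u) /
        (Q.eval u * (H.eval u * Q.eval u + l * W.eval u))) := by
    intro u hu hu'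
    simp only [eval_add, eval_mul, eval_C]
    field_simp
    ring
  rw [wn_expand] at hcr
  have e2 : (wn P Q).eval z = -(l * (((wn (H * P) W).eval z + (wn U (H * Q)).eval z +
      l * (wn U W).eval z) / (H.eval z) ^ 2)) := by
    field_simp
    linear_combination hcr
  have e3 : (H * P + C l * U).eval z / (H * Q + C l * W).eval z -
      (H * P + C l * U).eval c / (H * Q + C l * W).eval c = l * Φ (l, z) := by
    rw [e1 z g2 g4, e1 c g3 hQ, hΦ]
    simp only
    have e4 : P.eval z / Q.eval z = P.eval c / Q.eval c + (z - c) * (wn P Q).eval z * g z := by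
      rw [← g6]; ring
    rw [e4, e2]
    ring
  rw [e3, norm_mul, mul_comm]
  exact mul_le_mul_of_nonneg_right g1.le (norm_nonneg _)

end

end Run7.h725
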