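import Pool.Agent.Run7.h725.C3Est
import Pool.Agent.Run7.h725.C4Soft

/-! Generic directions. -/

set_option autoImplicit false

open Topology Filter Metric Set Polynomial MeasureTheory Asymptotics
open scoped OnePoint

namespace Run7.h725

open Run7.h904.RF
open Pool.Agent.H790R3.RB (CV hF cr ND wr rt sp pr hc pol Sink Attd HypTop hF_smul hF_contDiff)
open Pool.Agent.H790R3.RB.PQ (hF_one hF_inf pol_natDegree)
open Pool.Agent.W757.QR Pool.Agent.W757.RF Pool.Agent.W757.Q2
open Pool.Agent.W29.RQSNK (sp_iter fin_of sp_fx sp_inf fx_iter_diff)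
open Pool.Agent.W29.RQAPP (pol_cd fx_cd iter_cd ne_nhds)
open Pool.Agent.R239.Fat (Hp Hp_eval Hp_ne Hp_root Hp_deriv deg pol_deg deg_hole mkv pol_mkv)

variable {d m : ℕ} {y : CV d} {q : Fin m → ℂ}

/-- the direction which does not change the map -/
noncomputable def V1 (m : ℕ) {d : ℕ} (y : CV d) : CV (m + d) := mkv (m + d) (pol y 0) (pol y 1)

lemma pol_V1 (m : ℕ) {d : ℕ} (y : CV d) : pol (V1 m y) 0 = pol y 0 ∧ pol (V1 m y) 1 = pol y 1 := by
  refine pol_mkv ?_ ?_
  · have := pol_natDegree y 0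
    omega
  · have := pol_natDegree y 1
    omega

lemma ev_cont {D : ℕ} (i : Fin 2) (z : ℂ) : Continuous fun V : CV D => (pol V i).eval z := by
  have h := (pol_cd (d := D) i 0).continuous
  exact h.comp (continuous_id.prodMk continuous_const)

lemma ev_lin {D : ℕ} (V V' : CV D) (l : ℂ) (i : Fin 2) (z : ℂ) :
    (pol (V + l • V') i).eval z = (pol V i).eval z + l * (pol V' i).eval z := by
  rw [pol_lin, eval_add, eval_mul, eval_C]

/-- almost every direction is transversal -/
lemma ae_tv (h : HG y q) : ∀ᵐ V : CV (m + d), Tv y q V := by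
  have key : ∀ j : Fin m, ∀ᵐ V : CV (m + d), (pol V 0).eval (q j) * (pol y 1).eval (q j) -
      (pol y 0).eval (q j) * (pol V 1).eval (q j) ≠ 0 := by
    intro j
    obtain ⟨V2, hV2⟩ : ∃ V2 : CV (m + d), V2 = mkv (m + d) 1 0 := ⟨_, rfl⟩
    obtain ⟨h0, h1⟩ : pol V2 0 = 1 ∧ pol V2 1 = 0 := by
      rw [hV2]
      exact pol_mkv (by simp) (by simp)
    obtain ⟨N, hN⟩ : ∃ N : CV (m + d) → ℂ, N = fun V => (pol V 0).eval (q j) *
      (pol y 1).eval (q j) - (pol y 0).eval (q j) * (pol V 1).eval (q j) := ⟨_, rfl⟩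
    have hNc : Continuous N := by
      rw [hN]
      exact ((ev_cont 0 _).mul continuous_const).sub (continuous_const.mul (ev_cont 1 _))
    have hS : MeasurableSet {V : CV (m + d) | N V ≠ 0} :=
      (isOpen_ne_fun hNc continuous_const).measurableSet
    have h2 := ae_mem_of_ae_add_linearMap_mem (LinearMap.toSpanSingleton ℂ (CV (m + d)) V2)
      (volume : Measure ℂ) (volume : Measure (CV (m + d))) hS (fun V => ?_)
    · rw [hN] at h2
      exact h2
    · have hQ := h.Q j
      have h3 : {s : ℂ | ¬ V + (LinearMap.toSpanSingleton ℂ (CV (m + d)) V2) s ∈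
          {V : CV (m + d) | N V ≠ 0}} ⊆ {-(N V) / (pol y 1).eval (q j)} := by
        intro s hs
        rw [mem_ofPred_eq, mem_ofPred_eq, not_not, LinearMap.toSpanSingleton_apply] at hs
        have h4 : N (V + s • V2) = N V + s * (pol y 1).eval (q j) := by
          rw [hN]
          simp only
          rw [ev_lin, ev_lin, h0, h1]
          simp only [eval_one, eval_zero]
          ring
        rw [h4] at hs
        rw [mem_singleton_iff, eq_div_iff hQ]
        linear_combination hs
      rw [ae_iff]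
      exact measure_mono_null h3 (measure_singleton _)
  rw [← eventually_countable_forall] at key
  exact key

/-- almost every direction leads to good points -/
theorem ae_ratio (h : HG y q) (j : Fin m) (Λ : CV (m + d) →L[ℂ] ℂ) (hΛ : Λ (V1 m y) = 0) :
    ∀ᵐ V : CV (m + d), (pol V 0).eval (q j) * (pol y 1).eval (q j) -
      (pol y 0).eval (q j) * (pol V 1).eval (q j) ≠ 0 →
      Λ V * (pol y 1).eval (q j) + (pol V 1).eval (q j) ≠ 0 ∧
      (Λ V * (pol y 0).eval (q j) + (pol V 0).eval (q j)) /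
        (Λ V * (pol y 1).eval (q j) + (pol V 1).eval (q j)) ∈ Gp y q := by
  obtain ⟨p0, hp0⟩ : ∃ p0, p0 = (pol y 0).eval (q j) := ⟨_, rfl⟩
  obtain ⟨q0, hq0⟩ : ∃ q0, q0 = (pol y 1).eval (q j) := ⟨_, rfl⟩
  have hQ : q0 ≠ 0 := by rw [hq0]; exact h.Q j
  obtain ⟨N, hN⟩ : ∃ N : CV (m + d) → ℂ, N = fun V => (pol V 0).eval (q j) * q0 -
    p0 * (pol V 1).eval (q j) := ⟨_, rfl⟩
  obtain ⟨A, hA⟩ : ∃ A : CV (m + d) → ℂ, A = fun V => Λ V * p0 + (pol V 0).eval (q j) := ⟨_, rfl⟩
  obtain ⟨B, hB⟩ : ∃ B : CV (m + d) → ℂ, B = fun V => Λ V * q0 + (pol V 1).eval (q j) := ⟨_, rfl⟩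
  have hNc : Continuous N := by
    rw [hN]
    exact ((ev_cont 0 _).mul continuous_const).sub (continuous_const.mul (ev_cont 1 _))
  have hAc : Continuous A := by
    rw [hA]
    exact (Λ.continuous.mul continuous_const).add (ev_cont 0 _)
  have hBc : Continuous B := by
    rw [hB]
    exact (Λ.continuous.mul continuous_const).add (ev_cont 1 _)
  have hNAB : ∀ V, N V = A V * q0 - p0 * B V := by
    intro V
    rw [hN, hA, hB]
    simp only
    ring
  obtain ⟨hv0, hv1⟩ := pol_V1 m y
  have hAs : ∀ V (s : ℂ), A (V + s • V1 m y) = A V + s * p0 := by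
    intro V s
    rw [hA]
    simp only
    rw [map_add, map_smul, hΛ, ev_lin, hv0, ← hp0, smul_zero, add_zero]
    ring
  have hBs : ∀ V (s : ℂ), B (V + s • V1 m y) = B V + s * q0 := by
    intro V s
    rw [hB]
    simp only
    rw [map_add, map_smul, hΛ, ev_lin, hv1, ← hq0, smul_zero, add_zero]
    ring
  have hNs : ∀ V (s : ℂ), N (V + s • V1 m y) = N V := by
    intro V s
    rw [hNAB, hNAB, hAs, hBs]
    ring
  have hS : MeasurableSet {V : CV (m + d) | N V ≠ 0 → B V ≠ 0 ∧ A V / B V ∈ Gp y q} := by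
    have h1 : MeasurableSet {V : CV (m + d) | N V ≠ 0} :=
      (isOpen_ne_fun hNc continuous_const).measurableSet
    have h2 : MeasurableSet {V : CV (m + d) | B V ≠ 0} :=
      (isOpen_ne_fun hBc continuous_const).measurableSet
    have h3 : MeasurableSet {V : CV (m + d) | A V / B V ∈ Gp y q} :=
      (hAc.measurable.div hBc.measurable) gp_open.measurableSet
    have e : {V : CV (m + d) | N V ≠ 0 → B V ≠ 0 ∧ A V / B V ∈ Gp y q} =
        {V : CV (m + d) | N V ≠ 0}ᶜ ∪ ({V : CV (m + d) | B V ≠ 0} ∩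
          {V : CV (m + d) | A V / B V ∈ Gp y q}) := by
      ext V
      simp only [mem_ofPred_eq, mem_union, mem_compl_iff, mem_inter_iff]
      tauto
    rw [e]
    exact h1.compl.union (h2.inter h3)
  have h2 := ae_mem_of_ae_add_linearMap_mem (LinearMap.toSpanSingleton ℂ (CV (m + d)) (V1 m y))
    (volume : Measure ℂ) (volume : Measure (CV (m + d))) hS (fun V => ?_)
  · filter_upwards [h2] with V hV hNV
    rw [hN, hA, hB, hp0, hq0] at hV
    exact hV hNV
  · by_cases hNV : N V = 0
    · refine Eventually.of_forall fun s => ?_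
      rw [mem_ofPred_eq, LinearMap.toSpanSingleton_apply, hNs]
      exact fun h0 => absurd hNV h0
    · have h3 : {s : ℂ | ¬ V + (LinearMap.toSpanSingleton ℂ (CV (m + d)) (V1 m y)) s ∈
          {V : CV (m + d) | N V ≠ 0 → B V ≠ 0 ∧ A V / B V ∈ Gp y q}} ⊆
          {-(B V) / q0} ∪ (fun ρ : ℂ => (A V - ρ * B V) / (ρ * q0 - p0)) ''
            ((Gp y q)ᶜ ∩ {ρ : ℂ | ρ * q0 - p0 ≠ 0}) := by
        intro s hs
        rw [mem_ofPred_eq, mem_ofPred_eq, LinearMap.toSpanSingleton_apply, hNs, hAs, hBs] at hs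
        push Not at hs
        obtain ⟨-, hs⟩ := hs
        by_cases h4 : B V + s * q0 = 0
        · left
          rw [mem_singleton_iff, eq_div_iff hQ]
          linear_combination h4
        · right
          have h5 : (A V + s * p0) / (B V + s * q0) * q0 - p0 = N V / (B V + s * q0) := by
            rw [hNAB]
            field_simp
            ring
          refine ⟨(A V + s * p0) / (B V + s * q0), ⟨hs h4, ?_⟩, ?_⟩
          · rw [mem_ofPred_eq, h5]
            exact div_ne_zero hNV h4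
          · show (A V - (A V + s * p0) / (B V + s * q0) * B V) /
              ((A V + s * p0) / (B V + s * q0) * q0 - p0) = s
            rw [h5, div_eq_iff (div_ne_zero hNV h4), hNAB]
            field_simp
            ring
      rw [ae_iff]
      refine measure_mono_null h3 (measure_union_null (measure_singleton _) ?_)
      apply addHaar_image_eq_zero_of_differentiableOn_of_addHaar_eq_zero
      · intro ρ hρ
        have h4 : ρ * q0 - p0 ≠ 0 := hρ.2
        have h5 : DifferentiableAt ℂ (fun ρ : ℂ => (A V - ρ * B V) / (ρ * q0 - p0)) ρ := by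
          refine DifferentiableAt.div (by fun_prop) (by fun_prop) h4
        exact (h5.restrictScalars ℝ).differentiableWithinAt
      · exact measure_mono_null inter_subset_left h.gp_null

/-- a critical point which hits the hole `q j` at the time `n` -/
structure Hit {d m : ℕ} (y : CV d) (q : Fin m → ℂ) (c₀ : ℂ) (n : ℕ) (j : Fin m) : Prop where
  crt : (c₀ : OnePoint ℂ) ∈ Crt y
  pos : 0 < n
  hit : (sp y)^[n] (c₀ : OnePoint ℂ) = ((q j : ℂ) : OnePoint ℂ)

lemma Hit.fin' {c₀ : ℂ} {n : ℕ} {j : Fin m} (hc : Hit y q c₀ n j) (h : HG y q) : Fin' y c₀ := by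
  apply fin_of
  intro k hk
  rcases lt_or_ge k n with h1 | h1
  · apply h.inf (n - k) j
    rw [← hk, ← Function.iterate_add_apply]
    have e : n - k + k = n := by omega
    rw [e]
    exact hc.hit
  · apply h.fin j (k - n)
    rw [← hc.hit, ← Function.iterate_add_apply]
    have e : k - n + n = k := by omega
    rw [e]
    exact hk

lemma Hit.orb {c₀ : ℂ} {n : ℕ} {j : Fin m} (hc : Hit y q c₀ n j) (h : HG y q) (k : ℕ) :
    (sp y)^[k] (c₀ : OnePoint ℂ) = (((fx y)^[k] c₀ : ℂ) : OnePoint ℂ) :=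
  sp_iter y c₀ k fun i _ => hc.fin' h i

lemma Hit.nh {c₀ : ℂ} {n : ℕ} {j : Fin m} (hc : Hit y q c₀ n j) (h : HG y q) {i : ℕ} (hi : i < n) :
    (Hp q).eval ((fx y)^[i] c₀) ≠ 0 := by
  apply Hp_ne
  intro j' he
  have h1 := (h.self j' j (n - i) (by omega) (by
    rw [← he, ← hc.orb h, ← Function.iterate_add_apply]
    have e : n - i + i = n := by omega
    rw [e]
    exact hc.hit)).1
  apply h1
  rw [← he, ← hc.orb h]
  exact atE_fwn (atE_of (h.hc.crit _ hc.crt)) i

lemma Hit.eq {c₀ : ℂ} {n : ℕ} {j : Fin m} (hc : Hit y q c₀ n j) (h : HG y q) :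
    (fx y)^[n] c₀ = q j := by
  have h1 := hc.hit
  rw [hc.orb h] at h1
  exact OnePoint.coe_injective h1

lemma fx_deg {z : ℂ} (hz : (Hp q).eval z ≠ 0) : fx (deg y q) z = fx y z := by
  unfold fx fr nu de
  rw [(pol_deg y q).1, (pol_deg y q).2, eval_mul, eval_mul, mul_div_mul_left _ _ hz]

lemma Hit.orbd {c₀ : ℂ} {n : ℕ} {j : Fin m} (hc : Hit y q c₀ n j) (h : HG y q) :
    ∀ k ≤ n, (fx (deg y q))^[k] c₀ = (fx y)^[k] c₀ := by
  intro k
  induction k with
  | zero => intro _; rfl
  | succ k ih =>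
    intro hk
    rw [Function.iterate_succ_apply', Function.iterate_succ_apply', ih (by omega)]
    exact fx_deg (hc.nh h (by omega))

lemma Hit.dne {c₀ : ℂ} {n : ℕ} {j : Fin m} (hc : Hit y q c₀ n j) (h : HG y q) :
    ∀ i < n, (de (deg y q)).eval ((fx (deg y q))^[i] c₀) ≠ 0 := by
  intro i hi
  rw [hc.orbd h i hi.le]
  show (pol (deg y q) 1).eval _ ≠ 0
  rw [(pol_deg y q).2, eval_mul]
  exact mul_ne_zero (hc.nh h hi) (hc.fin' h i)

/-- the derivative with respect to the map of the image of `c₀` -/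
noncomputable def Lf {d m : ℕ} (y : CV d) (q : Fin m → ℂ) (c₀ : ℂ) (n : ℕ) :
    CV (m + d) →L[ℂ] ℂ :=
  (fderiv ℂ (fun p : CV (m + d) × ℂ => (fx p.1)^[n] p.2) (deg y q, c₀)).comp
    (ContinuousLinearMap.inl ℂ (CV (m + d)) ℂ)

lemma Hit.deriv {c₀ : ℂ} {n : ℕ} {j : Fin m} (hc : Hit y q c₀ n j) (h : HG y q) (V : CV (m + d)) :
    HasDerivAt (fun l : ℂ => (fx (deg y q + l • V))^[n] c₀) (Lf y q c₀ n V) 0 := by
  have h1 : DifferentiableAt ℂ (fun p : CV (m + d) × ℂ => (fx p.1)^[n] p.2)
      (deg y q + (0 : ℂ) • V, c₀) := by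
    rw [zero_smul, add_zero]
    exact (iter_cd 1 n (deg y q, c₀) (hc.dne h)).differentiableAt one_ne_zero
  have h2 : HasDerivAt (fun l : ℂ => ((deg y q + l • V, c₀) : CV (m + d) × ℂ)) (V, 0) 0 := by
    have h3 : HasDerivAt (fun l : ℂ => deg y q + l • V) V 0 := by
      have h4 := ((hasDerivAt_id (0 : ℂ)).smul_const V).const_add (deg y q)
      rw [one_smul] at h4
      exact h4
    exact h3.prodMk (hasDerivAt_const (0 : ℂ) c₀)
  have h3 := h1.hasFDerivAt.comp_hasDerivAt (0 : ℂ) h2
  rw [zero_smul, add_zero] at h3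
  exact h3

/-- the direction `V1` does not change the orbits -/
lemma Hit.lf_V1 {c₀ : ℂ} {n : ℕ} {j : Fin m} (hc : Hit y q c₀ n j) (h : HG y q) :
    Lf y q c₀ n (V1 m y) = 0 := by
  have h1 := hc.deriv h (V1 m y)
  have h2 : ∀ᶠ l in 𝓝 (0 : ℂ), ∀ i ∈ Finset.range n, (Hp q).eval ((fx y)^[i] c₀) + l ≠ 0 := by
    rw [Finset.eventually_all]
    intro i hi
    rw [Finset.mem_range] at hi
    have h3 : Continuous fun l : ℂ => (Hp q).eval ((fx y)^[i] c₀) + l := by fun_prop
    refine h3.continuousAt.eventually_ne ?_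
    rw [add_zero]
    exact hc.nh h hi
  have h3 : (fun l : ℂ => (fx (deg y q + l • V1 m y))^[n] c₀) =ᶠ[𝓝 0] fun _ => q j := by
    filter_upwards [h2] with l hl
    have key : ∀ k ≤ n, (fx (deg y q + l • V1 m y))^[k] c₀ = (fx y)^[k] c₀ := by
      intro k
      induction k with
      | zero => intro _; rfl
      | succ k ih =>
        intro hk
        rw [Function.iterate_succ_apply', Function.iterate_succ_apply', ih (by omega)]
        have h4 := hl k (Finset.mem_range.2 (by omega))
        unfold fx fr nu de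
        rw [pol_lin, pol_lin, (pol_deg y q).1, (pol_deg y q).2, (pol_V1 m y).1, (pol_V1 m y).2]
        simp only [eval_add, eval_mul, eval_C]
        rw [← add_mul, ← add_mul]
        exact mul_div_mul_left _ _ h4
    rw [key n le_rfl]
    exact hc.eq h
  exact (h1.congr_of_eventuallyEq h3.symm).unique (hasDerivAt_const 0 (q j))

end Run7.h725
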