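import Pool.Agent.Run7.h725.C5Ae

/-! Critical points whose orbits hit a hole. -/

set_option autoImplicit false

open Topology Filter Metric Set Polynomial MeasureTheory Asymptotics
open scoped OnePoint

namespace Run7.h725

open Run7.h904.RF
open Pool.Agent.H790R3.RB (CV hF cr ND wr rt sp pr hc pol Sink Attd HypTop hF_smul hF_contDiff)
open Pool.Agent.H790R3.RB.PQ (hF_one hF_inf pol_natDegree)
open Pool.Agent.W757.QR Pool.Agent.W757.RF Pool.Agent.W757.Q2
open Pool.Agent.W29.RQSNK (sp_iter fin_of sp_fx sp_inf fx_iter_diff)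
open Pool.Agent.W29.RQAPP (pol_cd fx_cd iter_cd ne_nhds)
open Pool.Agent.R239.Fat (Hp Hp_eval Hp_ne Hp_root Hp_deriv deg pol_deg deg_hole mkv pol_mkv)

variable {d m : ℕ} {y : CV d} {q : Fin m → ℂ}

lemma lin_eq (y : CV d) (q : Fin m → ℂ) (V : CV (m + d)) (l : ℂ) :
    nu (deg y q + l • V) = Hp q * pol y 0 + C l * pol V 0 ∧
      de (deg y q + l • V) = Hp q * pol y 1 + C l * pol V 1 := by
  unfold nu de
  rw [pol_lin, pol_lin, (pol_deg y q).1, (pol_deg y q).2]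
  exact ⟨rfl, rfl⟩

/-- the first image of a critical point near a critical point -/
lemma Hit.first {c₀ : ℂ} {n : ℕ} {j : Fin m} (hc : Hit y q c₀ n j) (h : HG y q) (V : CV (m + d))
    {ε : ℝ} (hε : 0 < ε) :
    ∀ᶠ p : ℂ × ℂ in 𝓝 (0, c₀),
      (wn (nu (deg y q + p.1 • V)) (de (deg y q + p.1 • V))).eval p.2 = 0 →
      ‖fx (deg y q + p.1 • V) p.2 - fx (deg y q + p.1 • V) c₀‖ ≤ ε * ‖p.1‖ := by
  have h1 := crit_soft (P := pol y 0) (Q := pol y 1) (U := pol V 0) (W := pol V 1) (H := Hp q)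
    (c := c₀) (hc.nh h hc.pos) (hc.fin' h 0) (Pool.Agent.W440.RE.GENM.wn_ne h.hc.hd y h.hc.hx) hε
  filter_upwards [h1] with p hp hcr
  unfold fx fr
  rw [(lin_eq y q V p.1).1, (lin_eq y q V p.1).2] at hcr ⊢
  exact hp hcr

/-- critical points whose orbits hit a hole -/
theorem Hit.main {c₀ : ℂ} {n : ℕ} {j : Fin m} (hc : Hit y q c₀ n j) (h : HG y q) (V : CV (m + d))
    (hB : (derivative (Hp q)).eval (q j) * Lf y q c₀ n V * (pol y 1).eval (q j) +
      (pol V 1).eval (q j) ≠ 0)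
    (hG : ((derivative (Hp q)).eval (q j) * Lf y q c₀ n V * (pol y 0).eval (q j) +
      (pol V 0).eval (q j)) / ((derivative (Hp q)).eval (q j) * Lf y q c₀ n V *
        (pol y 1).eval (q j) + (pol V 1).eval (q j)) ∈ Gp y q) :
    ∀ᶠ p : ℂ × ℂ in 𝓝 (0, c₀), p.1 ≠ 0 → ND (deg y q + p.1 • V) →
      (wn (nu (deg y q + p.1 • V)) (de (deg y q + p.1 • V))).eval p.2 = 0 →
      Attd (sp (deg y q + p.1 • V)) ((p.2 : ℂ) : OnePoint ℂ) := by
  have hD : 2 ≤ m + d := by have := h.hc.hd; omega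
  obtain ⟨F, hF⟩ : ∃ F : Filter (ℂ × ℂ), F = 𝓝 (0, c₀) ⊓ 𝓟 {p : ℂ × ℂ | p.1 ≠ 0 ∧
    (wn (nu (deg y q + p.1 • V)) (de (deg y q + p.1 • V))).eval p.2 = 0} := ⟨_, rfl⟩
  have hFle : F ≤ 𝓝 (0, c₀) := by rw [hF]; exact inf_le_left
  have hF0 : ∀ᶠ p : ℂ × ℂ in F, p.1 ≠ 0 ∧
      (wn (nu (deg y q + p.1 • V)) (de (deg y q + p.1 • V))).eval p.2 = 0 := by
    rw [hF]
    exact eventually_inf_principal.2 (Eventually.of_forall fun p hp => hp)
  have hf1 : Tendsto (fun p : ℂ × ℂ => p.1) F (𝓝[≠] 0) := by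
    refine tendsto_nhdsWithin_iff.2 ⟨(continuous_fst.tendsto ((0 : ℂ), c₀)).mono_left hFle, ?_⟩
    exact hF0.mono fun p hp => hp.1
  have hX : Tendsto (fun p : ℂ × ℂ => deg y q + p.1 • V) F (𝓝 (deg y q)) :=
    (line_cont (deg y q) V).comp (hf1.mono_right nhdsWithin_le_nhds)
  have hz : Tendsto (fun p : ℂ × ℂ => p.2) F (𝓝 c₀) :=
    (continuous_snd.tendsto ((0 : ℂ), c₀)).mono_left hFle
  obtain ⟨n', rfl⟩ : ∃ n', n = n' + 1 := ⟨n - 1, by have := hc.pos; omega⟩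
  -- the orbit of the fixed point
  have T1 : Tendsto (fun p : ℂ × ℂ => ((fx (deg y q + p.1 • V))^[n' + 1] c₀ - q j) / p.1) F
      (𝓝 (Lf y q c₀ (n' + 1) V)) := by
    have h1 := (hasDerivAt_iff_tendsto_slope_zero.1 (hc.deriv h V)).comp hf1
    refine h1.congr fun p => ?_
    simp only [Function.comp, zero_add, zero_smul, add_zero, smul_eq_mul]
    rw [hc.orbd h (n' + 1) le_rfl, hc.eq h, mul_comm, div_eq_mul_inv]
  -- the difference
  have T2 : Tendsto (fun p : ℂ × ℂ => ((fx (deg y q + p.1 • V))^[n' + 1] p.2 -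
      (fx (deg y q + p.1 • V))^[n' + 1] c₀) / p.1) F (𝓝 0) := by
    have hcd : ContDiffAt ℂ 1 (fun p : CV (m + d) × ℂ => (fx p.1)^[n'] p.2)
        (deg y q, fx (deg y q) c₀) := by
      apply iter_cd
      intro i hi
      show (de (deg y q)).eval ((fx (deg y q))^[i] (fx (deg y q) c₀)) ≠ 0
      rw [← Function.iterate_succ_apply]
      exact hc.dne h (i + 1) (by omega)
    obtain ⟨K, t, ht, hK⟩ := hcd.exists_lipschitzOnWith
    have hfc : ContinuousAt (fun p : CV (m + d) × ℂ => fx p.1 p.2) (deg y q, c₀) :=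
      (fx_cd 1 (deg y q, c₀) (hc.dne h 0 (by omega))).continuousAt
    have m1 : ∀ᶠ p : ℂ × ℂ in F, (deg y q + p.1 • V, fx (deg y q + p.1 • V) p.2) ∈ t := by
      have h1 : Tendsto (fun p : ℂ × ℂ => (deg y q + p.1 • V, fx (deg y q + p.1 • V) p.2)) F
          (𝓝 (deg y q, fx (deg y q) c₀)) := by
        have h2 : Tendsto (fun p : ℂ × ℂ => (deg y q + p.1 • V, p.2)) F (𝓝 (deg y q, c₀)) := by
          rw [nhds_prod_eq]; exact hX.prodMk hz
        have h3 := hfc.tendsto.comp h2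
        rw [nhds_prod_eq]
        exact hX.prodMk h3
      exact h1.eventually ht
    have m2 : ∀ᶠ p : ℂ × ℂ in F, (deg y q + p.1 • V, fx (deg y q + p.1 • V) c₀) ∈ t := by
      have h1 : Tendsto (fun p : ℂ × ℂ => (deg y q + p.1 • V, fx (deg y q + p.1 • V) c₀)) F
          (𝓝 (deg y q, fx (deg y q) c₀)) := by
        have h2 : Tendsto (fun p : ℂ × ℂ => (deg y q + p.1 • V, c₀)) F (𝓝 (deg y q, c₀)) := by
          rw [nhds_prod_eq]; exact hX.prodMk tendsto_const_nhds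
        have h3 := hfc.tendsto.comp h2
        rw [nhds_prod_eq]
        exact hX.prodMk h3
      exact h1.eventually ht
    rw [Metric.tendsto_nhds]
    intro ε hε
    have hε' : 0 < ε / (2 * (K + 1)) := by positivity
    have h1 := (hc.first h V hε').filter_mono hFle
    filter_upwards [h1, m1, m2, hF0] with p g1 g2 g3 g4
    rw [dist_zero_right, norm_div, div_lt_iff₀ (norm_pos_iff.2 g4.1)]
    have g5 := hK.dist_le_mul _ g2 _ g3
    rw [dist_eq_norm, dist_eq_norm] at g5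
    have g6 : ‖((deg y q + p.1 • V, fx (deg y q + p.1 • V) p.2) : CV (m + d) × ℂ) -
        (deg y q + p.1 • V, fx (deg y q + p.1 • V) c₀)‖ =
        ‖fx (deg y q + p.1 • V) p.2 - fx (deg y q + p.1 • V) c₀‖ := by
      rw [Prod.mk_sub_mk, sub_self, Prod.norm_mk, norm_zero, max_eq_right (norm_nonneg _)]
    rw [g6] at g5
    rw [Function.iterate_succ_apply, Function.iterate_succ_apply]
    refine (g5.trans (mul_le_mul_of_nonneg_left (g1 g4.2) K.2)).trans_lt ?_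
    have g7 : 0 < ‖p.1‖ := norm_pos_iff.2 g4.1
    have g8 : (K : ℝ) * (ε / (2 * (K + 1)) * ‖p.1‖) = (K / (K + 1)) * (ε / 2 * ‖p.1‖) := by
      field_simp
    rw [g8]
    have hK0 : (0 : ℝ) ≤ K := K.2
    have g9 : (K : ℝ) / (K + 1) ≤ 1 := by
      rw [div_le_one (by positivity)]
      linarith
    have g10 : (K / (K + 1)) * (ε / 2 * ‖p.1‖) ≤ 1 * (ε / 2 * ‖p.1‖) := by gcongr
    nlinarith
  have T3 : Tendsto (fun p : ℂ × ℂ => ((fx (deg y q + p.1 • V))^[n' + 1] p.2 - q j) / p.1) F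
      (𝓝 (Lf y q c₀ (n' + 1) V)) := by
    have h1 := T2.add T1
    rw [zero_add] at h1
    refine h1.congr fun p => ?_
    rw [← add_div, sub_add_sub_cancel]
  have T4 : Tendsto (fun p : ℂ × ℂ => (fx (deg y q + p.1 • V))^[n' + 1] p.2) F (𝓝 (q j)) := by
    have h1 : ContinuousAt (fun p : CV (m + d) × ℂ => (fx p.1)^[n' + 1] p.2) (deg y q, c₀) :=
      (iter_cd 1 (n' + 1) (deg y q, c₀) (hc.dne h)).continuousAt
    have h2 : Tendsto (fun p : ℂ × ℂ => (deg y q + p.1 • V, p.2)) F (𝓝 (deg y q, c₀)) := by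
      rw [nhds_prod_eq]; exact hX.prodMk hz
    have h3 := h1.tendsto.comp h2
    have e : (fx (deg y q))^[n' + 1] c₀ = q j := by
      rw [hc.orbd h (n' + 1) le_rfl, hc.eq h]
    simp only [e] at h3
    exact h3
  -- the value
  obtain ⟨K, hK⟩ : ∃ K : ℂ[X], Hp q = (X - C (q j)) * K := dvd_iff_isRoot.2 (Hp_root q j)
  have hKd : (derivative (Hp q)).eval (q j) = K.eval (q j) := by
    rw [hK]
    simp
  have T5 : Tendsto (fun p : ℂ × ℂ => (Hp q).eval ((fx (deg y q + p.1 • V))^[n' + 1] p.2) / p.1) F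
      (𝓝 ((derivative (Hp q)).eval (q j) * Lf y q c₀ (n' + 1) V)) := by
    have h1 := ((K.continuous.tendsto _).comp T4).mul T3
    rw [hKd]
    refine h1.congr fun p => ?_
    simp only [Function.comp]
    rw [hK, eval_mul, eval_sub, eval_X, eval_C]
    ring
  have hev : ∀ R : ℂ[X], Tendsto (fun p : ℂ × ℂ =>
      R.eval ((fx (deg y q + p.1 • V))^[n' + 1] p.2)) F (𝓝 (R.eval (q j))) := fun R =>
    (R.continuous.tendsto _).comp T4
  have T6 := (T5.mul (hev (pol y 1))).add (hev (pol V 1))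
  have T7 := (T5.mul (hev (pol y 0))).add (hev (pol V 0))
  have T8 := T7.div T6 hB
  obtain ⟨O, hO, hOx⟩ := hG
  have e1 : ∀ᶠ p : ℂ × ℂ in F, ((Hp q).eval ((fx (deg y q + p.1 • V))^[n' + 1] p.2) / p.1 *
      (pol y 0).eval ((fx (deg y q + p.1 • V))^[n' + 1] p.2) +
      (pol V 0).eval ((fx (deg y q + p.1 • V))^[n' + 1] p.2)) /
      ((Hp q).eval ((fx (deg y q + p.1 • V))^[n' + 1] p.2) / p.1 *
      (pol y 1).eval ((fx (deg y q + p.1 • V))^[n' + 1] p.2) +
      (pol V 1).eval ((fx (deg y q + p.1 • V))^[n' + 1] p.2)) ∈ O := T8.eventually hO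
  have e2 := T6.eventually_ne hB
  have e3 := hX.eventually hOx
  have e4 : ∀ᶠ p : ℂ × ℂ in F, ∀ i < n' + 1, (de (deg y q + p.1 • V)).eval
      ((fx (deg y q + p.1 • V))^[i] p.2) ≠ 0 := by
    have h2 : Tendsto (fun p : ℂ × ℂ => (deg y q + p.1 • V, p.2)) F (𝓝 (deg y q, c₀)) := by
      rw [nhds_prod_eq]; exact hX.prodMk hz
    exact h2.eventually (ne_nhds (n' + 1) (deg y q, c₀) (hc.dne h))
  have hfin : ∀ᶠ p : ℂ × ℂ in F, ND (deg y q + p.1 • V) →
      Attd (sp (deg y q + p.1 • V)) ((p.2 : ℂ) : OnePoint ℂ) := by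
    filter_upwards [e1, e2, e3, e4, hF0] with p g1 g2 g3 g4 g5 hnd
    apply Pool.Agent.W376.RQTRAP.attd_of_iter (sp_cont hD _ hnd) (m := n' + 1 + 1)
    rw [Function.iterate_succ_apply', sp_iter _ p.2 (n' + 1) g4]
    obtain ⟨u, hu⟩ : ∃ u, u = (fx (deg y q + p.1 • V))^[n' + 1] p.2 := ⟨_, rfl⟩
    rw [← hu] at g1 g2 ⊢
    have ev : ∀ R S : ℂ[X], (Hp q * R + C p.1 * S).eval u =
        p.1 * ((Hp q).eval u / p.1 * R.eval u + S.eval u) := by
      intro R S
      simp only [eval_add, eval_mul, eval_C]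
      have := g5.1
      field_simp
    have hde : (de (deg y q + p.1 • V)).eval u ≠ 0 := by
      rw [(lin_eq y q V p.1).2, ev]
      exact mul_ne_zero g5.1 g2
    rw [sp_fx _ u hde]
    have hval : fx (deg y q + p.1 • V) u = ((Hp q).eval u / p.1 * (pol y 0).eval u +
        (pol V 0).eval u) / ((Hp q).eval u / p.1 * (pol y 1).eval u + (pol V 1).eval u) := by
      unfold fx fr
      rw [(lin_eq y q V p.1).1, (lin_eq y q V p.1).2, ev, ev, mul_div_mul_left _ _ g5.1]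
    rw [hval]
    exact g3 hnd _ g1
  rw [hF, eventually_inf_principal] at hfin
  filter_upwards [hfin] with p hp h1 h2 h3
  exact hp ⟨h1, h3⟩ h2

end Run7.h725
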