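import Pool.Agent.Run7.h725.C6Hit

/-! The maps on generic complex lines. -/

set_option autoImplicit false

open Topology Filter Metric Set Polynomial MeasureTheory Asymptotics
open scoped OnePoint

namespace Run7.h725

open Run7.h904.RF
open Pool.Agent.H790R3.RB (CV hF cr ND wr rt sp pr hc pol Sink Attd HypTop hF_smul hF_contDiff)
open Pool.Agent.H790R3.RB.PQ (hF_one hF_inf pol_natDegree)
open Pool.Agent.W757.QR Pool.Agent.W757.RF Pool.Agent.W757.Q2
open Pool.Agent.W29.RQSNK (sp_iter fin_of sp_fx sp_inf fx_iter_diff)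
open Pool.Agent.R239.Fat (Hp Hp_eval Hp_ne Hp_root Hp_monic deg pol_deg deg_hole mkv pol_mkv
  pol_eval_cont pol_deriv_cont)

variable {d m : ℕ} {y : CV d} {q : Fin m → ℂ}

/-- generic directions -/
structure Dr {d m : ℕ} (y : CV d) (q : Fin m → ℂ) (V : CV (m + d)) : Prop where
  tv : Tv y q V
  w : ∀ j, (pol V 1).eval (q j) ≠ 0 ∧ (pol V 0).eval (q j) / (pol V 1).eval (q j) ∈ Gp y q
  hit : ∀ (c₀ : ℂ) (n : ℕ) (j : Fin m), Hit y q c₀ n j →
    (derivative (Hp q)).eval (q j) * Lf y q c₀ n V * (pol y 1).eval (q j) +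
      (pol V 1).eval (q j) ≠ 0 ∧
    ((derivative (Hp q)).eval (q j) * Lf y q c₀ n V * (pol y 0).eval (q j) +
      (pol V 0).eval (q j)) / ((derivative (Hp q)).eval (q j) * Lf y q c₀ n V *
        (pol y 1).eval (q j) + (pol V 1).eval (q j)) ∈ Gp y q

/-- almost every direction is generic -/
theorem ae_dr (h : HG y q) : ∀ᵐ V : CV (m + d), Dr y q V := by
  have h1 := ae_tv h
  have h2 : ∀ᵐ V : CV (m + d), ∀ j : Fin m, (pol V 0).eval (q j) * (pol y 1).eval (q j) -
      (pol y 0).eval (q j) * (pol V 1).eval (q j) ≠ 0 →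
      (0 : CV (m + d) →L[ℂ] ℂ) V * (pol y 1).eval (q j) + (pol V 1).eval (q j) ≠ 0 ∧
      ((0 : CV (m + d) →L[ℂ] ℂ) V * (pol y 0).eval (q j) + (pol V 0).eval (q j)) /
        ((0 : CV (m + d) →L[ℂ] ℂ) V * (pol y 1).eval (q j) + (pol V 1).eval (q j)) ∈ Gp y q := by
    rw [eventually_countable_forall]
    exact fun j => ae_ratio h j 0 rfl
  have hcount : ({c₀ : ℂ | (c₀ : OnePoint ℂ) ∈ Crt y}).Countable :=
    (crt_finite h.hc.hd y h.hc.hx).countable.preimage OnePoint.coe_injective
  have h3 : ∀ᵐ V : CV (m + d), ∀ c₀ ∈ {c₀ : ℂ | (c₀ : OnePoint ℂ) ∈ Crt y}, ∀ (n : ℕ) (j : Fin m),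
      Hit y q c₀ n j → (pol V 0).eval (q j) * (pol y 1).eval (q j) -
        (pol y 0).eval (q j) * (pol V 1).eval (q j) ≠ 0 →
      ((derivative (Hp q)).eval (q j) • Lf y q c₀ n) V * (pol y 1).eval (q j) +
        (pol V 1).eval (q j) ≠ 0 ∧
      (((derivative (Hp q)).eval (q j) • Lf y q c₀ n) V * (pol y 0).eval (q j) +
        (pol V 0).eval (q j)) /
        (((derivative (Hp q)).eval (q j) • Lf y q c₀ n) V * (pol y 1).eval (q j) +
        (pol V 1).eval (q j)) ∈ Gp y q := by
    rw [ae_ball_iff hcount]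
    intro c₀ hc₀
    rw [eventually_countable_forall]
    intro n
    rw [eventually_countable_forall]
    intro j
    by_cases hH : Hit y q c₀ n j
    · have h4 := ae_ratio h j ((derivative (Hp q)).eval (q j) • Lf y q c₀ n) (by
        rw [ContinuousLinearMap.smul_apply, hH.lf_V1 h, smul_zero])
      filter_upwards [h4] with V hV _
      exact hV
    · exact Eventually.of_forall fun V h0 => absurd h0 hH
  filter_upwards [h1, h2, h3] with V g1 g2 g3
  refine ⟨g1, fun j => ?_, fun c₀ n j hH => ?_⟩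
  · have g4 := g2 j (g1 j)
    rw [ContinuousLinearMap.zero_apply, zero_mul, zero_add, zero_mul, zero_add] at g4
    exact g4
  · have g4 := g3 c₀ hH.crt n j hH (g1 j)
    rw [ContinuousLinearMap.smul_apply, smul_eq_mul] at g4
    exact g4

lemma ev_coe' {z : ℂ} {R : ℂ × OnePoint ℂ → Prop}
    (h : ∀ᶠ p : ℂ × ℂ in 𝓝 (0, z), R (p.1, ((p.2 : ℂ) : OnePoint ℂ))) :
    ∀ᶠ p : ℂ × OnePoint ℂ in 𝓝 (0, (z : OnePoint ℂ)), R p := by
  have h1 : IsOpenEmbedding (Prod.map (id : ℂ → ℂ) (fun z : ℂ => (z : OnePoint ℂ))) :=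
    IsOpenEmbedding.id.prodMap OnePoint.isOpenEmbedding_coe
  have h2 := h1.map_nhds_eq (0, z)
  simp only [Prod.map_apply, id_eq] at h2
  rw [← h2, eventually_map]
  exact h

/-- critical points near a hole in the Fatou set -/
theorem HG.fhole (h : HG y q) {V : CV (m + d)} (hV : Dr y q V) (j : Fin m) (hj : q j ∉ NA y) :
    ∀ᶠ p : ℂ × ℂ in 𝓝 (0, q j), p.1 ≠ 0 → ND (deg y q + p.1 • V) →
      (wn (nu (deg y q + p.1 • V)) (de (deg y q + p.1 • V))).eval p.2 = 0 →
      Attd (sp (deg y q + p.1 • V)) ((p.2 : ℂ) : OnePoint ℂ) := by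
  have hd := h.hc.hd
  have hD : 2 ≤ m + d := by omega
  obtain ⟨H₁, hH₁, hnd⟩ := (Hp q).exists_eq_pow_rootMultiplicity_mul_and_not_dvd
    (Hp_monic q).ne_zero (q j)
  obtain ⟨k, hk⟩ : ∃ k, (Hp q).rootMultiplicity (q j) = k + 1 := by
    refine Nat.exists_eq_succ_of_ne_zero ?_
    have : 0 < (Hp q).rootMultiplicity (q j) := by
      rw [rootMultiplicity_pos (Hp_monic q).ne_zero]
      exact Hp_root q j
    omega
  rw [hk] at hH₁
  have hH₁0 : H₁.eval (q j) ≠ 0 := fun h => hnd (dvd_iff_isRoot.2 h)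
  have hA : Attd (sp y) (((fx y (q j)) : ℂ) : OnePoint ℂ) := by
    rw [← sp_fx y (q j) (h.Q j)]
    have h1 : AtE y ((q j : ℂ) : OnePoint ℂ) := by
      by_contra h0
      exact hj h0
    exact attd_of_atE hd h.hc.hx (atE_fw h1)
  obtain ⟨O₁, hO₁, hx₁⟩ := h.pers hA (fun n i he => hj (h.self j i (n + 1) (Nat.succ_pos n) (by
    rw [Function.iterate_succ_apply, sp_fx y (q j) (h.Q j)]
    exact he)).1)
  obtain ⟨hw0, O₂, hO₂, hx₂⟩ := hV.w j
  have hO₁' : (fun z : ℂ => (z : OnePoint ℂ)) ⁻¹' O₁ ∈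
      𝓝 ((pol y 0).eval (q j) / (pol y 1).eval (q j)) :=
    OnePoint.continuous_coe.continuousAt.preimage_mem_nhds hO₁
  have h1 := hole_soft (k := k) (P := pol y 0) (Q := pol y 1) (U := pol V 0) (W := pol V 1)
    hH₁0 (h.Q j) hw0 (hV.tv j) hO₁' hO₂
  have hX : ∀ l : ℂ, nu (deg y q + l • V) = (X - C (q j)) ^ (k + 1) * H₁ * pol y 0 + C l * pol V 0 ∧
      de (deg y q + l • V) = (X - C (q j)) ^ (k + 1) * H₁ * pol y 1 + C l * pol V 1 := by
    intro l
    rw [(lin_eq y q V l).1, (lin_eq y q V l).2, hH₁]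
    exact ⟨rfl, rfl⟩
  have hXt : Tendsto (fun p : ℂ × ℂ => deg y q + p.1 • V) (𝓝 (0, q j)) (𝓝 (deg y q)) :=
    (line_cont (deg y q) V).comp (continuous_fst.tendsto ((0 : ℂ), q j))
  filter_upwards [h1, hXt.eventually hx₁, hXt.eventually hx₂] with p g1 g2 g3 hp0 hnd hcr
  rw [(hX p.1).1, (hX p.1).2] at hcr
  obtain ⟨g4, g5⟩ := g1 hp0 hcr
  apply Pool.Agent.W376.RQTRAP.attd_of_iter (sp_cont hD _ hnd) (m := 1)
  have hde : (de (deg y q + p.1 • V)).eval p.2 ≠ 0 := by rw [(hX p.1).2]; exact g4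
  rw [Function.iterate_one, sp_fx _ p.2 hde]
  have hval : fx (deg y q + p.1 • V) p.2 =
      ((X - C (q j)) ^ (k + 1) * H₁ * pol y 0 + C p.1 * pol V 0).eval p.2 /
      ((X - C (q j)) ^ (k + 1) * H₁ * pol y 1 + C p.1 * pol V 1).eval p.2 := by
    unfold fx fr
    rw [(hX p.1).1, (hX p.1).2]
  rw [hval]
  rcases g5 with g5 | g5
  · exact g2 hnd _ g5
  · exact g3 hnd _ g5

/-- classification of the critical points on a generic complex line -/
theorem HG.cls (h : HG y q) {V : CV (m + d)} (hV : Dr y q V) {δ : ℝ} (hδ : 0 < δ) :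
    ∀ᶠ l in 𝓝 (0 : ℂ), l ≠ 0 → ND (deg y q + l • V) → ∀ c ∈ Crt (deg y q + l • V),
      Attd (sp (deg y q + l • V)) c ∨
        ∃ j, q j ∈ NA y ∧ ∃ z ∈ ball (q j) δ, c = ((z : ℂ) : OnePoint ℂ) := by
  have hd := h.hc.hd
  have hline := line_cont (deg y q) V
  have key : ∀ s : OnePoint ℂ, ∀ᶠ p : ℂ × OnePoint ℂ in 𝓝 (0, s), p.1 ≠ 0 →
      ND (deg y q + p.1 • V) → p.2 ∈ Crt (deg y q + p.1 • V) →
      (Attd (sp (deg y q + p.1 • V)) p.2 ∨
        ∃ j, q j ∈ NA y ∧ ∃ z ∈ ball (q j) δ, p.2 = ((z : ℂ) : OnePoint ℂ)) := by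
    intro s₀
    have hA : Attd (sp y) s₀ → (∀ n j, (sp y)^[n] s₀ ≠ ((q j : ℂ) : OnePoint ℂ)) →
        ∀ᶠ p : ℂ × OnePoint ℂ in 𝓝 (0, s₀), p.1 ≠ 0 → ND (deg y q + p.1 • V) →
          p.2 ∈ Crt (deg y q + p.1 • V) → (Attd (sp (deg y q + p.1 • V)) p.2 ∨
        ∃ j, q j ∈ NA y ∧ ∃ z ∈ ball (q j) δ, p.2 = ((z : ℂ) : OnePoint ℂ)) := by
      intro h1 h2
      obtain ⟨O, hO, hx⟩ := h.pers h1 h2
      rw [nhds_prod_eq]
      filter_upwards [prod_mem_prod (hline.eventually hx) hO] with p hp _ hnd _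
      exact Or.inl (hp.1 hnd p.2 hp.2)
    induction s₀ using OnePoint.rec with
    | infty => exact hA h.hc.inf h.inf
    | coe z =>
      by_cases hz : ∃ j, z = q j
      · obtain ⟨j, rfl⟩ := hz
        by_cases hjN : q j ∈ NA y
        · have h1 : (fun w : ℂ => (w : OnePoint ℂ)) '' ball (q j) δ ∈ 𝓝 ((q j : ℂ) : OnePoint ℂ) :=
            OnePoint.isOpenEmbedding_coe.isOpenMap.image_mem_nhds (ball_mem_nhds _ hδ)
          rw [nhds_prod_eq]
          filter_upwards [prod_mem_prod univ_mem h1] with p hp _ _ _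
          obtain ⟨w, hw, hwp⟩ := hp.2
          exact Or.inr ⟨j, hjN, w, hw, hwp.symm⟩
        · apply ev_coe'
          filter_upwards [h.fhole hV j hjN] with p hp h1 h2 h3
          exact Or.inl (hp h1 h2 (crt_wn (by omega) _ p.2 h3))
      · push Not at hz
        by_cases hQz : (pol y 1).eval z = 0
        · refine hA ?_ ?_
          · apply Pool.Agent.W376.RQTRAP.attd_of_iter (sp_cont hd y h.hc.hx) (m := 1)
            rw [Function.iterate_one, sp_inf y z hQz]
            exact h.hc.inf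
          · intro n j
            rcases n with _ | n
            · intro he
              exact hz j (OnePoint.coe_injective he)
            · rw [Function.iterate_succ_apply, sp_inf y z hQz]
              exact h.inf n j
        · by_cases hcr : ((z : ℂ) : OnePoint ℂ) ∈ Crt y
          · by_cases hhit : ∃ n j, (sp y)^[n] ((z : ℂ) : OnePoint ℂ) = ((q j : ℂ) : OnePoint ℂ)
            · obtain ⟨n, j, hn⟩ := hhit
              have hn0 : 0 < n := by
                rcases Nat.eq_zero_or_pos n with h0 | h0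
                · rw [h0] at hn
                  exact absurd (OnePoint.coe_injective hn) (hz j)
                · exact h0
              have hH : Hit y q z n j := ⟨hcr, hn0, hn⟩
              obtain ⟨hB, hG⟩ := hV.hit z n j hH
              apply ev_coe'
              filter_upwards [hH.main h V hB hG] with p hp h1 h2 h3
              exact Or.inl (hp h1 h2 (crt_wn (by omega) _ p.2 h3))
            · push Not at hhit
              exact hA (h.hc.crit _ hcr) hhit
          · -- no critical points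
            have hW : (derivative (pol y 0)).eval z * (pol y 1).eval z -
                (pol y 0).eval z * (derivative (pol y 1)).eval z ≠ 0 := by
              intro h0
              apply hcr
              refine crt_of_notinj hd y h.hc.hx _ (notinj_fin y z hQz ?_)
              show (derivative (pol y 0) * pol y 1 - pol y 0 * derivative (pol y 1)).eval z = 0
              rw [eval_sub, eval_mul, eval_mul]
              exact h0
            obtain ⟨h0, h1⟩ := pol_deg y q
            have hHz : (Hp q).eval z ≠ 0 := Hp_ne hz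
            have e2 : ∀ᶠ p : CV (m + d) × ℂ in 𝓝 (deg y q, z),
                (derivative (pol p.1 0)).eval p.2 * (pol p.1 1).eval p.2 -
                  (pol p.1 0).eval p.2 * (derivative (pol p.1 1)).eval p.2 ≠ 0 := by
              refine (((pol_deriv_cont _ 0).mul (pol_eval_cont _ 1)).sub
                ((pol_eval_cont _ 0).mul (pol_deriv_cont _ 1))).continuousAt.eventually_ne ?_
              show (derivative (pol (deg y q) 0)).eval z * (pol (deg y q) 1).eval z -
                (pol (deg y q) 0).eval z * (derivative (pol (deg y q) 1)).eval z ≠ 0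
              rw [h0, h1, derivative_mul, derivative_mul, eval_add, eval_add, eval_mul, eval_mul,
                eval_mul, eval_mul, eval_mul, eval_mul]
              have h3 : ((derivative (Hp q)).eval z * (pol y 0).eval z +
                  (Hp q).eval z * (derivative (pol y 0)).eval z) *
                  ((Hp q).eval z * (pol y 1).eval z) -
                  (Hp q).eval z * (pol y 0).eval z * ((derivative (Hp q)).eval z *
                  (pol y 1).eval z + (Hp q).eval z * (derivative (pol y 1)).eval z) =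
                  (Hp q).eval z ^ 2 * ((derivative (pol y 0)).eval z * (pol y 1).eval z -
                  (pol y 0).eval z * (derivative (pol y 1)).eval z) := by ring
              rw [h3]
              exact mul_ne_zero (pow_ne_zero 2 hHz) hW
            apply ev_coe'
            have hXt : Tendsto (fun p : ℂ × ℂ => (deg y q + p.1 • V, p.2)) (𝓝 (0, z))
                (𝓝 (deg y q, z)) := by
              have h3 := (hline.comp (continuous_fst.tendsto ((0 : ℂ), z)))
              have h4 := h3.prodMk_nhds (continuous_snd.tendsto ((0 : ℂ), z))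
              exact h4
            filter_upwards [hXt.eventually e2] with p hp _ hnd hc
            exfalso
            apply hp
            have h4 := crt_wn (by omega) (deg y q + p.1 • V) p.2 hc
            have h5 : (derivative (pol (deg y q + p.1 • V) 0) * pol (deg y q + p.1 • V) 1 -
              pol (deg y q + p.1 • V) 0 * derivative (pol (deg y q + p.1 • V) 1)).eval p.2 = 0 := h4
            rw [eval_sub, eval_mul, eval_mul] at h5
            exact h5
  have hcr := isCompact_univ.eventually_forall_of_forall_eventually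
    (P := fun (l : ℂ) (s : OnePoint ℂ) => l ≠ 0 → ND (deg y q + l • V) →
      s ∈ Crt (deg y q + l • V) → (Attd (sp (deg y q + l • V)) s ∨
      ∃ j, q j ∈ NA y ∧ ∃ z ∈ ball (q j) δ, s = ((z : ℂ) : OnePoint ℂ))) (fun s _ => key s)
  filter_upwards [hcr] with l hl hl0 hnd c hc
  exact hl c (mem_univ c) hl0 hnd hc

/-- the area of the image under the square map -/
lemma sq_image {S : Set ℂ} (hS : MeasurableSet S) {ϱ : ℝ} (hSϱ : S ⊆ ball 0 ϱ) :
    volume ((fun ξ : ℂ => ξ ^ 2) '' S) ≤ ENNReal.ofReal (4 * ϱ ^ 2) * volume S := by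
  have h1 : ∀ ξ ∈ S, HasFDerivWithinAt (fun ξ : ℂ => ξ ^ 2)
      (((ContinuousLinearMap.toSpanSingleton ℂ (2 * ξ) : ℂ →L[ℂ] ℂ)).restrictScalars ℝ) S ξ := by
    intro ξ _
    have h2 : HasDerivAt (fun ξ : ℂ => ξ ^ 2) (2 * ξ) ξ := by
      have := hasDerivAt_pow 2 ξ
      simpa using this
    exact (h2.hasFDerivAt.restrictScalars ℝ).hasFDerivWithinAt
  refine (addHaar_image_le_lintegral_abs_det_fderiv volume hS h1).trans ?_
  have h2 : ∀ ξ ∈ S, ENNReal.ofReal |(((ContinuousLinearMap.toSpanSingleton ℂ (2 * ξ) :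
      ℂ →L[ℂ] ℂ)).restrictScalars ℝ).det| ≤ ENNReal.ofReal (4 * ϱ ^ 2) := by
    intro ξ hξ
    have e : (((ContinuousLinearMap.toSpanSingleton ℂ (2 * ξ) : ℂ →L[ℂ] ℂ)).restrictScalars ℝ).det =
        LinearMap.det (LinearMap.mulLeft ℝ (2 * ξ)) := by
      rw [ContinuousLinearMap.det]
      congr 1
      ext x
      simp
      ring
    rw [e, det_mul]
    apply ENNReal.ofReal_le_ofReal
    have h3 := mem_ball_zero_iff.1 (hSϱ hξ)
    rw [norm_mul, Complex.norm_ofNat]
    nlinarith [norm_nonneg ξ]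
  refine (setLIntegral_mono' hS h2).trans ?_
  rw [setLIntegral_const]

end Run7.h725
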