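import Pool.Agent.Run7.h725.D6Est

/-! Full density at the degenerate maps. -/

set_option autoImplicit false

open Topology Filter Metric Set Polynomial MeasureTheory Asymptotics
open scoped OnePoint

namespace Run7.h725

open Run7.h904.RF
open Pool.Agent.H790R3.RB (CV hF cr ND wr rt sp pr hc pol Sink Attd HypTop hF_smul hF_contDiff)
open Pool.Agent.H790R3.RB.PQ (hF_one hF_inf pol_natDegree)
open Pool.Agent.W757.QR Pool.Agent.W757.RF Pool.Agent.W757.Q2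
open Pool.Agent.W29.RQSNK (sp_iter fin_of sp_fx sp_inf fx_iter_diff)
open Pool.Agent.R239.Fat (Hp Hp_eval Hp_ne Hp_root Hp_monic deg pol_deg deg_hole mkv pol_mkv
  pol_eval_cont pol_deriv_cont)

variable {d m : ℕ} {y : CV d} {q : Fin m → ℂ}

/-- the critical points near a simple hole in the Julia set -/
lemma HG.jcrit (h : HG y q) {V : CV (m + d)} (hV : Dr y q V) (j : Fin m) (hj : q j ∈ NA y) :
    ∃ (v : ℂ → ℂ) (c₀ : ℂ) (δ : ℝ) (H₁ : ℂ[X]), Hp q = (X - C (q j)) * H₁ ∧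
      H₁.eval (q j) ≠ 0 ∧ c₀ ≠ 0 ∧ c₀ ^ 2 = 4 * deriv (fx y) (q j) *
        (((pol V 0).eval (q j) * (pol y 1).eval (q j) - (pol y 0).eval (q j) *
      (pol V 1).eval (q j)) / (H₁.eval (q j) * (pol y 1).eval (q j) ^ 2)) ∧
      AnalyticAt ℂ v 0 ∧ HasStrictDerivAt v c₀ 0 ∧
      v 0 = fx y (q j) ∧ 0 < δ ∧ ∀ ξ : ℂ, ξ ≠ 0 → ‖ξ‖ < δ → ∀ z : ℂ, ‖z - q j‖ < δ →
        (wn (nu (deg y q + ξ ^ 2 • V)) (de (deg y q + ξ ^ 2 • V))).eval z = 0 →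
        (de (deg y q + ξ ^ 2 • V)).eval z ≠ 0 ∧ (fx (deg y q + ξ ^ 2 • V) z = v ξ ∨
          fx (deg y q + ξ ^ 2 • V) z = v (-ξ)) := by
  classical
  have hd := h.hc.hd
  obtain ⟨H₁, hH₁⟩ : ∃ H₁ : ℂ[X], H₁ = ∏ i ∈ Finset.univ.erase j, (X - C (q i)) := ⟨_, rfl⟩
  have hHp : Hp q = (X - C (q j)) * H₁ := by
    rw [hH₁]
    exact (Finset.mul_prod_erase _ _ (Finset.mem_univ j)).symm
  have hH₁0 : H₁.eval (q j) ≠ 0 := by
    rw [hH₁, eval_prod, Finset.prod_ne_zero_iff]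
    intro i hi
    rw [eval_sub, eval_X, eval_C, sub_ne_zero]
    exact fun he => (Finset.ne_of_mem_erase hi) (h.smp j i he hj).symm
  have hw : (wn (pol y 0) (pol y 1)).eval (q j) ≠ 0 := by
    intro h0
    exact hj (atE_of (h.hc.crit _ (crt_of_notinj hd y h.hc.hx _ (notinj_fin y (q j) (h.Q j) h0))))
  obtain ⟨v, c₀, hc₀, hc2, hva, hv, hv0, δ, hδ, hcrit⟩ := hole_crit' (P := pol y 0) (Q := pol y 1)
    (U := pol V 0) (W := pol V 1) (H₁ := H₁) (a := q j) hH₁0 (h.Q j) hw (hV.tv j)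
  have hX : ∀ l : ℂ, nu (deg y q + l • V) = (X - C (q j)) * H₁ * pol y 0 + C l * pol V 0 ∧
      de (deg y q + l • V) = (X - C (q j)) * H₁ * pol y 1 + C l * pol V 1 := by
    intro l
    rw [(lin_eq y q V l).1, (lin_eq y q V l).2, hHp]
    exact ⟨rfl, rfl⟩
  have hda : deriv (fx y) (q j) = (wn (pol y 0) (pol y 1)).eval (q j) / (pol y 1).eval (q j) ^ 2 :=
    (strictR y (q j) (h.Q j)).hasDerivAt.deriv
  refine ⟨v, c₀, δ, H₁, hHp, hH₁0, hc₀, by rw [hda]; exact hc2, hva, hv, hv0, hδ,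
    fun ξ hξ0 hξ z hz hcr => ?_⟩
  unfold fx fr
  rw [(hX (ξ ^ 2)).1, (hX (ξ ^ 2)).2] at hcr ⊢
  exact hcrit ξ hξ0 hξ z hz hcr

/-- the critical points near a hole in the Julia set are attracted for most parameters -/
lemma HG.jhole (h : HG y q) {V : CV (m + d)} (hV : Dr y q V) (j : Fin m) (hj : q j ∈ NA y) :
    ∃ (C : ℝ) (δ : ℝ), 0 < C ∧ 0 < δ ∧ ∀ ε : ℝ, 0 < ε → ∃ R₀ : ℝ, 0 < R₀ ∧ ∀ R : ℝ, 0 < R → R ≤ R₀ →
      ∃ Y : Set ℂ, volume Y ≤ ENNReal.ofReal (C * ε * R ^ 2) ∧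
        ∀ l ∈ ball (0 : ℂ) R \ Y, l ≠ 0 → ND (deg y q + l • V) → ∀ z : ℂ, ‖z - q j‖ < δ →
          ((z : ℂ) : OnePoint ℂ) ∈ Crt (deg y q + l • V) →
          Attd (sp (deg y q + l • V)) ((z : ℂ) : OnePoint ℂ) := by
  have hD : 2 ≤ m + d := by have := h.hc.hd; omega
  obtain ⟨v, c₀, δ, H₁, hH₁, hH₁0, hc₀, hc2, hva, hv, hv0, hδ, hcr⟩ := h.jcrit hV j hj
  obtain ⟨C, hC, hest⟩ : ∃ C : ℝ, 0 < C ∧ ∀ ε : ℝ, 0 < ε → ∃ ϱ₀ : ℝ, 0 < ϱ₀ ∧ ∀ ϱ : ℝ, 0 < ϱ →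
      ϱ ≤ ϱ₀ → ∃ X : Set ℂ, volume X ≤ ENNReal.ofReal (C * ε * ϱ ^ 2) ∧
        ∀ ξ ∈ ball (0 : ℂ) ϱ \ X, ND (deg y q + ξ ^ 2 • V) →
          Attd (sp (deg y q + ξ ^ 2 • V)) ((v ξ : ℂ) : OnePoint ℂ) := by
    by_cases hper : ∃ n, 0 < n ∧ (sp y)^[n] ((q j : ℂ) : OnePoint ℂ) = ((q j : ℂ) : OnePoint ℂ)
    · classical
      obtain ⟨h1, h2⟩ := Nat.find_spec hper
      obtain ⟨p, hp⟩ : ∃ p, Nat.find hper = p + 1 := ⟨Nat.find hper - 1, by omega⟩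
      have hmin : ∀ n, 0 < n → n < p + 1 →
          (sp y)^[n] ((q j : ℂ) : OnePoint ℂ) ≠ ((q j : ℂ) : OnePoint ℂ) := fun n g1 g2 g3 =>
        Nat.find_min hper (by omega) ⟨g1, g3⟩
      rw [hp] at h2
      obtain ⟨P', q₂, hY, -⟩ := h.hc.ys
      refine h.hole_estP j hj (p := p) ?_ ?_ hH₁ hH₁0 hc₀ rfl hc2 hva hv.hasDerivAt.deriv hv0
      · apply OnePoint.coe_injective
        rw [← (hY.orb hj (p + 1)).1]
        exact h2
      · intro i hi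
        apply Hp_ne
        intro i' he
        rw [← Function.iterate_succ_apply] at he
        have h3 : (sp y)^[i + 1] ((q j : ℂ) : OnePoint ℂ) = ((q i' : ℂ) : OnePoint ℂ) := by
          rw [(hY.orb hj (i + 1)).1, he]
        have h4 := (h.self j i' (i + 1) (Nat.succ_pos i) h3).2
        rw [← h4] at h3
        exact hmin (i + 1) (Nat.succ_pos i) (by omega) h3
    · refine h.hole_est V j (fun n i hn he => hper ⟨n, hn, ?_⟩) hc₀ hv hv0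
      have h4 := (h.self j i n hn he).2
      rw [he, ← h4]
  refine ⟨4 * C, δ, by positivity, hδ, fun ε hε => ?_⟩
  obtain ⟨ϱ₀, hϱ₀, hest⟩ := hest ε hε
  refine ⟨(min ϱ₀ δ) ^ 2, by positivity, fun R hR hR' => ?_⟩
  obtain ⟨ϱ, hϱd⟩ : ∃ ϱ, ϱ = √R := ⟨_, rfl⟩
  have hϱ : 0 < ϱ := by rw [hϱd]; exact Real.sqrt_pos.2 hR
  have hϱ2 : ϱ ^ 2 = R := by rw [hϱd]; exact Real.sq_sqrt hR.le
  have hϱm : ϱ ≤ min ϱ₀ δ := by
    rw [hϱd]
    exact Real.sqrt_le_iff.2 ⟨by positivity, hR'⟩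
  obtain ⟨X, hX, hX'⟩ := hest ϱ hϱ (hϱm.trans (min_le_left _ _))
  obtain ⟨S, hS⟩ : ∃ S, S = toMeasurable volume X ∩ ball (0 : ℂ) ϱ := ⟨_, rfl⟩
  have hSm : MeasurableSet S := by
    rw [hS]; exact (measurableSet_toMeasurable _ _).inter measurableSet_ball
  have hSϱ : S ⊆ ball 0 ϱ := by rw [hS]; exact inter_subset_right
  have hSv : volume S ≤ ENNReal.ofReal (C * ε * ϱ ^ 2) := by
    rw [hS]
    refine (measure_mono inter_subset_left).trans ?_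
    rw [measure_toMeasurable]
    exact hX
  refine ⟨(fun ξ : ℂ => ξ ^ 2) '' S, ?_, ?_⟩
  · refine (sq_image hSm hSϱ).trans ?_
    calc ENNReal.ofReal (4 * ϱ ^ 2) * volume S ≤
        ENNReal.ofReal (4 * ϱ ^ 2) * ENNReal.ofReal (C * ε * ϱ ^ 2) := by gcongr
      _ = ENNReal.ofReal (4 * C * ε * R ^ 2) := by
        rw [← ENNReal.ofReal_mul (by positivity)]
        congr 1
        rw [← hϱ2]
        ring
  · rintro l ⟨hlR, hlY⟩ hl0 hnd z hz hzc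
    obtain ⟨ξ, hξ⟩ : ∃ ξ : ℂ, ξ ^ 2 = l := IsAlgClosed.exists_pow_nat_eq _ (by norm_num)
    have hξ0 : ξ ≠ 0 := by
      rintro rfl
      apply hl0
      rw [← hξ]
      ring
    have hξϱ : ‖ξ‖ < ϱ := by
      rw [mem_ball_zero_iff, ← hξ, norm_pow, ← hϱ2] at hlR
      exact lt_of_pow_lt_pow_left₀ 2 hϱ.le hlR
    have hnX : ∀ ξ' : ℂ, ξ' ^ 2 = l → ‖ξ'‖ < ϱ → ξ' ∉ X := by
      intro ξ' h1 h2 h3
      apply hlY
      refine ⟨ξ', ?_, h1⟩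
      rw [hS]
      exact ⟨subset_toMeasurable _ _ h3, mem_ball_zero_iff.2 h2⟩
    have hwn := crt_wn (by omega) _ z hzc
    have hξδ : ‖ξ‖ < δ := hξϱ.trans_le (hϱm.trans (min_le_right _ _))
    rw [← hξ] at hwn hnd ⊢
    obtain ⟨h3, h4⟩ := hcr ξ hξ0 hξδ z hz hwn
    apply Pool.Agent.W376.RQTRAP.attd_of_iter (sp_cont hD _ hnd) (m := 1)
    rw [Function.iterate_one, sp_fx _ z h3]
    rcases h4 with h4 | h4
    · rw [h4]
      exact hX' ξ ⟨mem_ball_zero_iff.2 hξϱ, hnX ξ hξ hξϱ⟩ hnd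
    · rw [h4]
      have h5 := hX' (-ξ) ⟨mem_ball_zero_iff.2 (by rwa [norm_neg]),
        hnX (-ξ) (by rw [neg_sq]; exact hξ) (by rwa [norm_neg])⟩
      rw [neg_sq] at h5
      exact h5 hnd

/-- most maps on a generic complex line are hyperbolic -/
theorem HG.line (h : HG y q) (hm : 0 < m) {V : CV (m + d)} (hV : Dr y q V) :
    Lm (deg y q) {a : CV (m + d) | HyR a} V := by
  classical
  have hj : ∀ j : Fin m, ∃ (C : ℝ) (δ : ℝ), 0 < C ∧ 0 < δ ∧ ∀ ε : ℝ, 0 < ε → ∃ R₀ : ℝ, 0 < R₀ ∧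
      ∀ R : ℝ, 0 < R → R ≤ R₀ →
      ∃ Y : Set ℂ, volume Y ≤ ENNReal.ofReal (C * ε * R ^ 2) ∧
        ∀ l ∈ ball (0 : ℂ) R \ Y, l ≠ 0 → ND (deg y q + l • V) → q j ∈ NA y →
          ∀ z : ℂ, ‖z - q j‖ < δ → ((z : ℂ) : OnePoint ℂ) ∈ Crt (deg y q + l • V) →
          Attd (sp (deg y q + l • V)) ((z : ℂ) : OnePoint ℂ) := by
    intro j
    by_cases hjN : q j ∈ NA y
    · obtain ⟨C, δ, hC, hδ, H⟩ := h.jhole hV j hjN
      refine ⟨C, δ, hC, hδ, fun ε hε => ?_⟩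
      obtain ⟨R₀, hR₀, H⟩ := H ε hε
      refine ⟨R₀, hR₀, fun R hR hR' => ?_⟩
      obtain ⟨Y, hY, H⟩ := H R hR hR'
      exact ⟨Y, hY, fun l hl hl0 hnd _ => H l hl hl0 hnd⟩
    · exact ⟨1, 1, one_pos, one_pos, fun ε hε => ⟨1, one_pos, fun R hR hR' =>
        ⟨∅, by simp, fun l hl hl0 hnd h0 => absurd h0 hjN⟩⟩⟩
  choose Cj δj hCj hδj hj using hj
  obtain ⟨δ₀, hδ₀, hδ₀'⟩ : ∃ δ₀ : ℝ, 0 < δ₀ ∧ ∀ j, δ₀ ≤ δj j := by
    have h1 : ∀ᶠ s in 𝓝[>] (0 : ℝ), ∀ j ∈ (Finset.univ : Finset (Fin m)), s ≤ δj j := by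
      rw [Finset.eventually_all]
      exact fun j _ => (eventually_le_nhds (hδj j)).filter_mono nhdsWithin_le_nhds
    obtain ⟨s, h2, h3⟩ := (h1.and self_mem_nhdsWithin).exists
    exact ⟨s, h3, fun j => h2 j (Finset.mem_univ j)⟩
  have hcls := (h.cls hV hδ₀).and (nd_small hm h.hc.hx hV.tv)
  obtain ⟨R₁, hR₁, hcls⟩ := Metric.eventually_nhds_iff_ball.1 hcls
  obtain ⟨Cs, hCs⟩ : ∃ Cs : ℝ, Cs = ∑ j, Cj j := ⟨_, rfl⟩
  have hCs0 : 0 < Cs := by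
    rw [hCs]
    exact Finset.sum_pos (fun j _ => hCj j) ⟨⟨0, hm⟩, Finset.mem_univ _⟩
  intro ε hε
  have hε' : 0 < ε / Cs := by positivity
  choose Rj hRj hj using fun j => hj j (ε / Cs) hε'
  obtain ⟨R₂, hR₂, hR₂'⟩ : ∃ δ₀ : ℝ, 0 < δ₀ ∧ ∀ j, δ₀ ≤ Rj j := by
    have h1 : ∀ᶠ s in 𝓝[>] (0 : ℝ), ∀ j ∈ (Finset.univ : Finset (Fin m)), s ≤ Rj j := by
      rw [Finset.eventually_all]
      exact fun j _ => (eventually_le_nhds (hRj j)).filter_mono nhdsWithin_le_nhds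
    obtain ⟨s, h2, h3⟩ := (h1.and self_mem_nhdsWithin).exists
    exact ⟨s, h3, fun j => h2 j (Finset.mem_univ j)⟩
  refine ⟨min R₁ R₂, by positivity, fun R hR hR' => ?_⟩
  choose Yj hYj hj using fun j => hj j R hR ((hR'.trans (min_le_right _ _)).trans (hR₂' j))
  have hsub : {l : ℂ | l ∈ ball (0 : ℂ) R ∧ deg y q + l • V ∉ {a : CV (m + d) | HyR a}} ⊆
      {0} ∪ ⋃ j ∈ (Finset.univ : Finset (Fin m)), Yj j := by
    rintro l ⟨hl, hbad⟩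
    by_contra hcon
    rw [mem_union, not_or] at hcon
    obtain ⟨hl0, hlY⟩ := hcon
    have hl0' : l ≠ 0 := hl0
    obtain ⟨h1, h2⟩ := hcls l (ball_subset_ball (hR'.trans (min_le_left _ _)) hl)
    have hnd := h2 hl0'
    apply hbad
    refine ⟨hnd, fun c hc => ?_⟩
    rcases h1 hl0' hnd c hc with h3 | ⟨j, hjN, z, hz, rfl⟩
    · exact h3
    · rw [mem_ball, dist_eq_norm] at hz
      refine hj j l ⟨hl, fun hmem => hlY ?_⟩ hl0' hnd hjN z (hz.trans_le (hδ₀' j)) hc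
      exact mem_biUnion (Finset.mem_coe.2 (Finset.mem_univ j)) hmem
  refine (measure_mono hsub).trans ((measure_union_le _ _).trans ?_)
  rw [measure_singleton, zero_add]
  refine (measure_biUnion_finset_le _ _).trans ?_
  refine (Finset.sum_le_sum fun j _ => hYj j).trans ?_
  rw [← ENNReal.ofReal_sum_of_nonneg (fun j _ => by have := hCj j; positivity)]
  apply ENNReal.ofReal_le_ofReal
  rw [← Finset.sum_mul, ← Finset.sum_mul, ← hCs]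
  apply le_of_eq
  field_simp

/-- full density in good coordinates -/
theorem HG.ae (h : HG y q) (hm : 0 < m) :
    ∀ᵐ V : CV (m + d), Lm (deg y q) {a : CV (m + d) | HyR a} V := by
  filter_upwards [ae_dr h] with V hV
  exact h.line hm hV

/-- all maps on a generic complex line are hyperbolic if there are no holes in the Julia set -/
theorem HG.ev (h : HG y q) (hm : 0 < m) (hA : ∀ j, q j ∉ NA y) :
    ∀ᵐ V : CV (m + d), ∀ᶠ l in 𝓝[≠] (0 : ℂ), HyR (deg y q + l • V) := by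
  filter_upwards [ae_dr h] with V hV
  have hcls := (h.cls hV one_pos).and (nd_small hm h.hc.hx hV.tv)
  filter_upwards [hcls.filter_mono nhdsWithin_le_nhds, self_mem_nhdsWithin] with l hl hl0
  obtain ⟨h1, h2⟩ := hl
  have hnd := h2 hl0
  refine ⟨hnd, fun c hc => ?_⟩
  rcases h1 hl0 hnd c hc with h3 | ⟨j, hjN, -⟩
  · exact h3
  · exact absurd hjN (hA j)

/-- full density on almost every complex line through a degenerate map -/
theorem main_ae {d m : ℕ} (hd : 2 ≤ d) (hm : 0 < m) (y : CV d) (hy : ND y)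
    (hcr : ∀ z ∈ Crt y, Attd (sp y) z) (s : Fin m → OnePoint ℂ)
    (hself : ∀ i j, ∀ n, 0 < n → (sp y)^[n] (s i) = s j → ¬ Attd (sp y) (s i) ∧ s i = s j)
    (hsmp : ∀ i j, s i = s j → ¬ Attd (sp y) (s i) → i = j)
    (c : ℂ) (hc0 : c ≠ 0) (x₀ : CV (m + d))
    (hx₀ : ∀ p : ℂ × ℂ, hF x₀ p = (c * ∏ j, ((hc (s j)).2 * p.1 - (hc (s j)).1 * p.2)) • hF y p) :
    ∀ᵐ V : CV (m + d), Lm x₀ {a : CV (m + d) | HyR a} V :=
  to_general hd y hy hcr s hself hsmp c hc0 x₀ hx₀ (fun _ _ => True)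
    (fun _ _ _ _ _ _ => trivial) (fun c0 V => Lm c0 {a : CV (m + d) | HyR a} V)
    (fun T k c0 c1 V hk hc hT h => lm_transport T hk h (fun X hX => hT X hX) hc)
    (fun y₁ q h _ => h.ae hm)

/-- almost every complex line through a degenerate map without holes in the Julia set -/
theorem main_ev {d m : ℕ} (hd : 2 ≤ d) (hm : 0 < m) (y : CV d) (hy : ND y)
    (hcr : ∀ z ∈ Crt y, Attd (sp y) z) (s : Fin m → OnePoint ℂ)
    (hself : ∀ i j, ∀ n, 0 < n → (sp y)^[n] (s i) = s j → ¬ Attd (sp y) (s i) ∧ s i = s j)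
    (hsmp : ∀ i j, s i = s j → ¬ Attd (sp y) (s i) → i = j)
    (c : ℂ) (hc0 : c ≠ 0) (x₀ : CV (m + d))
    (hx₀ : ∀ p : ℂ × ℂ, hF x₀ p = (c * ∏ j, ((hc (s j)).2 * p.1 - (hc (s j)).1 * p.2)) • hF y p)
    (hA : ∀ j, Attd (sp y) (s j)) :
    ∀ᵐ V : CV (m + d), ∀ᶠ l in 𝓝[≠] (0 : ℂ), HyR (x₀ + l • V) := by
  refine to_general hd y hy hcr s hself hsmp c hc0 x₀ hx₀ (fun _ q => ∀ j, q j ∉ NA _)
    (fun y₁ q h hnd hs hqs j hj => ?_) (fun c0 V => ∀ᶠ l in 𝓝[≠] (0 : ℂ), HyR (c0 + l • V))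
    (fun T k c0 c1 V hk hc hT h => ?_) (fun y₁ q h hN => h.ev hm hN)
  · apply hj
    rw [← hqs]
    exact atE_of (Pool.Agent.H790R3.RB.ALL.attd h (fun z => (hs z).symm) (hA j))
  · have h1 : Tendsto (fun l : ℂ => k⁻¹ * l) (𝓝[≠] 0) (𝓝[≠] 0) := by
      refine tendsto_nhdsWithin_iff.2 ⟨?_, ?_⟩
      · have h2 : Tendsto (fun l : ℂ => k⁻¹ * l) (𝓝 0) (𝓝 (k⁻¹ * 0)) :=
          (continuous_const.mul continuous_id).tendsto 0
        rw [mul_zero] at h2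
        exact h2.mono_left nhdsWithin_le_nhds
      · filter_upwards [self_mem_nhdsWithin] with l hl
        exact mul_ne_zero (inv_ne_zero hk) hl
    filter_upwards [h1.eventually h] with l hl
    have h7 := hT _ hl
    rw [map_add, map_smul, smul_add, smul_smul, ← mul_assoc, mul_inv_cancel₀ hk, one_mul,
      ← hc] at h7
    exact h7

/-- full density at a degenerate map -/
theorem main_deg {d m : ℕ} (hd : 2 ≤ d) (x₀ : CV (m + d))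
    (h : ∀ᵐ V : CV (m + d), Lm x₀ {a : CV (m + d) | HyR a} V) :
    Tendsto (fun r : ℝ => volume {a : CV (m + d) | (∀ i, ‖a i - x₀ i‖ ≤ r) ∧ ¬ HyR a} /
      volume {a : CV (m + d) | ∀ i, ‖a i - x₀ i‖ ≤ r}) (𝓝[>] 0) (𝓝 0) := by
  have hopen : IsOpen {a : CV (m + d) | HyR a} :=
    isOpen_iff_mem_nhds.mpr fun a ha => hyR_open (by omega) a ha
  exact density_lm x₀ {a : CV (m + d) | HyR a} hopen.measurableSet h

end Run7.h725
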