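import Mathlib
import Pool.Agent.Run7.h725.B1Crit

/-! Analytic curves of critical values, and their images. -/

set_option autoImplicit false

open Topology Filter Metric Set Polynomial

namespace Run7.h725

open Pool.Agent.W757.QR (wn)

section

variable {P Q U W H₁ : ℂ[X]} {a : ℂ}

lemma ph_contDiff' : ContDiff ℂ (⊤ : WithTop ℕ∞) (Ph P Q U W H₁ a) := by
  have h : ∀ R : ℂ[X], ContDiff ℂ (⊤ : WithTop ℕ∞) fun p : ℂ × ℂ => R.eval (a + p.1 * p.2) :=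
    fun R => (R.differentiable.contDiff (n := (⊤ : WithTop ℕ∞))).comp
      (contDiff_const.add (contDiff_fst.mul contDiff_snd))
  unfold Ph
  exact ((((contDiff_snd.pow 2).mul ((h _).pow 2)).mul (h _)).add ((h _).add (h _))).add
    ((contDiff_fst.pow 2).mul (h _))

/-- critical points near a simple root of `H` -/
theorem hole_crit' (hH : H₁.eval a ≠ 0) (hQ : Q.eval a ≠ 0) (hw : (wn P Q).eval a ≠ 0)
    (hN : U.eval a * Q.eval a - P.eval a * W.eval a ≠ 0) :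
    ∃ (v : ℂ → ℂ) (c₀ : ℂ), c₀ ≠ 0 ∧ c₀ ^ 2 = 4 * ((wn P Q).eval a / Q.eval a ^ 2) *
      ((U.eval a * Q.eval a - P.eval a * W.eval a) / (H₁.eval a * Q.eval a ^ 2)) ∧
      AnalyticAt ℂ v 0 ∧ HasStrictDerivAt v c₀ 0 ∧ v 0 = P.eval a / Q.eval a ∧
      ∃ δ : ℝ, 0 < δ ∧ ∀ ξ : ℂ, ξ ≠ 0 → ‖ξ‖ < δ → ∀ z : ℂ, ‖z - a‖ < δ →
        (wn ((X - C a) * H₁ * P + C (ξ ^ 2) * U) ((X - C a) * H₁ * Q + C (ξ ^ 2) * W)).eval z = 0 →
        ((X - C a) * H₁ * Q + C (ξ ^ 2) * W).eval z ≠ 0 ∧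
        (((X - C a) * H₁ * P + C (ξ ^ 2) * U).eval z / ((X - C a) * H₁ * Q + C (ξ ^ 2) * W).eval z =
          v ξ ∨
        ((X - C a) * H₁ * P + C (ξ ^ 2) * U).eval z / ((X - C a) * H₁ * Q + C (ξ ^ 2) * W).eval z =
          v (-ξ)) := by
  obtain ⟨N, hNd⟩ : ∃ N, N = U.eval a * Q.eval a - P.eval a * W.eval a := ⟨_, rfl⟩
  rw [← hNd] at hN
  obtain ⟨w, hwd⟩ : ∃ w, w = (wn P Q).eval a := ⟨_, rfl⟩
  rw [← hwd] at hw
  obtain ⟨Z₀, hZ⟩ : ∃ Z₀ : ℂ, Z₀ ^ 2 = N / (H₁.eval a * w) :=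
    IsAlgClosed.exists_pow_nat_eq _ (by norm_num)
  have hZ2 : Z₀ ^ 2 * H₁.eval a * w = N := by
    rw [hZ]; field_simp
  have hZ0 : Z₀ ≠ 0 := by
    rintro rfl
    apply hN
    rw [← hZ2]
    ring
  obtain ⟨Φ, hΦ⟩ : ∃ Φ, Φ = Ph P Q U W H₁ a := ⟨_, rfl⟩
  have hΦ0 : ∀ ζ, Φ (0, ζ) = ζ ^ 2 * (H₁.eval a) ^ 2 * w - H₁.eval a * N := fun ζ => by
    rw [hΦ, ph_zero, hwd, hNd]
  have hΦZ : Φ (0, Z₀) = 0 := by
    rw [hΦ0]
    linear_combination H₁.eval a * hZ2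
  have pn : (⊤ : WithTop ℕ∞) ≠ 0 := by simp
  have cdf : ContDiffAt ℂ (⊤ : WithTop ℕ∞) Φ (0, Z₀) := by
    rw [hΦ]
    exact ph_contDiff'.contDiffAt
  have hsd : HasStrictFDerivAt Φ (fderiv ℂ Φ (0, Z₀)) (0, Z₀) := cdf.hasStrictFDerivAt pn
  have hinv : ((fderiv ℂ Φ (0, Z₀)) ∘L .inr ℂ ℂ ℂ).IsInvertible := by
    apply isInv_of_ne
    have h1 : HasDerivAt (fun ζ : ℂ => Φ (0, ζ)) ((fderiv ℂ Φ (0, Z₀)) (0, 1)) Z₀ := by
      have h2 : HasDerivAt (fun ζ : ℂ => ((0, ζ) : ℂ × ℂ)) (0, 1) Z₀ :=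
        (hasDerivAt_const Z₀ (0 : ℂ)).prodMk (hasDerivAt_id Z₀)
      exact hsd.hasFDerivAt.comp_hasDerivAt Z₀ h2
    have h3 : HasDerivAt (fun ζ : ℂ => Φ (0, ζ)) (2 * Z₀ * (H₁.eval a) ^ 2 * w) Z₀ := by
      simp only [hΦ0]
      have h4 := (((hasDerivAt_pow 2 Z₀).mul_const ((H₁.eval a) ^ 2)).mul_const w).sub_const
        (H₁.eval a * N)
      refine h4.congr_deriv ?_
      norm_num
    have h5 := h1.unique h3
    show (fderiv ℂ Φ (0, Z₀)) (0, 1) ≠ 0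
    rw [h5]
    exact mul_ne_zero (mul_ne_zero (mul_ne_zero two_ne_zero hZ0) (pow_ne_zero _ hH)) hw
  obtain ⟨ψ, hψd⟩ : ∃ ψ, ψ = cdf.implicitFunction pn hinv := ⟨_, rfl⟩
  have hψ1 := cdf.eventually_apply_eq_iff_implicitFunction pn hinv
  have hψ2 := cdf.hasStrictFDerivAt_implicitFunction pn hinv
  have hψ3 := cdf.contDiffAt_implicitFunction pn hinv
  rw [← hψd] at hψ3
  have hψa : AnalyticAt ℂ ψ 0 := hψ3.analyticAt
  rw [← hψd, hΦZ] at hψ1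
  rw [← hψd] at hψ2
  have hψ0 : ψ 0 = Z₀ := (hψ1.self_of_nhds).1 hΦZ
  obtain ⟨s, hs⟩ : ∃ s : ℂ, HasStrictDerivAt ψ s 0 := ⟨_, hψ2.hasStrictDerivAt⟩
  -- the critical point
  have hz' : HasStrictDerivAt (fun ξ => a + ξ * ψ ξ) Z₀ 0 := by
    have h1 := ((hasStrictDerivAt_id (0 : ℂ)).mul hs).const_add a
    refine h1.congr_deriv ?_
    simp [hψ0]
  have hz0 : a + 0 * ψ 0 = a := by ring
  have hev : ∀ R : ℂ[X], HasStrictDerivAt (fun ξ => R.eval (a + ξ * ψ ξ))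
      ((derivative R).eval a * Z₀) 0 := by
    intro R
    have h1 := R.hasStrictDerivAt (a + 0 * ψ 0)
    rw [hz0] at h1
    have h2 : HasStrictDerivAt (fun ξ => R.eval (a + ξ * ψ ξ))
      ((derivative R).eval a * Z₀) 0 := by
      refine HasStrictDerivAt.comp (h₂ := fun z => R.eval z) (h := fun ξ => a + ξ * ψ ξ) 0 ?_ hz'
      rw [hz0]
      exact h1
    exact h2
  have hnum : HasStrictDerivAt (fun ξ => ψ ξ * (H₁.eval (a + ξ * ψ ξ) * P.eval (a + ξ * ψ ξ)) +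
      ξ * U.eval (a + ξ * ψ ξ)) (s * (H₁.eval a * P.eval a) +
      Z₀ * ((derivative H₁).eval a * Z₀ * P.eval a + H₁.eval a * ((derivative P).eval a * Z₀)) +
      U.eval a) 0 := by
    have h1 := (hs.mul ((hev H₁).mul (hev P))).add ((hasStrictDerivAt_id (0 : ℂ)).mul (hev U))
    refine h1.congr_deriv ?_
    simp [hψ0]
  have hden : HasStrictDerivAt (fun ξ => ψ ξ * (H₁.eval (a + ξ * ψ ξ) * Q.eval (a + ξ * ψ ξ)) +
      ξ * W.eval (a + ξ * ψ ξ)) (s * (H₁.eval a * Q.eval a) +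
      Z₀ * ((derivative H₁).eval a * Z₀ * Q.eval a + H₁.eval a * ((derivative Q).eval a * Z₀)) +
      W.eval a) 0 := by
    have h1 := (hs.mul ((hev H₁).mul (hev Q))).add ((hasStrictDerivAt_id (0 : ℂ)).mul (hev W))
    refine h1.congr_deriv ?_
    simp [hψ0]
  have hd0 : ψ 0 * (H₁.eval (a + 0 * ψ 0) * Q.eval (a + 0 * ψ 0)) + 0 * W.eval (a + 0 * ψ 0) ≠ 0 := by
    rw [hz0, hψ0, zero_mul, add_zero]
    exact mul_ne_zero hZ0 (mul_ne_zero hH hQ)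
  obtain ⟨v, hvd⟩ : ∃ v : ℂ → ℂ, v = fun ξ =>
      (ψ ξ * (H₁.eval (a + ξ * ψ ξ) * P.eval (a + ξ * ψ ξ)) + ξ * U.eval (a + ξ * ψ ξ)) /
      (ψ ξ * (H₁.eval (a + ξ * ψ ξ) * Q.eval (a + ξ * ψ ξ)) + ξ * W.eval (a + ξ * ψ ξ)) := ⟨_, rfl⟩
  have hv := hnum.div hden hd0
  have hva : AnalyticAt ℂ v 0 := by
    have h0 : AnalyticAt ℂ (fun ξ => a + ξ * ψ ξ) 0 :=
      analyticAt_const.add (analyticAt_id.mul hψa)
    have hR : ∀ R : ℂ[X], AnalyticAt ℂ (fun ξ => R.eval (a + ξ * ψ ξ)) 0 := fun R =>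
      AnalyticAt.comp' (g := fun z => R.eval z) (R.differentiable.analyticAt _) h0
    rw [hvd]
    exact ((hψa.mul ((hR H₁).mul (hR P))).add (analyticAt_id.mul (hR U))).div
      ((hψa.mul ((hR H₁).mul (hR Q))).add (analyticAt_id.mul (hR W))) hd0
  obtain ⟨c₀, hc₀d⟩ : ∃ c₀, c₀ = 2 * N / (Z₀ * (H₁.eval a * Q.eval a ^ 2)) := ⟨_, rfl⟩
  have hc₀ : c₀ ≠ 0 := by
    rw [hc₀d]
    exact div_ne_zero (mul_ne_zero two_ne_zero hN)
      (mul_ne_zero hZ0 (mul_ne_zero hH (pow_ne_zero _ hQ)))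
  refine ⟨v, c₀, hc₀, ?_, hva, ?_, ?_, ?_⟩
  · have hZ3 : Z₀ ^ 2 = N / (H₁.eval a * w) := hZ
    have e1 : c₀ ^ 2 = 4 * N ^ 2 / (Z₀ ^ 2 * (H₁.eval a * Q.eval a ^ 2) ^ 2) := by
      rw [hc₀d]; ring
    rw [e1, hZ3, ← hwd, ← hNd]
    field_simp
  · rw [hvd]
    refine hv.congr_deriv ?_
    rw [hz0, hψ0]
    simp only [zero_mul, add_zero]
    rw [hc₀d]
    have hwd' : w = (derivative P).eval a * Q.eval a - P.eval a * (derivative Q).eval a := by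
      rw [hwd]; unfold wn; rw [eval_sub, eval_mul, eval_mul]
    have key : (s * (H₁.eval a * P.eval a) +
        Z₀ * ((derivative H₁).eval a * Z₀ * P.eval a + H₁.eval a * ((derivative P).eval a * Z₀)) +
        U.eval a) * (Z₀ * (H₁.eval a * Q.eval a)) - Z₀ * (H₁.eval a * P.eval a) *
        (s * (H₁.eval a * Q.eval a) +
        Z₀ * ((derivative H₁).eval a * Z₀ * Q.eval a + H₁.eval a * ((derivative Q).eval a * Z₀)) +
        W.eval a) = 2 * Z₀ * H₁.eval a * N := by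
      rw [hwd'] at hZ2
      linear_combination Z₀ * H₁.eval a * hZ2 - Z₀ * H₁.eval a * hNd
    rw [key]
    field_simp
  · rw [hvd]
    simp only [zero_mul, add_zero]
    rw [hψ0, mul_div_mul_left _ _ hZ0, mul_div_mul_left _ _ hH]
  · -- uniqueness
    have h1 : ∀ᶠ p : ℂ × ℂ in 𝓝 (0, Z₀), (Φ p = 0 ↔ ψ p.1 = p.2) ∧
        p.2 * (H₁.eval (a + p.1 * p.2) * Q.eval (a + p.1 * p.2)) +
          p.1 * W.eval (a + p.1 * p.2) ≠ 0 := by
      refine hψ1.and ?_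
      have h2 : Continuous fun p : ℂ × ℂ => p.2 * (H₁.eval (a + p.1 * p.2) *
          Q.eval (a + p.1 * p.2)) + p.1 * W.eval (a + p.1 * p.2) := by
        have h : ∀ R : ℂ[X], Continuous fun p : ℂ × ℂ => R.eval (a + p.1 * p.2) := fun R =>
          R.continuous.comp (continuous_const.add (continuous_fst.mul continuous_snd))
        exact (continuous_snd.mul ((h _).mul (h _))).add (continuous_fst.mul (h _))
      refine h2.continuousAt.eventually_ne ?_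
      simp only [zero_mul, add_zero]
      exact mul_ne_zero hZ0 (mul_ne_zero hH hQ)
    rw [Metric.eventually_nhds_iff_ball] at h1
    obtain ⟨δ₁, hδ₁, h1⟩ := h1
    have h1' : ∀ ξ ζ : ℂ, ‖ξ‖ < δ₁ → ‖ζ - Z₀‖ < δ₁ → (Φ (ξ, ζ) = 0 ↔ ψ ξ = ζ) ∧
        ζ * (H₁.eval (a + ξ * ζ) * Q.eval (a + ξ * ζ)) + ξ * W.eval (a + ξ * ζ) ≠ 0 := by
      intro ξ ζ h2 h3
      apply h1 (ξ, ζ)
      rw [mem_ball, Prod.dist_eq, max_lt_iff, dist_eq_norm, dist_eq_norm, sub_zero]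
      exact ⟨h2, h3⟩
    -- the quotient
    obtain ⟨Kp, hKp⟩ : ∃ Kp : ℂ[X], Kp = H₁ ^ 2 * wn P Q := ⟨_, rfl⟩
    obtain ⟨Bp, hBp⟩ : ∃ Bp : ℂ[X], Bp = wn ((X - C a) * H₁ * P) W + wn U ((X - C a) * H₁ * Q) :=
      ⟨_, rfl⟩
    have hKa : Kp.eval a ≠ 0 := by
      rw [hKp, eval_mul, eval_pow, ← hwd]
      exact mul_ne_zero (pow_ne_zero _ hH) hw
    have hBa : Bp.eval a = - (H₁.eval a * N) := by
      rw [hBp, hNd]
      unfold wn
      simp only [derivative_mul, derivative_sub, derivative_X, derivative_C,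
        eval_add, eval_sub, eval_mul, eval_C, eval_X, eval_one, sub_self, mul_zero, zero_add,
        one_mul, eval_zero, sub_zero, zero_mul, add_zero]
      ring
    have h4 : ContinuousAt (fun p : ℂ × ℂ => -(Bp.eval p.2 + p.1 ^ 2 * (wn U W).eval p.2) /
        Kp.eval p.2) (0, a) := by
      refine ContinuousAt.div ?_ (Kp.continuous.comp continuous_snd).continuousAt hKa
      exact (((Bp.continuous.comp continuous_snd).add ((continuous_fst.pow 2).mul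
        ((wn U W).continuous.comp continuous_snd))).neg).continuousAt
    have h5 : ∀ᶠ p : ℂ × ℂ in 𝓝 (0, a), ‖-(Bp.eval p.2 + p.1 ^ 2 * (wn U W).eval p.2) /
        Kp.eval p.2 - Z₀ ^ 2‖ < δ₁ ^ 2 ∧ Kp.eval p.2 ≠ 0 := by
      refine Eventually.and ?_ ((Kp.continuous.comp continuous_snd).continuousAt.eventually_ne hKa)
      have h6 : -(Bp.eval a + (0 : ℂ) ^ 2 * (wn U W).eval a) / Kp.eval a = Z₀ ^ 2 := by
        rw [hBa, hKp, eval_mul, eval_pow, ← hwd, hZ]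
        field_simp
        ring
      have h7 := h4.tendsto
      simp only at h7
      rw [h6] at h7
      have h8 := h7.eventually (ball_mem_nhds (Z₀ ^ 2) (by positivity : 0 < δ₁ ^ 2))
      filter_upwards [h8] with p hp
      rw [dist_eq_norm] at hp
      exact hp
    rw [Metric.eventually_nhds_iff_ball] at h5
    obtain ⟨δ₂, hδ₂, h5⟩ := h5
    refine ⟨min δ₁ δ₂, lt_min hδ₁ hδ₂, fun ξ hξ0 hξ z hz hcr => ?_⟩
    have hξ1 : ‖ξ‖ < δ₁ := hξ.trans_le (min_le_left _ _)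
    obtain ⟨h6, h7⟩ := h5 (ξ, z) (by
      rw [mem_ball, Prod.dist_eq, max_lt_iff, dist_eq_norm, dist_eq_norm, sub_zero]
      exact ⟨hξ.trans_le (min_le_right _ _), hz.trans_le (min_le_right _ _)⟩)
    simp only at h6 h7
    obtain ⟨ζ, hζ⟩ : ∃ ζ, ζ = (z - a) / ξ := ⟨_, rfl⟩
    have hza : a + ξ * ζ = z := by rw [hζ]; field_simp; ring
    have hcr' : ξ ^ 2 * Φ (ξ, ζ) = 0 := by
      rw [← hcr, wn_expand, hΦ]
      unfold Ph
      simp only [hza]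
      rw [eval_mul, eval_sub, eval_X, eval_C]
      have e : z - a = ξ * ζ := by rw [← hza]; ring
      rw [e]
      ring
    have hΦξ : Φ (ξ, ζ) = 0 := (mul_eq_zero.1 hcr').resolve_left (pow_ne_zero _ hξ0)
    have h8 : ζ ^ 2 = -(Bp.eval z + ξ ^ 2 * (wn U W).eval z) / Kp.eval z := by
      rw [eq_div_iff h7]
      have h9 : Φ (ξ, ζ) = ζ ^ 2 * Kp.eval z + Bp.eval z + ξ ^ 2 * (wn U W).eval z := by
        rw [hΦ, hKp, hBp]
        unfold Ph
        simp only [hza]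
        rw [eval_mul, eval_pow, eval_add]
        ring
      rw [hΦξ] at h9
      linear_combination -h9
    rw [← h8] at h6
    have h9 : ‖ζ - Z₀‖ < δ₁ ∨ ‖-ζ - Z₀‖ < δ₁ := by
      by_contra hcon
      push Not at hcon
      obtain ⟨g1, g2⟩ := hcon
      have g3 : ‖ζ ^ 2 - Z₀ ^ 2‖ = ‖ζ - Z₀‖ * ‖-ζ - Z₀‖ := by
        rw [← norm_mul, ← norm_neg (ζ ^ 2 - Z₀ ^ 2)]
        congr 1
        ring
      rw [g3] at h6
      have g4 : δ₁ ^ 2 ≤ ‖ζ - Z₀‖ * ‖-ζ - Z₀‖ := by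
        rw [sq]
        exact mul_le_mul g1 g2 hδ₁.le (norm_nonneg _)
      linarith
    have evN : ∀ (R S : ℂ[X]), ((X - C a) * H₁ * R + C (ξ ^ 2) * S).eval z =
        ξ * (ζ * (H₁.eval z * R.eval z) + ξ * S.eval z) := by
      intro R S
      rw [eval_add, eval_mul, eval_mul, eval_mul, eval_sub, eval_X, eval_C, eval_C]
      have e : z - a = ξ * ζ := by rw [← hza]; ring
      rw [e]
      ring
    rcases h9 with h9 | h9
    · obtain ⟨g1, g2⟩ := h1' ξ ζ hξ1 h9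
      have g3 := g1.1 hΦξ
      rw [hza] at g2
      refine ⟨?_, Or.inl ?_⟩
      · rw [evN]
        exact mul_ne_zero hξ0 g2
      · rw [evN, evN, mul_div_mul_left _ _ hξ0, hvd]
        simp only
        rw [g3, hza]
    · obtain ⟨g1, g2⟩ := h1' (-ξ) (-ζ) (by rwa [norm_neg]) h9
      have g3 := g1.1 (by
        have := ph_symm (P := P) (Q := Q) (U := U) (W := W) (H₁ := H₁) (a := a) (ξ, ζ)
        rw [← hΦ] at this
        rw [← hΦξ, ← this]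
        rfl)
      rw [neg_mul_neg, hza] at g2
      have g4 : ζ * (H₁.eval z * Q.eval z) + ξ * W.eval z ≠ 0 := by
        intro h0
        apply g2
        linear_combination -h0
      refine ⟨?_, Or.inr ?_⟩
      · rw [evN]
        exact mul_ne_zero hξ0 g4
      · rw [evN, evN, mul_div_mul_left _ _ hξ0, hvd]
        simp only
        rw [g3, neg_mul_neg, hza]
        rw [div_eq_div_iff g4 g2]
        ring

end

end Run7.h725
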