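import Mathlib
import Pool.Agent.Run7.h725.D1Crit

/-! The images of analytic curves of points under `(H P + ξ² U) / (H Q + ξ² W)`. -/

set_option autoImplicit false

open Topology Filter Metric Set Polynomial

namespace Run7.h725

open Pool.Agent.W757.QR (wn)

section

variable {P Q U W H H₁ : ℂ[X]} {a : ℂ}

lemma an_eval (R : ℂ[X]) {v : ℂ → ℂ} (hv : AnalyticAt ℂ v 0) :
    AnalyticAt ℂ (fun ξ => R.eval (v ξ)) 0 :=
  AnalyticAt.comp' (g := fun z => R.eval z) (R.differentiable.analyticAt _) hv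

lemma hd_eval (R : ℂ[X]) {v : ℂ → ℂ} (hv : AnalyticAt ℂ v 0) :
    HasDerivAt (fun ξ => R.eval (v ξ)) ((derivative R).eval (v 0) * deriv v 0) 0 :=
  (R.hasDerivAt (v 0)).comp (0 : ℂ) hv.differentiableAt.hasDerivAt

/-- the image of a curve at a point which is not a hole -/
lemma pass_reg (hH : H.eval a ≠ 0) (hQ : Q.eval a ≠ 0) {v : ℂ → ℂ} (hv : AnalyticAt ℂ v 0)
    (hv0 : v 0 = a) :
    ∃ v' : ℂ → ℂ, AnalyticAt ℂ v' 0 ∧ v' 0 = P.eval a / Q.eval a ∧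
      deriv v' 0 = (wn P Q).eval a / Q.eval a ^ 2 * deriv v 0 ∧
      ∀ᶠ ξ in 𝓝[≠] (0 : ℂ), (H * Q + C (ξ ^ 2) * W).eval (v ξ) ≠ 0 ∧
        (H * P + C (ξ ^ 2) * U).eval (v ξ) / (H * Q + C (ξ ^ 2) * W).eval (v ξ) = v' ξ := by
  have hsq : AnalyticAt ℂ (fun ξ : ℂ => ξ ^ 2) 0 := analyticAt_id.pow 2
  have hnum : ∀ R S : ℂ[X], AnalyticAt ℂ (fun ξ => H.eval (v ξ) * R.eval (v ξ) +
      ξ ^ 2 * S.eval (v ξ)) 0 := fun R S =>
    ((an_eval H hv).mul (an_eval R hv)).add (hsq.mul (an_eval S hv))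
  have hder : ∀ R S : ℂ[X], HasDerivAt (fun ξ => H.eval (v ξ) * R.eval (v ξ) +
      ξ ^ 2 * S.eval (v ξ)) (((derivative H).eval a * R.eval a + H.eval a *
        (derivative R).eval a) * deriv v 0) 0 := by
    intro R S
    have h1 := ((hd_eval H hv).mul (hd_eval R hv)).add ((hasDerivAt_pow 2 (0 : ℂ)).mul (hd_eval S hv))
    refine h1.congr_deriv ?_
    rw [hv0]
    simp
    ring
  have hd0 : H.eval (v 0) * Q.eval (v 0) + (0 : ℂ) ^ 2 * W.eval (v 0) ≠ 0 := by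
    rw [hv0, zero_pow two_ne_zero, zero_mul, add_zero]
    exact mul_ne_zero hH hQ
  refine ⟨fun ξ => (H.eval (v ξ) * P.eval (v ξ) + ξ ^ 2 * U.eval (v ξ)) /
    (H.eval (v ξ) * Q.eval (v ξ) + ξ ^ 2 * W.eval (v ξ)), (hnum P U).div (hnum Q W) hd0, ?_, ?_, ?_⟩
  · simp only
    rw [hv0, zero_pow two_ne_zero, zero_mul, add_zero, zero_mul, add_zero, mul_div_mul_left _ _ hH]
  · have h1 := (hder P U).div (hder Q W) hd0
    refine h1.deriv.trans ?_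
    rw [hv0, zero_pow two_ne_zero, zero_mul, add_zero, zero_mul, add_zero]
    unfold wn
    rw [eval_sub, eval_mul, eval_mul]
    field_simp
    ring
  · have h1 : ∀ᶠ ξ in 𝓝 (0 : ℂ), H.eval (v ξ) * Q.eval (v ξ) + ξ ^ 2 * W.eval (v ξ) ≠ 0 :=
      (hnum Q W).continuousAt.eventually_ne hd0
    filter_upwards [h1.filter_mono nhdsWithin_le_nhds] with ξ hξ
    simp only [eval_add, eval_mul, eval_C]
    exact ⟨hξ, trivial⟩

/-- the image of a curve at a simple hole -/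
lemma pass_hole (hH : H₁.eval a ≠ 0) (hQ : Q.eval a ≠ 0) {v : ℂ → ℂ} (hv : AnalyticAt ℂ v 0)
    (hv0 : v 0 = a) (hs : deriv v 0 ≠ 0) :
    ∃ v' : ℂ → ℂ, AnalyticAt ℂ v' 0 ∧ v' 0 = P.eval a / Q.eval a ∧
      deriv v' 0 = (wn P Q).eval a / Q.eval a ^ 2 * deriv v 0 +
        (U.eval a * Q.eval a - P.eval a * W.eval a) / (H₁.eval a * Q.eval a ^ 2) / deriv v 0 ∧
      ∀ᶠ ξ in 𝓝[≠] (0 : ℂ), ((X - C a) * H₁ * Q + C (ξ ^ 2) * W).eval (v ξ) ≠ 0 ∧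
        ((X - C a) * H₁ * P + C (ξ ^ 2) * U).eval (v ξ) /
          ((X - C a) * H₁ * Q + C (ξ ^ 2) * W).eval (v ξ) = v' ξ := by
  obtain ⟨g, hg⟩ : ∃ g : ℂ → ℂ, g = dslope v 0 := ⟨_, rfl⟩
  have hga : AnalyticAt ℂ g 0 := by
    obtain ⟨p, hp⟩ := hv
    rw [hg]
    exact ⟨_, hp.has_fpower_series_dslope_fslope⟩
  have hg0 : g 0 = deriv v 0 := by rw [hg, dslope_same]
  have hvg : ∀ ξ, v ξ = a + ξ * g ξ := by
    intro ξ
    have h1 := sub_smul_dslope v 0 ξ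
    rw [sub_zero, smul_eq_mul, hv0, ← hg] at h1
    rw [h1]
    ring
  obtain ⟨s, hsd⟩ : ∃ s, s = deriv v 0 := ⟨_, rfl⟩
  rw [← hsd] at hs hg0 ⊢
  have hid : AnalyticAt ℂ (fun ξ : ℂ => ξ) 0 := analyticAt_id
  have hnum : ∀ R S : ℂ[X], AnalyticAt ℂ (fun ξ => g ξ * (H₁.eval (v ξ) * R.eval (v ξ)) +
      ξ * S.eval (v ξ)) 0 := fun R S =>
    (hga.mul ((an_eval H₁ hv).mul (an_eval R hv))).add (hid.mul (an_eval S hv))
  have hder : ∀ R S : ℂ[X], HasDerivAt (fun ξ => g ξ * (H₁.eval (v ξ) * R.eval (v ξ)) +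
      ξ * S.eval (v ξ)) (deriv g 0 * (H₁.eval a * R.eval a) + s *
        (((derivative H₁).eval a * R.eval a + H₁.eval a * (derivative R).eval a) * s) +
        S.eval a) 0 := by
    intro R S
    have h1 := ((hga.differentiableAt.hasDerivAt).mul ((hd_eval H₁ hv).mul (hd_eval R hv))).add
      ((hasDerivAt_id (0 : ℂ)).mul (hd_eval S hv))
    refine h1.congr_deriv ?_
    simp only [Pi.mul_apply, hv0, hg0, ← hsd, id_eq]
    ring
  have hd0 : g 0 * (H₁.eval (v 0) * Q.eval (v 0)) + 0 * W.eval (v 0) ≠ 0 := by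
    rw [hv0, hg0, zero_mul, add_zero]
    exact mul_ne_zero hs (mul_ne_zero hH hQ)
  refine ⟨fun ξ => (g ξ * (H₁.eval (v ξ) * P.eval (v ξ)) + ξ * U.eval (v ξ)) /
    (g ξ * (H₁.eval (v ξ) * Q.eval (v ξ)) + ξ * W.eval (v ξ)), (hnum P U).div (hnum Q W) hd0,
    ?_, ?_, ?_⟩
  · simp only
    rw [hv0, hg0, zero_mul, add_zero, zero_mul, add_zero, mul_div_mul_left _ _ hs,
      mul_div_mul_left _ _ hH]
  · have h1 := (hder P U).div (hder Q W) hd0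
    refine h1.deriv.trans ?_
    rw [hv0, hg0, zero_mul, add_zero, zero_mul, add_zero]
    unfold wn
    rw [eval_sub, eval_mul, eval_mul]
    field_simp
    ring
  · have h1 : ∀ᶠ ξ in 𝓝 (0 : ℂ), g ξ * (H₁.eval (v ξ) * Q.eval (v ξ)) + ξ * W.eval (v ξ) ≠ 0 :=
      (hnum Q W).continuousAt.eventually_ne hd0
    filter_upwards [h1.filter_mono nhdsWithin_le_nhds, self_mem_nhdsWithin] with ξ hξ hξ0
    have hξ0' : ξ ≠ 0 := hξ0
    have e : ∀ R S : ℂ[X], ((X - C a) * H₁ * R + C (ξ ^ 2) * S).eval (v ξ) =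
        ξ * (g ξ * (H₁.eval (v ξ) * R.eval (v ξ)) + ξ * S.eval (v ξ)) := by
      intro R S
      simp only [eval_add, eval_mul, eval_C, eval_sub, eval_X]
      have h2 : v ξ - a = ξ * g ξ := by rw [hvg]; ring
      rw [h2]
      ring
    rw [e, e]
    exact ⟨mul_ne_zero hξ0' hξ, mul_div_mul_left _ _ hξ0'⟩

end

end Run7.h725
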