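import Mathlib
import Pool.Agent.W364.REFAT
import Pool.Agent.Lev.J_koenigs

/-! The critical orbits of `t ↦ μ (t + 1 / t)`, `|μ| > 1`, tend to infinity. -/

set_option autoImplicit false

open Topology Filter Metric Set

namespace Run7.h725

open Pool.Agent.H790R3.RB (CV hF cr ND wr hF_smul)

/-- the map `t ↦ μ (t + 1 / t)` in the coordinate `1 / (t - τ)` at a fixed point `τ` -/
noncomputable def xg (μ τ : ℂ) : CV 2 := fun r =>
  (![![0, τ, τ ^ 2], ![μ * τ, μ * (τ ^ 2 - 1), 0]] r.1) r.2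

lemma xg_hF (μ τ : ℂ) (p : ℂ × ℂ) : hF (xg μ τ) p =
    (τ ^ 2 * p.1 ^ 2 + τ * p.1 * p.2, μ * (τ ^ 2 - 1) * p.1 * p.2 + μ * τ * p.2 ^ 2) := by
  unfold hF xg
  ext
  · simp [Fin.sum_univ_succ]
    ring
  · simp [Fin.sum_univ_succ]
    ring

lemma xg_wr (μ τ : ℂ) (p : ℂ × ℂ) : wr (xg μ τ) p =
    2 * μ * τ ^ 2 * ((p.2 + τ * p.1) ^ 2 - p.1 ^ 2) := by
  unfold wr xg
  simp [Fin.sum_univ_succ]
  ring

/-- homogeneous coordinates -/
def eg (τ t : ℂ) : ℂ × ℂ := (1, t - τ)

lemma xg_eg {μ τ t : ℂ} (hτ : τ ≠ 0) (hf : μ * (τ + 1 / τ) = τ) (ht : t ≠ 0) :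
    hF (xg μ τ) (eg τ t) = (τ * t) • eg τ (μ * (t + 1 / t)) := by
  rw [xg_hF]
  unfold eg
  have hf' : μ * (τ ^ 2 + 1) = τ ^ 2 := by
    have h1 : μ * (τ + 1 / τ) * τ = μ * (τ ^ 2 + 1) := by
      field_simp
    rw [← h1, hf]
    ring
  ext
  · simp
    ring
  · simp
    field_simp
    linear_combination (-t) * hf'

lemma xg_nd {μ τ : ℂ} (hμ : μ ≠ 0) (hτ : τ ≠ 0) : ND (xg μ τ) := by
  intro p hp
  rw [xg_hF, Prod.mk_eq_zero] at hp
  obtain ⟨h1, h2⟩ := hp
  have h3 : p.1 * (τ * p.1 + p.2) = 0 := by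
    have : τ * (p.1 * (τ * p.1 + p.2)) = 0 := by linear_combination h1
    exact (mul_eq_zero.1 this).resolve_left hτ
  have h4 : p.2 * ((τ ^ 2 - 1) * p.1 + τ * p.2) = 0 := by
    have : μ * (p.2 * ((τ ^ 2 - 1) * p.1 + τ * p.2)) = 0 := by linear_combination h2
    exact (mul_eq_zero.1 this).resolve_left hμ
  rcases mul_eq_zero.1 h3 with h5 | h5
  · rcases mul_eq_zero.1 h4 with h6 | h6
    · exact Prod.ext h5 h6
    · rw [h5, mul_zero, zero_add] at h6
      exact Prod.ext h5 ((mul_eq_zero.1 h6).resolve_left hτ)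
  · rcases mul_eq_zero.1 h4 with h6 | h6
    · rw [h6, add_zero] at h5
      exact Prod.ext ((mul_eq_zero.1 h5).resolve_left hτ) h6
    · have h7 : p.1 = 0 := by linear_combination τ * h5 - h6
      rw [h7, mul_zero, zero_add] at h5
      exact Prod.ext h7 h5

/-- the critical orbits tend to infinity -/
theorem scal {μ : ℂ} (hμ : 1 < ‖μ‖) (t : ℕ → ℂ) (h0 : t 0 = 1)
    (hs : ∀ i, t (i + 1) = μ * (t i + 1 / t i)) :
    (∀ i, t i ≠ 0) ∧ Tendsto (fun i => ‖t i‖) atTop atTop := by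
  have hμ0 : μ ≠ 0 := by
    rintro rfl
    rw [norm_zero] at hμ
    linarith
  have hμ1 : μ ≠ 1 := by
    rintro rfl
    rw [norm_one] at hμ
    linarith
  have h1μ : 1 - μ ≠ 0 := sub_ne_zero.2 (Ne.symm hμ1)
  obtain ⟨τ, hτ⟩ : ∃ τ : ℂ, τ ^ 2 = μ / (1 - μ) := IsAlgClosed.exists_pow_nat_eq _ (by norm_num)
  have hτ0 : τ ≠ 0 := by
    rintro rfl
    rw [zero_pow two_ne_zero] at hτ
    exact div_ne_zero hμ0 h1μ hτ.symm
  have hτ2 : μ * (τ ^ 2 + 1) = τ ^ 2 := by
    rw [hτ]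
    field_simp
    ring
  have hf : μ * (τ + 1 / τ) = τ := by
    field_simp
    linear_combination hτ2
  have hτ1 : τ ^ 2 - 1 ≠ 0 := by
    intro h1
    have h2 : τ ^ 2 = 1 := by linear_combination h1
    rw [h2] at hτ2
    have h3 : μ = 1 / 2 := by linear_combination hτ2 / 2
    rw [h3] at hμ
    norm_num at hμ
  -- the linearisation
  obtain ⟨f, hfd⟩ : ∃ f : ℂ → ℂ, f = fun u => u * ((τ ^ 2 * u + τ) / (μ * ((τ ^ 2 - 1) * u + τ))) :=
    ⟨_, rfl⟩
  have hk : ContinuousAt (fun u : ℂ => (τ ^ 2 * u + τ) / (μ * ((τ ^ 2 - 1) * u + τ))) 0 := by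
    refine ContinuousAt.div (by fun_prop) (by fun_prop) ?_
    rw [mul_zero, zero_add]
    exact mul_ne_zero hμ0 hτ0
  have hev : ∀ᶠ u : ℂ in 𝓝 0, (τ ^ 2 - 1) * u + τ ≠ 0 ∧
      ‖(τ ^ 2 * u + τ) / (μ * ((τ ^ 2 - 1) * u + τ))‖ < 1 := by
    refine Eventually.and ?_ ?_
    · have h1 : Continuous fun u : ℂ => (τ ^ 2 - 1) * u + τ := by fun_prop
      refine h1.continuousAt.eventually_ne ?_
      rw [mul_zero, zero_add]
      exact hτ0
    · refine hk.norm.eventually_lt continuousAt_const ?_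
      simp only [mul_zero, zero_add]
      rw [norm_div, norm_mul, div_lt_one (by positivity)]
      have := norm_pos_iff.2 hτ0
      nlinarith
  obtain ⟨r, hr, hb⟩ := Metric.eventually_nhds_iff_ball.1 hev
  have hfdiff : DifferentiableOn ℂ f (ball 0 r) := by
    intro u hu
    rw [hfd]
    refine DifferentiableAt.differentiableWithinAt ?_
    refine differentiableAt_id.mul (DifferentiableAt.div (by fun_prop) (by fun_prop) ?_)
    exact mul_ne_zero hμ0 (hb u hu).1
  have hmaps : MapsTo f (ball 0 r) (ball 0 r) := by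
    intro u hu
    have h1 := (hb u hu).2
    rw [mem_ball_zero_iff] at hu ⊢
    rw [hfd]
    simp only
    rw [norm_mul]
    nlinarith [norm_nonneg u, norm_nonneg ((τ ^ 2 * u + τ) / (μ * ((τ ^ 2 - 1) * u + τ)))]
  have hf0 : f 0 = 0 := by rw [hfd]; simp
  have hderf : deriv f 0 = μ⁻¹ := by
    have h1 : HasDerivAt f μ⁻¹ 0 := by
      rw [hasDerivAt_iff_tendsto_slope_zero]
      have h2 : Tendsto (fun u : ℂ => (τ ^ 2 * u + τ) / (μ * ((τ ^ 2 - 1) * u + τ))) (𝓝[≠] 0)
          (𝓝 μ⁻¹) := by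
        have h3 := hk.tendsto
        have h4 : (τ ^ 2 * 0 + τ) / (μ * ((τ ^ 2 - 1) * 0 + τ)) = μ⁻¹ := by
          rw [mul_zero, mul_zero, zero_add]
          field_simp
        rw [h4] at h3
        exact h3.mono_left nhdsWithin_le_nhds
      refine h2.congr' ?_
      filter_upwards [self_mem_nhdsWithin] with u hu
      have hu0 : u ≠ 0 := hu
      rw [zero_add, hf0, sub_zero, smul_eq_mul, hfd]
      field_simp
    exact h1.deriv
  obtain ⟨ρ, hρ, ψ, hψd, hψ0, hψ1, hψi, hψm, hψf⟩ := Pool.Agent.Lev.J_koenigs.main f 0 r 0 hr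
    hfdiff hmaps (mem_ball_self hr) hf0 (by rw [hderf]; exact inv_ne_zero hμ0)
    (by rw [hderf, norm_inv]; exact inv_lt_one_of_one_lt₀ hμ)
  rw [hderf] at hψf
  obtain ⟨lam, hlam⟩ : ∃ lam, lam = μ⁻¹ := ⟨_, rfl⟩
  rw [← hlam] at hψf
  have hlam0 : lam ≠ 0 := by rw [hlam]; exact inv_ne_zero hμ0
  have hlam1 : ‖lam‖ < 1 := by rw [hlam, norm_inv]; exact inv_lt_one_of_one_lt₀ hμ
  have hψne : ∀ w ∈ ball (0 : ℂ) ρ, w ≠ 0 → ψ w ≠ 0 := by
    intro w hw hw0 h1
    apply hw0
    apply hψi hw (mem_ball_self hρ)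
    rw [h1, hψ0]
  -- Fatou's argument
  obtain ⟨CK, hCK, hFAT⟩ := Pool.Agent.W364.REFAT.task
  obtain ⟨ζ₀, hζ₀⟩ : ∃ ζ₀, ζ₀ = -τ / (τ ^ 2 - 1) := ⟨_, rfl⟩
  have hcrit : ∃ c : ℂ × ℂ, c ≠ 0 ∧ wr (xg μ τ) c = 0 ∧ ∃ m : ℕ, ∃ w ∈ ball (0 : ℂ) ρ, w ≠ 0 ∧
      cr ((hF (xg μ τ))^[m] c) (ψ w, 1) = 0 := by
    by_contra hcon
    push Not at hcon
    have h1 := hFAT 2 1 (xg μ τ) ψ lam ζ₀ ρ (CK * ‖ψ 0 - ζ₀‖ + 1) le_rfl le_rfl (xg_nd hμ0 hτ0)
      (by rw [xg_hF]; simp) (by
        rw [xg_hF, hζ₀]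
        simp only
        field_simp
        ring) hρ (by positivity) hlam0 hlam1 hψd hψi (by
        intro w hw
        have h2 := hψf w hw
        have h3 := (hb (ψ w) (hψm hw)).1
        rw [Function.iterate_one, xg_hF]
        unfold cr
        simp only
        rw [← h2, hfd]
        simp only
        obtain ⟨D, hD⟩ : ∃ D, D = (τ ^ 2 - 1) * ψ w + τ := ⟨_, rfl⟩
        rw [← hD] at h3 ⊢
        have e1 : μ * (τ ^ 2 - 1) * ψ w * 1 + μ * τ * 1 ^ 2 = μ * D := by rw [hD]; ring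
        rw [e1]
        field_simp
        ring) (fun c hc hwc m w hw hw0 hcr => absurd hcr (hcon c hc hwc m w hw hw0))
    rw [hψ1, norm_one, one_mul] at h1
    linarith
  obtain ⟨c, hc0, hwc, m, w, hw, hw0, hcr⟩ := hcrit
  -- the critical point
  have hc1 : c.1 ≠ 0 := by
    intro h1
    rw [xg_wr, h1, mul_zero, add_zero] at hwc
    have h2 : c.2 ^ 2 = 0 := by
      have h3 : 2 * μ * τ ^ 2 ≠ 0 := mul_ne_zero (mul_ne_zero two_ne_zero hμ0) (pow_ne_zero _ hτ0)
      have h4 := (mul_eq_zero.1 hwc).resolve_left h3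
      linear_combination h4
    exact hc0 (Prod.ext h1 (pow_eq_zero_iff two_ne_zero |>.1 h2))
  obtain ⟨ε, hε, hcε⟩ : ∃ ε : ℂ, (ε = 1 ∨ ε = -1) ∧ c = c.1 • eg τ ε := by
    rw [xg_wr] at hwc
    have h3 : 2 * μ * τ ^ 2 ≠ 0 := mul_ne_zero (mul_ne_zero two_ne_zero hμ0) (pow_ne_zero _ hτ0)
    have h4 := (mul_eq_zero.1 hwc).resolve_left h3
    have h5 : (c.2 + τ * c.1 - c.1) * (c.2 + τ * c.1 + c.1) = 0 := by linear_combination h4
    rcases mul_eq_zero.1 h5 with h6 | h6
    · refine ⟨1, Or.inl rfl, ?_⟩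
      unfold eg
      ext
      · simp
      · simp
        linear_combination h6
    · refine ⟨-1, Or.inr rfl, ?_⟩
      unfold eg
      ext
      · simp
      · simp
        linear_combination h6
  have hε2 : ε ^ 2 = 1 := by rcases hε with rfl | rfl <;> norm_num
  have hεn : ‖ε‖ = 1 := by rcases hε with rfl | rfl <;> simp
  have hε0 : ε ≠ 0 := by
    rintro rfl
    rw [norm_zero] at hεn
    norm_num at hεn
  have hεs : ∀ i, ε * t (i + 1) = μ * (ε * t i + 1 / (ε * t i)) := by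
    intro i
    rw [hs]
    have h1 : 1 / (ε * t i) = ε * (1 / t i) := by
      have h2 : ε⁻¹ = ε := by
        rw [inv_eq_iff_eq_inv, ← one_div, eq_div_iff hε0, ← sq, hε2]
      rw [one_div, mul_inv, h2, one_div]
    rw [h1]
    ring
  -- the orbit of the critical point
  have horb : ∀ i, (∀ j < i, t j ≠ 0) → ∃ K : ℂ, K ≠ 0 ∧
      (hF (xg μ τ))^[i] c = K • eg τ (ε * t i) := by
    intro i
    induction i with
    | zero =>
      intro _
      refine ⟨c.1, hc1, ?_⟩
      rw [Function.iterate_zero_apply, h0, mul_one]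
      exact hcε
    | succ i ih =>
      intro hj
      obtain ⟨K, hK, hKe⟩ := ih fun j hj' => hj j (by omega)
      have hti := hj i (by omega)
      refine ⟨K ^ 2 * (τ * (ε * t i)), mul_ne_zero (pow_ne_zero _ hK)
        (mul_ne_zero hτ0 (mul_ne_zero hε0 hti)), ?_⟩
      rw [Function.iterate_succ_apply', hKe, hF_smul, xg_eg hτ0 hf (mul_ne_zero hε0 hti),
        smul_smul, ← hεs]
  -- the times after `m`
  have key : (∀ j < m, t j ≠ 0) → ∀ k, (ε * t (m + k) - τ) * ψ (lam ^ k * w) = 1 := by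
    intro hj
    have hball : ∀ k, lam ^ k * w ∈ ball (0 : ℂ) ρ := by
      intro k
      rw [mem_ball_zero_iff] at hw ⊢
      rw [norm_mul, norm_pow]
      calc ‖lam‖ ^ k * ‖w‖ ≤ 1 * ‖w‖ :=
            mul_le_mul_of_nonneg_right (pow_le_one₀ (norm_nonneg _) hlam1.le) (norm_nonneg _)
        _ < ρ := by rwa [one_mul]
    have hne : ∀ k, lam ^ k * w ≠ 0 := fun k => mul_ne_zero (pow_ne_zero _ hlam0) hw0
    intro k
    induction k with
    | zero =>
      obtain ⟨K, hK, hKe⟩ := horb m hj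
      rw [hKe] at hcr
      unfold cr eg at hcr
      simp only [Prod.smul_fst, Prod.smul_snd, smul_eq_mul, mul_one] at hcr
      rw [pow_zero, one_mul, add_zero]
      have h1 : K * (1 - (ε * t m - τ) * ψ w) = 0 := by linear_combination hcr
      have h2 := (mul_eq_zero.1 h1).resolve_left hK
      linear_combination -h2
    | succ k ih =>
      obtain ⟨u, hu⟩ : ∃ u, u = ψ (lam ^ k * w) := ⟨_, rfl⟩
      obtain ⟨T, hT⟩ : ∃ T, T = ε * t (m + k) := ⟨_, rfl⟩
      rw [← hu, ← hT] at ih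
      have hu0 : u ≠ 0 := by rw [hu]; exact hψne _ (hball k) (hne k)
      have hfu : f u = ψ (lam ^ (k + 1) * w) := by
        rw [hu, hψf _ (hball k)]
        congr 1
        ring
      have hden := (hb u (by rw [hu]; exact hψm (hball k))).1
      have e1 : τ ^ 2 * u + τ = τ * T * u := by linear_combination (-τ) * ih
      have e2 : (τ ^ 2 - 1) * u + τ = u * (τ * T - 1) := by linear_combination (-τ) * ih
      have hT1 : τ * T - 1 ≠ 0 := by
        intro h1
        rw [e2, h1, mul_zero] at hden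
        exact hden rfl
      have hfu2 : f u = τ * T * u / (μ * (τ * T - 1)) := by
        rw [hfd]
        simp only
        rw [e1, e2]
        field_simp
      have hT0 : T ≠ 0 := by
        intro h1
        rw [h1, mul_zero, zero_mul, zero_div] at hfu2
        rw [hfu2] at hfu
        exact hψne _ (hball (k + 1)) (hne (k + 1)) hfu.symm
      rw [← hfu, hfu2, ← add_assoc, hεs, ← hT]
      have e3 : μ * (T + 1 / T) - τ = μ * (T - τ) * (τ * T - 1) / (τ * T) := by
        rw [eq_div_iff (mul_ne_zero hτ0 hT0)]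
        field_simp
        linear_combination T * hτ2
      rw [e3]
      obtain ⟨E, hE⟩ : ∃ E, E = τ * T - 1 := ⟨_, rfl⟩
      rw [← hE] at hT1 ⊢
      have e4 : μ * (T - τ) * E / (τ * T) * (τ * T * u / (μ * E)) = (T - τ) * u := by
        field_simp
      rw [e4, ih]
  -- no zero
  have hnz : ∀ i, t i ≠ 0 := by
    by_contra hcon
    push Not at hcon
    classical
    have h1 := Nat.find_spec hcon
    obtain ⟨i₀, hi₀⟩ : ∃ i₀, i₀ = Nat.find hcon := ⟨_, rfl⟩
    rw [← hi₀] at h1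
    have hmin : ∀ j < i₀, t j ≠ 0 := fun j hj => Nat.find_min hcon (by rw [← hi₀]; exact hj)
    rcases le_or_gt m i₀ with h2 | h2
    · -- the orbit has entered the disc
      obtain ⟨k, rfl⟩ := Nat.exists_eq_add_of_le h2
      have h3 := key (fun j hj => hmin j (by omega))
      have h4 := h3 k
      have h5 := h3 (k + 1)
      have h6 : t (m + (k + 1)) = 0 := by
        have h7 := hs (m + k)
        rw [h1, div_zero, add_zero, mul_zero] at h7
        rw [← add_assoc]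
        exact h7
      rw [h1, mul_zero, zero_sub] at h4
      rw [h6, mul_zero, zero_sub] at h5
      have h8 : ψ (lam ^ k * w) = ψ (lam ^ (k + 1) * w) := by
        have h9 : -τ * (ψ (lam ^ k * w) - ψ (lam ^ (k + 1) * w)) = 0 := by
          linear_combination h4 - h5
        exact sub_eq_zero.1 ((mul_eq_zero.1 h9).resolve_left (neg_ne_zero.2 hτ0))
      have hball : ∀ k, lam ^ k * w ∈ ball (0 : ℂ) ρ := by
        intro k
        rw [mem_ball_zero_iff] at hw ⊢
        rw [norm_mul, norm_pow]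
        calc ‖lam‖ ^ k * ‖w‖ ≤ 1 * ‖w‖ :=
              mul_le_mul_of_nonneg_right (pow_le_one₀ (norm_nonneg _) hlam1.le) (norm_nonneg _)
          _ < ρ := by rwa [one_mul]
      have h9 := hψi (hball k) (hball (k + 1)) h8
      have h10 : lam ^ k * w * (1 - lam) = 0 := by
        rw [pow_succ] at h9
        linear_combination h9
      rcases mul_eq_zero.1 h10 with h11 | h11
      · exact mul_ne_zero (pow_ne_zero _ hlam0) hw0 h11
      · have h12 : lam = 1 := by linear_combination -h11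
        rw [h12, norm_one] at hlam1
        exact lt_irrefl _ hlam1
    · -- the orbit is at infinity before
      obtain ⟨K, hK, hKe⟩ := horb i₀ hmin
      rw [h1, mul_zero] at hKe
      have h3 : ∀ k, ∃ K' : ℂ, K' ≠ 0 ∧ (hF (xg μ τ))^[i₀ + 1 + k] c = (0, K') := by
        intro k
        induction k with
        | zero =>
          refine ⟨K ^ 2 * (μ * τ), mul_ne_zero (pow_ne_zero _ hK) (mul_ne_zero hμ0 hτ0), ?_⟩
          rw [add_zero, Function.iterate_succ_apply', hKe, hF_smul, xg_hF]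
          unfold eg
          refine Prod.ext ?_ ?_
          · simp only [Prod.smul_fst, smul_eq_mul]
            ring
          · simp only [Prod.smul_snd, smul_eq_mul]
            ring
        | succ k ih =>
          obtain ⟨K', hK', hKe'⟩ := ih
          refine ⟨μ * τ * K' ^ 2, mul_ne_zero (mul_ne_zero hμ0 hτ0) (pow_ne_zero _ hK'), ?_⟩
          rw [← add_assoc, Function.iterate_succ_apply', hKe', xg_hF]
          ext <;> simp
      obtain ⟨k, rfl⟩ : ∃ k, m = i₀ + 1 + k := ⟨m - (i₀ + 1), by omega⟩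
      obtain ⟨K', hK', hKe'⟩ := h3 k
      rw [hKe'] at hcr
      unfold cr at hcr
      simp only [zero_mul, zero_sub, neg_eq_zero] at hcr
      exact hψne w hw hw0 ((mul_eq_zero.1 hcr).resolve_left hK')
  refine ⟨hnz, ?_⟩
  have h1 := key fun j _ => hnz j
  have h2 : Tendsto (fun k : ℕ => ψ (lam ^ k * w)) atTop (𝓝 0) := by
    have h3 : ContinuousAt ψ 0 :=
      (hψd.differentiableAt (ball_mem_nhds 0 hρ)).continuousAt
    have h4 : Tendsto (fun k : ℕ => lam ^ k * w) atTop (𝓝 0) := by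
      have h5 := (tendsto_pow_atTop_nhds_zero_of_norm_lt_one hlam1).mul_const w
      rwa [zero_mul] at h5
    have h5 := h3.tendsto.comp h4
    rwa [hψ0] at h5
  have h3 : Tendsto (fun k : ℕ => ‖ψ (lam ^ k * w)‖⁻¹) atTop atTop := by
    apply Tendsto.inv_tendsto_nhdsGT_zero
    refine tendsto_nhdsWithin_iff.2 ⟨?_, Eventually.of_forall fun k => ?_⟩
    · have := h2.norm
      rwa [norm_zero] at this
    · show 0 < ‖ψ (lam ^ k * w)‖
      rw [norm_pos_iff]
      intro h4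
      have h5 := h1 k
      rw [h4, mul_zero] at h5
      exact zero_ne_one h5
  have h4 : Tendsto (fun k : ℕ => ‖t (m + k)‖) atTop atTop := by
    have h5 : ∀ k, ‖ψ (lam ^ k * w)‖⁻¹ - ‖τ‖ ≤ ‖t (m + k)‖ := by
      intro k
      have h6 := h1 k
      have h7 : ε * t (m + k) - τ = (ψ (lam ^ k * w))⁻¹ := eq_inv_of_mul_eq_one_left h6
      have h8 := norm_sub_norm_le (ε * t (m + k) - τ) (-τ)
      rw [sub_neg_eq_add, sub_add_cancel, norm_neg, h7, norm_inv, norm_mul, hεn, one_mul] at h8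
      exact h8
    exact tendsto_atTop_mono h5 (tendsto_atTop_add_const_right _ _ h3)
  refine (tendsto_add_atTop_iff_nat (f := fun i => ‖t i‖) (l := atTop) m).1 ?_
  refine h4.congr fun k => ?_
  rw [add_comm]

end Run7.h725
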