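import Pool.Agent.Run7.h725.A3Shadow

/-! Shadowing when the orbit passes through poles, for a fast moving point. -/

set_option autoImplicit false

open Topology Filter Metric Set MeasureTheory

namespace Run7.h725

variable {w : ℕ → ℂ} {f : ℂ → ℂ} {G : ℕ → ℂ → ℂ} {L : ℕ → ℝ} {r₁ M κ : ℝ} {Hl : Finset ℂ}
  {F : ℂ → ℂ → ℂ}

theorem shadowP (hB : Brs w f G L r₁ M) (hP : Prt w Hl f F r₁ M κ) (hr1' : r₁ ≤ 1)
    (hw : ∀ k, ∀ h ∈ Hl, w k ≠ h → 2 * r₁ ≤ ‖w k - h‖) :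
    ∃ C : ℝ, 0 < C ∧ ∀ ε : ℝ, 0 < ε → ∃ c₁ : ℝ, 0 < c₁ ∧ ∀ (v : ℂ → ℂ) (c₀ : ℂ), c₁ ≤ ‖c₀‖ →
      v 0 = w 0 → HasStrictDerivAt v c₀ 0 →
      ∀ t : Finset (ℂ × ℝ), (∀ p ∈ t, 0 < p.2) → ∑ p ∈ t, p.2 ^ 2 ≤ ε →
      ∃ ϱ₀ : ℝ, 0 < ϱ₀ ∧ ∀ ϱ : ℝ, 0 < ϱ → ϱ ≤ ϱ₀ → ∃ X : Set ℂ, (0 : ℂ) ∈ X ∧
        volume X ≤ ENNReal.ofReal (C * ε * ϱ ^ 2) ∧ ∀ ξ ∈ ball (0 : ℂ) ϱ \ X, ∃ n : ℕ,
          (∀ k < n, ZZ F v k ξ ∈ closedBall (w k) r₁ ∧ ∃ ρ : ℝ, 0 < ρ ∧ ρ ≤ 1 ∧ ‖ξ ^ 2‖ ≤ κ * ρ ∧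
            ∀ h ∈ Hl, ρ ≤ ‖ZZ F v k ξ - h‖) ∧
          ZZ F v n ξ ∈ closedBall (w n) r₁ ∧ ∀ p ∈ t, ZZ F v n ξ ∉ ball p.1 p.2 := by
  classical
  have hr1 := hB.r1
  have hM1 := hB.M1
  have hM0 : 0 < M := by linarith
  have hκ := hP.κ0
  have hLinv : ∀ k, (L k)⁻¹ ≤ M := fun k => by
    have h1 := hB.low k
    rw [inv_le_iff_one_le_mul₀ (hB.Lpos k)]
    exact h1
  obtain ⟨S1, hS1⟩ : ∃ S1 : ℝ, S1 = ∑' k, (L k)⁻¹ := ⟨_, rfl⟩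
  have hS0 : 0 ≤ S1 := by
    rw [hS1]; exact tsum_nonneg fun k => (inv_pos.2 (hB.Lpos k)).le
  have hSk : ∀ k, ∑ i ∈ Finset.range k, (L i)⁻¹ ≤ S1 := fun k => by
    rw [hS1]; exact hB.sum.sum_le_tsum _ fun k _ => (inv_pos.2 (hB.Lpos k)).le
  refine ⟨16 + 16384 * M ^ 4 / r₁ ^ 2, by positivity, ?_⟩
  intro ε hε
  obtain ⟨κ₂, hκ₂⟩ : ∃ κ₂ : ℝ, κ₂ = min (√ε) 1 := ⟨_, rfl⟩
  have hκ20 : 0 < κ₂ := by rw [hκ₂]; exact lt_min (Real.sqrt_pos.2 hε) one_pos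
  have hκ21 : κ₂ ≤ 1 := by rw [hκ₂]; exact min_le_right _ _
  have hκ2ε : κ₂ ^ 2 ≤ ε := by
    have h1 : κ₂ ≤ √ε := by rw [hκ₂]; exact min_le_left _ _
    calc κ₂ ^ 2 ≤ (√ε) ^ 2 := by gcongr
      _ = ε := Real.sq_sqrt hε.le
  obtain ⟨κ₁, hκ₁⟩ : ∃ κ₁ : ℝ, κ₁ = κ₂ / 4 := ⟨_, rfl⟩
  have hκ10 : 0 < κ₁ := by rw [hκ₁]; positivity
  have hκ11 : κ₁ ≤ 1 := by rw [hκ₁]; linarith
  obtain ⟨A, hA⟩ : ∃ A : ℝ, A = 8 * M ^ 3 * S1 / (κ₁ * κ₂) := ⟨_, rfl⟩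
  obtain ⟨B, hBd⟩ : ∃ B : ℝ, B = 8 * M ^ 4 * (2 / κ₁ + 3 / κ₁ ^ 2) * S1 := ⟨_, rfl⟩
  have hA0 : 0 ≤ A := by rw [hA]; positivity
  have hB0 : 0 ≤ B := by rw [hBd]; positivity
  refine ⟨1 + A + B, by positivity, ?_⟩
  intro v c₀ hc₁ hv0 hvd t ht0 htε
  obtain ⟨c, hcdef⟩ : ∃ c : ℝ, c = ‖c₀‖ := ⟨_, rfl⟩
  rw [← hcdef] at hc₁
  have hc1 : 1 ≤ c := by linarith
  have hc : 0 < c := by linarith
  have hcA : A ≤ c ^ 2 := by nlinarith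
  have hcB : B ≤ c ^ 2 := by nlinarith
  obtain ⟨η, hηdef⟩ : ∃ η : ℝ, η = r₁ / (8 * M * c) := ⟨_, rfl⟩
  have hη : 0 < η := by rw [hηdef]; positivity
  have hη8 : 8 * M * c * η = r₁ := by rw [hηdef]; field_simp
  -- the Lipschitz condition
  obtain ⟨ϱ₁, hϱ₁, hlip⟩ : ∃ ϱ₁ : ℝ, 0 < ϱ₁ ∧ ∀ ξ ∈ ball (0 : ℂ) ϱ₁, ∀ ξ' ∈ ball (0 : ℂ) ϱ₁,
      ‖v ξ - v ξ' - c₀ * (ξ - ξ')‖ ≤ c / 4 * ‖ξ - ξ'‖ := by
    have h1 := hvd.isLittleO.bound (c := c / 4) (by positivity)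
    rw [Metric.eventually_nhds_iff_ball] at h1
    obtain ⟨ϱ₁, hϱ₁, h1⟩ := h1
    refine ⟨ϱ₁, hϱ₁, fun ξ hξ ξ' hξ' => ?_⟩
    have h2 := h1 (ξ, ξ') (by
      rw [mem_ball, Prod.dist_eq, max_lt_iff]
      exact ⟨hξ, hξ'⟩)
    simp only at h2
    rw [mul_comm c₀]
    simpa using h2
  -- the scale
  obtain ⟨ϱ₀, hϱ₀, hs⟩ : ∃ ϱ₀ : ℝ, 0 < ϱ₀ ∧ ∀ ϱ : ℝ, 0 < ϱ → ϱ ≤ ϱ₀ → ϱ ≤ ϱ₁ ∧ ϱ ≤ η ∧
      ϱ ≤ κ * κ₁ / M ∧ M ^ 2 / κ₁ * ϱ ≤ r₁ / 2 ∧ 3 * M ^ 2 * S1 / κ₁ * ϱ ≤ c / 8 := by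
    have hlin : ∀ a b : ℝ, 0 < b → ∀ᶠ ϱ in 𝓝[>] (0 : ℝ), a * ϱ ≤ b := by
      intro a b hb
      have h1 : Tendsto (fun ϱ : ℝ => a * ϱ) (𝓝[>] 0) (𝓝 0) := by
        have : Tendsto (fun m : ℝ => a * m) (𝓝 0) (𝓝 (a * 0)) :=
          (continuous_const.mul continuous_id).tendsto 0
        rw [mul_zero] at this
        exact this.mono_left nhdsWithin_le_nhds
      exact h1.eventually (ge_mem_nhds hb)
    have h := (hlin 1 ϱ₁ hϱ₁).and ((hlin 1 η hη).and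
      ((hlin 1 (κ * κ₁ / M) (by positivity)).and ((hlin (M ^ 2 / κ₁) (r₁ / 2) (by positivity)).and
      (hlin (3 * M ^ 2 * S1 / κ₁) (c / 8) (by positivity)))))
    obtain ⟨b, hb, hb'⟩ := mem_nhdsGT_iff_exists_Ioc_subset.1 h
    refine ⟨b, hb, fun ϱ h1 h2 => ?_⟩
    obtain ⟨g1, g2, g3, g4, g5⟩ := hb' ⟨h1, h2⟩
    rw [one_mul] at g1 g2 g3
    exact ⟨g1, g2, g3, g4, g5⟩
  refine ⟨ϱ₀, hϱ₀, fun ϱ hϱ hϱ' => ?_⟩
  obtain ⟨g1, g2, g3, g4, g5⟩ := hs ϱ hϱ hϱ'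
  -- the time
  obtain ⟨n, hn1, hn2⟩ : ∃ n : ℕ, (∀ k ≤ n, L k * ϱ ≤ η) ∧ η ≤ M * (L n * ϱ) := by
    have h1 : ∃ k, η < L k * ϱ := by
      have h2 := hB.sum.tendsto_atTop_zero
      have h3 : ∀ᶠ k in atTop, (L k)⁻¹ < ϱ / η := h2.eventually (gt_mem_nhds (by positivity))
      obtain ⟨k, hk⟩ := h3.exists
      refine ⟨k, ?_⟩
      have h4 := hB.Lpos k
      rw [inv_eq_one_div, div_lt_div_iff₀ h4 hη] at hk
      linarith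
    have h2 := Nat.find_spec h1
    have h3 : Nat.find h1 ≠ 0 := by
      intro h4
      rw [h4, hB.L0] at h2
      linarith
    obtain ⟨n, hn⟩ := Nat.exists_eq_succ_of_ne_zero h3
    refine ⟨n, fun k hk => ?_, ?_⟩
    · have := Nat.find_min h1 (m := k) (by omega)
      push Not at this
      exact this
    · rw [hn] at h2
      have h4 := hB.up1 n
      have h5 : L (n + 1) * ϱ ≤ M * L n * ϱ := by gcongr
      have h6 : η < L (n + 1) * ϱ := h2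
      linarith
  obtain ⟨ρ, hρ⟩ : ∃ ρ : ℕ → ℝ, ρ = fun k => κ₁ * c * L k * ϱ := ⟨_, rfl⟩
  have hρ0 : ∀ k, 0 < ρ k := fun k => by
    rw [hρ]
    have := hB.Lpos k
    positivity
  have hρr : ∀ k ≤ n, ρ k ≤ r₁ := fun k hk => by
    rw [hρ]
    have h1 := hn1 k hk
    have h2 := hB.Lpos k
    calc κ₁ * c * L k * ϱ = κ₁ * c * (L k * ϱ) := by ring
      _ ≤ 1 * c * η := by gcongr
      _ ≤ 8 * M * c * η := by gcongr; linarith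
      _ = r₁ := hη8
  obtain ⟨γ, hγ⟩ : ∃ γ : ℕ → ℝ, γ = fun k => 2 * M * (M * ϱ ^ 2 / ρ k) / L k := ⟨_, rfl⟩
  obtain ⟨β, hβ⟩ : ∃ β : ℕ → ℝ, β = fun k =>
    M ^ 3 * (2 * ϱ / ρ k + 3 * c * L k * ϱ ^ 2 / ρ k ^ 2) / L k + 3 * c * M ^ 2 * ϱ ^ 2 / ρ k :=
    ⟨_, rfl⟩
  have hγ1 : ∀ k, γ k ≤ 2 * M ^ 3 / (κ₁ * c) * ϱ * (L k)⁻¹ := fun k => by
    rw [hγ, hρ]
    simp only
    have h1 := hLinv k
    have h3 := hB.Lpos k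
    calc 2 * M * (M * ϱ ^ 2 / (κ₁ * c * L k * ϱ)) / L k =
        2 * M ^ 2 / (κ₁ * c) * ϱ * (L k)⁻¹ * (L k)⁻¹ := by
          field_simp
      _ ≤ 2 * M ^ 2 / (κ₁ * c) * ϱ * M * (L k)⁻¹ := by gcongr
      _ = 2 * M ^ 3 / (κ₁ * c) * ϱ * (L k)⁻¹ := by ring
  have hβ1 : ∀ k, β k ≤ (M ^ 4 * (2 / κ₁ + 3 / κ₁ ^ 2) / c + 3 * M ^ 2 / κ₁ * ϱ) * (L k)⁻¹ :=
    fun k => by
    rw [hβ, hρ]
    simp only
    have h1 := hLinv k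
    have h3 := hB.Lpos k
    have e1 : M ^ 3 * (2 * ϱ / (κ₁ * c * L k * ϱ) + 3 * c * L k * ϱ ^ 2 /
        (κ₁ * c * L k * ϱ) ^ 2) / L k = M ^ 3 * (2 / κ₁ + 3 / κ₁ ^ 2) / c * (L k)⁻¹ * (L k)⁻¹ := by
      field_simp
    have e2 : 3 * c * M ^ 2 * ϱ ^ 2 / (κ₁ * c * L k * ϱ) = 3 * M ^ 2 / κ₁ * ϱ * (L k)⁻¹ := by
      field_simp
    rw [e1, e2]
    have h2 : M ^ 3 * (2 / κ₁ + 3 / κ₁ ^ 2) / c * (L k)⁻¹ * (L k)⁻¹ ≤
        M ^ 3 * (2 / κ₁ + 3 / κ₁ ^ 2) / c * M * (L k)⁻¹ := by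
      have : 0 ≤ (L k)⁻¹ := (inv_pos.2 h3).le
      gcongr
    calc _ ≤ M ^ 3 * (2 / κ₁ + 3 / κ₁ ^ 2) / c * M * (L k)⁻¹ + 3 * M ^ 2 / κ₁ * ϱ * (L k)⁻¹ := by
          linarith
      _ = _ := by ring
  have hγs : ∀ k, ∑ i ∈ Finset.range k, γ i ≤ c * κ₂ / 4 * ϱ := fun k => by
    calc ∑ i ∈ Finset.range k, γ i ≤ ∑ i ∈ Finset.range k, 2 * M ^ 3 / (κ₁ * c) * ϱ * (L i)⁻¹ :=
          Finset.sum_le_sum fun i _ => hγ1 i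
      _ = 2 * M ^ 3 / (κ₁ * c) * ϱ * ∑ i ∈ Finset.range k, (L i)⁻¹ := by rw [Finset.mul_sum]
      _ ≤ 2 * M ^ 3 / (κ₁ * c) * ϱ * S1 := by gcongr; exact hSk k
      _ = A * (κ₂ / (4 * c)) * ϱ := by rw [hA]; field_simp; ring
      _ ≤ c ^ 2 * (κ₂ / (4 * c)) * ϱ := by gcongr
      _ = c * κ₂ / 4 * ϱ := by field_simp
  have hN : Num L r₁ M κ c ϱ η ρ β γ n := by
    refine ⟨hϱ, hc, hη8, hn1, fun k _ => hρ0 k, fun k hk => (hρr k hk.le).trans hr1', ?_, ?_, ?_, ?_,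
      ?_, ?_⟩
    · intro k _
      rw [hρ]
      have h1 := hLinv k
      have h3 := hB.Lpos k
      have h4 : 1 / M ≤ L k := by
        rw [div_le_iff₀ hM0]
        have := hB.low k
        linarith
      calc ϱ ^ 2 = ϱ * ϱ := sq ϱ
        _ ≤ κ * κ₁ / M * ϱ := by gcongr
        _ = κ * (κ₁ * 1 * (1 / M) * ϱ) := by ring
        _ ≤ κ * (κ₁ * c * L k * ϱ) := by gcongr
    · intro k _
      rw [hρ]
      have h1 := hLinv k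
      have h3 := hB.Lpos k
      refine le_trans ?_ g4
      have hci : c⁻¹ ≤ 1 := inv_le_one_of_one_le₀ hc1
      have h5 : 0 ≤ c⁻¹ := (inv_pos.2 hc).le
      have h6 : 0 ≤ (L k)⁻¹ := (inv_pos.2 h3).le
      calc M * ϱ ^ 2 / (κ₁ * c * L k * ϱ) = M / κ₁ * ϱ * c⁻¹ * (L k)⁻¹ := by field_simp
        _ ≤ M / κ₁ * ϱ * 1 * M := by gcongr
        _ = M ^ 2 / κ₁ * ϱ := by ring
    · intro k _; rw [hγ]
    · intro k _; rw [hβ]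
    · intro k _
      refine (hγs k).trans ?_
      have : c * κ₂ ≤ c * 1 := by gcongr
      have h2 : c * κ₂ / 4 ≤ c / 4 := by linarith
      gcongr
    · intro k _
      calc ∑ i ∈ Finset.range k, β i ≤ ∑ i ∈ Finset.range k,
            (M ^ 4 * (2 / κ₁ + 3 / κ₁ ^ 2) / c + 3 * M ^ 2 / κ₁ * ϱ) * (L i)⁻¹ :=
            Finset.sum_le_sum fun i _ => hβ1 i
        _ = (M ^ 4 * (2 / κ₁ + 3 / κ₁ ^ 2) / c + 3 * M ^ 2 / κ₁ * ϱ) *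
            ∑ i ∈ Finset.range k, (L i)⁻¹ := by rw [Finset.mul_sum]
        _ ≤ (M ^ 4 * (2 / κ₁ + 3 / κ₁ ^ 2) / c + 3 * M ^ 2 / κ₁ * ϱ) * S1 := by
            have h1 := hSk k
            gcongr
        _ = B / (8 * c) + 3 * M ^ 2 * S1 / κ₁ * ϱ := by rw [hBd]; field_simp
        _ ≤ c ^ 2 / (8 * c) + c / 8 := by gcongr
        _ = c / 4 := by field_simp; norm_num
  have hv' : ∀ ξ ∈ ball (0 : ℂ) ϱ, ∀ ξ' ∈ ball (0 : ℂ) ϱ, ∃ c₀ : ℂ, ‖c₀‖ = c ∧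
      ‖v ξ - v ξ' - c₀ * (ξ - ξ')‖ ≤ c / 4 * ‖ξ - ξ'‖ := by
    intro ξ hξ ξ' hξ'
    exact ⟨c₀, hcdef.symm, hlip ξ (ball_subset_ball g1 hξ) ξ' (ball_subset_ball g1 hξ')⟩
  -- the excluded set
  obtain ⟨X2, hX2⟩ : ∃ X2 : ℂ × ℝ → Set ℂ, X2 = fun p =>
    {ξ : ℂ | ξ ∈ ball (0 : ℂ) ϱ ∧ Al F v Hl ρ n ξ ∧ ‖ZZ F v n ξ - p.1‖ < p.2} := ⟨_, rfl⟩
  refine ⟨ball 0 (κ₂ * ϱ) ∪ ⋃ p ∈ t, X2 p, Or.inl (mem_ball_self (by positivity)), ?_, ?_⟩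
  · refine (measure_union_le _ _).trans ?_
    have h1 : volume (ball (0 : ℂ) (κ₂ * ϱ)) ≤ ENNReal.ofReal (16 * ε * ϱ ^ 2) := by
      refine (vol_diam _ (2 * (κ₂ * ϱ)) (by positivity) fun a ha b hb => ?_).trans ?_
      · rw [mem_ball_zero_iff] at ha hb
        have := norm_sub_le a b
        linarith
      · apply ENNReal.ofReal_le_ofReal
        calc 4 * (2 * (κ₂ * ϱ)) ^ 2 = 16 * κ₂ ^ 2 * ϱ ^ 2 := by ring
          _ ≤ 16 * ε * ϱ ^ 2 := by gcongr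
    have h2 : volume (⋃ p ∈ t, X2 p) ≤ ENNReal.ofReal (16384 * M ^ 4 / r₁ ^ 2 * ε * ϱ ^ 2) := by
      refine (measure_biUnion_finset_le _ _).trans ?_
      have h2 : ∀ p ∈ t, volume (X2 p) ≤
          ENNReal.ofReal (16384 * M ^ 4 / r₁ ^ 2 * ϱ ^ 2 * p.2 ^ 2) := by
        intro p hp
        rw [hX2]
        refine (excl hB hP hv0 hv' hN n le_rfl p.1 p.2 (ht0 p hp)).trans ?_
        apply ENNReal.ofReal_le_ofReal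
        have h3 := hB.Lpos n
        have h4 : (L n)⁻¹ ≤ M * ϱ / η := by
          rw [inv_le_iff_one_le_mul₀ h3, div_mul_eq_mul_div, le_div_iff₀ hη]
          linarith
        have h5 := ht0 p hp
        calc 4 * (8 * p.2 / (c * L n)) ^ 2 = 4 * (8 * p.2 / c * (L n)⁻¹) ^ 2 := by
              field_simp
          _ ≤ 4 * (8 * p.2 / c * (M * ϱ / η)) ^ 2 := by gcongr
          _ = 16384 * M ^ 4 / r₁ ^ 2 * ϱ ^ 2 * p.2 ^ 2 := by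
              rw [hηdef]
              field_simp
              norm_num
      refine (Finset.sum_le_sum h2).trans ?_
      rw [← ENNReal.ofReal_sum_of_nonneg (fun q _ => by positivity)]
      apply ENNReal.ofReal_le_ofReal
      rw [← Finset.mul_sum]
      calc 16384 * M ^ 4 / r₁ ^ 2 * ϱ ^ 2 * ∑ p ∈ t, p.2 ^ 2 ≤
          16384 * M ^ 4 / r₁ ^ 2 * ϱ ^ 2 * ε := by gcongr
        _ = 16384 * M ^ 4 / r₁ ^ 2 * ε * ϱ ^ 2 := by ring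
    refine (add_le_add h1 h2).trans ?_
    rw [← ENNReal.ofReal_add (by positivity) (by positivity)]
    apply ENNReal.ofReal_le_ofReal
    apply le_of_eq
    ring
  · rintro ξ ⟨hξ, hξX⟩
    rw [mem_union, not_or] at hξX
    have hξκ : κ₂ * ϱ ≤ ‖ξ‖ := by
      have := hξX.1
      rw [mem_ball_zero_iff] at this
      exact not_lt.1 this
    have hvξ : 3 / 4 * c * (κ₂ * ϱ) ≤ ‖v ξ - w 0‖ := by
      have h1 := hlip ξ (ball_subset_ball g1 hξ) 0 (mem_ball_self hϱ₁)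
      rw [sub_zero, hv0] at h1
      have h2 : ‖c₀ * ξ‖ ≤ ‖v ξ - w 0‖ + ‖v ξ - w 0 - c₀ * ξ‖ := by
        have e : c₀ * ξ = (v ξ - w 0) - (v ξ - w 0 - c₀ * ξ) := by ring
        conv_lhs => rw [e]
        exact norm_sub_le _ _
      rw [norm_mul, ← hcdef] at h2
      have h3 : 3 / 4 * c * (κ₂ * ϱ) ≤ 3 / 4 * c * ‖ξ‖ := by gcongr
      linarith
    -- allowed up to time n
    have hal : ∀ k ≤ n, Al F v Hl ρ k ξ := by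
      intro k
      induction k with
      | zero => intro _ i hi; exact absurd hi (by omega)
      | succ k ih =>
        intro hk i hi h hh
        have ih' := ih (by omega)
        by_cases hik : i < k
        · exact ih' i hik h hh
        obtain rfl : i = k := by omega
        obtain ⟨s1, s2, -⟩ := single hB hP hv0 hv' hN ξ hξ i (by omega) ih'
        by_cases hwh : w i = h
        · subst hwh
          have h1 := hB.up i _ s1 _ (mem_closedBall_self hr1.le)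
          rw [hB.Gw] at h1
          have h2 := hγs i
          have h3 : c * κ₂ / 2 * ϱ ≤ ‖G i (ZZ F v i ξ) - w 0‖ := by
            have h4 : ‖v ξ - w 0‖ ≤ ‖G i (ZZ F v i ξ) - w 0‖ + ‖G i (ZZ F v i ξ) - v ξ‖ := by
              have e : v ξ - w 0 = (G i (ZZ F v i ξ) - w 0) - (G i (ZZ F v i ξ) - v ξ) := by ring
              rw [e]
              exact norm_sub_le _ _
            linarith
          have h5 := hB.Lpos i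
          have h6 : L i * (c * κ₂ / 2 * ϱ) ≤ L i * ‖G i (ZZ F v i ξ) - w 0‖ := by gcongr
          rw [hρ, hκ₁]
          simp only
          linarith
        · have h1 := hw i h hh hwh
          rw [mem_closedBall, dist_eq_norm] at s1
          have h2 : ‖w i - h‖ ≤ ‖ZZ F v i ξ - h‖ + ‖ZZ F v i ξ - w i‖ := by
            have e : w i - h = (ZZ F v i ξ - h) - (ZZ F v i ξ - w i) := by ring
            rw [e]
            exact norm_sub_le _ _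
          have h3 := hρr i (by omega)
          linarith
    refine ⟨n, fun k hk => ⟨(single hB hP hv0 hv' hN ξ hξ k hk.le (hal k hk.le)).1, ρ k, hρ0 k,
      hN.ρ1 k hk, ?_, fun h hh => hal n le_rfl k hk h hh⟩,
      (single hB hP hv0 hv' hN ξ hξ n le_rfl (hal n le_rfl)).1, ?_⟩
    · refine le_trans ?_ (hN.κρ k hk)
      rw [norm_pow]
      exact pow_le_pow_left₀ (norm_nonneg _) (mem_ball_zero_iff.1 hξ).le 2
    · intro p hp hmem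
      apply hξX.2
      rw [mem_iUnion₂]
      refine ⟨p, hp, ?_⟩
      rw [hX2]
      rw [mem_ball, dist_eq_norm] at hmem
      exact ⟨hξ, hal n le_rfl, hmem⟩

end Run7.h725
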