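import Pool.Agent.Run7.h725.C7Line
import Pool.Agent.Run7.h725.D2Pass
import Pool.Agent.Run7.h725.D4Scal
import Pool.Agent.Run7.h725.D5Shadow

/-! The curves of critical values at a repelling periodic hole. -/

set_option autoImplicit false

open Topology Filter Metric Set Polynomial MeasureTheory Asymptotics
open scoped OnePoint

namespace Run7.h725

open Run7.h904.RF
open Pool.Agent.H790R3.RB (CV hF cr ND wr rt sp pr hc pol Sink Attd HypTop hF_smul hF_contDiff)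
open Pool.Agent.H790R3.RB.PQ (hF_one hF_inf pol_natDegree)
open Pool.Agent.W757.QR Pool.Agent.W757.RF Pool.Agent.W757.Q2
open Pool.Agent.W29.RQSNK (sp_iter fin_of sp_fx sp_inf fx_iter_diff)
open Pool.Agent.R239.Fat (Hp Hp_eval Hp_ne Hp_root Hp_deriv deg pol_deg deg_hole mkv pol_mkv)

variable {d m : ℕ} {y : CV d} {q : Fin m → ℂ}

/-- repelling periodic points -/
lemma HC.mult {x : CV d} (h : HC x) {a : ℂ} (ha : a ∈ NA x) {p : ℕ} (hper : (fx x)^[p + 1] a = a) :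
    1 < ‖deriv ((fx x)^[p + 1]) a‖ := by
  obtain ⟨C, ϑ, hC, hϑ0, hϑ1, hexp, -⟩ := h.expand
  obtain ⟨P, q₂, hY, -⟩ := h.ys
  by_contra hcon
  push Not at hcon
  have h1 : HasDerivAt ((fx x)^[p + 1]) (deriv ((fx x)^[p + 1]) a) a :=
    (fx_iter_diff x a (p + 1) fun j _ => hY.fin ha j).hasDerivAt
  have h2 : ∀ n : ℕ, deriv ((fx x)^[(p + 1) * n]) a = (deriv ((fx x)^[p + 1]) a) ^ n := fun n => by
    rw [Function.iterate_mul]
    exact (HasDerivAt.iterate a h1 hper n).deriv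
  have h0 : 0 < ‖deriv ((fx x)^[p + 1]) a‖ := norm_pos_iff.2 (h.deriv_ne ha _)
  have h3 : ∀ n : ℕ, 1 ≤ C * ϑ ^ ((p + 1) * n) := fun n => by
    have h4 := hexp a ha ((p + 1) * n)
    rw [h2, norm_pow] at h4
    refine le_trans ?_ h4
    rw [one_le_inv_iff₀]
    exact ⟨pow_pos h0 _, pow_le_one₀ h0.le hcon⟩
  obtain ⟨n, hn⟩ := exists_pow_lt_of_lt_one (show (0 : ℝ) < 1 / C by positivity) hϑ1
  have h4 : ϑ ^ ((p + 1) * n) ≤ ϑ ^ n := by
    apply pow_le_pow_of_le_one hϑ0.le hϑ1.le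
    nlinarith
  have h5 := h3 n
  have h6 : C * ϑ ^ ((p + 1) * n) < 1 := by
    calc C * ϑ ^ ((p + 1) * n) ≤ C * ϑ ^ n := by gcongr
      _ < C * (1 / C) := by gcongr
      _ = 1 := by field_simp
  linarith

/-- the curve `v` is the image of the curve `v₀` under the `k`-th iterates -/
structure Crv {d m : ℕ} (y : CV d) (q : Fin m → ℂ) (V : CV (m + d)) (v₀ : ℂ → ℂ) (k : ℕ) (b σ : ℂ)
    (v : ℂ → ℂ) : Prop where
  an : AnalyticAt ℂ v 0
  v0 : v 0 = b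
  dv : deriv v 0 = σ
  im : ∀ᶠ ξ in 𝓝[≠] (0 : ℂ), (sp (deg y q + ξ ^ 2 • V))^[k] ((v₀ ξ : ℂ) : OnePoint ℂ) =
    ((v ξ : ℂ) : OnePoint ℂ)

lemma Crv.reg {V : CV (m + d)} {v₀ v : ℂ → ℂ} {k : ℕ} {b σ : ℂ} (h : Crv y q V v₀ k b σ v)
    (hb : (Hp q).eval b ≠ 0) (hQ : (pol y 1).eval b ≠ 0) :
    ∃ v', Crv y q V v₀ (k + 1) (fx y b) (deriv (fx y) b * σ) v' := by
  obtain ⟨v', h1, h2, h3, h4⟩ := pass_reg (H := Hp q) (P := pol y 0) (Q := pol y 1) (U := pol V 0)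
    (W := pol V 1) hb hQ h.an h.v0
  refine ⟨v', h1, h2, ?_, ?_⟩
  · rw [h3, h.dv]
    have h5 : deriv (fx y) b = d1 (nu y) (de y) b := (strictR y b hQ).hasDerivAt.deriv
    rw [h5]
    rfl
  · filter_upwards [h.im, h4] with ξ g1 g2
    rw [Function.iterate_succ_apply', g1]
    have hde : (de (deg y q + ξ ^ 2 • V)).eval (v ξ) ≠ 0 := by
      rw [(lin_eq y q V _).2]; exact g2.1
    rw [sp_fx _ _ hde]
    congr 1
    unfold fx fr
    rw [(lin_eq y q V _).1, (lin_eq y q V _).2]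
    exact g2.2

lemma Crv.hole {V : CV (m + d)} {v₀ v : ℂ → ℂ} {k : ℕ} {a σ : ℂ} (h : Crv y q V v₀ k a σ v)
    {H₁ : ℂ[X]} (hH₁ : Hp q = (X - C a) * H₁) (hH₁0 : H₁.eval a ≠ 0)
    (hQ : (pol y 1).eval a ≠ 0) (hσ : σ ≠ 0) :
    ∃ v', Crv y q V v₀ (k + 1) (fx y a) (deriv (fx y) a * σ +
      ((pol V 0).eval a * (pol y 1).eval a - (pol y 0).eval a * (pol V 1).eval a) /
        (H₁.eval a * (pol y 1).eval a ^ 2) / σ) v' := by
  obtain ⟨v', h1, h2, h3, h4⟩ := pass_hole (H₁ := H₁) (P := pol y 0) (Q := pol y 1) (U := pol V 0)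
    (W := pol V 1) hH₁0 hQ h.an h.v0 (by rw [h.dv]; exact hσ)
  refine ⟨v', h1, h2, ?_, ?_⟩
  · rw [h3, h.dv]
    have h5 : deriv (fx y) a = d1 (nu y) (de y) a := (strictR y a hQ).hasDerivAt.deriv
    rw [h5]
    rfl
  · filter_upwards [h.im, h4] with ξ g1 g2
    rw [Function.iterate_succ_apply', g1]
    have hde : (de (deg y q + ξ ^ 2 • V)).eval (v ξ) ≠ 0 := by
      rw [(lin_eq y q V _).2, hH₁]; exact g2.1
    rw [sp_fx _ _ hde]
    congr 1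
    unfold fx fr
    rw [(lin_eq y q V _).1, (lin_eq y q V _).2, hH₁]
    exact g2.2

lemma Crv.regs (h : HG y q) {V : CV (m + d)} {v₀ v : ℂ → ℂ} {k : ℕ} {b σ : ℂ}
    (hv : Crv y q V v₀ k b σ v) (hb : b ∈ NA y) :
    ∀ n : ℕ, (∀ i < n, (Hp q).eval ((fx y)^[i] b) ≠ 0) →
      ∃ v', Crv y q V v₀ (k + n) ((fx y)^[n] b) (deriv ((fx y)^[n]) b * σ) v' := by
  obtain ⟨P, q₂, hY, -⟩ := h.hc.ys
  intro n
  induction n with
  | zero =>
    intro _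
    refine ⟨v, ?_⟩
    rw [add_zero, Function.iterate_zero, deriv_id, one_mul]
    exact hv
  | succ n ih =>
    intro hn
    obtain ⟨v', hv'⟩ := ih fun i hi => hn i (by omega)
    obtain ⟨v'', hv''⟩ := hv'.reg (hn n (by omega)) (hY.fin hb n)
    refine ⟨v'', ?_⟩
    have h1 := h.hc.chain hb 1 n
    rw [Function.iterate_one, add_comm 1 n] at h1
    rw [h1, Function.iterate_succ_apply', mul_assoc]
    exact hv''

/-- curves with large derivatives -/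
theorem HG.curves (h : HG y q) {V : CV (m + d)} (j : Fin m) (hj : q j ∈ NA y) {p : ℕ}
    (hper : (fx y)^[p + 1] (q j) = q j)
    (hmin : ∀ i < p, (Hp q).eval ((fx y)^[i] (fx y (q j))) ≠ 0)
    {H₁ : ℂ[X]} (hH₁ : Hp q = (X - C (q j)) * H₁) (hH₁0 : H₁.eval (q j) ≠ 0)
    {v₀ : ℂ → ℂ} {c₀ cc : ℂ} (hc₀ : c₀ ≠ 0)
    (hcc : cc = ((pol V 0).eval (q j) * (pol y 1).eval (q j) - (pol y 0).eval (q j) *
      (pol V 1).eval (q j)) / (H₁.eval (q j) * (pol y 1).eval (q j) ^ 2))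
    (hc2 : c₀ ^ 2 = 4 * deriv (fx y) (q j) * cc) (hva : AnalyticAt ℂ v₀ 0) (hvd : deriv v₀ 0 = c₀)
    (hv0 : v₀ 0 = fx y (q j)) (B : ℝ) :
    ∃ (k : ℕ) (σ : ℂ) (v : ℂ → ℂ), B ≤ ‖σ‖ ∧ Crv y q V v₀ k (fx y (q j)) σ v := by
  obtain ⟨P, q₂, hY, -⟩ := h.hc.ys
  have hb : fx y (q j) ∈ NA y := by
    have := (hY.orb hj 1).2
    rwa [Function.iterate_one] at this
  obtain ⟨M, hM⟩ : ∃ M, M = deriv ((fx y)^[p]) (fx y (q j)) := ⟨_, rfl⟩
  obtain ⟨α, hα⟩ : ∃ α, α = deriv (fx y) (q j) := ⟨_, rfl⟩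
  obtain ⟨μ, hμ⟩ : ∃ μ, μ = α * M := ⟨_, rfl⟩
  have hM0 : M ≠ 0 := by rw [hM]; exact h.hc.deriv_ne hb p
  have hα0 : α ≠ 0 := by
    have := h.hc.deriv_ne hj 1
    rw [Function.iterate_one] at this
    rw [hα]; exact this
  have hμ1 : 1 < ‖μ‖ := by
    have h1 := h.hc.mult hj hper
    have h2 := h.hc.chain hj p 1
    rw [Function.iterate_one, ← hM, ← hα, mul_comm, ← hμ] at h2
    rwa [h2] at h1
  have hp : (fx y)^[p] (fx y (q j)) = q j := by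
    rw [← Function.iterate_succ_apply]
    exact hper
  obtain ⟨t, ht0, hts⟩ : ∃ t : ℕ → ℂ, t 0 = 1 ∧ ∀ i, t (i + 1) = μ * (t i + 1 / t i) :=
    ⟨fun n => Nat.rec 1 (fun _ z => μ * (z + 1 / z)) n, rfl, fun i => rfl⟩
  obtain ⟨htn, htt⟩ := scal hμ1 t ht0 hts
  rw [← hα] at hc2
  obtain ⟨w, hw⟩ : ∃ w, w = c₀ / (2 * α) := ⟨_, rfl⟩
  have hw0 : w ≠ 0 := by
    rw [hw]
    exact div_ne_zero hc₀ (mul_ne_zero two_ne_zero hα0)
  have hw2 : cc = α * w ^ 2 := by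
    rw [hw]
    field_simp
    linear_combination (-1 : ℂ) * hc2
  have key : ∀ n : ℕ, ∃ (k : ℕ) (v : ℂ → ℂ), Crv y q V v₀ k (fx y (q j)) (w * t (n + 1) / M) v := by
    intro n
    induction n with
    | zero =>
      refine ⟨0, v₀, hva, hv0, ?_, ?_⟩
      · rw [hvd, zero_add, hts, ht0, hμ, hw]
        field_simp
        norm_num
      · exact Eventually.of_forall fun ξ => rfl
    | succ n ih =>
      obtain ⟨k, v, hv⟩ := ih
      obtain ⟨v', hv'⟩ := hv.regs h hb p hmin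
      rw [hp, ← hM] at hv'
      have e1 : M * (w * t (n + 1) / M) = w * t (n + 1) := by field_simp
      rw [e1] at hv'
      obtain ⟨v'', hv''⟩ := hv'.hole hH₁ hH₁0 (hY.fin hj 0) (mul_ne_zero hw0 (htn _))
      rw [← hcc, ← hα] at hv''
      refine ⟨k + p + 1, v'', ?_⟩
      have e2 : α * (w * t (n + 1)) + cc / (w * t (n + 1)) = w * t (n + 1 + 1) / M := by
        rw [hts (n + 1), hμ, hw2]
        have := htn (n + 1)
        field_simp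
      rw [e2] at hv''
      exact hv''
  have h1 : Tendsto (fun n : ℕ => ‖w‖ / ‖M‖ * ‖t (n + 1)‖) atTop atTop := by
    refine Tendsto.const_mul_atTop (div_pos (norm_pos_iff.2 hw0) (norm_pos_iff.2 hM0)) ?_
    exact htt.comp (tendsto_add_atTop_nat 1)
  obtain ⟨n, hn⟩ := (h1.eventually_ge_atTop B).exists
  obtain ⟨k, v, hv⟩ := key n
  refine ⟨k, _, v, ?_, hv⟩
  rw [norm_div, norm_mul]
  calc B ≤ ‖w‖ / ‖M‖ * ‖t (n + 1)‖ := hn
    _ = ‖w‖ * ‖t (n + 1)‖ / ‖M‖ := by ring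

end Run7.h725
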