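import Pool.Agent.Run7.h725.D3Curve

/-! The estimate for the critical values at a repelling periodic hole. -/

set_option autoImplicit false

open Topology Filter Metric Set Polynomial MeasureTheory Asymptotics
open scoped OnePoint

namespace Run7.h725

open Run7.h904.RF
open Pool.Agent.H790R3.RB (CV hF cr ND wr rt sp pr hc pol Sink Attd HypTop hF_smul hF_contDiff)
open Pool.Agent.H790R3.RB.PQ (hF_one hF_inf pol_natDegree)
open Pool.Agent.W757.QR Pool.Agent.W757.RF Pool.Agent.W757.Q2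
open Pool.Agent.W29.RQSNK (sp_iter fin_of sp_fx sp_inf fx_iter_diff)
open Pool.Agent.R239.Fat (Hp Hp_eval Hp_ne Hp_root Hp_deriv deg pol_deg deg_hole mkv pol_mkv)

variable {d m : ℕ} {y : CV d} {q : Fin m → ℂ}

/-- the critical value at a repelling periodic hole is attracted for most parameters -/
theorem HG.hole_estP (h : HG y q) {V : CV (m + d)} (j : Fin m) (hj : q j ∈ NA y) {p : ℕ}
    (hper : (fx y)^[p + 1] (q j) = q j)
    (hmin : ∀ i < p, (Hp q).eval ((fx y)^[i] (fx y (q j))) ≠ 0)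
    {H₁ : ℂ[X]} (hH₁ : Hp q = (X - C (q j)) * H₁) (hH₁0 : H₁.eval (q j) ≠ 0)
    {v₀ : ℂ → ℂ} {c₀ cc : ℂ} (hc₀ : c₀ ≠ 0)
    (hcc : cc = ((pol V 0).eval (q j) * (pol y 1).eval (q j) - (pol y 0).eval (q j) *
      (pol V 1).eval (q j)) / (H₁.eval (q j) * (pol y 1).eval (q j) ^ 2))
    (hc2 : c₀ ^ 2 = 4 * deriv (fx y) (q j) * cc) (hva : AnalyticAt ℂ v₀ 0) (hvd : deriv v₀ 0 = c₀)
    (hv0 : v₀ 0 = fx y (q j)) :
    ∃ C : ℝ, 0 < C ∧ ∀ ε : ℝ, 0 < ε → ∃ ϱ₀ : ℝ, 0 < ϱ₀ ∧ ∀ ϱ : ℝ, 0 < ϱ → ϱ ≤ ϱ₀ →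
      ∃ X : Set ℂ, volume X ≤ ENNReal.ofReal (C * ε * ϱ ^ 2) ∧
        ∀ ξ ∈ ball (0 : ℂ) ϱ \ X, ND (deg y q + ξ ^ 2 • V) →
          Attd (sp (deg y q + ξ ^ 2 • V)) ((v₀ ξ : ℂ) : OnePoint ℂ) := by
  classical
  have hd := h.hc.hd
  have hD : 2 ≤ m + d := by omega
  obtain ⟨P', q₂, hY, -⟩ := h.hc.ys
  have hb : fx y (q j) ∈ NA y := by
    have := (hY.orb hj 1).2
    rwa [Function.iterate_one] at this
  obtain ⟨r₁, M₁, hr₁, hbr⟩ := h.hc.brs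
  obtain ⟨G, hB⟩ := hbr (fx y (q j)) hb
  obtain ⟨Hl, hHl⟩ : ∃ Hl : Finset ℂ, Hl = Finset.univ.image q := ⟨_, rfl⟩
  have hHl1 : ∀ i, q i ∈ Hl := fun i => by
    rw [hHl]; exact Finset.mem_image_of_mem _ (Finset.mem_univ i)
  obtain ⟨r₂, M₂, κ, hr₂, hκ, hden, hprt⟩ := h.hc.prt' h.low V Hl hHl1
  obtain ⟨w, hwd⟩ : ∃ w : ℕ → ℂ, w = fun k => (fx y)^[k] (fx y (q j)) := ⟨_, rfl⟩
  have hw0 : w 0 = fx y (q j) := by rw [hwd]; rfl
  have hwN : ∀ k, w k ∈ NA y := fun k => by rw [hwd]; exact (hY.orb hb k).2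
  have hP := hprt w hwN
  -- the orbit is finite
  have hfix : (fx y)^[p + 1] (fx y (q j)) = fx y (q j) := by
    rw [← Function.iterate_succ_apply, Function.iterate_succ_apply', hper]
  have hwp : ∀ k, w k = w (k % (p + 1)) := by
    intro k
    rw [hwd]
    simp only
    conv_lhs => rw [← Nat.mod_add_div k (p + 1), Function.iterate_add_apply, Function.iterate_mul,
      Function.iterate_fixed hfix]
  obtain ⟨r₃, hr₃, hr₃'⟩ : ∃ r₃ : ℝ, 0 < r₃ ∧ ∀ k, ∀ u ∈ Hl, w k ≠ u → 2 * r₃ ≤ ‖w k - u‖ := by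
    have h1 : ∀ᶠ s in 𝓝[>] (0 : ℝ), ∀ z ∈ Finset.range (p + 1) ×ˢ Hl, w z.1 ≠ z.2 →
        2 * s ≤ ‖w z.1 - z.2‖ := by
      rw [Finset.eventually_all]
      intro z _
      by_cases hz : w z.1 = z.2
      · exact Eventually.of_forall fun s h0 => absurd hz h0
      · have h2 : 0 < ‖w z.1 - z.2‖ := norm_pos_iff.2 (sub_ne_zero.2 hz)
        have h3 : Tendsto (fun m : ℝ => 2 * m) (𝓝[>] 0) (𝓝 0) := by
          have : Tendsto (fun m : ℝ => 2 * m) (𝓝 0) (𝓝 (2 * 0)) :=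
            (continuous_const.mul continuous_id).tendsto 0
          rw [mul_zero] at this
          exact this.mono_left nhdsWithin_le_nhds
        filter_upwards [h3.eventually (ge_mem_nhds h2)] with s hs _
        exact hs
    obtain ⟨s, h2, h3⟩ := (h1.and self_mem_nhdsWithin).exists
    refine ⟨s, h3, fun k u hu hne => ?_⟩
    rw [hwp k] at hne ⊢
    exact h2 (k % (p + 1), u) (Finset.mem_product.2
      ⟨Finset.mem_range.2 (Nat.mod_lt _ (Nat.succ_pos p)), hu⟩) hne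
  obtain ⟨r, hr⟩ : ∃ r, r = min (min r₁ r₂) (min r₃ 1) := ⟨_, rfl⟩
  have hr0 : 0 < r := by rw [hr]; positivity
  have hrr₁ : r ≤ r₁ := by rw [hr]; exact (min_le_left _ _).trans (min_le_left _ _)
  have hrr₂ : r ≤ r₂ := by rw [hr]; exact (min_le_left _ _).trans (min_le_right _ _)
  have hrr₃ : r ≤ r₃ := by rw [hr]; exact (min_le_right _ _).trans (min_le_left _ _)
  have hrr1 : r ≤ 1 := by rw [hr]; exact (min_le_right _ _).trans (min_le_right _ _)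
  have hB' : Brs w (fx y) G (fun k => ‖deriv ((fx y)^[k]) (fx y (q j))‖) r (max M₁ M₂) := by
    rw [hwd]
    exact hB.mono (le_max_left _ _) hr0 hrr₁
  have hP' := hP.mono (le_max_right M₁ M₂) hrr₂
  obtain ⟨C, hC, hS⟩ := shadowP hB' hP' hrr1 (fun k u hu hne => by
    have := hr₃' k u hu hne
    linarith)
  refine ⟨C, hC, fun ε hε => ?_⟩
  obtain ⟨c₁, hc₁, hS⟩ := hS ε hε
  obtain ⟨k₀, σ, v, hσ, hv⟩ := h.curves j hj hper hmin hH₁ hH₁0 hc₀ hcc hc2 hva hvd hv0 c₁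
  have hvs : HasStrictDerivAt v σ 0 := by
    have h1 := hv.an.hasStrictDerivAt
    rwa [hv.dv] at h1
  -- the compact set of good points
  obtain ⟨R₀, hR₀⟩ := h.hc.compact.isBounded.exists_norm_le
  have hR : ∀ k, closedBall (w k) r ⊆ closedBall 0 (R₀ + r) := by
    intro k z hz
    rw [mem_closedBall, dist_eq_norm] at hz
    rw [mem_closedBall_zero_iff]
    have h1 := hR₀ (w k) (hwN k)
    have h2 := norm_add_le (z - w k) (w k)
    rw [sub_add_cancel] at h2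
    linarith
  have hJc : IsCompact (closedBall (0 : ℂ) (R₀ + r) ∩ (Gp y q)ᶜ) :=
    (isCompact_closedBall _ _).inter_right gp_open.isClosed_compl
  have hJ0 : volume (closedBall (0 : ℂ) (R₀ + r) ∩ (Gp y q)ᶜ) = 0 :=
    measure_mono_null inter_subset_right h.gp_null
  obtain ⟨t, ht0, ht1, ht2⟩ := cover_null _ hJc hJ0 ε hε
  have hKc : IsCompact (closedBall (0 : ℂ) (R₀ + r) \ ⋃ p ∈ t, ball p.1 p.2) :=
    (isCompact_closedBall _ _).diff (isOpen_biUnion fun _ _ => isOpen_ball)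
  have hKG : closedBall (0 : ℂ) (R₀ + r) \ ⋃ p ∈ t, ball p.1 p.2 ⊆ Gp y q := by
    rintro z ⟨hz1, hz2⟩
    by_contra hz3
    exact hz2 (ht1 ⟨hz1, hz3⟩)
  obtain ⟨ϱ₂, hϱ₂, h2⟩ := line_ev (deg y q) V (gp_compact hKc hKG)
  obtain ⟨ϱ₃, hϱ₃, h3⟩ := hS v σ hσ (by rw [hv.v0, hw0]) hvs t ht0 ht2
  obtain ⟨ϱ₄, hϱ₄, h4⟩ : ∃ ϱ₄ : ℝ, 0 < ϱ₄ ∧ ∀ ξ ∈ ball (0 : ℂ) ϱ₄, ξ ≠ 0 →
      (sp (deg y q + ξ ^ 2 • V))^[k₀] ((v₀ ξ : ℂ) : OnePoint ℂ) = ((v ξ : ℂ) : OnePoint ℂ) := by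
    have h5 := hv.im
    rw [eventually_nhdsWithin_iff] at h5
    obtain ⟨s, hs, h6⟩ := Metric.eventually_nhds_iff_ball.1 h5
    exact ⟨s, hs, fun ξ h7 h8 => h6 ξ h7 h8⟩
  refine ⟨min ϱ₂ (min ϱ₃ ϱ₄), by positivity, fun ϱ hϱ hϱ' => ?_⟩
  have l2 : ϱ ≤ ϱ₂ := hϱ'.trans (min_le_left _ _)
  have l3 : ϱ ≤ ϱ₃ := (hϱ'.trans (min_le_right _ _)).trans (min_le_left _ _)
  have l4 : ϱ ≤ ϱ₄ := (hϱ'.trans (min_le_right _ _)).trans (min_le_right _ _)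
  obtain ⟨X, hX0, hX, hX'⟩ := h3 ϱ hϱ l3
  refine ⟨X, hX, fun ξ hξ hnd => ?_⟩
  have hξ0 : ξ ≠ 0 := by
    rintro rfl
    exact hξ.2 hX0
  obtain ⟨n, hn1, hn2, hn3⟩ := hX' ξ hξ
  have hzn : ZZ (fun l z => fx (deg y q + l • V) z) v n ξ ∈
      closedBall (0 : ℂ) (R₀ + r) \ ⋃ p ∈ t, ball p.1 p.2 := by
    refine ⟨hR n hn2, fun hmem => ?_⟩
    obtain ⟨p, hp, hp'⟩ := mem_iUnion₂.1 hmem
    exact hn3 p hp hp'
  have hatt := h2 ξ (ball_subset_ball l2 hξ.1) hnd _ hzn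
  have hit : ∀ k ≤ n, (sp (deg y q + ξ ^ 2 • V))^[k] ((v ξ : ℂ) : OnePoint ℂ) =
      ((ZZ (fun l z => fx (deg y q + l • V) z) v k ξ : ℂ) : OnePoint ℂ) := by
    intro k
    induction k with
    | zero => intro _; rfl
    | succ k ih =>
      intro hk
      rw [Function.iterate_succ_apply', ih (by omega), ZZ_succ]
      obtain ⟨g1, ρ, g2, g3, g4, g5⟩ := hn1 k (by omega)
      exact sp_fx _ _ (hden (w k) (hwN k) _ (closedBall_subset_closedBall hrr₂ g1) ρ g2 g3 g5 _ g4)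
  apply Pool.Agent.W376.RQTRAP.attd_of_iter (sp_cont hD _ hnd) (m := k₀)
  rw [h4 ξ (ball_subset_ball l4 hξ.1) hξ0]
  apply Pool.Agent.W376.RQTRAP.attd_of_iter (sp_cont hD _ hnd) (m := n)
  rw [hit n le_rfl]
  exact hatt

end Run7.h725
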